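import Pool.Agent.Lib.MP_ae9e3a_al.Defs

set_option autoImplicit false

/-!
# VPP module MkBas: elementary facts on the filtration `mk`

All by induction on `k`, with `AddSubgroup.closure_le`, `AddSubgroup.closure_induction`.
* `mk_le`: the generators `p • x`, `h • x - x` with `x ∈ mk k ≤ W` are in `W`.
* `mk_anti`: `k = 0` as in `mk_le`; `k + 1`: the generators of `mk (k+2)` come from
  `x ∈ mk (k+1) ≤ mk k`.
* `mk_stab`: `h • x = x + (h • x - x)`, and `h • x - x ∈ mk (k+1) ≤ mk k`.
* `mk_mono`: obvious; `mk_absorb`: if `mk p H W K ≤ W'` ... see below.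
-/

namespace Pool.Agent.Lib.MP_ae9e3a_al

variable {G : Type*} [Group G] {V : Type*} [AddCommGroup V] [DistribMulAction G V]

theorem mk_p (p : ℕ) (H : Subgroup G) (W : AddSubgroup V) (k : ℕ) :
    ∀ x ∈ mk p H W k, p • x ∈ mk p H W (k + 1) := by
  intro x hx
  rw [mk]
  exact AddSubgroup.subset_closure ⟨x, hx, Or.inl rfl⟩

theorem mk_h (p : ℕ) (H : Subgroup G) (W : AddSubgroup V) (k : ℕ) :
    ∀ h ∈ H, ∀ x ∈ mk p H W k, h • x - x ∈ mk p H W (k + 1) := by
  intro h hh x hx
  rw [mk]
  exact AddSubgroup.subset_closure ⟨x, hx, Or.inr ⟨h, hh, rfl⟩⟩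

theorem mk_le (p : ℕ) (H : Subgroup G) (W : AddSubgroup V) (hW : Stab H W) (k : ℕ) :
    mk p H W k ≤ W := by
  induction k with
  | zero => exact le_refl _
  | succ k ih =>
    rw [mk, AddSubgroup.closure_le]
    rintro y ⟨x, hx, rfl | ⟨h, hh, rfl⟩⟩
    · exact AddSubgroup.nsmul_mem _ (ih hx) p
    · exact AddSubgroup.sub_mem _ (hW h hh x (ih hx)) (ih hx)

theorem mk_anti (p : ℕ) (H : Subgroup G) (W : AddSubgroup V) (hW : Stab H W) (k : ℕ) :
    mk p H W (k + 1) ≤ mk p H W k := by
  induction k with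
  | zero => exact mk_le p H W hW 1
  | succ k ih =>
    conv_lhs => rw [mk]
    rw [AddSubgroup.closure_le]
    rintro y ⟨x, hx, rfl | ⟨h, hh, rfl⟩⟩
    · exact mk_p p H W k x (ih hx)
    · exact mk_h p H W k h hh x (ih hx)

theorem mk_antitone (p : ℕ) (H : Subgroup G) (W : AddSubgroup V) (hW : Stab H W) :
    Antitone (mk p H W) :=
  antitone_nat_of_succ_le (mk_anti p H W hW)

theorem mk_stab (p : ℕ) (H : Subgroup G) (W : AddSubgroup V) (hW : Stab H W) (k : ℕ) :
    Stab H (mk p H W k) := by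
  intro h hh x hx
  have h1 := mk_anti p H W hW k (mk_h p H W k h hh x hx)
  have h2 := AddSubgroup.add_mem _ h1 hx
  rwa [sub_add_cancel] at h2

theorem mk_mono (p : ℕ) (H : Subgroup G) (W W' : AddSubgroup V) (h : W ≤ W') (k : ℕ) :
    mk p H W k ≤ mk p H W' k := by
  induction k with
  | zero => exact h
  | succ k ih =>
    conv_lhs => rw [mk]
    rw [AddSubgroup.closure_le]
    rintro y ⟨x, hx, rfl | ⟨g, hg, rfl⟩⟩
    · exact mk_p p H W' k x (ih hx)
    · exact mk_h p H W' k g hg x (ih hx)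

/-- The filtration of `V →+ V` (with the action on the values) evaluated at a point `b` is in the
filtration of `V`. -/
theorem mk_apply (p : ℕ) (H : Subgroup G) (L : AddSubgroup (V →+ V)) (k : ℕ) (b : V) :
    ∀ φ ∈ mk p H L k, φ b ∈ mk p H (⊤ : AddSubgroup V) k := by
  induction k with
  | zero =>
    intro φ _
    exact AddSubgroup.mem_top _
  | succ k ih =>
    intro φ hφ
    rw [mk] at hφ
    induction hφ using AddSubgroup.closure_induction with
    | mem y hy =>
      rcases hy with ⟨x, hx, rfl | ⟨h, hh, rfl⟩⟩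
      · have := mk_p p H (⊤ : AddSubgroup V) k (x b) (ih x hx)
        simpa using this
      · have := mk_h p H (⊤ : AddSubgroup V) k h hh (x b) (ih x hx)
        simpa using this
    | zero => exact AddSubgroup.zero_mem _
    | add x y _ _ hx hy => exact AddSubgroup.add_mem _ hx hy
    | neg x _ hx => exact AddSubgroup.neg_mem _ hx

end Pool.Agent.Lib.MP_ae9e3a_al
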