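import Pool.Agent.Lib.MP_ae9e3a_al.PowLem
import Pool.Agent.Lib.MP_ae9e3a_al.MkBas

set_option autoImplicit false

/-!
# VPP module MkGen: generators and commutators of the filtration `mk`

PROOF of `mk_gen`. The elements of the form
`p • y₀ + ∑_{s ∈ S} (s • y_s - y_s) + e` with `y₀, y_s ∈ mk k`, `e ∈ mk (k+2)` form a subgroup `C`
of `V` (define it as an `AddSubgroup` with this carrier, or as a supremum of images).
`mk (k+1) ≤ C`: the generators `p • x` are clear; for `h • x - x`, `h ∈ H`, `x ∈ mk k`, use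
`Good.gen` and `closure_lem` with `X = S ∪ {z ^ p} ∪ K`, `E = mk k` (stable under `H ⊇ X`,
`mk_stab`): for `g ∈ S` clear; for `g = z ^ p`: `pow_lem` with `E = E' = mk p H W` gives
`z ^ p • x - x ∈ mk (k+2)`; for `g ∈ K`: `x ∈ W` (`mk_le`), so `g • x - x = 0`.

PROOF of `mk_comm`. `h • h' • x - h' • h • x = c • y - y` with `y = h' • h • x ∈ mk k`,
`c = h h' h⁻¹ h'⁻¹ ∈ closure ({z ^ (p ^ 2)} ∪ K)`; `closure_lem` (with `C = mk (k+3)`) and the
second half of `pow_lem`.
-/

namespace Pool.Agent.Lib.MP_ae9e3a_al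

variable {G : Type*} [Group G] {V : Type*} [AddCommGroup V] [DistribMulAction G V]

/-- The elements of the form in `mk_gen`. -/
private def mkgen_C (p : ℕ) (S : Finset G) (E C : AddSubgroup V) : AddSubgroup V where
  carrier := {x | ∃ y₀ ∈ E, ∃ y : ↥S → V, (∀ s, y s ∈ E) ∧
      x - (p • y₀ + ∑ s : ↥S, ((s : G) • y s - y s)) ∈ C}
  zero_mem' := by
    refine ⟨0, E.zero_mem, fun _ => 0, fun _ => E.zero_mem, ?_⟩
    simp
  add_mem' := by
    rintro x x' ⟨y, hy, z, hz, h⟩ ⟨y', hy', z', hz', h'⟩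
    refine ⟨y + y', E.add_mem hy hy', fun s => z s + z' s, fun s => E.add_mem (hz s) (hz' s), ?_⟩
    have h2 := C.add_mem h h'
    have h3 : ∑ s : ↥S, ((s : G) • (z s + z' s) - (z s + z' s)) =
        ∑ s : ↥S, ((s : G) • z s - z s) + ∑ s : ↥S, ((s : G) • z' s - z' s) := by
      rw [← Finset.sum_add_distrib]
      refine Finset.sum_congr rfl fun s _ => ?_
      rw [smul_add]
      abel
    rw [h3, smul_add]
    convert h2 using 1
    abel
  neg_mem' := by
    rintro x ⟨y, hy, z, hz, h⟩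
    refine ⟨-y, E.neg_mem hy, fun s => -z s, fun s => E.neg_mem (hz s), ?_⟩
    have h2 := C.neg_mem h
    have h3 : ∑ s : ↥S, ((s : G) • (-z s) - (-z s)) = -∑ s : ↥S, ((s : G) • z s - z s) := by
      rw [← Finset.sum_neg_distrib]
      refine Finset.sum_congr rfl fun s _ => ?_
      rw [smul_neg]
      abel
    rw [h3, smul_neg]
    convert h2 using 1
    abel

private theorem mkgen_mem {p : ℕ} {S : Finset G} {E C : AddSubgroup V} {x : V} (hx : x ∈ C) :
    x ∈ mkgen_C p S E C := by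
  refine ⟨0, E.zero_mem, fun _ => 0, fun _ => E.zero_mem, ?_⟩
  simpa using hx

theorem mk_gen {p : ℕ} (hp : p.Prime) {K H : Subgroup G} {S : Finset G} (hG : Good p K H S)
    {W : AddSubgroup V} (hW : Stab H W) (hK : ∀ g ∈ K, ∀ x ∈ W, g • x = x) (k : ℕ) :
    ∀ x ∈ mk p H W (k + 1), ∃ y₀ ∈ mk p H W k, ∃ y : ↥S → V, (∀ s, y s ∈ mk p H W k) ∧
      x - (p • y₀ + ∑ s : ↥S, ((s : G) • y s - y s)) ∈ mk p H W (k + 2) := by
  classical
  have hcl : Subgroup.closure ((S : Set G) ∪ {y | ∃ z ∈ H, y = z ^ p} ∪ K) ≤ H := by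
    rw [Subgroup.closure_le]
    rintro g ((hg | ⟨z, hz, rfl⟩) | hg)
    · exact hG.sub g hg
    · exact H.pow_mem hz p
    · exact hG.le hg
  have key : mk p H W (k + 1) ≤ mkgen_C p S (mk p H W k) (mk p H W (k + 2)) := by
    conv_lhs => rw [mk]
    rw [AddSubgroup.closure_le]
    rintro y ⟨x, hx, rfl | ⟨h, hh, rfl⟩⟩
    · refine ⟨x, hx, fun _ => 0, fun _ => AddSubgroup.zero_mem _, ?_⟩
      simp
    · refine closure_lem ((S : Set G) ∪ {y | ∃ z ∈ H, y = z ^ p} ∪ K) (mk p H W k)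
        (mkgen_C p S (mk p H W k) (mk p H W (k + 2)))
        (fun g hg x hx => mk_stab p H W hW k g (hcl hg) x hx) ?_ h (hG.gen h hh) x hx
      rintro g ((hg | ⟨z, hz, rfl⟩) | hg) x hx
      · refine ⟨0, AddSubgroup.zero_mem _, fun s => if (s : G) = g then x else 0, ?_, ?_⟩
        · intro s
          dsimp only
          split_ifs
          · exact hx
          · exact AddSubgroup.zero_mem _
        · rw [Finset.sum_eq_single (⟨g, hg⟩ : ↥S)]
          · simp
          · intro s _ hs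
            have : (s : G) ≠ g := fun h => hs (Subtype.ext h)
            simp [this]
          · intro h
            exact absurd (Finset.mem_univ _) h
      · exact mkgen_mem ((pow_lem hp z (mk p H W) (mk p H W) (mk_anti p H W hW)
          (fun k x hx => mk_h p H W k z hz x hx) (fun k x hx => mk_h p H W k z hz x hx)
          (fun k x hx => mk_p p H W k x hx)).1 k x hx)
      · rw [hK g hg x (mk_le p H W hW k hx), sub_self]
        exact AddSubgroup.zero_mem _
  intro x hx
  exact key hx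

theorem mk_comm {p : ℕ} (hp : p.Prime) {K H : Subgroup G} {S : Finset G} (hG : Good p K H S)
    {W : AddSubgroup V} (hW : Stab H W) (hK : ∀ g ∈ K, ∀ x ∈ W, g • x = x) (k : ℕ) :
    ∀ h ∈ H, ∀ h' ∈ H, ∀ x ∈ mk p H W k, h • h' • x - h' • h • x ∈ mk p H W (k + 3) := by
  intro h hh h' hh' x hx
  have hcl : Subgroup.closure ({y | ∃ z ∈ H, y = z ^ (p ^ 2)} ∪ (K : Set G)) ≤ H := by
    rw [Subgroup.closure_le]
    rintro g (⟨z, hz, rfl⟩ | hg)
    · exact H.pow_mem hz _
    · exact hG.le hg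
  have hy : h' • h • x ∈ mk p H W k :=
    mk_stab p H W hW k h' hh' _ (mk_stab p H W hW k h hh x hx)
  have h1 : h • h' • x = (h * h' * h⁻¹ * h'⁻¹) • (h' • h • x) := by
    simp only [smul_smul]
    congr 1
    group
  rw [h1]
  refine closure_lem ({y | ∃ z ∈ H, y = z ^ (p ^ 2)} ∪ (K : Set G)) (mk p H W k)
    (mk p H W (k + 3)) (fun g hg x hx => mk_stab p H W hW k g (hcl hg) x hx) ?_ _
    (hG.com h hh h' hh') _ hy
  rintro g (⟨z, hz, rfl⟩ | hg) x hx
  · exact (pow_lem hp z (mk p H W) (mk p H W) (mk_anti p H W hW)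
      (fun k x hx => mk_h p H W k z hz x hx) (fun k x hx => mk_h p H W k z hz x hx)
      (fun k x hx => mk_p p H W k x hx)).2 k x hx
  · rw [hK g hg x (mk_le p H W hW k hx), sub_self]
    exact AddSubgroup.zero_mem _

end Pool.Agent.Lib.MP_ae9e3a_al
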