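import Pool.Agent.Lib.MP_ae9e3a_al.MkBas

set_option autoImplicit false

/-!
# VPP module WkBas: elementary facts on the bifiltration `wk`

Inductions on `k` and `d` (unfold `wk`; the equation lemmas are `wk.eq_1` ... or `rfl`).
* `wk_zero`: both are defined by the same recursion.
* `wk_stab` and `wk_anti` are proved together by induction on `d`, and inside on `k`:
  first `Stab H (wk 0 (d+1))`: `h • (a • x - x) = (h a h⁻¹) • (h • x) - h • x`, with
  `h a h⁻¹ ∈ A` and `h • x ∈ wk 0 d`; then `wk 1 (d+1) ≤ wk 0 (d+1)`: the generators are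
  `p • x`, `h • x - x` (`x ∈ wk 0 (d+1)`, which is stable) and `a • x - x` (`x ∈ wk 0 d`);
  then `wk (k+2) (d+1) ≤ wk (k+1) (d+1)` from the two inclusions `wk (k+1) (d+1) ≤ wk k (d+1)`
  and `wk (k+1) d ≤ wk k d`; stability of `wk k d` follows from
  `h • x = x + (h • x - x)`, `h • x - x ∈ wk (k+1) d ≤ wk k d`.
* `wk_le`: `wk k d ≤ mk k`: induction on `k`, and inside on `d` (use `A ≤ H`, `mk_le`-type
  arguments; for `k = 0`: `wk 0 d ≤ W` because `W` is stable).
-/

namespace Pool.Agent.Lib.MP_ae9e3a_al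

variable {G : Type*} [Group G] {V : Type*} [AddCommGroup V] [DistribMulAction G V]

theorem wk_zero (p : ℕ) (H A : Subgroup G) (W : AddSubgroup V) (k : ℕ) :
    wk p H A W k 0 = mk p H W k := by
  induction k with
  | zero => rw [wk, mk]
  | succ k ih => rw [wk, mk, ih]

theorem wk_p (p : ℕ) (H A : Subgroup G) (W : AddSubgroup V) (k d : ℕ) :
    ∀ x ∈ wk p H A W k d, p • x ∈ wk p H A W (k + 1) d := by
  intro x hx
  cases d with
  | zero =>
    rw [wk]
    exact AddSubgroup.subset_closure ⟨x, hx, Or.inl rfl⟩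
  | succ d =>
    rw [wk]
    exact AddSubgroup.subset_closure (Or.inl ⟨x, hx, Or.inl rfl⟩)

theorem wk_h (p : ℕ) (H A : Subgroup G) (W : AddSubgroup V) (k d : ℕ) :
    ∀ h ∈ H, ∀ x ∈ wk p H A W k d, h • x - x ∈ wk p H A W (k + 1) d := by
  intro h hh x hx
  cases d with
  | zero =>
    rw [wk]
    exact AddSubgroup.subset_closure ⟨x, hx, Or.inr ⟨h, hh, rfl⟩⟩
  | succ d =>
    rw [wk]
    exact AddSubgroup.subset_closure (Or.inl ⟨x, hx, Or.inr ⟨h, hh, rfl⟩⟩)

theorem wk_a (p : ℕ) (H A : Subgroup G) (W : AddSubgroup V) (k d : ℕ) :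
    ∀ a ∈ A, ∀ x ∈ wk p H A W k d, a • x - x ∈ wk p H A W (k + 1) (d + 1) := by
  intro a ha x hx
  rw [wk]
  exact AddSubgroup.subset_closure (Or.inr ⟨x, hx, a, ha, rfl⟩)

theorem wk_zero_succ (p : ℕ) (H A : Subgroup G) (W : AddSubgroup V) (d : ℕ) :
    wk p H A W 0 (d + 1) ≤ wk p H A W 1 (d + 1) := by
  conv_lhs => rw [wk]
  rw [AddSubgroup.closure_le]
  rintro y ⟨x, hx, a, ha, rfl⟩
  exact wk_a p H A W 0 d a ha x hx

private theorem wk_zero_gen (p : ℕ) (H A : Subgroup G) (W : AddSubgroup V) (d : ℕ) :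
    ∀ a ∈ A, ∀ x ∈ wk p H A W 0 d, a • x - x ∈ wk p H A W 0 (d + 1) := by
  intro a ha x hx
  rw [wk]
  exact AddSubgroup.subset_closure ⟨x, hx, a, ha, rfl⟩

private theorem wk_zero_stab_aux (p : ℕ) (H A : Subgroup G) (W : AddSubgroup V) (H' : Subgroup G)
    (hn : ∀ h ∈ H', ∀ a ∈ A, h * a * h⁻¹ ∈ A) (d : ℕ) (ih : Stab H' (wk p H A W 0 d)) :
    Stab H' (wk p H A W 0 (d + 1)) := by
  intro h hh x hx
  rw [wk] at hx
  induction hx using AddSubgroup.closure_induction with
  | mem y hy =>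
    obtain ⟨x, hx, a, ha, rfl⟩ := hy
    have h1 := wk_zero_gen p H A W d _ (hn h hh a ha) _ (ih h hh x hx)
    have h2 : h • (a • x - x) = (h * a * h⁻¹) • (h • x) - h • x := by
      rw [smul_sub, mul_smul, mul_smul, inv_smul_smul]
    rw [h2]
    exact h1
  | zero =>
    rw [smul_zero]
    exact AddSubgroup.zero_mem _
  | add x y _ _ hx hy =>
    rw [smul_add]
    exact AddSubgroup.add_mem _ hx hy
  | neg x _ hx =>
    rw [smul_neg]
    exact AddSubgroup.neg_mem _ hx

private theorem wk_both (p : ℕ) (H A : Subgroup G) (W : AddSubgroup V) (hW : Stab H W)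
    (hn : ∀ h ∈ H, ∀ a ∈ A, h * a * h⁻¹ ∈ A) (d : ℕ) :
    (∀ k, Stab H (wk p H A W k d)) ∧ ∀ k, wk p H A W (k + 1) d ≤ wk p H A W k d := by
  induction d with
  | zero =>
    constructor
    · intro k
      rw [wk_zero]
      exact mk_stab p H W hW k
    · intro k
      rw [wk_zero, wk_zero]
      exact mk_anti p H W hW k
  | succ d ih =>
    have h0 : Stab H (wk p H A W 0 (d + 1)) := wk_zero_stab_aux p H A W H hn d (ih.1 0)
    have hanti : ∀ k, wk p H A W (k + 1) (d + 1) ≤ wk p H A W k (d + 1) := by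
      intro k
      induction k with
      | zero =>
        conv_lhs => rw [wk]
        rw [AddSubgroup.closure_le]
        rintro y (⟨x, hx, rfl | ⟨h, hh, rfl⟩⟩ | ⟨x, hx, a, ha, rfl⟩)
        · exact AddSubgroup.nsmul_mem _ hx p
        · exact AddSubgroup.sub_mem _ (h0 h hh x hx) hx
        · exact wk_zero_gen p H A W d a ha x hx
      | succ k ihk =>
        conv_lhs => rw [wk]
        rw [AddSubgroup.closure_le]
        rintro y (⟨x, hx, rfl | ⟨h, hh, rfl⟩⟩ | ⟨x, hx, a, ha, rfl⟩)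
        · exact wk_p p H A W k (d + 1) x (ihk hx)
        · exact wk_h p H A W k (d + 1) h hh x (ihk hx)
        · exact wk_a p H A W k d a ha x (ih.2 k hx)
    refine ⟨fun k h hh x hx => ?_, hanti⟩
    have h2 := AddSubgroup.add_mem _ (hanti k (wk_h p H A W k (d + 1) h hh x hx)) hx
    rwa [sub_add_cancel] at h2

theorem wk_stab (p : ℕ) (H A : Subgroup G) (W : AddSubgroup V) (hW : Stab H W) (hAH : A ≤ H)
    (hn : ∀ h ∈ H, ∀ a ∈ A, h * a * h⁻¹ ∈ A) (k d : ℕ) : Stab H (wk p H A W k d) :=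
  (wk_both p H A W hW hn d).1 k

theorem wk_anti (p : ℕ) (H A : Subgroup G) (W : AddSubgroup V) (hW : Stab H W) (hAH : A ≤ H)
    (hn : ∀ h ∈ H, ∀ a ∈ A, h * a * h⁻¹ ∈ A) (k d : ℕ) :
    wk p H A W (k + 1) d ≤ wk p H A W k d :=
  (wk_both p H A W hW hn d).2 k

theorem wk_le (p : ℕ) (H A : Subgroup G) (W : AddSubgroup V) (hW : Stab H W) (hAH : A ≤ H)
    (hn : ∀ h ∈ H, ∀ a ∈ A, h * a * h⁻¹ ∈ A) (k d : ℕ) :
    wk p H A W k d ≤ mk p H W k := by
  induction k generalizing d with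
  | zero =>
    induction d with
    | zero => rw [wk_zero]
    | succ d ih =>
      rw [wk, AddSubgroup.closure_le]
      rintro y ⟨x, hx, a, ha, rfl⟩
      have hx' : x ∈ W := ih hx
      exact AddSubgroup.sub_mem _ (hW a (hAH ha) x hx') hx'
  | succ k ih =>
    cases d with
    | zero => rw [wk_zero]
    | succ d =>
      rw [wk, AddSubgroup.closure_le]
      rintro y (⟨x, hx, rfl | ⟨h, hh, rfl⟩⟩ | ⟨x, hx, a, ha, rfl⟩)
      · exact mk_p p H W k x (ih (d + 1) hx)
      · exact mk_h p H W k h hh x (ih (d + 1) hx)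
      · exact mk_h p H W k a (hAH ha) x (ih d hx)

/-- `wk 0 d` is stable under every `g` that normalises `A` and stabilises `W`. -/
theorem wk_stab_of_normal (p : ℕ) (H A : Subgroup G) (W : AddSubgroup V) (hA : A.Normal)
    (hW : Stab (⊤ : Subgroup G) W) (d : ℕ) :
    Stab (⊤ : Subgroup G) (wk p H A W 0 d) := by
  induction d with
  | zero =>
    rw [wk]
    exact hW
  | succ d ih =>
    exact wk_zero_stab_aux p H A W ⊤ (fun h _ a ha => hA.conj_mem a ha h) d ih

end Pool.Agent.Lib.MP_ae9e3a_al
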