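import Pool.Agent.Lib.MP_ae9e3a_al.PowLem
import Pool.Agent.Lib.MP_ae9e3a_al.WkBas
import Pool.Agent.Lib.MP_ae9e3a_al.MkBas

set_option autoImplicit false

/-!
# VPP module WkGen: generators and commutators of the bifiltration `wk`

`A ≤ H` and `H` normalises `A`: `h a h⁻¹ = (h a h⁻¹ a⁻¹) a`, and `GoodA.com` gives
`h a h⁻¹ a⁻¹ ∈ closure ({z ^ (p ^ 2) | z ∈ A} ∪ K) ≤ A` (this is `GoodA.normal` below).

PROOF of `wk_gen`. The elements of the form
`p • y₀ + ∑_{s ∈ S} (s • y_s - y_s) + ∑_{t ∈ T} (t • z_t - z_t) + e` with `y₀, y_s ∈ wk k (d+1)`,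
`z_t ∈ wk k d`, `e ∈ wk (k+2) (d+1)` form a subgroup `C` of `V`. The three kinds of generators of
`wk (k+1) (d+1)` are in `C`: `p • x`: clear. `h • x - x`, `x ∈ wk k (d+1)`, `h ∈ H`:
`Good.gen` and `closure_lem` (`X = S ∪ {z ^ p} ∪ K`, `E = wk k (d+1)`): `g ∈ S` clear;
`g = z ^ p`: `pow_lem` with `E = E' = fun k => wk k (d+1)`; `g ∈ K`: acts trivially on
`wk k (d+1) ≤ W`. `a • x - x`, `x ∈ wk k d`, `a ∈ A`: `GoodA.gen` and `closure_lem`
(`X = T ∪ {z ^ p | z ∈ A} ∪ K`, `E = wk k d`): `g ∈ T` clear; `g = z ^ p`, `z ∈ A`: `pow_lem`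
with `E = fun k => wk k d`, `E' = fun k => wk k (d+1)` (`h1` is `wk_a`, `h2` is `wk_h` because
`A ≤ H`, `h3` is `wk_p`); `g ∈ K`: trivial.

PROOF of `wk_comm`, `wk_comm'`. As `mk_comm`: `h • h' • x - h' • h • x = c • y - y` with
`y = h' • h • x`, `c = h h' h⁻¹ h'⁻¹`; for `wk_comm'` (`a ∈ A` in place of `h'`): `c ∈ closure
({z ^ (p ^ 2) | z ∈ A} ∪ K)` and `y ∈ wk k d`, target `wk (k+3) (d+1)`: second half of `pow_lem`
with `E = fun k => wk k d`, `E' = fun k => wk k (d+1)`.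
-/

namespace Pool.Agent.Lib.MP_ae9e3a_al

variable {G : Type*} [Group G] {V : Type*} [AddCommGroup V] [DistribMulAction G V]

theorem GoodA.normal {p : ℕ} {K A H : Subgroup G} {S T : Finset G} (hG : GoodA p K A H S T) :
    ∀ h ∈ H, ∀ a ∈ A, h * a * h⁻¹ ∈ A := by
  intro h hh a ha
  have h1 : Subgroup.closure ({y | ∃ z ∈ A, y = z ^ (p ^ 2)} ∪ (K : Set G)) ≤ A := by
    rw [Subgroup.closure_le]
    rintro y (⟨z, hz, rfl⟩ | hy)
    · exact Subgroup.pow_mem _ hz _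
    · exact hG.le hy
  have h2 := A.mul_mem (h1 (hG.com h hh a ha)) ha
  rwa [inv_mul_cancel_right] at h2

private def wkC (p : ℕ) (S T : Finset G) (E F E2 : AddSubgroup V) : AddSubgroup V where
  carrier := {x | ∃ y₀ ∈ E, ∃ y : ↥S → V, (∀ s, y s ∈ E) ∧ ∃ z : ↥T → V, (∀ t, z t ∈ F) ∧
      x - (p • y₀ + ∑ s : ↥S, ((s : G) • y s - y s) + ∑ t : ↥T, ((t : G) • z t - z t)) ∈ E2}
  zero_mem' := by
    refine ⟨0, E.zero_mem, fun _ => 0, fun _ => E.zero_mem, fun _ => 0, fun _ => F.zero_mem, ?_⟩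
    simp
  add_mem' := by
    rintro x x' ⟨y₀, hy₀, y, hy, z, hz, h⟩ ⟨y₀', hy₀', y', hy', z', hz', h'⟩
    refine ⟨y₀ + y₀', E.add_mem hy₀ hy₀', fun s => y s + y' s, fun s => E.add_mem (hy s) (hy' s),
      fun t => z t + z' t, fun t => F.add_mem (hz t) (hz' t), ?_⟩
    have e : x + x' - (p • (y₀ + y₀') + ∑ s : ↥S, ((s : G) • (y s + y' s) - (y s + y' s)) +
        ∑ t : ↥T, ((t : G) • (z t + z' t) - (z t + z' t))) =
        (x - (p • y₀ + ∑ s : ↥S, ((s : G) • y s - y s) + ∑ t : ↥T, ((t : G) • z t - z t))) +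
        (x' - (p • y₀' + ∑ s : ↥S, ((s : G) • y' s - y' s) +
          ∑ t : ↥T, ((t : G) • z' t - z' t))) := by
      simp only [smul_add, Finset.sum_sub_distrib, Finset.sum_add_distrib]
      abel
    rw [e]
    exact E2.add_mem h h'
  neg_mem' := by
    rintro x ⟨y₀, hy₀, y, hy, z, hz, h⟩
    refine ⟨-y₀, E.neg_mem hy₀, fun s => -y s, fun s => E.neg_mem (hy s),
      fun t => -z t, fun t => F.neg_mem (hz t), ?_⟩
    have e : -x - (p • (-y₀) + ∑ s : ↥S, ((s : G) • (-y s) - (-y s)) +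
        ∑ t : ↥T, ((t : G) • (-z t) - (-z t))) =
        -(x - (p • y₀ + ∑ s : ↥S, ((s : G) • y s - y s) +
          ∑ t : ↥T, ((t : G) • z t - z t))) := by
      simp only [smul_neg, Finset.sum_sub_distrib, Finset.sum_neg_distrib]
      abel
    rw [e]
    exact E2.neg_mem h

private theorem wkC_E2 (p : ℕ) (S T : Finset G) (E F E2 : AddSubgroup V) :
    E2 ≤ wkC p S T E F E2 := by
  intro x hx
  refine ⟨0, E.zero_mem, fun _ => 0, fun _ => E.zero_mem, fun _ => 0, fun _ => F.zero_mem, ?_⟩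
  simpa using hx

private theorem wkC_p (p : ℕ) (S T : Finset G) (E F E2 : AddSubgroup V) {x : V} (hx : x ∈ E) :
    p • x ∈ wkC p S T E F E2 := by
  refine ⟨x, hx, fun _ => 0, fun _ => E.zero_mem, fun _ => 0, fun _ => F.zero_mem, ?_⟩
  simp

private theorem wkC_S (p : ℕ) (S T : Finset G) (E F E2 : AddSubgroup V) {g : G} (hg : g ∈ S)
    {x : V} (hx : x ∈ E) : g • x - x ∈ wkC p S T E F E2 := by
  classical
  refine ⟨0, E.zero_mem, fun s => if s = ⟨g, hg⟩ then x else 0, fun s => ?_, fun _ => 0,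
    fun _ => F.zero_mem, ?_⟩
  · dsimp only
    split_ifs
    · exact hx
    · exact E.zero_mem
  · rw [Finset.sum_eq_single (⟨g, hg⟩ : ↥S)]
    · simp
    · intro b _ hb
      simp [hb]
    · intro h
      exact absurd (Finset.mem_univ _) h

private theorem wkC_T (p : ℕ) (S T : Finset G) (E F E2 : AddSubgroup V) {g : G} (hg : g ∈ T)
    {x : V} (hx : x ∈ F) : g • x - x ∈ wkC p S T E F E2 := by
  classical
  refine ⟨0, E.zero_mem, fun _ => 0, fun _ => E.zero_mem,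
    fun s => if s = ⟨g, hg⟩ then x else 0, fun s => ?_, ?_⟩
  · dsimp only
    split_ifs
    · exact hx
    · exact F.zero_mem
  · rw [Finset.sum_eq_single (⟨g, hg⟩ : ↥T)]
    · simp
    · intro b _ hb
      simp [hb]
    · intro h
      exact absurd (Finset.mem_univ _) h

theorem wk_gen {p : ℕ} (hp : p.Prime) {K A H : Subgroup G} {S T : Finset G}
    (hG : GoodA p K A H S T) {W : AddSubgroup V} (hW : Stab H W)
    (hK : ∀ g ∈ K, ∀ x ∈ W, g • x = x) (k d : ℕ) :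
    ∀ x ∈ wk p H A W (k + 1) (d + 1), ∃ y₀ ∈ wk p H A W k (d + 1), ∃ y : ↥S → V,
      (∀ s, y s ∈ wk p H A W k (d + 1)) ∧ ∃ z : ↥T → V, (∀ t, z t ∈ wk p H A W k d) ∧
      x - (p • y₀ + ∑ s : ↥S, ((s : G) • y s - y s) + ∑ t : ↥T, ((t : G) • z t - z t)) ∈
        wk p H A W (k + 2) (d + 1) := by
  have hn := hG.normal
  have hst := wk_stab p H A W hW hG.leH hn
  have han := wk_anti p H A W hW hG.leH hn
  have hleW : ∀ k d, wk p H A W k d ≤ W := fun k d =>
    (wk_le p H A W hW hG.leH hn k d).trans (mk_le p H W hW k)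
  suffices hmain : wk p H A W (k + 1) (d + 1) ≤ wkC p S T (wk p H A W k (d + 1))
      (wk p H A W k d) (wk p H A W (k + 2) (d + 1)) from fun x hx => hmain hx
  conv_lhs => rw [wk]
  rw [AddSubgroup.closure_le]
  rintro y (⟨x, hx, rfl | ⟨h, hh, rfl⟩⟩ | ⟨x, hx, a, ha, rfl⟩)
  · exact wkC_p p S T _ _ _ hx
  · have hXH : Subgroup.closure ((S : Set G) ∪ {y | ∃ z ∈ H, y = z ^ p} ∪ K) ≤ H := by
      rw [Subgroup.closure_le]
      rintro y ((hy | ⟨z, hz, rfl⟩) | hy)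
      · exact hG.good.sub y hy
      · exact Subgroup.pow_mem _ hz _
      · exact hG.good.le hy
    refine closure_lem ((S : Set G) ∪ {y | ∃ z ∈ H, y = z ^ p} ∪ K) (wk p H A W k (d + 1)) _
      (fun g hg x hx => hst k (d + 1) g (hXH hg) x hx) ?_ h (hG.good.gen h hh) x hx
    rintro g ((hg | ⟨z, hz, rfl⟩) | hg) x hx
    · exact wkC_S p S T _ _ _ hg hx
    · refine wkC_E2 p S T _ _ _ ?_
      exact (pow_lem hp z (fun k => wk p H A W k (d + 1)) (fun k => wk p H A W k (d + 1))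
        (fun k => han k (d + 1)) (fun k x hx => wk_h p H A W k (d + 1) z hz x hx)
        (fun k x hx => wk_h p H A W k (d + 1) z hz x hx)
        (fun k x hx => wk_p p H A W k (d + 1) x hx)).1 k x hx
    · rw [hK g hg x (hleW _ _ hx), sub_self]
      exact AddSubgroup.zero_mem _
  · have hXA : Subgroup.closure ((T : Set G) ∪ {y | ∃ z ∈ A, y = z ^ p} ∪ K) ≤ A := by
      rw [Subgroup.closure_le]
      rintro y ((hy | ⟨z, hz, rfl⟩) | hy)
      · exact hG.sub y hy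
      · exact Subgroup.pow_mem _ hz _
      · exact hG.le hy
    refine closure_lem ((T : Set G) ∪ {y | ∃ z ∈ A, y = z ^ p} ∪ K) (wk p H A W k d) _
      (fun g hg x hx => hst k d g (hG.leH (hXA hg)) x hx) ?_ a (hG.gen a ha) x hx
    rintro g ((hg | ⟨z, hz, rfl⟩) | hg) x hx
    · exact wkC_T p S T _ _ _ hg hx
    · refine wkC_E2 p S T _ _ _ ?_
      exact (pow_lem hp z (fun k => wk p H A W k d) (fun k => wk p H A W k (d + 1))
        (fun k => han k (d + 1)) (fun k x hx => wk_a p H A W k d z hz x hx)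
        (fun k x hx => wk_h p H A W k (d + 1) z (hG.leH hz) x hx)
        (fun k x hx => wk_p p H A W k (d + 1) x hx)).1 k x hx
    · rw [hK g hg x (hleW _ _ hx), sub_self]
      exact AddSubgroup.zero_mem _

private theorem comm_eq (h h' : G) (x : V) :
    h • h' • x - h' • h • x = (h * h' * h⁻¹ * h'⁻¹) • (h' • h • x) - h' • h • x := by
  rw [mul_smul, mul_smul, mul_smul, inv_smul_smul, inv_smul_smul]

theorem wk_comm {p : ℕ} (hp : p.Prime) {K A H : Subgroup G} {S T : Finset G}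
    (hG : GoodA p K A H S T) {W : AddSubgroup V} (hW : Stab H W)
    (hK : ∀ g ∈ K, ∀ x ∈ W, g • x = x) (k d : ℕ) :
    ∀ h ∈ H, ∀ h' ∈ H, ∀ x ∈ wk p H A W k d,
      h • h' • x - h' • h • x ∈ wk p H A W (k + 3) d := by
  have hn := hG.normal
  have hst := wk_stab p H A W hW hG.leH hn
  have han := wk_anti p H A W hW hG.leH hn
  have hleW : ∀ k d, wk p H A W k d ≤ W := fun k d =>
    (wk_le p H A W hW hG.leH hn k d).trans (mk_le p H W hW k)
  intro h hh h' hh' x hx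
  rw [comm_eq]
  have hXH : Subgroup.closure ({y | ∃ z ∈ H, y = z ^ (p ^ 2)} ∪ (K : Set G)) ≤ H := by
    rw [Subgroup.closure_le]
    rintro y (⟨z, hz, rfl⟩ | hy)
    · exact Subgroup.pow_mem _ hz _
    · exact hG.good.le hy
  refine closure_lem ({y | ∃ z ∈ H, y = z ^ (p ^ 2)} ∪ (K : Set G)) (wk p H A W k d) _
    (fun g hg x hx => hst k d g (hXH hg) x hx) ?_ _ (hG.good.com h hh h' hh') _
    (hst k d h' hh' _ (hst k d h hh x hx))
  rintro g (⟨z, hz, rfl⟩ | hg) x hx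
  · exact (pow_lem hp z (fun k => wk p H A W k d) (fun k => wk p H A W k d)
      (fun k => han k d) (fun k x hx => wk_h p H A W k d z hz x hx)
      (fun k x hx => wk_h p H A W k d z hz x hx)
      (fun k x hx => wk_p p H A W k d x hx)).2 k x hx
  · rw [hK g hg x (hleW _ _ hx), sub_self]
    exact AddSubgroup.zero_mem _

theorem wk_comm' {p : ℕ} (hp : p.Prime) {K A H : Subgroup G} {S T : Finset G}
    (hG : GoodA p K A H S T) {W : AddSubgroup V} (hW : Stab H W)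
    (hK : ∀ g ∈ K, ∀ x ∈ W, g • x = x) (k d : ℕ) :
    ∀ h ∈ H, ∀ a ∈ A, ∀ x ∈ wk p H A W k d,
      h • a • x - a • h • x ∈ wk p H A W (k + 3) (d + 1) := by
  have hn := hG.normal
  have hst := wk_stab p H A W hW hG.leH hn
  have han := wk_anti p H A W hW hG.leH hn
  have hleW : ∀ k d, wk p H A W k d ≤ W := fun k d =>
    (wk_le p H A W hW hG.leH hn k d).trans (mk_le p H W hW k)
  intro h hh a ha x hx
  rw [comm_eq]
  have hXH : Subgroup.closure ({y | ∃ z ∈ A, y = z ^ (p ^ 2)} ∪ (K : Set G)) ≤ H := by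
    rw [Subgroup.closure_le]
    rintro y (⟨z, hz, rfl⟩ | hy)
    · exact Subgroup.pow_mem _ (hG.leH hz) _
    · exact hG.leH (hG.le hy)
  refine closure_lem ({y | ∃ z ∈ A, y = z ^ (p ^ 2)} ∪ (K : Set G)) (wk p H A W k d) _
    (fun g hg x hx => hst k d g (hXH hg) x hx) ?_ _ (hG.com h hh a ha) _
    (hst k d a (hG.leH ha) _ (hst k d h hh x hx))
  rintro g (⟨z, hz, rfl⟩ | hg) x hx
  · exact (pow_lem hp z (fun k => wk p H A W k d) (fun k => wk p H A W k (d + 1))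
      (fun k => han k (d + 1)) (fun k x hx => wk_a p H A W k d z hz x hx)
      (fun k x hx => wk_h p H A W k (d + 1) z (hG.leH hz) x hx)
      (fun k x hx => wk_p p H A W k (d + 1) x hx)).2 k x hx
  · rw [hK g hg x (hleW _ _ hx), sub_self]
    exact AddSubgroup.zero_mem _

end Pool.Agent.Lib.MP_ae9e3a_al
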