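import Pool.Agent.Lib.MP_ae9e3a_al.AccF
import Pool.Agent.Lib.MP_ae9e3a_al.WkGen
import Pool.Agent.Lib.MP_ae9e3a_al.MkGen

set_option autoImplicit false

/-!
# VPP module AR: the Artin-Rees lemma

PROOF. Apply `acc_fintype` to the additive group `M = ℕ → V` of sequences with
`F k = {f | ∀ d, f d ∈ wk p H A W k d}`, `ι = Option (↥S ⊕ ↥T)`, operators `p` (pointwise),
`s - 1` (pointwise) for `s ∈ S`, and for `t ∈ T` the shifted operator
`(τ f) 0 = 0`, `(τ f) (d+1) = t • f d - f d`; `κ = Fin r`, `v` replaced by `Pi.single 0 (v l)`.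
* `Fanti`: `wk_anti` (`hn` is `GoodA.normal`). `FT`: `wk_p`, `wk_h`, `wk_a`.
* `Fcomm`: `p` commutes with everything; `(s-1), (s'-1)`: `wk_comm`; `(s-1)` and `τ_t`: at `0`
  both products vanish, at `d+1`: `s • t • x - t • s • x` with `x = f d`, `wk_comm'`;
  `τ_t, τ_t'`: at `d+2` (at `0`, `1` zero): `t • t' • x = t' • t • x` because
  `t t' t⁻¹ t'⁻¹ ∈ K` (`GoodA.abel`) fixes `t' • t • x ∈ W`.
* `Fgen0`: `f 0 ∈ W`: take `c` from `hgen`; at `0` it is `hgen` (`wk_zero`), at `d + 1` use
  `wk_zero_succ`.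
* `Fgen`: choose for each `d` the elements of `wk_gen` (for `d = 0`: `mk_gen` and `wk_zero`); the
  function for `t` is `d ↦ z_t` of the decomposition of `f (d+1)`.
* `𝒩 = {N_c | c : ℕ}`, `N_c = {f | (∀ d ≤ c, f d ∈ N₀ ⊓ wk 0 d) ∧ ∀ d > c, f d = 0}`. Stable:
  `τ_t f = 0` because `A` fixes `N₀`. Closed: `hcl` for `d ≤ c`, `hsep` for `d > c`.
* The maximal element is some `N_c`, `N_c ≤ N_{c+1}`, so `N_{c+1} = N_c`, hence
  `N₀ ⊓ wk 0 (c+1) = ⊥` (`Pi.single (c+1) x ∈ N_{c+1}`).
-/

namespace Pool.Agent.Lib.MP_ae9e3a_al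

section ARaux

variable {G : Type*} [Group G] {V : Type*} [AddCommGroup V] [DistribMulAction G V]

/-- Pointwise `g - 1`. -/
def ARsub (g : G) : (ℕ → V) →+ (ℕ → V) where
  toFun f := fun d => g • f d - f d
  map_zero' := by funext d; simp
  map_add' f f' := by
    funext d
    simp only [Pi.add_apply, smul_add]
    abel

/-- Shifted `g - 1`. -/
def ARshift (g : G) : (ℕ → V) →+ (ℕ → V) where
  toFun f := fun d => match d with
    | 0 => 0
    | d + 1 => g • f d - f d
  map_zero' := by
    funext d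
    cases d <;> simp
  map_add' f f' := by
    funext d
    cases d with
    | zero => simp
    | succ d =>
      simp only [Pi.add_apply, smul_add]
      abel

/-- Pointwise multiplication by `p`. -/
def ARp (V : Type*) [AddCommGroup V] (p : ℕ) : (ℕ → V) →+ (ℕ → V) where
  toFun f := fun d => p • f d
  map_zero' := by funext d; simp
  map_add' f f' := by
    funext d
    simp only [Pi.add_apply, smul_add]

/-- The operators. -/
def ARop (V : Type*) [AddCommGroup V] [DistribMulAction G V] (p : ℕ) (S T : Finset G) :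
    Option (↥S ⊕ ↥T) → AddMonoid.End (ℕ → V)
  | none => ARp V p
  | some (Sum.inl s) => ARsub (s : G)
  | some (Sum.inr t) => ARshift (t : G)

theorem ARop_none (p : ℕ) (S T : Finset G) (f : ℕ → V) (d : ℕ) :
    ARop V p S T none f d = p • f d := rfl

theorem ARop_inl (p : ℕ) (S T : Finset G) (s : ↥S) (f : ℕ → V) (d : ℕ) :
    ARop V p S T (some (Sum.inl s)) f d = (s : G) • f d - f d := rfl

theorem ARop_inr0 (p : ℕ) (S T : Finset G) (t : ↥T) (f : ℕ → V) :
    ARop V p S T (some (Sum.inr t)) f 0 = 0 := rfl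

theorem ARop_inrs (p : ℕ) (S T : Finset G) (t : ↥T) (f : ℕ → V) (d : ℕ) :
    ARop V p S T (some (Sum.inr t)) f (d + 1) = (t : G) • f d - f d := rfl

/-- The filtration of `ℕ → V`. -/
def ARF (p : ℕ) (H A : Subgroup G) (W : AddSubgroup V) (k : ℕ) : AddSubgroup (ℕ → V) where
  carrier := {f | ∀ d, f d ∈ wk p H A W k d}
  zero_mem' := fun _ => zero_mem _
  add_mem' := fun ha hb d => add_mem (ha d) (hb d)
  neg_mem' := fun ha d => neg_mem (ha d)

theorem ARF_mem {p : ℕ} {H A : Subgroup G} {W : AddSubgroup V} {k : ℕ} {f : ℕ → V} :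
    f ∈ ARF p H A W k ↔ ∀ d, f d ∈ wk p H A W k d := Iff.rfl

/-- The subgroups `N_c`. -/
def ARN (p : ℕ) (H A : Subgroup G) (W N₀ : AddSubgroup V) (c : ℕ) : AddSubgroup (ℕ → V) where
  carrier := {f | (∀ d ≤ c, f d ∈ N₀ ⊓ wk p H A W 0 d) ∧ ∀ d, c < d → f d = 0}
  zero_mem' := ⟨fun _ _ => zero_mem _, fun _ _ => rfl⟩
  add_mem' := fun ha hb => ⟨fun d hd => add_mem (ha.1 d hd) (hb.1 d hd),
    fun d hd => by rw [Pi.add_apply, ha.2 d hd, hb.2 d hd, add_zero]⟩
  neg_mem' := fun ha => ⟨fun d hd => neg_mem (ha.1 d hd),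
    fun d hd => by rw [Pi.neg_apply, ha.2 d hd, neg_zero]⟩

theorem ARN_mem {p : ℕ} {H A : Subgroup G} {W N₀ : AddSubgroup V} {c : ℕ} {f : ℕ → V} :
    f ∈ ARN p H A W N₀ c ↔ (∀ d ≤ c, f d ∈ N₀ ⊓ wk p H A W 0 d) ∧ ∀ d, c < d → f d = 0 :=
  Iff.rfl

end ARaux

theorem AR_comm {G V : Type*} [Group G] [AddCommGroup V] [DistribMulAction G V] {p : ℕ}
    (hp : p.Prime) {K A H : Subgroup G} {S T : Finset G} (hG : GoodA p K A H S T)
    {W : AddSubgroup V} (hW : Stab H W) (hK : ∀ g ∈ K, ∀ x ∈ W, g • x = x)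
    (i j : Option (↥S ⊕ ↥T)) (k : ℕ) (f : ℕ → V) (hf : f ∈ ARF p H A W k) :
    ARop V p S T i (ARop V p S T j f) - ARop V p S T j (ARop V p S T i f) ∈
      ARF p H A W (k + 3) := by
  have hn := hG.normal
  have hAH := hG.leH
  have hSH : ∀ s : ↥S, (s : G) ∈ H := fun s => hG.good.sub _ s.2
  have hTA : ∀ t : ↥T, (t : G) ∈ A := fun t => hG.sub _ t.2
  have key : ∀ (g g' : G) (x : V), (g • (g' • x - x) - (g' • x - x)) -
      (g' • (g • x - x) - (g • x - x)) = g • g' • x - g' • g • x := by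
    intro g g' x
    simp only [smul_sub]
    abel
  have keyp : ∀ (g : G) (x : V), p • (g • x - x) - (g • (p • x) - p • x) = 0 := by
    intro g x
    rw [smul_sub, ← smul_comm p g x]
    abel
  have keyp' : ∀ (g : G) (x : V), (g • (p • x) - p • x) - p • (g • x - x) = 0 := by
    intro g x
    rw [smul_sub, ← smul_comm p g x]
    abel
  rw [ARF_mem] at hf ⊢
  intro d
  rw [Pi.sub_apply]
  rcases i with _ | s | t <;> rcases j with _ | s' | t'
  · rw [sub_self]; exact zero_mem _
  · simp only [ARop_none, ARop_inl]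
    rw [keyp]; exact zero_mem _
  · cases d with
    | zero =>
      simp only [ARop_none, ARop_inr0, smul_zero, sub_zero]
      exact zero_mem _
    | succ d =>
      simp only [ARop_none, ARop_inrs]
      rw [keyp]; exact zero_mem _
  · simp only [ARop_none, ARop_inl]
    rw [keyp']; exact zero_mem _
  · simp only [ARop_inl]
    rw [key]
    exact wk_comm hp hG hW hK k d _ (hSH s) _ (hSH s') _ (hf d)
  · cases d with
    | zero =>
      simp only [ARop_inl, ARop_inr0, smul_zero, sub_zero]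
      exact zero_mem _
    | succ d =>
      simp only [ARop_inl, ARop_inrs]
      rw [key]
      exact wk_comm' hp hG hW hK k d _ (hSH s) _ (hTA t') _ (hf d)
  · cases d with
    | zero =>
      simp only [ARop_none, ARop_inr0, smul_zero, sub_zero]
      exact zero_mem _
    | succ d =>
      simp only [ARop_none, ARop_inrs]
      rw [keyp']; exact zero_mem _
  · cases d with
    | zero =>
      simp only [ARop_inl, ARop_inr0, smul_zero, sub_zero]
      exact zero_mem _
    | succ d =>
      simp only [ARop_inl, ARop_inrs]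
      rw [key]
      have h := wk_comm' hp hG hW hK k d _ (hSH s') _ (hTA t) _ (hf d)
      have h2 := neg_mem h
      rwa [neg_sub] at h2
  · cases d with
    | zero =>
      simp only [ARop_inr0, sub_zero]
      exact zero_mem _
    | succ d =>
      cases d with
      | zero =>
        simp only [ARop_inrs, ARop_inr0, smul_zero, sub_zero]
        exact zero_mem _
      | succ d =>
        simp only [ARop_inrs]
        rw [key]
        have hxW : f d ∈ W := by
          have h1 := wk_le p H A W hW hAH hn k d (hf d)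
          exact mk_le p H W hW k h1
        have hyW : (t' : G) • (t : G) • f d ∈ W :=
          hW _ (hAH (hTA t')) _ (hW _ (hAH (hTA t)) _ hxW)
        have hc := hG.abel _ (hTA t) _ (hTA t')
        have h3 := hK _ hc _ hyW
        have h4 : (t : G) • (t' : G) • f d = (t' : G) • (t : G) • f d := by
          rw [← h3]
          simp only [smul_smul]
          congr 1
          group
        rw [h4, sub_self]
        exact zero_mem _

theorem AR_gen {G V : Type*} [Group G] [AddCommGroup V] [DistribMulAction G V] {p : ℕ}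
    (hp : p.Prime) {K A H : Subgroup G} {S T : Finset G} (hG : GoodA p K A H S T)
    {W : AddSubgroup V} (hW : Stab H W) (hK : ∀ g ∈ K, ∀ x ∈ W, g • x = x)
    (k : ℕ) (f : ℕ → V) (hf : f ∈ ARF p H A W (k + 1)) :
    ∃ y : Option (↥S ⊕ ↥T) → (ℕ → V), (∀ i, y i ∈ ARF p H A W k) ∧
      f - ∑ i, ARop V p S T i (y i) ∈ ARF p H A W (k + 2) := by
  rw [ARF_mem] at hf
  have h0 := hf 0
  rw [wk_zero] at h0
  obtain ⟨a0, ha0, b0, hb0, hr0⟩ := mk_gen hp hG.good hW hK k _ h0
  have hs : ∀ d, ∃ y₀ ∈ wk p H A W k (d + 1), ∃ y : ↥S → V,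
      (∀ s, y s ∈ wk p H A W k (d + 1)) ∧ ∃ z : ↥T → V, (∀ t, z t ∈ wk p H A W k d) ∧
      f (d + 1) - (p • y₀ + ∑ s : ↥S, ((s : G) • y s - y s) + ∑ t : ↥T, ((t : G) • z t - z t)) ∈
        wk p H A W (k + 2) (d + 1) := fun d => wk_gen hp hG hW hK k d _ (hf (d + 1))
  choose a ha b hb z hz hr using hs
  refine ⟨fun i => match i with
    | none => fun d => match d with
      | 0 => a0
      | d + 1 => a d
    | some (Sum.inl s) => fun d => match d with
      | 0 => b0 s
      | d + 1 => b d s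
    | some (Sum.inr t) => fun d => z d t, ?_, ?_⟩
  · rintro (_ | s | t)
    · intro d
      cases d with
      | zero =>
        change a0 ∈ wk p H A W k 0
        rw [wk_zero]; exact ha0
      | succ d => exact ha d
    · intro d
      cases d with
      | zero =>
        change b0 s ∈ wk p H A W k 0
        rw [wk_zero]; exact hb0 s
      | succ d => exact hb d s
    · intro d
      exact hz d t
  · rw [Fintype.sum_option, Fintype.sum_sum_type]
    intro d
    cases d with
    | zero =>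
      rw [wk_zero]
      simp only [Pi.sub_apply, Pi.add_apply, Finset.sum_apply, ARop_none, ARop_inl, ARop_inr0,
        Finset.sum_const_zero, add_zero]
      exact hr0
    | succ d =>
      simp only [Pi.sub_apply, Pi.add_apply, Finset.sum_apply, ARop_none, ARop_inl, ARop_inrs]
      rw [← add_assoc]
      exact hr d

theorem ar {G V : Type*} [Group G] [AddCommGroup V] [DistribMulAction G V] {p : ℕ}
    (hp : p.Prime) {K A H : Subgroup G} {S T : Finset G} (hG : GoodA p K A H S T)
    {W : AddSubgroup V} (hW : Stab H W) (hK : ∀ g ∈ K, ∀ x ∈ W, g • x = x) {r : ℕ}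
    (v : Fin r → V) (hv : ∀ l, v l ∈ W)
    (hgen : ∀ x ∈ W, ∃ c : Fin r → ℤ, x - ∑ l, c l • v l ∈ mk p H W 1)
    (N₀ : AddSubgroup V) (hN : N₀ ≤ W) (hst : Stab H N₀) (hA : ∀ a ∈ A, ∀ x ∈ N₀, a • x = x)
    (hcl : ∀ d, ∀ x ∈ wk p H A W 0 d,
      (∀ k, ∃ y ∈ N₀ ⊓ wk p H A W 0 d, x - y ∈ wk p H A W k d) → x ∈ N₀)
    (hsep : ∀ x : V, (∀ k, x ∈ mk p H W k) → x = 0) :
    ∃ n, N₀ ⊓ wk p H A W 0 n = ⊥ := by
  have hn := hG.normal
  have hAH := hG.leH
  have hSH : ∀ s : ↥S, (s : G) ∈ H := fun s => hG.good.sub _ s.2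
  have hTA : ∀ t : ↥T, (t : G) ∈ A := fun t => hG.sub _ t.2
  have hacc : ∃ N ∈ Set.range (ARN p H A W N₀), ∀ N' ∈ Set.range (ARN p H A W N₀),
      N ≤ N' → N' = N := by
    refine acc_fintype (M := ℕ → V) (ι := Option (↥S ⊕ ↥T)) (κ := Fin r)
      (ARop V p S T) (fun l => Pi.single 0 (v l)) (ARF p H A W) ?_ ?_
      (fun i j k f hf => AR_comm hp hG hW hK i j k f hf) ?_ ?_
      (fun k f hf => AR_gen hp hG hW hK k f hf) (Set.range (ARN p H A W N₀)) ?_ ?_ ?_ ?_
    · -- Fanti
      intro k f hf d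
      exact wk_anti p H A W hW hAH hn k d (hf d)
    · -- FT
      rintro (_ | s | t) k f hf d
      · rw [ARop_none]
        exact wk_p p H A W k d _ (hf d)
      · rw [ARop_inl]
        exact wk_h p H A W k d _ (hSH s) _ (hf d)
      · cases d with
        | zero => rw [ARop_inr0]; exact zero_mem _
        | succ d =>
          rw [ARop_inrs]
          exact wk_a p H A W k d _ (hTA t) _ (hf d)
    · -- hv
      intro l d
      cases d with
      | zero =>
        simp only [Pi.single_eq_same]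
        rw [wk_zero]
        exact hv l
      | succ d =>
        simp only [Pi.single_eq_of_ne (Nat.succ_ne_zero d)]
        exact zero_mem _
    · -- Fgen0
      intro f hf
      have h0 := hf 0
      rw [wk_zero] at h0
      obtain ⟨c, hc⟩ := hgen _ h0
      refine ⟨c, fun d => ?_⟩
      cases d with
      | zero =>
        rw [wk_zero]
        simp only [Pi.sub_apply, Finset.sum_apply, Pi.smul_apply, Pi.single_eq_same]
        exact hc
      | succ d =>
        simp only [Pi.sub_apply, Finset.sum_apply, Pi.smul_apply,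
          Pi.single_eq_of_ne (Nat.succ_ne_zero d), smul_zero, Finset.sum_const_zero, sub_zero]
        exact wk_zero_succ p H A W d (hf (d + 1))
    · exact ⟨_, ⟨0, rfl⟩⟩
    · -- h0
      rintro _ ⟨c, rfl⟩ f hf d
      rcases Nat.lt_or_ge c d with h | h
      · rw [hf.2 d h]; exact zero_mem _
      · exact (hf.1 d h).2
    · -- hT
      rintro _ ⟨c, rfl⟩ i f hf
      rcases i with _ | s | t
      · refine ⟨fun d hd => ?_, fun d hd => ?_⟩
        · rw [ARop_none]
          exact nsmul_mem (hf.1 d hd) p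
        · rw [ARop_none, hf.2 d hd, smul_zero]
      · refine ⟨fun d hd => ?_, fun d hd => ?_⟩
        · rw [ARop_inl]
          have e1 : f d ∈ N₀ := (hf.1 d hd).1
          have e2 : f d ∈ wk p H A W 0 d := (hf.1 d hd).2
          exact AddSubgroup.mem_inf.2 ⟨sub_mem (hst _ (hSH s) _ e1) e1,
            sub_mem (wk_stab p H A W hW hAH hn 0 d _ (hSH s) _ e2) e2⟩
        · rw [ARop_inl, hf.2 d hd, smul_zero, sub_zero]
      · have hz : ∀ d, ARop V p S T (some (Sum.inr t)) f d = 0 := by
          intro d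
          cases d with
          | zero => rw [ARop_inr0]
          | succ d =>
            rw [ARop_inrs]
            rcases Nat.lt_or_ge c d with h | h
            · rw [hf.2 d h, smul_zero, sub_zero]
            · rw [hA _ (hTA t) _ (hf.1 d h).1, sub_self]
        refine ⟨fun d hd => ?_, fun d hd => hz d⟩
        rw [hz d]
        exact zero_mem _
    · -- hcl
      rintro _ ⟨c, rfl⟩ f hf hy
      refine ⟨fun d hd => ?_, fun d hd => ?_⟩
      · refine ⟨hcl d (f d) (hf d) fun k => ?_, hf d⟩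
        obtain ⟨y, hyN, hyF⟩ := hy k
        exact ⟨y d, hyN.1 d hd, hyF d⟩
      · refine hsep _ fun k => ?_
        obtain ⟨y, hyN, hyF⟩ := hy k
        have h1 := hyF d
        rw [Pi.sub_apply, hyN.2 d hd, sub_zero] at h1
        exact wk_le p H A W hW hAH hn k d h1
  obtain ⟨N, ⟨c, rfl⟩, hmax⟩ := hacc
  refine ⟨c + 1, ?_⟩
  have hle : ARN p H A W N₀ c ≤ ARN p H A W N₀ (c + 1) := by
    intro f hf
    rw [ARN_mem] at hf ⊢
    refine ⟨fun d hd => ?_, fun d hd => hf.2 d (by omega)⟩
    rcases Nat.lt_or_ge c d with h | h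
    · rw [hf.2 d h]; exact zero_mem _
    · exact hf.1 d h
  have heq := hmax _ ⟨c + 1, rfl⟩ hle
  rw [eq_bot_iff]
  intro x hx
  have h1 : (Pi.single (c + 1) x : ℕ → V) ∈ ARN p H A W N₀ (c + 1) := by
    rw [ARN_mem]
    refine ⟨fun d hd => ?_, fun d hd => ?_⟩
    · rcases eq_or_ne d (c + 1) with rfl | h
      · rw [Pi.single_eq_same]; exact hx
      · rw [Pi.single_eq_of_ne h]; exact zero_mem _
    · have hne : d ≠ c + 1 := by omega
      rw [Pi.single_eq_of_ne hne]
  rw [heq, ARN_mem] at h1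
  have h2 := h1.2 (c + 1) (by omega)
  rw [Pi.single_eq_same] at h2
  rw [h2]
  exact zero_mem _

end Pool.Agent.Lib.MP_ae9e3a_al
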