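import Pool.Agent.Lib.MP_ae9e3a_al.Top

set_option autoImplicit false

/-!
# VPP module FGenL: elementary facts on `FGen` and `ModP`

* `FGen.mono`: same `S`.
* `FGen.of_trivial`: for trivial `H`, `{h • s} = S`, and `⊥` gives the same set.
* `FGen.of_relIndex`: if `x₁, ..., x_r ∈ H` represent the cosets `H' x`, replace `S` by the set of
  the `x_i • s`: `h • s = h' • (x_i • s)`. (`H'.relIndex H ≠ 0`: the right cosets of `H'` in `H` are
  finitely many.)
* `FGen.map`: image of `S`; `q '' closure ⊆ closure (q '' ·)`.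
* `ModP.mono`, `ModP.mem_of_forall`: a closed subgroup `N` of `V` is the intersection of the
  `N + V'`; `ModP.proPAdd` immediate.
-/

namespace Pool.Agent.Lib.MP_ae9e3a_al

/-- The open subgroups of `p`-power index form a basis of neighbourhoods of `0`. -/
def ProPAdd (p : ℕ) (V : Type*) [AddCommGroup V] [TopologicalSpace V] : Prop :=
  ∀ U ∈ nhds (0 : V), ∃ V' : AddSubgroup V, IsOpen (V' : Set V) ∧ (∃ j, V'.index = p ^ j) ∧
    (V' : Set V) ⊆ U

variable {G V : Type*} [Group G] [AddCommGroup V] [TopologicalSpace V] [DistribMulAction G V]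

theorem FGen.mono {H H' : Subgroup G} {W : AddSubgroup V} (h : FGen H W) (hH : H ≤ H') :
    FGen H' W := by
  obtain ⟨S, hS, hW⟩ := h
  refine ⟨S, hS, hW.trans (closure_mono ?_)⟩
  intro x hx
  refine AddSubgroup.closure_mono ?_ hx
  rintro y ⟨g, hg, s, hs, rfl⟩
  exact ⟨g, hH hg, s, hs, rfl⟩

theorem FGen.of_trivial {H : Subgroup G} {W : AddSubgroup V} (h : FGen H W)
    (ht : ∀ g ∈ H, ∀ x ∈ W, g • x = x) : FGen (⊥ : Subgroup G) W := by
  obtain ⟨S, hS, hW⟩ := h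
  refine ⟨S, hS, hW.trans (closure_mono ?_)⟩
  intro x hx
  refine AddSubgroup.closure_mono ?_ hx
  rintro y ⟨g, hg, s, hs, rfl⟩
  exact ⟨1, Subgroup.one_mem _, s, hs, by rw [ht g hg s (hS s hs), one_smul]⟩

omit [AddCommGroup V] [TopologicalSpace V] [DistribMulAction G V] in
private theorem fgenl_cosets {H H' : Subgroup G} (hi : H'.relIndex H ≠ 0) :
    ∃ T : Finset G, (∀ y ∈ T, y ∈ H) ∧ ∀ h ∈ H, ∃ y ∈ T, h * y ∈ H' := by
  classical
  have : (H'.subgroupOf H).FiniteIndex := ⟨hi⟩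
  have hfin : Finite (H ⧸ H'.subgroupOf H) := inferInstance
  have : Fintype (H ⧸ H'.subgroupOf H) := Fintype.ofFinite _
  refine ⟨Finset.univ.image fun q : H ⧸ H'.subgroupOf H => ((q.out : H) : G), ?_, ?_⟩
  · intro y hy
    obtain ⟨q, -, rfl⟩ := Finset.mem_image.mp hy
    exact (q.out : H).2
  · intro h hh
    have hh' : h⁻¹ ∈ H := H.inv_mem hh
    refine ⟨(((⟨h⁻¹, hh'⟩ : H) : H ⧸ H'.subgroupOf H).out : H), Finset.mem_image.mpr
      ⟨_, Finset.mem_univ _, rfl⟩, ?_⟩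
    have h1 : (((⟨h⁻¹, hh'⟩ : H) : H ⧸ H'.subgroupOf H).out : H)⁻¹ * ⟨h⁻¹, hh'⟩ ∈
        H'.subgroupOf H := by
      rw [← QuotientGroup.eq, QuotientGroup.out_eq']
    rw [Subgroup.mem_subgroupOf] at h1
    have h2 := H'.inv_mem h1
    push_cast at h2
    rw [mul_inv_rev, inv_inv, inv_inv] at h2
    exact h2

theorem FGen.of_relIndex {H H' : Subgroup G} {W : AddSubgroup V} (h : FGen H W) (hH : H' ≤ H)
    (hW : Stab H W) (hi : H'.relIndex H ≠ 0) : FGen H' W := by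
  classical
  obtain ⟨S, hS, hW'⟩ := h
  obtain ⟨T, hT, hT'⟩ := fgenl_cosets hi
  refine ⟨(T ×ˢ S).image fun q => q.1⁻¹ • q.2, ?_, hW'.trans (closure_mono ?_)⟩
  · intro s hs
    obtain ⟨⟨y, t⟩, hq, rfl⟩ := Finset.mem_image.mp hs
    rw [Finset.mem_product] at hq
    exact hW _ (H.inv_mem (hT y hq.1)) t (hS t hq.2)
  · intro x hx
    refine AddSubgroup.closure_mono ?_ hx
    rintro y ⟨g, hg, s, hs, rfl⟩
    obtain ⟨t, ht, htg⟩ := hT' g hg
    refine ⟨g * t, htg, t⁻¹ • s, Finset.mem_image.mpr ⟨(t, s), ?_, rfl⟩, ?_⟩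
    · rw [Finset.mem_product]
      exact ⟨ht, hs⟩
    · rw [smul_smul, mul_inv_cancel_right]

theorem FGen.map {V' : Type*} [AddCommGroup V'] [TopologicalSpace V'] [DistribMulAction G V']
    (q : V →+ V') (hq : Continuous q) (hs : Function.Surjective q)
    (he : ∀ (g : G) x, q (g • x) = g • q x) {H : Subgroup G}
    (h : FGen H (⊤ : AddSubgroup V)) : FGen H (⊤ : AddSubgroup V') := by
  classical
  obtain ⟨S, -, hW⟩ := h
  refine ⟨S.image q, fun _ _ => AddSubgroup.mem_top _, ?_⟩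
  intro y _
  obtain ⟨x, rfl⟩ := hs y
  have h1 : x ∈ closure (AddSubgroup.closure {y : V | ∃ h ∈ H, ∃ s ∈ S, y = h • s} : Set V) :=
    hW (AddSubgroup.mem_top x)
  have h2 := image_closure_subset_closure_image hq (Set.mem_image_of_mem q h1)
  refine closure_mono ?_ h2
  rintro _ ⟨z, hz, rfl⟩
  have h3 : z ∈ (AddSubgroup.closure {y : V' | ∃ h ∈ H, ∃ s ∈ S.image q, y = h • s}).comap q := by
    refine (AddSubgroup.closure_le _).mpr ?_ hz
    rintro w ⟨g, hg, s, hs', rfl⟩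
    exact AddSubgroup.subset_closure ⟨g, hg, q s, Finset.mem_image_of_mem q hs', he g s⟩
  exact h3

theorem ModP.mono {p : ℕ} {H H' : Subgroup G} (h : ModP p H V) (hH : H' ≤ H) : ModP p H' V := by
  intro U hU
  obtain ⟨V', h1, h2, h3, h4, h5⟩ := h U hU
  exact ⟨V', fun g hg => h1 g (hH hg), h2, h3, fun g hg => h4 g (hH hg), h5⟩

theorem ModP.proPAdd {p : ℕ} {H : Subgroup G} (h : ModP p H V) : ProPAdd p V := by
  intro U hU
  obtain ⟨V', -, h2, h3, -, h5⟩ := h U hU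
  exact ⟨V', h2, h3, h5⟩

theorem ProPAdd.mem_of_forall [IsTopologicalAddGroup V] {p : ℕ} (h : ProPAdd p V) {N : Set V}
    (hN : IsClosed N) (x : V)
    (hx : ∀ V' : AddSubgroup V, IsOpen (V' : Set V) → (∃ j, V'.index = p ^ j) →
      ∃ y ∈ N, x - y ∈ V') : x ∈ N := by
  by_contra hxN
  have h1 : (fun v : V => x - v) ⁻¹' Nᶜ ∈ nhds (0 : V) := by
    refine (hN.isOpen_compl.preimage (continuous_const.sub continuous_id)).mem_nhds ?_
    show x - 0 ∈ Nᶜ
    rw [sub_zero]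
    exact hxN
  obtain ⟨V', hV1, hV2, hV3⟩ := h _ h1
  obtain ⟨y, hy, hxy⟩ := hx V' hV1 hV2
  have h2 : x - (x - y) ∈ Nᶜ := hV3 hxy
  rw [sub_sub_cancel] at h2
  exact h2 hy

end Pool.Agent.Lib.MP_ae9e3a_al
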