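import Pool.Agent.Lib.MP_ae9e3a_al.PowLem
import Pool.Agent.Lib.MP_ae9e3a_al.FGenL

set_option autoImplicit false

/-!
# VPP module ClAug: the augmentation submodules are closed

PROOF of `closed_aug`. `C = {∑_{t ∈ T} (t • z t - z t) | z : ↥T → V, z t ∈ W}` is an additive
subgroup and compact: the image of the compact set `{z | ∀ t, z t ∈ W}` under a continuous map; so
it is closed. `W` is stable under `X = T ∪ K` and the group `K ⊔ ⟨T⟩` it generates, and
`(g - 1) W ⊆ C` for `g ∈ X` (for `g ∈ K` it is `0`), so by `closure_lem` for all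
`g ∈ K ⊔ ⟨T⟩`. For `a ∈ A`, `x ∈ W`: `a ∈ closure (K ⊔ ⟨T⟩)`, `g ↦ g • x - x` is continuous, `C` is
closed: `a • x - x ∈ C`. So the closure of the generators is `C` (`⊇` is clear).

PROOF of `closed_mk1`. `mk p H W 1 = p W + C` (`C` as above with `A = H`), sum of two compact
subgroups: the set `{p • x + c | x ∈ W, c ∈ C}` is compact and a subgroup.

PROOF of `gen_mk1`. Let `S'` be the finite set of `hF`, `Z = AddSubgroup.closure S'`. The set
`Z + mk 1` is a finite union of cosets of the closed subgroup `mk 1` (`p • s ∈ mk 1` for `s ∈ S'`,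
so the combinations `∑ c_s s` with `0 ≤ c_s < p` suffice), so it is closed, and it contains `h • s =
s + (h • s - s)` for `h ∈ H`, `s ∈ S'`. So it contains `W`. (`v` enumerates `S'`.)
-/

namespace Pool.Agent.Lib.MP_ae9e3a_al

variable {G V : Type*} [Group G] [TopologicalSpace G] [IsTopologicalGroup G] [AddCommGroup V]
  [TopologicalSpace V] [IsTopologicalAddGroup V] [CompactSpace V] [T2Space V]
  [DistribMulAction G V] [ContinuousSMul G V]

private theorem claug_core {K A : Subgroup G} {T : Finset G} (hT : TopGen K A T) {W : AddSubgroup V}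
    (hWc : IsClosed (W : Set V)) (hW : Stab A W) (hK : ∀ g ∈ K, ∀ x ∈ W, g • x = x) :
    ∃ C : AddSubgroup V, IsClosed (C : Set V) ∧
      C = AddSubgroup.closure {y : V | ∃ x ∈ W, ∃ a ∈ A, y = a • x - x} ∧
      ∀ y ∈ C, ∃ z : ↥T → V, (∀ t, z t ∈ W) ∧ y = ∑ t : ↥T, ((t : G) • z t - z t) := by
  classical
  let C : AddSubgroup V :=
    { carrier := {y | ∃ z : ↥T → V, (∀ t, z t ∈ W) ∧ y = ∑ t : ↥T, ((t : G) • z t - z t)}
      zero_mem' := ⟨0, fun _ => W.zero_mem, by simp⟩
      add_mem' := by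
        rintro _ _ ⟨z, hz, rfl⟩ ⟨z', hz', rfl⟩
        refine ⟨z + z', fun t => W.add_mem (hz t) (hz' t), ?_⟩
        rw [← Finset.sum_add_distrib]
        refine Finset.sum_congr rfl fun t _ => ?_
        rw [Pi.add_apply, smul_add]
        abel
      neg_mem' := by
        rintro _ ⟨z, hz, rfl⟩
        refine ⟨-z, fun t => W.neg_mem (hz t), ?_⟩
        rw [← Finset.sum_neg_distrib]
        refine Finset.sum_congr rfl fun t _ => ?_
        rw [Pi.neg_apply, smul_neg]
        abel }
  have hCdef : (C : Set V) = (fun z : ↥T → V => ∑ t : ↥T, ((t : G) • z t - z t)) '' {z | ∀ t, z t ∈ W} := by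
    ext y
    constructor
    · rintro ⟨z, hz, rfl⟩
      exact ⟨z, hz, rfl⟩
    · rintro ⟨z, hz, rfl⟩
      exact ⟨z, hz, rfl⟩
  have hCc : IsClosed (C : Set V) := by
    rw [hCdef]
    have h1 : IsClosed {z : ↥T → V | ∀ t, z t ∈ W} := by
      have h2 : {z : ↥T → V | ∀ t, z t ∈ W} = ⋂ t, (fun z : ↥T → V => z t) ⁻¹' (W : Set V) := by
        ext z
        simp
      rw [h2]
      exact isClosed_iInter fun t => hWc.preimage (continuous_apply t)
    have h3 : Continuous (fun z : ↥T → V => ∑ t : ↥T, ((t : G) • z t - z t)) :=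
      continuous_finsetSum _ fun t _ => ((continuous_apply t).const_smul (t : G)).sub (continuous_apply t)
    exact (h1.isCompact.image h3).isClosed
  have hstab : ∀ g ∈ Subgroup.closure ((T : Set G) ∪ K), ∀ x ∈ W, g • x ∈ W ∧ g⁻¹ • x ∈ W := by
    intro g hg
    induction hg using Subgroup.closure_induction with
    | mem g hg =>
      intro x hx
      rcases hg with hg | hg
      · exact ⟨hW g (hT.1 g hg) x hx, hW _ (A.inv_mem (hT.1 g hg)) x hx⟩
      · refine ⟨?_, ?_⟩
        · rw [hK g hg x hx]; exact hx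
        · rw [hK _ (K.inv_mem hg) x hx]; exact hx
    | one =>
      intro x hx
      rw [inv_one, one_smul]
      exact ⟨hx, hx⟩
    | mul g g' _ _ ih ih' =>
      intro x hx
      rw [mul_inv_rev, mul_smul, mul_smul]
      exact ⟨(ih _ (ih' x hx).1).1, (ih' _ (ih x hx).2).2⟩
    | inv g _ ih =>
      intro x hx
      rw [inv_inv]
      exact ⟨(ih x hx).2, (ih x hx).1⟩
  have hcl := closure_lem ((T : Set G) ∪ K) W C (fun g hg x hx => (hstab g hg x hx).1) (by
    intro g hg x hx
    rcases hg with hg | hg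
    · refine ⟨Pi.single ⟨g, hg⟩ x, ?_, ?_⟩
      · intro t
        by_cases ht : t = ⟨g, hg⟩
        · subst ht
          rw [Pi.single_eq_same]; exact hx
        · rw [Pi.single_eq_of_ne ht]; exact W.zero_mem
      · rw [Finset.sum_eq_single (⟨g, hg⟩ : ↥T)]
        · rw [Pi.single_eq_same]
        · intro t _ ht
          rw [Pi.single_eq_of_ne ht, smul_zero, sub_zero]
        · intro h
          exact absurd (Finset.mem_univ _) h
    · rw [hK g hg x hx, sub_self]
      exact C.zero_mem)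
  have hA : ∀ a ∈ A, ∀ x ∈ W, a • x - x ∈ C := by
    intro a ha x hx
    have h1 : IsClosed ((fun g : G => g • x - x) ⁻¹' (C : Set V)) :=
      hCc.preimage ((continuous_id.smul continuous_const).sub continuous_const)
    have h2 : ((K ⊔ Subgroup.closure (T : Set G) : Subgroup G) : Set G) ⊆
        ((fun g : G => g • x - x) ⁻¹' (C : Set V)) := by
      intro g hg
      refine hcl g ?_ x hx
      have h3 : K ⊔ Subgroup.closure (T : Set G) ≤ Subgroup.closure ((T : Set G) ∪ K) := by
        apply sup_le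
        · exact fun k hk => Subgroup.subset_closure (Or.inr hk)
        · exact Subgroup.closure_mono Set.subset_union_left
      exact h3 hg
    exact closure_minimal h2 h1 (hT.2 ha)
  refine ⟨C, hCc, ?_, fun y hy => hy⟩
  apply le_antisymm
  · rintro y ⟨z, hz, rfl⟩
    refine AddSubgroup.sum_mem _ fun t _ => ?_
    exact AddSubgroup.subset_closure ⟨z t, hz t, t, hT.1 t t.2, rfl⟩
  · rw [AddSubgroup.closure_le]
    rintro y ⟨x, hx, a, ha, rfl⟩
    exact hA a ha x hx

theorem closed_aug {K A : Subgroup G} {T : Finset G} (hT : TopGen K A T) {W : AddSubgroup V}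
    (hWc : IsClosed (W : Set V)) (hW : Stab A W) (hK : ∀ g ∈ K, ∀ x ∈ W, g • x = x) :
    IsClosed (AddSubgroup.closure {y : V | ∃ x ∈ W, ∃ a ∈ A, y = a • x - x} : Set V) ∧
      ∀ y ∈ AddSubgroup.closure {y : V | ∃ x ∈ W, ∃ a ∈ A, y = a • x - x},
        ∃ z : ↥T → V, (∀ t, z t ∈ W) ∧ y = ∑ t : ↥T, ((t : G) • z t - z t) := by
  obtain ⟨C, h1, h2, h3⟩ := claug_core hT hWc hW hK
  rw [← h2]
  exact ⟨h1, h3⟩

theorem closed_mk1 (p : ℕ) {K H : Subgroup G} {S : Finset G} (hS : TopGen K H S)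
    {W : AddSubgroup V} (hWc : IsClosed (W : Set V)) (hW : Stab H W)
    (hK : ∀ g ∈ K, ∀ x ∈ W, g • x = x) : IsClosed (mk p H W 1 : Set V) := by
  obtain ⟨C, hCc, hC, -⟩ := claug_core hS hWc hW hK
  have h1 : (mk p H W 1 : Set V) = (fun q : V × V => p • q.1 + q.2) '' ((W : Set V) ×ˢ (C : Set V)) := by
    have h2 : mk p H W 1 = W.map (DistribSMul.toAddMonoidHom V p) ⊔ C := by
      apply le_antisymm
      · show AddSubgroup.closure _ ≤ _
        rw [AddSubgroup.closure_le]
        rintro y ⟨x, hx, h | ⟨h, hh, hy⟩⟩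
        · exact AddSubgroup.mem_sup_left ⟨x, hx, h.symm⟩
        · apply AddSubgroup.mem_sup_right
          rw [hC]
          exact AddSubgroup.subset_closure ⟨x, hx, h, hh, hy⟩
      · apply sup_le
        · rintro y ⟨x, hx, rfl⟩
          exact AddSubgroup.subset_closure ⟨x, hx, Or.inl rfl⟩
        · rw [hC, AddSubgroup.closure_le]
          rintro y ⟨x, hx, a, ha, rfl⟩
          exact AddSubgroup.subset_closure ⟨x, hx, Or.inr ⟨a, ha, rfl⟩⟩
    ext y
    constructor
    · intro hy
      have hy' : y ∈ W.map (DistribSMul.toAddMonoidHom V p) ⊔ C := h2 ▸ hy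
      obtain ⟨a, ⟨x, hx, rfl⟩, c, hc, rfl⟩ := AddSubgroup.mem_sup.1 hy'
      exact ⟨(x, c), ⟨hx, hc⟩, rfl⟩
    · rintro ⟨⟨x, c⟩, ⟨hx, hc⟩, rfl⟩
      show p • x + c ∈ mk p H W 1
      rw [h2]
      exact AddSubgroup.add_mem _ (AddSubgroup.mem_sup_left ⟨x, hx, rfl⟩) (AddSubgroup.mem_sup_right hc)
  rw [h1]
  have h3 : Continuous (fun q : V × V => p • q.1 + q.2) := (continuous_fst.nsmul p).add continuous_snd
  exact ((hWc.isCompact.prod hCc.isCompact).image h3).isClosed

theorem gen_mk1 {p : ℕ} (hp : p.Prime) {K H : Subgroup G} {S : Finset G} (hS : TopGen K H S)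
    {W : AddSubgroup V} (hWc : IsClosed (W : Set V)) (hW : Stab H W)
    (hK : ∀ g ∈ K, ∀ x ∈ W, g • x = x) (hF : FGen H W) :
    ∃ (r : ℕ) (v : Fin r → V), (∀ l, v l ∈ W) ∧
      ∀ x ∈ W, ∃ c : Fin r → ℤ, x - ∑ l, c l • v l ∈ mk p H W 1 := by
  classical
  obtain ⟨S', hS'W, hS'⟩ := hF
  have hM := closed_mk1 p hS hWc hW hK
  let v : Fin S'.card → V := fun l => (S'.equivFin.symm l : V)
  have hv : ∀ l, v l ∈ W := fun l => hS'W _ (S'.equivFin.symm l).2
  refine ⟨S'.card, v, hv, ?_⟩
  have hpM : ∀ x ∈ W, (p : ℤ) • x ∈ mk p H W 1 := by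
    intro x hx
    rw [natCast_zsmul]
    exact AddSubgroup.subset_closure ⟨x, hx, Or.inl rfl⟩
  let Z : AddSubgroup V :=
    { carrier := {x | ∃ c : Fin S'.card → ℤ, x - ∑ l, c l • v l ∈ mk p H W 1}
      zero_mem' := ⟨0, by simp [AddSubgroup.zero_mem]⟩
      add_mem' := by
        rintro x y ⟨c, hc⟩ ⟨d, hd⟩
        refine ⟨c + d, ?_⟩
        have e : x + y - ∑ l, (c + d) l • v l = (x - ∑ l, c l • v l) + (y - ∑ l, d l • v l) := by
          simp only [Pi.add_apply, add_smul, Finset.sum_add_distrib]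
          abel
        rw [e]
        exact AddSubgroup.add_mem _ hc hd
      neg_mem' := by
        rintro x ⟨c, hc⟩
        refine ⟨-c, ?_⟩
        have e : -x - ∑ l, (-c) l • v l = -(x - ∑ l, c l • v l) := by
          simp only [Pi.neg_apply, neg_smul, Finset.sum_neg_distrib]
          abel
        rw [e]
        exact AddSubgroup.neg_mem _ hc }
  have hZ : (Z : Set V) = ⋃ c : Fin S'.card → Fin p,
      (fun x : V => x - ∑ l, ((c l : ℕ) : ℤ) • v l) ⁻¹' (mk p H W 1 : Set V) := by
    ext x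
    rw [Set.mem_iUnion]
    constructor
    · rintro ⟨c, hc⟩
      have hp0 : (0 : ℤ) < p := by exact_mod_cast hp.pos
      have hlt : ∀ l, (c l % p).toNat < p := by
        intro l
        have h1 := Int.emod_lt_of_pos (c l) hp0
        have h2 := Int.emod_nonneg (c l) hp0.ne'
        omega
      refine ⟨fun l => ⟨(c l % p).toNat, hlt l⟩, ?_⟩
      show x - ∑ l, (((c l % p).toNat : ℕ) : ℤ) • v l ∈ mk p H W 1
      have e : x - ∑ l, (((c l % p).toNat : ℕ) : ℤ) • v l
          = (x - ∑ l, c l • v l) + ∑ l, (p : ℤ) • ((c l / p) • v l) := by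
        have e2 : ∀ l, c l • v l = (((c l % p).toNat : ℕ) : ℤ) • v l + (p : ℤ) • ((c l / p) • v l) := by
          intro l
          rw [smul_smul, ← add_smul]
          congr 1
          rw [Int.toNat_of_nonneg (Int.emod_nonneg (c l) hp0.ne')]
          exact (Int.emod_add_mul_ediv (c l) p).symm
        rw [Finset.sum_congr rfl fun l _ => e2 l, Finset.sum_add_distrib]
        abel
      rw [e]
      refine AddSubgroup.add_mem _ hc (AddSubgroup.sum_mem _ fun l _ => hpM _ ?_)
      exact W.zsmul_mem (hv l) _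
    · rintro ⟨c, hc⟩
      exact ⟨fun l => ((c l : ℕ) : ℤ), hc⟩
  have hZc : IsClosed (Z : Set V) := by
    rw [hZ]
    exact isClosed_iUnion_of_finite fun c => hM.preimage (continuous_id.sub continuous_const)
  have hZg : AddSubgroup.closure {y : V | ∃ h ∈ H, ∃ s ∈ S', y = h • s} ≤ Z := by
    rw [AddSubgroup.closure_le]
    rintro y ⟨h, hh, s, hs, rfl⟩
    refine ⟨Pi.single (S'.equivFin ⟨s, hs⟩) 1, ?_⟩
    have e : ∑ l, (Pi.single (S'.equivFin ⟨s, hs⟩) (1 : ℤ) : Fin S'.card → ℤ) l • v l = s := by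
      rw [Finset.sum_eq_single (S'.equivFin ⟨s, hs⟩)]
      · rw [Pi.single_eq_same, one_smul]
        simp [v]
      · intro l _ hl
        rw [Pi.single_eq_of_ne hl, zero_smul]
      · intro h
        exact absurd (Finset.mem_univ _) h
    rw [e]
    exact AddSubgroup.subset_closure ⟨s, hS'W s hs, Or.inr ⟨h, hh, rfl⟩⟩
  intro x hx
  exact closure_minimal hZg hZc (hS' hx)

end Pool.Agent.Lib.MP_ae9e3a_al
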