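import Pool.Agent.Lib.MP_ae9e3a_al.MkBas

set_option autoImplicit false

/-!
# VPP module PNil: finite `p`-groups act nilpotently

PROOF of `pgroup_nil`. Strong induction on `V'.index` (`= p ^ j`), for all `V'` at once. If
`V' = ⊤`, `k = 0`. Otherwise let `V'' = {x | p • x ∈ V' ∧ ∀ h ∈ H, h • x - x ∈ V'}`, an additive
subgroup with `V' ≤ V''`, stable under `H` (`h • x ∈ V''`: `h • x = x + v`, `v ∈ V'`, and `V'` is
stable) and with the same hypothesis `hp'` (`V' ≤ V''`). CLAIM `V' ≠ V''`; then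
`V''.index < V'.index`, still a power of `p` (a divisor of `p ^ j`), and
`mk k ≤ V''` implies `mk (k+1) ≤ V'` (generators `p • x`, `h • x - x` with `x ∈ V''`).
CLAIM: `X = V ⧸ V'` is a finite group of order `p ^ j`, `j ≥ 1`. `Y = {x ∈ X | p • x = 0}` is
a nonzero finite group of exponent `p` (Cauchy), its order is a power of `p` and `> 1`. `H` acts on
`X` (it stabilises `V'`), and on `Y`, through a finite `p`-group: the image `Q` of `H` in
`Equiv.Perm Y` is a `p`-group because `h ^ (p ^ j)` acts trivially for some `j`. By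
`IsPGroup.card_modEq_card_fixedPoints` the number of fixed points of `Q` on `Y` is divisible by `p`,
and `0` is a fixed point, so there is a fixed point `x ≠ 0`; a representative of `x` is in
`V'' \ V'`.
-/

namespace Pool.Agent.Lib.MP_ae9e3a_al

/-- The action of `H` on the quotient. -/
def PNil_act {G V : Type*} [Group G] [AddCommGroup V] [DistribMulAction G V]
    (H : Subgroup G) (V' : AddSubgroup V) (hst : Stab H V') : MulAction H (V ⧸ V') where
  smul h x := QuotientAddGroup.map V' V' (DistribSMul.toAddMonoidHom V (h : G))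
    (fun y hy => hst h h.2 y hy) x
  one_smul x := by
    induction x using QuotientAddGroup.induction_on with
    | H z =>
      change ((((1 : H) : G) • z : V) : V ⧸ V') = z
      rw [Subgroup.coe_one, one_smul]
  mul_smul g h x := by
    induction x using QuotientAddGroup.induction_on with
    | H z =>
      change ((((g * h : H) : G) • z : V) : V ⧸ V') = (((g : G) • ((h : G) • z) : V) : V ⧸ V')
      rw [Subgroup.coe_mul, mul_smul]

theorem PNil_fixed {G V : Type*} [Group G] [AddCommGroup V] [DistribMulAction G V] {p : ℕ}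
    (hp : p.Prime) (H : Subgroup G) (V' : AddSubgroup V) (hst : Stab H V')
    {j : ℕ} (hj : V'.index = p ^ j) (hne : V' ≠ ⊤)
    (hp' : ∀ h ∈ H, ∃ j, ∀ x : V, h ^ p ^ j • x - x ∈ V') :
    ∃ v : V, v ∉ V' ∧ ∀ h ∈ H, h • v - v ∈ V' := by
  have : Fact p.Prime := ⟨hp⟩
  letI := PNil_act H V' hst
  have hsm : ∀ (h : H) (z : V), h • ((z : V) : V ⧸ V') = (((h : G) • z : V) : V ⧸ V') :=
    fun _ _ => rfl
  have hfin : Finite (V ⧸ V') := by
    have h0 : V'.index ≠ 0 := by
      rw [hj]
      exact pow_ne_zero _ hp.pos.ne'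
    exact Nat.finite_of_card_ne_zero h0
  set Q := (MulAction.toPermHom H (V ⧸ V')).range with hQ
  have hpg : IsPGroup p Q := by
    rintro ⟨q, h, rfl⟩
    obtain ⟨i, hi⟩ := hp' h h.2
    refine ⟨i, ?_⟩
    ext x
    rw [Subgroup.coe_pow, Subgroup.coe_one, Equiv.Perm.one_apply]
    change ((MulAction.toPermHom H (V ⧸ V')) h ^ p ^ i) x = x
    rw [← map_pow]
    induction x using QuotientAddGroup.induction_on with
    | H z =>
      change (h ^ p ^ i : H) • ((z : V) : V ⧸ V') = z
      rw [hsm, Subgroup.coe_pow]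
      have h1 := hi z
      rw [QuotientAddGroup.eq]
      have h2 := V'.neg_mem h1
      rwa [neg_sub, sub_eq_neg_add] at h2
  have hdvd : p ∣ Nat.card (V ⧸ V') := by
    have h1 : Nat.card (V ⧸ V') = p ^ j := hj
    have h2 : j ≠ 0 := by
      rintro rfl
      rw [pow_zero] at hj
      exact hne (AddSubgroup.index_eq_one.1 hj)
    rw [h1]
    exact dvd_pow_self p h2
  have h0 : (0 : V ⧸ V') ∈ MulAction.fixedPoints Q (V ⧸ V') := by
    rintro ⟨q, h, rfl⟩
    change h • (0 : V ⧸ V') = 0
    have := hsm h 0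
    rw [smul_zero] at this
    exact this
  obtain ⟨b, hb, hb0⟩ := hpg.exists_fixed_point_of_prime_dvd_card_of_fixed_point
    (V ⧸ V') hdvd h0
  obtain ⟨v, rfl⟩ := QuotientAddGroup.mk_surjective b
  refine ⟨v, fun hv => ?_, fun h hh => ?_⟩
  · apply hb0
    exact ((QuotientAddGroup.eq_zero_iff v).2 hv).symm
  · have h1 : (⟨h, hh⟩ : H) • ((v : V) : V ⧸ V') = v := hb ⟨_, ⟨h, hh⟩, rfl⟩
    rw [hsm] at h1
    have h2 := (QuotientAddGroup.eq).1 h1.symm
    rwa [neg_add_eq_sub] at h2

theorem pgroup_nil {G V : Type*} [Group G] [AddCommGroup V] [DistribMulAction G V] {p : ℕ}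
    (hp : p.Prime) (H : Subgroup G) (V' : AddSubgroup V) (hst : Stab H V')
    (hi : ∃ j, V'.index = p ^ j) (hp' : ∀ h ∈ H, ∃ j, ∀ x : V, h ^ p ^ j • x - x ∈ V') :
    ∃ k, mk p H (⊤ : AddSubgroup V) k ≤ V' := by
  obtain ⟨N, hN⟩ : ∃ N, V'.index = N := ⟨_, rfl⟩
  induction N using Nat.strong_induction_on generalizing V' with
  | _ N ih =>
    by_cases htop : V' = ⊤
    · refine ⟨0, ?_⟩
      rw [htop]
      exact le_top
    obtain ⟨j, hj⟩ := hi
    obtain ⟨v, hv, hvH⟩ := PNil_fixed hp H V' hst hj htop hp'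
    have hex : ∃ m, p ^ m • v ∈ V' := by
      refine ⟨j, ?_⟩
      have h1 : Nat.card (V ⧸ V') • ((v : V) : V ⧸ V') = 0 := card_nsmul_eq_zero'
      have h2 : Nat.card (V ⧸ V') = p ^ j := hj
      rw [h2] at h1
      rw [← QuotientAddGroup.eq_zero_iff]
      exact h1
    classical
    set m := Nat.find hex with hm
    have hm1 : p ^ m • v ∈ V' := Nat.find_spec hex
    have hm0 : m ≠ 0 := by
      intro h0
      rw [h0, pow_zero, one_smul] at hm1
      exact hv hm1
    obtain ⟨m', hm'⟩ := Nat.exists_eq_succ_of_ne_zero hm0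
    have hw : p ^ m' • v ∉ V' := fun h => by
      have := Nat.find_min' hex h
      omega
    let V'' : AddSubgroup V :=
      { carrier := {x | p • x ∈ V' ∧ ∀ h ∈ H, h • x - x ∈ V'}
        zero_mem' := by
          refine ⟨?_, fun h _ => ?_⟩
          · rw [smul_zero]; exact V'.zero_mem
          · rw [smul_zero, sub_zero]; exact V'.zero_mem
        add_mem' := by
          rintro a b ⟨ha, ha'⟩ ⟨hb, hb'⟩
          refine ⟨?_, fun h hh => ?_⟩
          · rw [smul_add]; exact V'.add_mem ha hb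
          · rw [smul_add, add_sub_add_comm]; exact V'.add_mem (ha' h hh) (hb' h hh)
        neg_mem' := by
          rintro a ⟨ha, ha'⟩
          refine ⟨?_, fun h hh => ?_⟩
          · rw [smul_neg]; exact V'.neg_mem ha
          · rw [smul_neg, neg_sub_neg, ← neg_sub]; exact V'.neg_mem (ha' h hh) }
    have hmem : ∀ x, x ∈ V'' ↔ p • x ∈ V' ∧ ∀ h ∈ H, h • x - x ∈ V' := fun _ => Iff.rfl
    have hle : V' ≤ V'' := fun x hx =>
      (hmem x).2 ⟨V'.nsmul_mem hx p, fun h hh => V'.sub_mem (hst h hh x hx) hx⟩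
    have hwm : p ^ m' • v ∈ V'' := by
      refine (hmem _).2 ⟨?_, fun h hh => ?_⟩
      · rw [smul_smul, ← pow_succ']
        rw [hm'] at hm1
        exact hm1
      · rw [smul_comm h (p ^ m') v, ← smul_sub]
        exact V'.nsmul_mem (hvH h hh) _
    have hlt : V' < V'' := lt_of_le_of_ne hle fun h => hw (h ▸ hwm)
    have hfi : V'.FiniteIndex := ⟨by rw [hj]; exact pow_ne_zero _ hp.pos.ne'⟩
    have hidx : V''.index < V'.index := AddSubgroup.index_strictAnti hlt
    have hdv : V''.index ∣ p ^ j := by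
      rw [← hj]
      exact AddSubgroup.index_dvd_of_le hle
    obtain ⟨j', _, hj'⟩ := (Nat.dvd_prime_pow hp).1 hdv
    have hst' : Stab H V'' := by
      intro h hh x hx
      have h1 : h • x - x ∈ V'' := hle (((hmem x).1 hx).2 h hh)
      have h2 := V''.add_mem h1 hx
      rwa [sub_add_cancel] at h2
    obtain ⟨k, hk⟩ := ih V''.index (hN ▸ hidx) V'' hst' ⟨j', hj'⟩
      (fun h hh => (hp' h hh).imp fun i hi x => hle (hi x)) rfl
    refine ⟨k + 1, ?_⟩
    rw [mk, AddSubgroup.closure_le]
    rintro y ⟨x, hx, rfl | ⟨h, hh, rfl⟩⟩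
    · exact ((hmem x).1 (hk hx)).1
    · exact ((hmem x).1 (hk hx)).2 h hh

end Pool.Agent.Lib.MP_ae9e3a_al
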