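import Pool.Agent.Lib.MP_ae9e3a_al.AccMod
import Pool.Agent.Lib.MP_ae9e3a_al.PNil
import Pool.Agent.Lib.MP_ae9e3a_al.ClAug

set_option autoImplicit false

/-!
# VPP module AccTop: the ascending chain condition for closed submodules

PROOF of `mk_small`: `ModP` and `pgroup_nil`.
PROOF of `acc_top`. `acc_mod` with `W = ⊤` and `v` from `gen_mk1` (`W = ⊤`). The hypothesis `hcl` of
`acc_mod`: `N` closed and for all `k` there is `y ∈ N` with `x - y ∈ mk p H ⊤ k`. For every open
`V'` as in `ModP` there is `k` with `mk k ≤ V'` (`pgroup_nil`), so `x ∈ N + V'`; `N` is closed, so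
`x ∈ N` (if not, `{z | x - z ∉ N}`... take `U = {u | x - u ∉ N}`, a neighbourhood of `0`, and
`V' ⊆ U`).
PROOF of `fgen_of_closed`. `𝒩` = the set of the closures (`AddSubgroup.topologicalClosure`) of the
subgroups generated by `{h • s | h ∈ H, s ∈ S'}`, `S'` a finite subset of `W`: closed, `H`-stable
(continuity of `h •`), contained in `W`, nonempty (`S' = ∅`). A maximal element `N` is `W`:
for `w ∈ W` enlarge `S'` by `w`.
-/

namespace Pool.Agent.Lib.MP_ae9e3a_al

variable {G V : Type*} [Group G] [TopologicalSpace G] [IsTopologicalGroup G] [AddCommGroup V]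
  [TopologicalSpace V] [IsTopologicalAddGroup V] [CompactSpace V] [T2Space V]
  [DistribMulAction G V] [ContinuousSMul G V]

omit [TopologicalSpace G] [IsTopologicalGroup G] [IsTopologicalAddGroup V] [CompactSpace V]
  [T2Space V] [ContinuousSMul G V] in
theorem mk_small {p : ℕ} (hp : p.Prime) {H : Subgroup G} (hV : ModP p H V) :
    ∀ U ∈ nhds (0 : V), ∃ k, (mk p H (⊤ : AddSubgroup V) k : Set V) ⊆ U := by
  intro U hU
  obtain ⟨V', h1, -, h3, h4, h5⟩ := hV U hU
  obtain ⟨k, hk⟩ := pgroup_nil hp H V' h1 h3 h4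
  exact ⟨k, fun x hx => h5 (hk hx)⟩

theorem acc_top {p : ℕ} (hp : p.Prime) {K H : Subgroup G} {S : Finset G} (hG : Good p K H S)
    (hS : TopGen K H S) (hK : ∀ g ∈ K, ∀ x : V, g • x = x) (hV : ModP p H V)
    (hF : FGen H (⊤ : AddSubgroup V)) (𝒩 : Set (AddSubgroup V)) (hne : 𝒩.Nonempty)
    (hc : ∀ N ∈ 𝒩, IsClosed (N : Set V)) (hst : ∀ N ∈ 𝒩, Stab H N) :
    ∃ N ∈ 𝒩, ∀ N' ∈ 𝒩, N ≤ N' → N' = N := by
  have hW : Stab H (⊤ : AddSubgroup V) := fun _ _ _ _ => AddSubgroup.mem_top _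
  obtain ⟨r, v, hv, hgen⟩ := gen_mk1 hp hS (W := (⊤ : AddSubgroup V))
    (by rw [AddSubgroup.coe_top]; exact isClosed_univ) hW (fun g hg x _ => hK g hg x) hF
  refine acc_mod hp hG hW (fun g hg x _ => hK g hg x) v hv hgen 𝒩 hne (fun N _ => le_top) hst ?_
  intro N hN x _ hx
  refine hV.proPAdd.mem_of_forall (hc N hN) x ?_
  intro V' hV' _
  obtain ⟨k, hk⟩ := mk_small hp hV _ (hV'.mem_nhds V'.zero_mem)
  obtain ⟨y, hy, hxy⟩ := hx k
  exact ⟨y, hy, hk hxy⟩

omit [TopologicalSpace G] [IsTopologicalGroup G] [AddCommGroup V] [TopologicalSpace V]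
  [IsTopologicalAddGroup V] [CompactSpace V] [T2Space V] [DistribMulAction G V]
  [ContinuousSMul G V] in
private theorem acctop_stab {V : Type*} [AddCommGroup V] [TopologicalSpace V]
    [IsTopologicalAddGroup V] [DistribMulAction G V] [ContinuousConstSMul G V] {H : Subgroup G}
    (S : Finset V) :
    Stab H (AddSubgroup.closure
      {y : V | ∃ h ∈ H, ∃ s ∈ S, y = h • s}).topologicalClosure := by
  intro g hg x hx
  have h1 : g • x ∈ closure ((fun z : V => g • z) ''
      (AddSubgroup.closure {y : V | ∃ h ∈ H, ∃ s ∈ S, y = h • s} : Set V)) :=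
    image_closure_subset_closure_image (continuous_const_smul g) (Set.mem_image_of_mem _ hx)
  refine closure_mono ?_ h1
  rintro _ ⟨z, hz, rfl⟩
  have h3 : z ∈ (AddSubgroup.closure {y : V | ∃ h ∈ H, ∃ s ∈ S, y = h • s}).comap
      (DistribSMul.toAddMonoidHom V g) := by
    refine (AddSubgroup.closure_le _).mpr ?_ hz
    rintro w ⟨h, hh, s, hs, rfl⟩
    exact AddSubgroup.subset_closure ⟨g * h, H.mul_mem hg hh, s, hs, by
      rw [mul_smul]; rfl⟩
  exact h3

theorem fgen_of_closed {p : ℕ} (hp : p.Prime) {K H : Subgroup G} {S : Finset G}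
    (hG : Good p K H S) (hS : TopGen K H S) (hK : ∀ g ∈ K, ∀ x : V, g • x = x)
    (hV : ModP p H V) (hF : FGen H (⊤ : AddSubgroup V)) {W : AddSubgroup V}
    (hWc : IsClosed (W : Set V)) (hW : Stab H W) : FGen H W := by
  classical
  let 𝒩 : Set (AddSubgroup V) := {N | ∃ S' : Finset V, (∀ s ∈ S', s ∈ W) ∧
    N = (AddSubgroup.closure {y : V | ∃ h ∈ H, ∃ s ∈ S', y = h • s}).topologicalClosure}
  have hne : 𝒩.Nonempty := ⟨_, ∅, fun s hs => absurd hs (Finset.notMem_empty s), rfl⟩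
  obtain ⟨N, ⟨S', hS', rfl⟩, hmax⟩ := acc_top hp hG hS hK hV hF 𝒩 hne
    (by
      rintro N ⟨S', -, rfl⟩
      exact AddSubgroup.isClosed_topologicalClosure _)
    (by
      rintro N ⟨S', -, rfl⟩
      exact acctop_stab S')
  refine ⟨S', hS', fun w hw => ?_⟩
  have h1 := hmax _ ⟨insert w S', (by
      intro s hs
      rcases Finset.mem_insert.mp hs with rfl | hs
      · exact hw
      · exact hS' s hs), rfl⟩ (by
      refine AddSubgroup.topologicalClosure_mono (AddSubgroup.closure_mono ?_)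
      rintro y ⟨h, hh, s, hs, rfl⟩
      exact ⟨h, hh, s, Finset.mem_insert_of_mem hs, rfl⟩)
  have h2 : w ∈ (AddSubgroup.closure
      {y : V | ∃ h ∈ H, ∃ s ∈ insert w S', y = h • s}).topologicalClosure :=
    AddSubgroup.le_topologicalClosure _ (AddSubgroup.subset_closure
      ⟨1, H.one_mem, w, Finset.mem_insert_self w S', (one_smul G w).symm⟩)
  rw [h1] at h2
  exact h2

end Pool.Agent.Lib.MP_ae9e3a_al
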