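import Pool.Agent.Lib.MP_ae9e3a_al.AR
import Pool.Agent.Lib.MP_ae9e3a_al.AccTop

set_option autoImplicit false

/-!
# VPP module ARTop: the Artin-Rees lemma for compact modules

PROOF. First `wk p H A W 0 d` is closed for all `d`: induction on `d`, `closed_aug` with
`W := wk p H A W 0 d` (stable under `H ≥ A`: `wk_stab`; `≤ W` by `wk_le`, `mk_le`, so `K` acts
trivially); `wk p H A W 0 (d+1)` is the closure in `closed_aug` by definition. Then apply `ar` with
`v` from `gen_mk1`. `hcl`: `x ∈ wk 0 d` and for all `k` there is `y ∈ N₀` with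
`x - y ∈ wk k d ≤ mk p H W k ≤ mk p H ⊤ k` (`wk_le`, `mk_mono`); as `mk p H ⊤ k` is small
(`mk_small`) and `N₀` is closed, `x ∈ N₀`. `hsep`: `mk p H W k ≤ mk p H ⊤ k` is small and `V` is
Hausdorff.
-/

namespace Pool.Agent.Lib.MP_ae9e3a_al

variable {G V : Type*} [Group G] [TopologicalSpace G] [IsTopologicalGroup G] [AddCommGroup V]
  [TopologicalSpace V] [IsTopologicalAddGroup V] [CompactSpace V] [T2Space V]
  [DistribMulAction G V] [ContinuousSMul G V]

theorem ar_top {p : ℕ} (hp : p.Prime) {K A H : Subgroup G} {S T : Finset G}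
    (hG : GoodA p K A H S T) (hS : TopGen K H S) (hT : TopGen K A T) (hV : ModP p H V)
    {W : AddSubgroup V} (hWc : IsClosed (W : Set V)) (hW : Stab H W)
    (hK : ∀ g ∈ K, ∀ x ∈ W, g • x = x) (hF : FGen H W) {N₀ : AddSubgroup V}
    (hNc : IsClosed (N₀ : Set V)) (hN : N₀ ≤ W) (hst : Stab H N₀)
    (hA : ∀ a ∈ A, ∀ x ∈ N₀, a • x = x) :
    ∃ n, IsClosed (wk p H A W 0 n : Set V) ∧ N₀ ⊓ wk p H A W 0 n = ⊥ := by
  have hn := hG.normal
  have hAH := hG.leH
  have hclosed : ∀ d, IsClosed (wk p H A W 0 d : Set V) := by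
    intro d
    induction d with
    | zero =>
      rw [wk]
      exact hWc
    | succ d ih =>
      have hle : wk p H A W 0 d ≤ W := wk_le p H A W hW hAH hn 0 d
      rw [wk]
      exact (closed_aug hT ih
        (fun a ha x hx => wk_stab p H A W hW hAH hn 0 d a (hAH ha) x hx)
        (fun g hg x hx => hK g hg x (hle hx))).1
  obtain ⟨r, v, hv, hgen⟩ := gen_mk1 hp hS hWc hW hK hF
  obtain ⟨n, hbot⟩ := ar hp hG hW hK v hv hgen N₀ hN hst hA (by
    intro d x _ hk
    by_contra hx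
    have hU : {u : V | x - u ∉ N₀} ∈ nhds (0 : V) := by
      have ho : IsOpen {u : V | x - u ∉ N₀} := by
        have h1 : IsOpen ((N₀ : Set V)ᶜ) := hNc.isOpen_compl
        exact h1.preimage (continuous_const.sub continuous_id)
      refine ho.mem_nhds ?_
      show x - 0 ∉ N₀
      rwa [sub_zero]
    obtain ⟨k, hkU⟩ := mk_small hp hV _ hU
    obtain ⟨y, hy, hxy⟩ := hk k
    have h1 : x - y ∈ mk p H (⊤ : AddSubgroup V) k :=
      mk_mono p H W ⊤ le_top k (wk_le p H A W hW hAH hn k d hxy)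
    have h2 : x - (x - y) ∉ N₀ := hkU h1
    rw [sub_sub_cancel] at h2
    exact h2 hy.1) (by
    intro x hx
    by_contra hne
    have hU : {u : V | u ≠ x} ∈ nhds (0 : V) :=
      isOpen_ne.mem_nhds (fun h => hne h.symm)
    obtain ⟨k, hkU⟩ := mk_small hp hV _ hU
    exact hkU (mk_mono p H W ⊤ le_top k (hx k)) rfl)
  exact ⟨n, hclosed n, hbot⟩

end Pool.Agent.Lib.MP_ae9e3a_al
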