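import Mathlib

/-!
# Ascending chain condition without completions

An additive group `M` with a decreasing filtration `F` and additive endomorphisms `T_i` of degree
one whose commutators have degree three; `M` is topologically generated, over the non-commutative
polynomials in the `T_i`, by finitely many elements `v_l`.  Then every non-empty family of closed
`T_i`-stable subgroups has a maximal element.  To a closed subgroup `N` we attach the submodule of
`MvPolynomial (Fin n) ℤ ^ s` of all tuples `P` with `∑ ev (P_l)_k v_l ∈ N + F (k+1)` for all `k`,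
where `ev` replaces monomials by words in the `T_i` (the order of the letters does not matter).
-/

set_option autoImplicit false

namespace Pool.Agent.Lib.MP_ae9e3a_al

open MvPolynomial

section

variable {M : Type*} [AddCommGroup M] {n : ℕ} (T : Fin n → AddMonoid.End M)

/-- The operator given by a word in the `T_i`. -/
def wordOp (L : List (Fin n)) : AddMonoid.End M := (L.map T).prod

@[simp] theorem wordOp_nil : wordOp T [] = 1 := rfl

theorem wordOp_cons (i : Fin n) (L : List (Fin n)) (x : M) :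
    wordOp T (i :: L) x = T i (wordOp T L x) := by
  simp [wordOp]

variable {T} {F : ℕ → AddSubgroup M}

theorem wordOp_mem (FT : ∀ i k x, x ∈ F k → T i x ∈ F (k + 1)) (L : List (Fin n)) :
    ∀ (k : ℕ) (x : M), x ∈ F k → wordOp T L x ∈ F (k + L.length) := by
  induction L with
  | nil => intro k x hx; simpa using hx
  | cons i L ih =>
    intro k x hx
    rw [wordOp_cons]
    have := FT i _ _ (ih k x hx)
    simpa [add_assoc] using this

theorem wordOp_perm (FT : ∀ i k x, x ∈ F k → T i x ∈ F (k + 1))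
    (Fcomm : ∀ i j k x, x ∈ F k → T i (T j x) - T j (T i x) ∈ F (k + 3))
    {L L' : List (Fin n)} (h : L.Perm L') :
    ∀ (k : ℕ) (x : M), x ∈ F k → wordOp T L x - wordOp T L' x ∈ F (k + L.length + 1) := by
  induction h with
  | nil => intro k x _; simp
  | @cons i L L' h ih =>
    intro k x hx
    rw [wordOp_cons, wordOp_cons, ← map_sub]
    have := FT i _ _ (ih k x hx)
    have e : k + (i :: L).length + 1 = k + L.length + 1 + 1 := by simp; ring
    rw [e]
    exact this
  | swap i j L =>
    intro k x hx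
    simp only [wordOp_cons]
    have := Fcomm j i _ _ (wordOp_mem FT L k x hx)
    have e : k + (j :: i :: L).length + 1 = k + L.length + 3 := by simp; ring
    rw [e]
    exact this
  | @trans L₁ L₂ L₃ h₁ h₂ ih₁ ih₂ =>
    intro k x hx
    have a := ih₁ k x hx
    have b := ih₂ k x hx
    rw [← h₁.length_eq] at b
    have := add_mem a b
    rwa [sub_add_sub_cancel] at this

variable (T)

/-- The operator of a monomial: a word containing `i` exactly `α i` times. -/
noncomputable def monOp (α : Fin n →₀ ℕ) : AddMonoid.End M :=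
  wordOp T (Finsupp.toMultiset α).toList

theorem monOp_zero : monOp T (0 : Fin n →₀ ℕ) = 1 := by
  simp [monOp]

variable {T}

theorem length_monOp (α : Fin n →₀ ℕ) :
    (Finsupp.toMultiset α).toList.length = α.degree := by
  rw [Multiset.length_toList, Finsupp.card_toMultiset, Finsupp.degree_eq_sum]
  simp [Finsupp.sum_fintype]

theorem monOp_mem (FT : ∀ i k x, x ∈ F k → T i x ∈ F (k + 1)) (α : Fin n →₀ ℕ) (k : ℕ) (x : M)
    (hx : x ∈ F k) : monOp T α x ∈ F (k + α.degree) := by
  have := wordOp_mem FT (Finsupp.toMultiset α).toList k x hx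
  rwa [length_monOp] at this

theorem monOp_single_add (FT : ∀ i k x, x ∈ F k → T i x ∈ F (k + 1))
    (Fcomm : ∀ i j k x, x ∈ F k → T i (T j x) - T j (T i x) ∈ F (k + 3))
    (i : Fin n) (α : Fin n →₀ ℕ) (k : ℕ) (x : M) (hx : x ∈ F k) :
    monOp T (Finsupp.single i 1 + α) x - T i (monOp T α x) ∈ F (k + α.degree + 2) := by
  have hp : (Finsupp.toMultiset (Finsupp.single i 1 + α)).toList.Perm
      (i :: (Finsupp.toMultiset α).toList) := by
    rw [← Multiset.coe_eq_coe, Multiset.coe_toList, ← Multiset.cons_coe, Multiset.coe_toList,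
      map_add, Finsupp.toMultiset_single, one_smul, Multiset.singleton_add]
  have := wordOp_perm FT Fcomm hp k x hx
  rw [wordOp_cons, length_monOp] at this
  have e : k + (Finsupp.single i 1 + α).degree + 1 = k + α.degree + 2 := by
    rw [map_add, Finsupp.degree_single]; ring
  rw [e] at this
  exact this

variable (T)

/-- The value at `x` of the operator of a polynomial. -/
noncomputable def ev (x : M) : MvPolynomial (Fin n) ℤ →ₗ[ℤ] M :=
  (MvPolynomial.basisMonomials (Fin n) ℤ).constr ℤ (fun α => monOp T α x)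

theorem ev_monomial (x : M) (α : Fin n →₀ ℕ) (c : ℤ) :
    ev T x (monomial α c) = c • monOp T α x := by
  have h : monomial α c = c • (MvPolynomial.basisMonomials (Fin n) ℤ) α := by
    rw [coe_basisMonomials, smul_monomial]; simp
  rw [h, map_smul, ev, Module.Basis.constr_basis]

theorem ev_C (c : ℤ) (x : M) : ev T x (C c) = c • x := by
  rw [C_apply, ev_monomial, monOp_zero]
  rfl

theorem ev_C_mul (c : ℤ) (P : MvPolynomial (Fin n) ℤ) (x : M) :
    ev T x (C c * P) = c • ev T x P := by
  rw [← smul_eq_C_mul, map_smul]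

variable {T}

theorem ev_X_mul (FT : ∀ i k x, x ∈ F k → T i x ∈ F (k + 1))
    (Fcomm : ∀ i j k x, x ∈ F k → T i (T j x) - T j (T i x) ∈ F (k + 3))
    (i : Fin n) {d : ℕ} {P : MvPolynomial (Fin n) ℤ} (hP : P.IsHomogeneous d) (k : ℕ) (x : M)
    (hx : x ∈ F k) : ev T x (X i * P) - T i (ev T x P) ∈ F (k + d + 2) := by
  have e0 : ev T x (X i * P) - T i (ev T x P) = ∑ α ∈ P.support, coeff α P •
      (monOp T (Finsupp.single i 1 + α) x - T i (monOp T α x)) := by
    conv_lhs => rw [P.as_sum, Finset.mul_sum, map_sum, map_sum, map_sum,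
      ← Finset.sum_sub_distrib]
    refine Finset.sum_congr rfl fun α _ => ?_
    have e : (X i * monomial α (coeff α P) : MvPolynomial (Fin n) ℤ) =
        monomial (Finsupp.single i 1 + α) (coeff α P) := by
      rw [X, monomial_mul, one_mul]
    rw [e, ev_monomial, ev_monomial, map_zsmul, smul_sub]
  rw [e0]
  refine sum_mem fun α hα => ?_
  have hd : α.degree = d := by
    have := hP (mem_support_iff.mp hα)
    rw [← this, Finsupp.degree_eq_weight_one]
    rfl
  have h := monOp_single_add FT Fcomm i α k x hx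
  rw [hd] at h
  exact zsmul_mem h _

theorem homogeneousComponent_succ_X_mul (i : Fin n) (P : MvPolynomial (Fin n) ℤ) (k : ℕ) :
    homogeneousComponent (k + 1) (X i * P) = X i * homogeneousComponent k P := by
  ext α
  rw [coeff_homogeneousComponent, coeff_X_mul', coeff_X_mul', coeff_homogeneousComponent]
  by_cases hi : i ∈ α.support
  · rw [if_pos hi, if_pos hi]
    have h1 : α - Finsupp.single i 1 + Finsupp.single i 1 = α := by
      apply tsub_add_cancel_of_le
      rw [Finsupp.single_le_iff]
      exact Nat.one_le_iff_ne_zero.mpr (Finsupp.mem_support_iff.mp hi)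
    have h2 : α.degree = (α - Finsupp.single i 1).degree + 1 := by
      conv_lhs => rw [← h1]
      rw [map_add, Finsupp.degree_single]
    rw [h2]
    simp
  · rw [if_neg hi, if_neg hi]
    simp

theorem homogeneousComponent_zero_X_mul (i : Fin n) (P : MvPolynomial (Fin n) ℤ) :
    homogeneousComponent 0 (X i * P) = 0 := by
  rw [homogeneousComponent_zero, coeff_X_mul']
  simp

/-- The shadow of the subgroup `N`. -/
def shadow {s : ℕ} (v : Fin s → M) (hv : ∀ l, v l ∈ F 0)
    (FT : ∀ i k x, x ∈ F k → T i x ∈ F (k + 1))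
    (Fcomm : ∀ i j k x, x ∈ F k → T i (T j x) - T j (T i x) ∈ F (k + 3))
    (N : AddSubgroup M) (hN : ∀ i, ∀ x ∈ N, T i x ∈ N) :
    Submodule (MvPolynomial (Fin n) ℤ) (Fin s → MvPolynomial (Fin n) ℤ) where
  carrier := {P | ∀ k, ∑ l, ev T (v l) (homogeneousComponent k (P l)) ∈ N ⊔ F (k + 1)}
  add_mem' := by
    intro P Q hP hQ k
    have := add_mem (hP k) (hQ k)
    rw [← Finset.sum_add_distrib] at this
    simpa using this
  zero_mem' := by
    intro k
    simp
  smul_mem' := by
    intro Q
    induction Q using MvPolynomial.induction_on with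
    | C a =>
      intro P hP k
      have h := zsmul_mem (hP k) a
      rw [Finset.smul_sum] at h
      simp only [Pi.smul_apply, smul_eq_mul, homogeneousComponent_C_mul, ev_C_mul]
      exact h
    | add Q₁ Q₂ h₁ h₂ =>
      intro P hP k
      have h := add_mem (h₁ hP k) (h₂ hP k)
      rw [← Finset.sum_add_distrib] at h
      simpa [add_mul] using h
    | mul_X Q i hQ =>
      intro P hP
      have e : (Q * X i) • P = Q • (X i • P : Fin s → MvPolynomial (Fin n) ℤ) := mul_smul _ _ _
      rw [e]
      apply hQ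
      intro k
      simp only [Pi.smul_apply, smul_eq_mul]
      rcases k with _ | k
      · simp only [homogeneousComponent_zero_X_mul, map_zero, Finset.sum_const_zero, zero_mem]
      · simp only [homogeneousComponent_succ_X_mul]
        have h1 : ∑ l, (ev T (v l) (X i * homogeneousComponent k (P l)) -
            T i (ev T (v l) (homogeneousComponent k (P l)))) ∈ F (k + 1 + 1) := by
          refine sum_mem fun l _ => ?_
          have := ev_X_mul FT Fcomm i (homogeneousComponent_isHomogeneous k (P l)) 0 (v l) (hv l)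
          rwa [zero_add] at this
        rw [Finset.sum_sub_distrib, ← map_sum] at h1
        obtain ⟨y, hy, w, hw, hyw⟩ := AddSubgroup.mem_sup.mp (hP k)
        rw [← hyw, map_add] at h1
        refine AddSubgroup.mem_sup.mpr ⟨T i y, hN i y hy, _,
          add_mem h1 (FT i _ _ hw), ?_⟩
        abel

theorem exists_poly {s : ℕ} {v : Fin s → M}
    (FT : ∀ i k x, x ∈ F k → T i x ∈ F (k + 1))
    (Fcomm : ∀ i j k x, x ∈ F k → T i (T j x) - T j (T i x) ∈ F (k + 3))
    (hv : ∀ l, v l ∈ F 0)
    (Fgen0 : ∀ x ∈ F 0, ∃ c : Fin s → ℤ, x - ∑ l, c l • v l ∈ F 1)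
    (Fgen : ∀ k, ∀ x ∈ F (k + 1), ∃ y : Fin n → M, (∀ i, y i ∈ F k) ∧
      x - ∑ i, T i (y i) ∈ F (k + 2)) :
    ∀ (k : ℕ), ∀ x ∈ F k, ∃ P : Fin s → MvPolynomial (Fin n) ℤ, (∀ l, (P l).IsHomogeneous k) ∧
      x - ∑ l, ev T (v l) (P l) ∈ F (k + 1) := by
  intro k
  induction k with
  | zero =>
    intro x hx
    obtain ⟨c, hc⟩ := Fgen0 x hx
    refine ⟨fun l => C (c l), fun l => isHomogeneous_C _ _, ?_⟩
    simpa only [ev_C] using hc
  | succ k ih =>
    intro x hx
    obtain ⟨y, hy, hxy⟩ := Fgen k x hx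
    choose Q hQ hQy using fun i => ih (y i) (hy i)
    refine ⟨fun l => ∑ i, X i * Q i l, fun l => ?_, ?_⟩
    · refine IsHomogeneous.sum _ _ _ fun i _ => ?_
      have := (isHomogeneous_X ℤ i).mul (hQ i l)
      rwa [add_comm 1 k] at this
    · have h1 : ∑ i, T i (y i - ∑ l, ev T (v l) (Q i l)) ∈ F (k + 1 + 1) :=
        sum_mem fun i _ => FT i _ _ (hQy i)
      have h2 : ∑ i, ∑ l, (ev T (v l) (X i * Q i l) - T i (ev T (v l) (Q i l))) ∈
          F (k + 1 + 1) := by
        refine sum_mem fun i _ => sum_mem fun l _ => ?_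
        have := ev_X_mul FT Fcomm i (hQ i l) 0 (v l) (hv l)
        rwa [zero_add] at this
      have h3 := sub_mem (add_mem hxy h1) h2
      convert h3 using 1
      simp only [map_sum, map_sub, Finset.sum_sub_distrib]
      rw [Finset.sum_comm (f := fun l i => ev T (v l) (X i * Q i l))]
      abel

end

set_option linter.unusedVariables false in
/-- Every non-empty family of closed `T_i`-stable subgroups of `F 0` has a maximal element. -/
theorem acc {M : Type*} [AddCommGroup M] {n s : ℕ} (T : Fin n → AddMonoid.End M) (v : Fin s → M)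
    (F : ℕ → AddSubgroup M) (Fanti : ∀ k, F (k + 1) ≤ F k)
    (FT : ∀ i k x, x ∈ F k → T i x ∈ F (k + 1))
    (Fcomm : ∀ i j k x, x ∈ F k → T i (T j x) - T j (T i x) ∈ F (k + 3))
    (hv : ∀ l, v l ∈ F 0)
    (Fgen0 : ∀ x ∈ F 0, ∃ c : Fin s → ℤ, x - ∑ l, c l • v l ∈ F 1)
    (Fgen : ∀ k, ∀ x ∈ F (k + 1), ∃ y : Fin n → M, (∀ i, y i ∈ F k) ∧
      x - ∑ i, T i (y i) ∈ F (k + 2))
    (𝒩 : Set (AddSubgroup M)) (hne : 𝒩.Nonempty) (h0 : ∀ N ∈ 𝒩, N ≤ F 0)
    (hT : ∀ N ∈ 𝒩, ∀ i, ∀ x ∈ N, T i x ∈ N)
    (hcl : ∀ N ∈ 𝒩, ∀ x ∈ F 0, (∀ k, ∃ y ∈ N, x - y ∈ F k) → x ∈ N) :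
    ∃ N ∈ 𝒩, ∀ N' ∈ 𝒩, N ≤ N' → N' = N := by
  classical
  let sh : ∀ N : 𝒩, Submodule (MvPolynomial (Fin n) ℤ) (Fin s → MvPolynomial (Fin n) ℤ) :=
    fun N => shadow v hv FT Fcomm N.1 (hT N.1 N.2)
  have hmax := (set_has_maximal_iff_noetherian (R := MvPolynomial (Fin n) ℤ)
    (M := Fin s → MvPolynomial (Fin n) ℤ)).mpr inferInstance
  obtain ⟨_, ⟨N, rfl⟩, hN⟩ := hmax (Set.range sh) (Set.range_nonempty_iff_nonempty.mpr
    hne.to_subtype)
  refine ⟨N.1, N.2, fun N' hN' hle => le_antisymm ?_ hle⟩
  have hle' : sh N ≤ sh ⟨N', hN'⟩ := by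
    intro P hP k
    exact sup_le_sup_right hle _ (hP k)
  have heq : sh ⟨N', hN'⟩ ≤ sh N := by
    by_contra hcon
    exact hN _ ⟨_, rfl⟩ (lt_of_le_not_ge hle' hcon)
  intro x hx
  refine hcl N.1 N.2 x (h0 N' hN' hx) fun k => ?_
  induction k with
  | zero => exact ⟨0, zero_mem _, by simpa using h0 N' hN' hx⟩
  | succ k ih =>
    obtain ⟨y, hy, hxy⟩ := ih
    obtain ⟨P, hP, hPx⟩ := exists_poly FT Fcomm hv Fgen0 Fgen k (x - y) hxy
    have hmem : P ∈ sh ⟨N', hN'⟩ := by
      intro j
      by_cases hj : j = k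
      · subst hj
        have e : ∀ l, homogeneousComponent j (P l) = P l := fun l =>
          homogeneousComponent_eq_self (hP l)
        simp only [e]
        refine AddSubgroup.mem_sup.mpr ⟨x - y, sub_mem hx (hle hy),
          -(x - y - ∑ l, ev T (v l) (P l)), neg_mem hPx, ?_⟩
        abel
      · have e : ∀ l, homogeneousComponent j (P l) = 0 := fun l => by
          rw [homogeneousComponent_of_mem (hP l), if_neg hj]
        simp [e]
    have h1 := heq hmem k
    have e : ∀ l, homogeneousComponent k (P l) = P l := fun l =>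
      homogeneousComponent_eq_self (hP l)
    simp only [e] at h1
    obtain ⟨y', hy', w, hw, hyw⟩ := AddSubgroup.mem_sup.mp h1
    refine ⟨y + y', add_mem hy hy', ?_⟩
    have h2 := add_mem hPx hw
    convert h2 using 1
    rw [← hyw]
    abel

end Pool.Agent.Lib.MP_ae9e3a_al
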