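import Pool.Agent.Lib.MP_ae9e3a_al.Acc

set_option autoImplicit false

/-!
# VPP module AccF: `acc` with arbitrary finite index types

PROOF. Let `e : ι ≃ Fin (Fintype.card ι)` (`Fintype.equivFin ι`) and `f : κ ≃ Fin (card κ)`; apply
`acc` with `T ∘ e.symm` and `v ∘ f.symm`. For `Fgen0`, `Fgen` transport the families with
`Equiv.sum_comp` (`Fintype.sum_equiv`).
-/

namespace Pool.Agent.Lib.MP_ae9e3a_al

theorem acc_fintype {M ι κ : Type*} [AddCommGroup M] [Fintype ι] [Fintype κ]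
    (T : ι → AddMonoid.End M) (v : κ → M)
    (F : ℕ → AddSubgroup M) (Fanti : ∀ k, F (k + 1) ≤ F k)
    (FT : ∀ i k x, x ∈ F k → T i x ∈ F (k + 1))
    (Fcomm : ∀ i j k x, x ∈ F k → T i (T j x) - T j (T i x) ∈ F (k + 3))
    (hv : ∀ l, v l ∈ F 0)
    (Fgen0 : ∀ x ∈ F 0, ∃ c : κ → ℤ, x - ∑ l, c l • v l ∈ F 1)
    (Fgen : ∀ k, ∀ x ∈ F (k + 1), ∃ y : ι → M, (∀ i, y i ∈ F k) ∧
      x - ∑ i, T i (y i) ∈ F (k + 2))
    (𝒩 : Set (AddSubgroup M)) (hne : 𝒩.Nonempty) (h0 : ∀ N ∈ 𝒩, N ≤ F 0)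
    (hT : ∀ N ∈ 𝒩, ∀ i, ∀ x ∈ N, T i x ∈ N)
    (hcl : ∀ N ∈ 𝒩, ∀ x ∈ F 0, (∀ k, ∃ y ∈ N, x - y ∈ F k) → x ∈ N) :
    ∃ N ∈ 𝒩, ∀ N' ∈ 𝒩, N ≤ N' → N' = N := by
  classical
  let e := Fintype.equivFin ι
  let f := Fintype.equivFin κ
  refine acc (fun i => T (e.symm i)) (fun l => v (f.symm l)) F Fanti
    (fun i k x hx => FT _ k x hx) (fun i j k x hx => Fcomm _ _ k x hx) (fun l => hv _) ?_ ?_
    𝒩 hne h0 (fun N hN i x hx => hT N hN _ x hx) hcl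
  · intro x hx
    obtain ⟨c, hc⟩ := Fgen0 x hx
    refine ⟨fun l => c (f.symm l), ?_⟩
    have h : ∑ l, c (f.symm l) • v (f.symm l) = ∑ l, c l • v l :=
      Equiv.sum_comp f.symm (fun l => c l • v l)
    rw [h]
    exact hc
  · intro k x hx
    obtain ⟨y, hy, hs⟩ := Fgen k x hx
    refine ⟨fun i => y (e.symm i), fun i => hy _, ?_⟩
    have h : ∑ i, T (e.symm i) (y (e.symm i)) = ∑ i, T i (y i) :=
      Equiv.sum_comp e.symm (fun i => T i (y i))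
    rw [h]
    exact hs

end Pool.Agent.Lib.MP_ae9e3a_al
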