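import Pool.Agent.Lib.MP_ae9e3a_al.AccF
import Pool.Agent.Lib.MP_ae9e3a_al.MkGen

set_option autoImplicit false

/-!
# VPP module AccMod: the ascending chain condition for closed submodules of a module over a good
group

PROOF. Apply `acc_fintype` with `M = V`, `ι = Option ↥S`, `T none = (p : AddMonoid.End V)`
(multiplication by `p`), `T (some s) = (s - 1)`, `κ = Fin s`, `F = mk p H W`. `Fanti` = `mk_anti`,
`FT` = `mk_p`, `mk_h`, `Fcomm`: if one of the operators is `p` the commutator is `0`; else
`(s-1)(s'-1)x - (s'-1)(s-1)x = s s' x - s' s x`, `mk_comm`; `Fgen` = `mk_gen`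
(`Fintype.sum_option`). `hT`: `p • x ∈ N`, `s • x - x ∈ N`.
-/

namespace Pool.Agent.Lib.MP_ae9e3a_al

/-- The operators. -/
def AccMod_T {G V : Type*} [Group G] [AddCommGroup V] [DistribMulAction G V] (p : ℕ)
    (S : Finset G) : Option ↥S → (V →+ V)
  | none => nsmulAddMonoidHom p
  | some s => DistribSMul.toAddMonoidHom V (s : G) - AddMonoidHom.id V

theorem AccMod_none {G V : Type*} [Group G] [AddCommGroup V] [DistribMulAction G V] (p : ℕ)
    (S : Finset G) (x : V) : AccMod_T p S none x = p • x := rfl

theorem AccMod_some {G V : Type*} [Group G] [AddCommGroup V] [DistribMulAction G V] (p : ℕ)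
    (S : Finset G) (s : ↥S) (x : V) : AccMod_T p S (some s) x = (s : G) • x - x := rfl

theorem acc_mod {G V : Type*} [Group G] [AddCommGroup V] [DistribMulAction G V] {p : ℕ}
    (hp : p.Prime) {K H : Subgroup G} {S : Finset G} (hG : Good p K H S) {W : AddSubgroup V}
    (hW : Stab H W) (hK : ∀ g ∈ K, ∀ x ∈ W, g • x = x) {r : ℕ} (v : Fin r → V)
    (hv : ∀ l, v l ∈ W)
    (hgen : ∀ x ∈ W, ∃ c : Fin r → ℤ, x - ∑ l, c l • v l ∈ mk p H W 1)
    (𝒩 : Set (AddSubgroup V)) (hne : 𝒩.Nonempty) (h0 : ∀ N ∈ 𝒩, N ≤ W)
    (hst : ∀ N ∈ 𝒩, Stab H N)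
    (hcl : ∀ N ∈ 𝒩, ∀ x ∈ W, (∀ k, ∃ y ∈ N, x - y ∈ mk p H W k) → x ∈ N) :
    ∃ N ∈ 𝒩, ∀ N' ∈ 𝒩, N ≤ N' → N' = N := by
  refine acc_fintype (M := V) (ι := Option ↥S) (κ := Fin r) (AccMod_T p S) v (mk p H W)
    (mk_anti p H W hW) ?_ ?_ hv hgen ?_ 𝒩 hne h0 ?_ hcl
  · intro i k x hx
    cases i with
    | none => exact mk_p p H W k x hx
    | some s => exact mk_h p H W k s (hG.sub s s.2) x hx
  · intro i j k x hx
    cases i with
    | none =>
      cases j with
      | none =>
        rw [sub_self]
        exact AddSubgroup.zero_mem _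
      | some s =>
        have h1 : AccMod_T p S (some s) (p • x) = p • AccMod_T p S (some s) x :=
          map_nsmul (AccMod_T p S (some s)) p x
        have h2 : AccMod_T p S none (AccMod_T p S (some s) x) -
            AccMod_T p S (some s) (AccMod_T p S none x) = 0 := by
          rw [AccMod_none, AccMod_none, h1, sub_self]
        have h3 : AccMod_T p S none (AccMod_T p S (some s) x) -
            AccMod_T p S (some s) (AccMod_T p S none x) ∈ mk p H W (k + 3) := by
          rw [h2]
          exact AddSubgroup.zero_mem _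
        exact h3
    | some s =>
      cases j with
      | none =>
        have h1 : AccMod_T p S (some s) (p • x) = p • AccMod_T p S (some s) x :=
          map_nsmul (AccMod_T p S (some s)) p x
        have h2 : AccMod_T p S (some s) (AccMod_T p S none x) -
            AccMod_T p S none (AccMod_T p S (some s) x) = 0 := by
          rw [AccMod_none, AccMod_none, h1, sub_self]
        have h3 : AccMod_T p S (some s) (AccMod_T p S none x) -
            AccMod_T p S none (AccMod_T p S (some s) x) ∈ mk p H W (k + 3) := by
          rw [h2]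
          exact AddSubgroup.zero_mem _
        exact h3
      | some s' =>
        have h2 : AccMod_T p S (some s) (AccMod_T p S (some s') x) -
            AccMod_T p S (some s') (AccMod_T p S (some s) x) =
            (s : G) • (s' : G) • x - (s' : G) • (s : G) • x := by
          rw [AccMod_some, AccMod_some, AccMod_some, AccMod_some, smul_sub, smul_sub]
          abel
        have h3 : AccMod_T p S (some s) (AccMod_T p S (some s') x) -
            AccMod_T p S (some s') (AccMod_T p S (some s) x) ∈ mk p H W (k + 3) := by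
          rw [h2]
          exact mk_comm hp hG hW hK k s (hG.sub s s.2) s' (hG.sub s' s'.2) x hx
        exact h3
  · intro k x hx
    obtain ⟨y₀, hy₀, y, hy, hs⟩ := mk_gen hp hG hW hK k x hx
    refine ⟨fun o => Option.elim o y₀ y, ?_, ?_⟩
    · intro o
      cases o with
      | none => exact hy₀
      | some s => exact hy s
    · rw [Fintype.sum_option]
      exact hs
  · intro N hN i x hx
    cases i with
    | none => exact AddSubgroup.nsmul_mem _ hx p
    | some s => exact AddSubgroup.sub_mem _ (hst N hN s (hG.sub s s.2) x hx) hx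

end Pool.Agent.Lib.MP_ae9e3a_al
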