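import Pool.Agent.Lib.MP_ae9e3a_al.Top

set_option autoImplicit false

/-!
# VPP module Addit: the additive version of a closed abelian normal subgroup

PROOF. `B = Additive ↥A` with the subspace topology, `G` acts by conjugation
(`g • b = ⟨g * b * g⁻¹, _⟩`), `ι b = (b.toMul : G)`. Continuity of the action: continuity of
`(g, b) ↦ g * b * g⁻¹`. Compact: `A` is closed. `ModP p P B`: for a neighbourhood `U` of `0` there is
an open normal subgroup `V` of `G` with `ι ⁻¹' V ⊆ U` (`Basis1`, subspace topology);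
`V' = {b | ι b ∈ V}` is open, stable; its index is `[A : A ∩ V]`, which divides `[P : P ∩ V]`, a
power of `p` (see `proP_of_le`); for `h ∈ P` there is `j` with `h ^ p ^ j ∈ V`
(`exists_pow_mem`) and then `ι (h ^ p ^ j • b - b) = h ^ p ^ j * ι b * (h ^ p ^ j)⁻¹ * (ι b)⁻¹ ∈ V`.
-/

namespace Pool.Agent.Lib.MP_ae9e3a_al

universe u

theorem exists_additive {G : Type u} [Group G] [TopologicalSpace G] [IsTopologicalGroup G]
    [CompactSpace G] [T2Space G] {p : ℕ} (hp : p.Prime) {P A : Subgroup G} (hS : Setup p P A) :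
    ∃ (B : Type u) (_ : AddCommGroup B) (_ : TopologicalSpace B) (_ : IsTopologicalAddGroup B)
      (_ : CompactSpace B) (_ : T2Space B) (_ : DistribMulAction G B) (_ : ContinuousSMul G B)
      (ι : B → G), Continuous ι ∧ Function.Injective ι ∧ Set.range ι = (A : Set G) ∧
      (∀ b c, ι (b + c) = ι b * ι c) ∧ (∀ (g : G) b, ι (g • b) = g * ι b * g⁻¹) ∧
      ModP p P B := by
  let cg : CommGroup ↥A :=
    { (inferInstance : Group ↥A) with mul_comm := fun x y => Subtype.ext (hS.abel _ x.2 _ y.2) }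
  have hAn := hS.An
  have hcA : CompactSpace ↥A := isCompact_iff_compactSpace.mp hS.Ac.isCompact
  let ι : Additive ↥A → G := fun b => ((Additive.toMul b : ↥A) : G)
  have hιc : Continuous ι := continuous_subtype_val.comp continuous_toMul
  have hιinj : Function.Injective ι := fun b c h =>
    Additive.toMul.injective (Subtype.ext h)
  have hιadd : ∀ b c, ι (b + c) = ι b * ι c := fun _ _ => rfl
  have hιsub : ∀ b c, ι (b - c) = ι b * (ι c)⁻¹ := fun b c => by
    have h1 : b - c + c = b := sub_add_cancel b c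
    have h2 := hιadd (b - c) c
    rw [h1] at h2
    rw [h2, mul_inv_cancel_right]
  have hιmem : ∀ b, ι b ∈ A := fun b => (Additive.toMul b).2
  let act : DistribMulAction G (Additive ↥A) :=
    { smul := fun g b => Additive.ofMul ⟨g * ι b * g⁻¹, hAn.conj_mem _ (hιmem b) g⟩
      one_smul := fun b => hιinj (by
        change 1 * ι b * 1⁻¹ = ι b
        rw [one_mul, inv_one, mul_one])
      mul_smul := fun g h b => hιinj (by
        change g * h * ι b * (g * h)⁻¹ = g * (h * ι b * h⁻¹) * g⁻¹
        group)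
      smul_zero := fun g => hιinj (by
        change g * 1 * g⁻¹ = 1
        group)
      smul_add := fun g b c => hιinj (by
        change g * (ι b * ι c) * g⁻¹ = (g * ι b * g⁻¹) * (g * ι c * g⁻¹)
        group) }
  have hιact : ∀ (g : G) b, ι (g • b) = g * ι b * g⁻¹ := fun _ _ => rfl
  have hcs : ContinuousSMul G (Additive ↥A) := by
    refine ⟨?_⟩
    have h1 : Continuous fun q : G × Additive ↥A => q.1 * ι q.2 * q.1⁻¹ :=
      (continuous_fst.mul (hιc.comp continuous_snd)).mul continuous_fst.inv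
    exact continuous_ofMul.comp (Continuous.subtype_mk h1 fun q =>
      hAn.conj_mem _ (hιmem q.2) q.1)
  have hT2 : T2Space (Additive ↥A) := T2Space.of_injective_continuous hιinj hιc
  refine ⟨Additive ↥A, inferInstance, inferInstance, inferInstance, inferInstance, hT2,
    act, hcs, ι, hιc, hιinj, ?_, hιadd, hιact, ?_⟩
  · ext g
    constructor
    · rintro ⟨b, rfl⟩
      exact hιmem b
    · intro hg
      exact ⟨Additive.ofMul ⟨g, hg⟩, rfl⟩
  · intro U hU
    have hind : Topology.IsInducing ι := ⟨rfl⟩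
    rw [hind.nhds_eq_comap] at hU
    obtain ⟨W, hW, hWU⟩ := hU
    have hι0 : ι 0 = 1 := rfl
    rw [hι0] at hW
    obtain ⟨V, hVn, hVo, hVW⟩ := hS.basis W hW
    let V' : AddSubgroup (Additive ↥A) :=
      { carrier := {b | ι b ∈ V}
        zero_mem' := V.one_mem
        add_mem' := fun {a b} ha hb => V.mul_mem ha hb
        neg_mem' := fun {a} ha => V.inv_mem ha }
    refine ⟨V', ?_, hVo.preimage hιc, ?_, ?_, ?_⟩
    · intro h _ b hb
      exact hVn.conj_mem _ hb h
    · obtain ⟨j, hj⟩ := proP_of_le hp hS.Pp hS.AP V hVn hVo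
      refine ⟨j, ?_⟩
      rw [← hj, Subgroup.relIndex, ← Subgroup.index_toAddSubgroup]
      rfl
    · intro h hh
      obtain ⟨j, hj⟩ := exists_pow_mem hS.Pp hh hVn hVo
      refine ⟨j, fun x => ?_⟩
      change ι (h ^ p ^ j • x - x) ∈ V
      rw [hιsub, hιact]
      have h1 : h ^ p ^ j * ι x * (h ^ p ^ j)⁻¹ * (ι x)⁻¹ =
          h ^ p ^ j * (ι x * (h ^ p ^ j)⁻¹ * (ι x)⁻¹) := by group
      rw [h1]
      exact V.mul_mem hj (hVn.conj_mem _ (V.inv_mem hj) (ι x))
    · intro b hb
      exact hWU (hVW hb)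

end Pool.Agent.Lib.MP_ae9e3a_al
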