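import Pool.Agent.Lib.MP_ae9e3a_al.Top

set_option autoImplicit false

/-!
# VPP module ChnA: closed subgroups of polyprocyclic groups

PROOF of `proc` (closed subgroups of procyclic groups are procyclic). For `V` open normal, the
subgroup `N V` is normal modulo... `M` normalises `N V`, and `M ⊆ ⟨x⟩ N V` (`closure S ⊆ S V`), so
the image of `C` in the cyclic group `M V / N V` is generated by the image of some `c ∈ C`:
`E_V = {y ∈ C | C ⊆ ⟨y⟩ N V}` is not empty. (Elementary: among the pairs (c, i) with `c ∈ C`,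
`c ∈ x ^ i N V`, `i > 0` (`i` = the finite order of `x` modulo `N V` occurs, `c = 1`), take the
smallest `i`; by division every element of `C` is in `⟨c⟩ N V`.) `E_V` is closed: if `y ∈ E_V` and
`y' ∈ C ∩ y V` then `y' ∈ E_V` (same image modulo `N V`), so `E_V` is a finite union of sets
`C ∩ y V`. `E_{V ∩ V'} ⊆ E_V ∩ E_{V'}`, so by compactness
(`IsCompact.inter_iInter_nonempty` or `CompactSpace` finite intersection property, index set = open
normal subgroups, directed) there is `y ∈ ⋂ E_V`, `y ∈ C`. Let `Y` be the closure of `⟨y⟩`,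
`Y ≤ C`; `N ⊔ Y = N * Y` is closed (`isClosed_sup`), and every `c ∈ C` is in `(N Y) V` for all `V`, so
`c ∈ N Y` (`mem_of_forall`): `c = n * ξ`, `ξ ∈ Y ≤ C`, so `n ∈ N ⊓ C`. Hence
`C ⊆ (N ⊓ C) * closure ⟨y⟩ ⊆ closure ((N ⊓ C) ⊔ ⟨y⟩)`.

PROOF of `Chn.inter`: induction on the chain: `refl`: `A ⊓ C` is closed; `step H K x`: apply `proc`
with `N = H`, `M = K`, `C := K ⊓ C` (then `H ⊓ (K ⊓ C) = H ⊓ C`).

PROOF of `Chn.subgroupOf`: by `Chn.inter` all the subgroups may be taken inside `T`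
(`A.subgroupOf T = (A ⊓ T).subgroupOf T`), then transport each step: `T` is closed, so
`Subtype.val : T → G` is a closed embedding, and `closure` in `T` of `val ⁻¹' s` is
`val ⁻¹' (closure s)` for `s ⊆ T`. (Prove the statement for chains with all terms in `T`:
`Chn A P → P ≤ T → Chn (A.subgroupOf T) (P.subgroupOf T)` by induction.)
-/

namespace Pool.Agent.Lib.MP_ae9e3a_al

variable {G : Type*} [Group G] [TopologicalSpace G] [IsTopologicalGroup G] [CompactSpace G]
  [T2Space G]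

set_option linter.unusedSectionVars false
set_option linter.unusedVariables false

private theorem ChnA_gen {N M C V : Subgroup G} (hV : V.Normal) (hVo : IsOpen (V : Set G))
    (hCM : C ≤ M) (hn : ∀ h ∈ N, ∀ k ∈ M, k * h * k⁻¹ ∈ N) (hNM : N ≤ M) {x : G} (hx : x ∈ M)
    (hgen : (M : Set G) ⊆ closure ((N ⊔ Subgroup.zpowers x : Subgroup G) : Set G)) :
    ∃ y ∈ C, ∀ c ∈ C, ∃ i : ℤ, (y ^ i)⁻¹ * c ∈ N ⊔ V := by
  have hQ : ((N ⊔ V).subgroupOf M).Normal := by
    constructor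
    intro q hq m
    rw [Subgroup.mem_subgroupOf] at hq ⊢
    obtain ⟨n, hnN, v, hv, h1⟩ := Subgroup.mem_sup_of_normal_right.1 hq
    have h2 : ((m * q * m⁻¹ : M) : G) = (m * n * (m : G)⁻¹) * (m * v * (m : G)⁻¹) := by
      simp only [Subgroup.coe_mul, Subgroup.coe_inv, ← h1]
      group
    rw [h2]
    exact mul_mem (Subgroup.mem_sup_left (hn n hnN m m.2))
      (Subgroup.mem_sup_right (hV.conj_mem v hv m))
  let φ := QuotientGroup.mk' ((N ⊔ V).subgroupOf M)
  have hker : ∀ a b : M, φ a = φ b → (a : G)⁻¹ * b ∈ N ⊔ V := by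
    intro a b h
    have := QuotientGroup.eq.1 h
    rwa [Subgroup.mem_subgroupOf] at this
  have hcyc : IsCyclic (M ⧸ (N ⊔ V).subgroupOf M) := by
    refine ⟨⟨φ ⟨x, hx⟩, ?_⟩⟩
    intro q
    obtain ⟨m, rfl⟩ := QuotientGroup.mk'_surjective _ q
    have hm : (m : G) ∈ closure ((N ⊔ Subgroup.zpowers x : Subgroup G) : Set G) := hgen m.2
    have hopen : IsOpen ((fun g : G => g⁻¹ * m) ⁻¹' (V : Set G)) :=
      hVo.preimage (by fun_prop)
    obtain ⟨s, hs1, hs2⟩ := mem_closure_iff.1 hm _ hopen (by simp [V.one_mem])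
    have hs3 : s ∈ N ⊔ Subgroup.zpowers x := hs2
    have hs4 : s ∈ ((Subgroup.zpowers x ⊔ N : Subgroup G) : Set G) := by
      rw [sup_comm]
      exact hs2
    have hs5 : s ∈ {g | ∃ n ∈ N, ∃ y ∈ Subgroup.zpowers x, g = n * y} := by
      rw [← coe_sup_of_normalizes]
      · exact hs2
      · intro y hy n hn'
        exact hn n hn' y ((Subgroup.zpowers_le.2 hx) hy)
    obtain ⟨n, hnN, y, ⟨i, hy⟩, rfl⟩ := hs5
    refine ⟨i, ?_⟩
    have hy' : x ^ i = y := hy
    show φ ⟨x, hx⟩ ^ i = φ m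
    rw [← map_zpow]
    apply QuotientGroup.eq.2
    rw [Subgroup.mem_subgroupOf]
    have h3 : (((⟨x, hx⟩ : M) ^ i)⁻¹ * m : M) = ((y⁻¹ * n * y) * ((n * y)⁻¹ * m) : G) := by
      simp only [Subgroup.coe_mul, Subgroup.coe_inv, Subgroup.coe_zpow, hy']
      group
    rw [h3]
    refine mul_mem (Subgroup.mem_sup_left ?_) (Subgroup.mem_sup_right hs1)
    have hyM : y ∈ M := by rw [← hy']; exact zpow_mem hx i
    have := hn n hnN y⁻¹ (inv_mem hyM)
    simpa using this
  obtain ⟨⟨g, hg⟩, hgg⟩ := (Subgroup.isCyclic ((C.subgroupOf M).map φ)).exists_generator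
  obtain ⟨c0, hc0, rfl⟩ := hg
  refine ⟨c0, hc0, ?_⟩
  intro c hc
  obtain ⟨i, hi⟩ := hgg ⟨φ ⟨c, hCM hc⟩, ⟨⟨c, hCM hc⟩, hc, rfl⟩⟩
  refine ⟨i, ?_⟩
  have h4 : φ (c0 ^ i) = φ ⟨c, hCM hc⟩ := by
    have := congrArg Subtype.val hi
    simpa using this
  have := hker _ _ h4
  simpa using this

theorem proc (hb : Basis1 G) {N M C : Subgroup G} (hN : IsClosed (N : Set G))
    (hM : IsClosed (M : Set G)) (hC : IsClosed (C : Set G)) (hNM : N ≤ M) (hCM : C ≤ M)
    (hn : ∀ h ∈ N, ∀ k ∈ M, k * h * k⁻¹ ∈ N) {x : G} (hx : x ∈ M)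
    (hgen : (M : Set G) ⊆ closure ((N ⊔ Subgroup.zpowers x : Subgroup G) : Set G)) :
    ∃ y ∈ C, (C : Set G) ⊆ closure (((N ⊓ C) ⊔ Subgroup.zpowers y : Subgroup G) : Set G) := by
  let ι := {V : Subgroup G // V.Normal ∧ IsOpen (V : Set G)}
  let E : ι → Set G := fun V => {y | y ∈ C ∧ ∀ c ∈ C, ∃ i : ℤ, (y ^ i)⁻¹ * c ∈ N ⊔ V.1}
  have hEne : ∀ V, (E V).Nonempty := by
    intro V
    obtain ⟨y, hy, h⟩ := ChnA_gen (C := C) V.2.1 V.2.2 hCM hn hNM hx hgen
    exact ⟨y, hy, h⟩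
  have hEcl : ∀ V, IsClosed (E V) := by
    intro V
    have := V.2.1
    apply isClosed_of_closure_subset
    intro y hy
    have hyC : y ∈ C := by
      have : y ∈ closure (C : Set G) := closure_mono (fun z hz => hz.1) hy
      rwa [hC.closure_eq] at this
    refine ⟨hyC, ?_⟩
    have hopen : IsOpen ((fun g : G => y⁻¹ * g) ⁻¹' (V.1 : Set G)) :=
      V.2.2.preimage (by fun_prop)
    obtain ⟨y', h1, h2⟩ := mem_closure_iff.1 hy _ hopen (by simp [V.1.one_mem])
    intro c hc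
    obtain ⟨i, hi⟩ := h2.2 c hc
    refine ⟨i, ?_⟩
    have h3 : (QuotientGroup.mk y : G ⧸ V.1) = QuotientGroup.mk y' := QuotientGroup.eq.2 h1
    have h4 : (QuotientGroup.mk (y ^ i) : G ⧸ V.1) = QuotientGroup.mk (y' ^ i) := by
      rw [QuotientGroup.mk_zpow, QuotientGroup.mk_zpow, h3]
    have h5 : (y ^ i)⁻¹ * y' ^ i ∈ V.1 := QuotientGroup.eq.1 h4
    have h6 : (y ^ i)⁻¹ * c = ((y ^ i)⁻¹ * y' ^ i) * ((y' ^ i)⁻¹ * c) := by group
    rw [h6]
    exact mul_mem (Subgroup.mem_sup_right h5) hi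
  have hdir : Directed (fun a b => a ⊇ b) E := by
    intro V W
    have := V.2.1
    have := W.2.1
    refine ⟨⟨V.1 ⊓ W.1, inferInstance, ?_⟩, ?_, ?_⟩
    · rw [Subgroup.coe_inf]
      exact V.2.2.inter W.2.2
    · intro y hy
      refine ⟨hy.1, fun c hc => ?_⟩
      obtain ⟨i, hi⟩ := hy.2 c hc
      exact ⟨i, (sup_le_sup_left inf_le_left N) hi⟩
    · intro y hy
      refine ⟨hy.1, fun c hc => ?_⟩
      obtain ⟨i, hi⟩ := hy.2 c hc
      exact ⟨i, (sup_le_sup_left inf_le_right N) hi⟩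
  have : Nonempty ι := ⟨⟨⊤, inferInstance, isOpen_univ⟩⟩
  obtain ⟨y, hy⟩ := IsCompact.nonempty_iInter_of_directed_nonempty_isCompact_isClosed E hdir
    hEne (fun V => (hEcl V).isCompact) hEcl
  rw [Set.mem_iInter] at hy
  have hyC : y ∈ C := (hy (Classical.arbitrary ι)).1
  refine ⟨y, hyC, ?_⟩
  let Y := (Subgroup.zpowers y).topologicalClosure
  have hYc : IsClosed (Y : Set G) := Subgroup.isClosed_topologicalClosure _
  have hYC : Y ≤ C :=
    Subgroup.topologicalClosure_minimal _ (Subgroup.zpowers_le.2 hyC) hC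
  have hYn : ∀ z ∈ Y, ∀ n ∈ N, z * n * z⁻¹ ∈ N := fun z hz n hnN => hn n hnN z (hCM (hYC hz))
  have hcl := isClosed_sup hN hYc hYn
  intro c hc
  have h1 : c ∈ ((N ⊔ Y : Subgroup G) : Set G) := by
    apply mem_of_forall hb hcl
    intro V hV hVo
    obtain ⟨i, hi⟩ := (hy ⟨V, hV, hVo⟩).2 c hc
    obtain ⟨n, hnN, v, hv, h2⟩ := Subgroup.mem_sup_of_normal_right.1 hi
    refine ⟨y ^ i * n, ?_, ?_⟩
    · exact mul_mem (Subgroup.mem_sup_right
        (Subgroup.le_topologicalClosure _ (zpow_mem (Subgroup.mem_zpowers y) i)))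
        (Subgroup.mem_sup_left hnN)
    · have h3 : (y ^ i * n)⁻¹ * c = v := by
        have : n * v = (y ^ i)⁻¹ * c := h2
        rw [mul_inv_rev, mul_assoc, ← this]
        group
      rw [h3]
      exact hv
  rw [coe_sup_of_normalizes hYn] at h1
  obtain ⟨n, hnN, ξ, hξ, rfl⟩ := h1
  have hnC : n ∈ C := by
    have := mul_mem hc (inv_mem (hYC hξ))
    simpa using this
  have hgoal : n * ξ ∈ ((N ⊓ C) ⊔ Subgroup.zpowers y).topologicalClosure := by
    refine mul_mem (Subgroup.le_topologicalClosure _ (Subgroup.mem_sup_left ⟨hnN, hnC⟩)) ?_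
    have hle : (Subgroup.zpowers y).topologicalClosure ≤
        ((N ⊓ C) ⊔ Subgroup.zpowers y).topologicalClosure :=
      Subgroup.topologicalClosure_mono le_sup_right
    exact hle hξ
  exact hgoal

private theorem ChnA_closed {A P : Subgroup G} (h : Chn A P) : IsClosed (P : Set G) := by
  cases h with
  | refl h => exact h
  | step H K x h1 h2 h3 h4 h5 h6 => exact h3

theorem Chn.inter (hb : Basis1 G) {A P C : Subgroup G} (h : Chn A P)
    (hC : IsClosed (C : Set G)) : Chn (A ⊓ C) (P ⊓ C) := by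
  induction h with
  | refl h =>
    apply Chn.refl
    rw [Subgroup.coe_inf]
    exact h.inter hC
  | step H K x h1 h2 h3 h4 h5 h6 ih =>
    have hKC : IsClosed ((K ⊓ C : Subgroup G) : Set G) := by
      rw [Subgroup.coe_inf]
      exact h3.inter hC
    obtain ⟨y, hy, hyg⟩ := proc hb (ChnA_closed h1) h3 hKC h2 inf_le_left h4 h5 h6
    refine Chn.step (H ⊓ C) (K ⊓ C) y ih (inf_le_inf_right C h2) hKC ?_ hy ?_
    · intro h hh k hk
      exact ⟨h4 h hh.1 k hk.1, C.mul_mem (C.mul_mem hk.2 hh.2) (C.inv_mem hk.2)⟩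
    · have : H ⊓ (K ⊓ C) = H ⊓ C := by
        rw [← inf_assoc, inf_eq_left.2 h2]
      rwa [this] at hyg

private theorem ChnA_sub {A P T : Subgroup G} (h : Chn A P) (hPT : P ≤ T) :
    Chn (A.subgroupOf T) (P.subgroupOf T) := by
  induction h with
  | refl h =>
    apply Chn.refl
    exact h.preimage continuous_subtype_val
  | step H K x h1 h2 h3 h4 h5 h6 ih =>
    refine Chn.step (H.subgroupOf T) (K.subgroupOf T) ⟨x, hPT h5⟩ (ih (h2.trans hPT)) ?_
      (h3.preimage continuous_subtype_val) ?_ h5 ?_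
    · intro z hz
      exact h2 hz
    · intro h hh k hk
      exact h4 h hh k hk
    · intro z hz
      rw [closure_subtype]
      have hz' : (z : G) ∈ closure ((H ⊔ Subgroup.zpowers x : Subgroup G) : Set G) := h6 hz
      have heq : Subtype.val '' ((H.subgroupOf T ⊔ Subgroup.zpowers (⟨x, hPT h5⟩ : T) :
          Subgroup T) : Set T) = ((H ⊔ Subgroup.zpowers x : Subgroup G) : Set G) := by
        have : (H.subgroupOf T ⊔ Subgroup.zpowers (⟨x, hPT h5⟩ : T)).map T.subtype =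
            H ⊔ Subgroup.zpowers x := by
          rw [Subgroup.map_sup, Subgroup.map_subgroupOf_eq_of_le (h2.trans hPT),
            MonoidHom.map_zpowers]
          rfl
        rw [← this]
        rfl
      rw [heq]
      exact hz'

theorem Chn.subgroupOf (hb : Basis1 G) {A P T : Subgroup G} (h : Chn A P)
    (hT : IsClosed (T : Set G)) : Chn (A.subgroupOf T) (P.subgroupOf T) := by
  have h1 := ChnA_sub (Chn.inter hb h hT) (T := T) inf_le_right
  rwa [Subgroup.inf_subgroupOf_right, Subgroup.inf_subgroupOf_right] at h1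

end Pool.Agent.Lib.MP_ae9e3a_al
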