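import Pool.Agent.Lib.MP_ae9e3a_al.GoodStep
import Pool.Agent.Lib.MP_ae9e3a_al.ChnA

set_option autoImplicit false

/-!
# VPP module GoodA: good subgroups containing an abelian section

PROOF. `Chn K A`: `Chn.inter` with `C = A` (`K ⊓ A = K`, `P ⊓ A = A`). `TopGen K A T` by
`Chn.topGen`. The set `Q = {z ^ p ^ 2 * k | z ∈ A, k ∈ K}` is a subgroup (modulo the normal subgroup
`K` the elements of `A` commute), normal in `G`, compact, so closed; it is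
`closure ({z ^ p ^ 2 | z ∈ A} ∪ K)`. `A / Q` is finite: `⟨T⟩ Q` is a finite union of cosets of `Q`
(modulo `Q` the elements of `A` commute and have exponent `p ^ 2`: the products
`∏ t_i ^ e_i`, `0 ≤ e_i < p ^ 2`), so it is closed, contains `K ⊔ ⟨T⟩`, so it is `A`. By
`open_in` there is an open normal `V` with `A ⊓ V ≤ Q`. Let `C = P ⊓ (V ⊔ K)` (closed: open
subgroups are closed); for `c ∈ C`, `a ∈ A`: `c a c⁻¹ a⁻¹ ∈ Q` (`c = v k`:
`[v k, a] = v [k, a] v⁻¹ [v, a] ∈ K (A ⊓ V)`, `[k, a] ∈ K` as `K` is normal). `Chn K C` by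
`Chn.inter` (`K ⊓ C = K`), and `good_all` gives `GT p K C H₁ S₁`; `H₁` is open in `G` because it
contains `C ⊓ V''` (`GT.opn`, `closure (...) ≤ H₁`). Put `H = H₁ ⊔ A = H₁ A`, `S = S₁ ∪ T`.
* `IsOpen H`: contains `H₁`; `H ≤ P`.
* `Good p K H S`: `gen`: for `h₁ a` (`A`: see `gen` below); `com`: modulo
  `Q' = closure ({z ^ p ^ 2 | z ∈ H} ∪ K)` (normalised by `H`): `[H₁, H₁] ≤ Q'` (Good of `H₁`),
  `[A, A] ≤ K`, `[H₁, A] ≤ Q ≤ Q'` because `H₁ ≤ C`.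
* `GoodA.gen`: `a ∈ A = ⟨T⟩ Q`, and `z ^ p ^ 2 * k = (z ^ p) ^ p * k`.
* `GoodA.com`: `x = h a`, `h ∈ H₁`, `a, y ∈ A`: `[h a, y] = h [a, y] h⁻¹ [h, y] ∈ K Q = Q`.
* `TopGen K H S`: `H = H₁ A ⊆ closure (K ⊔ ⟨S₁⟩) * closure (K ⊔ ⟨T⟩) ⊆ closure (K ⊔ ⟨S⟩)`.
-/

namespace Pool.Agent.Lib.MP_ae9e3a_al

variable {G : Type*} [Group G] [TopologicalSpace G] [IsTopologicalGroup G] [CompactSpace G]
  [T2Space G]

private theorem GoodA_comm {G : Type*} [Group G] {M Q : Subgroup G}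
    (hQ : ∀ m ∈ M, ∀ q ∈ Q, m * q * m⁻¹ ∈ Q) (a : G) {N Y : Subgroup G} (hN : N ≤ M)
    (hY : Y ≤ M) (h1 : ∀ n ∈ N, a * n * a⁻¹ * n⁻¹ ∈ Q) (h2 : ∀ y ∈ Y, a * y * a⁻¹ * y⁻¹ ∈ Q) :
    ∀ b ∈ N ⊔ Y, a * b * a⁻¹ * b⁻¹ ∈ Q := by
  let C : Subgroup G :=
    { carrier := {b | b ∈ M ∧ a * b * a⁻¹ * b⁻¹ ∈ Q}
      one_mem' := ⟨M.one_mem, by simp [Q.one_mem]⟩
      mul_mem' := fun {b c} hb hc => ⟨M.mul_mem hb.1 hc.1, by
        have h3 : a * (b * c) * a⁻¹ * (b * c)⁻¹ =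
            (a * b * a⁻¹ * b⁻¹) * (b * (a * c * a⁻¹ * c⁻¹) * b⁻¹) := by group
        rw [h3]
        exact Q.mul_mem hb.2 (hQ b hb.1 _ hc.2)⟩
      inv_mem' := fun {b} hb => ⟨M.inv_mem hb.1, by
        have h3 : a * b⁻¹ * a⁻¹ * b⁻¹⁻¹ = b⁻¹ * (a * b * a⁻¹ * b⁻¹)⁻¹ * b⁻¹⁻¹ := by group
        rw [h3]
        exact hQ _ (M.inv_mem hb.1) _ (Q.inv_mem hb.2)⟩ }
  have h3 : N ⊔ Y ≤ C := sup_le (fun n hn => ⟨hN hn, h1 n hn⟩) (fun y hy => ⟨hY hy, h2 y hy⟩)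
  exact fun b hb => (h3 hb).2

private theorem GoodA_norm {G : Type*} [Group G] (n : ℕ) {K M : Subgroup G} (hK : K.Normal)
    (N : Subgroup G) (hN : ∀ m ∈ N, ∀ z ∈ M, m * z * m⁻¹ ∈ M) :
    ∀ m ∈ N, ∀ q ∈ Subgroup.closure ({y | ∃ z ∈ M, y = z ^ n} ∪ (K : Set G)),
      m * q * m⁻¹ ∈ Subgroup.closure ({y | ∃ z ∈ M, y = z ^ n} ∪ (K : Set G)) := by
  intro m hm q hq
  induction hq using Subgroup.closure_induction with
  | mem q hq =>
    apply Subgroup.subset_closure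
    rcases hq with ⟨z, hz, rfl⟩ | hq
    · exact Or.inl ⟨m * z * m⁻¹, hN m hm z hz, conj_pow.symm⟩
    · exact Or.inr (hK.conj_mem q hq m)
  | one => simp
  | mul a b _ _ ha hb =>
    have h : m * (a * b) * m⁻¹ = (m * a * m⁻¹) * (m * b * m⁻¹) := by group
    rw [h]
    exact Subgroup.mul_mem _ ha hb
  | inv a _ ha =>
    have h : m * a⁻¹ * m⁻¹ = (m * a * m⁻¹)⁻¹ := by group
    rw [h]
    exact Subgroup.inv_mem _ ha

private theorem GoodA_mem {G : Type*} [Group G] (n : ℕ) {K A : Subgroup G} (hK : K.Normal)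
    (hab : ∀ x ∈ A, ∀ y ∈ A, x * y * x⁻¹ * y⁻¹ ∈ K) (g : G) :
    g ∈ Subgroup.closure ({y | ∃ z ∈ A, y = z ^ n} ∪ (K : Set G)) ↔
      ∃ z ∈ A, ∃ k ∈ K, g = z ^ n * k := by
  constructor
  · intro hg
    let φ := QuotientGroup.mk' K
    have hcomm : ∀ x ∈ A, ∀ y ∈ A, φ x * φ y = φ y * φ x := by
      intro x hx y hy
      rw [← map_mul, ← map_mul]
      apply Eq.symm
      apply QuotientGroup.eq.2
      have h1 := hab x⁻¹ (A.inv_mem hx) y⁻¹ (A.inv_mem hy)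
      have h2 : (y * x)⁻¹ * (x * y) = x⁻¹ * y⁻¹ * x⁻¹⁻¹ * y⁻¹⁻¹ := by group
      rw [h2]
      exact h1
    let S : Subgroup G :=
      { carrier := {g | ∃ z ∈ A, φ g = φ z ^ n}
        one_mem' := ⟨1, A.one_mem, by simp⟩
        mul_mem' := by
          rintro a b ⟨z, hz, h1⟩ ⟨w, hw, h2⟩
          refine ⟨z * w, A.mul_mem hz hw, ?_⟩
          rw [map_mul, h1, h2, map_mul]
          exact (Commute.mul_pow (hcomm z hz w hw) n).symm
        inv_mem' := by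
          rintro a ⟨z, hz, h1⟩
          refine ⟨z⁻¹, A.inv_mem hz, ?_⟩
          rw [map_inv, h1, map_inv, inv_pow] }
    have h1 : Subgroup.closure ({y | ∃ z ∈ A, y = z ^ n} ∪ (K : Set G)) ≤ S := by
      rw [Subgroup.closure_le]
      rintro y (⟨z, hz, rfl⟩ | hy)
      · exact ⟨z, hz, map_pow φ z n⟩
      · refine ⟨1, A.one_mem, ?_⟩
        rw [map_one, one_pow]
        exact (QuotientGroup.eq_one_iff y).2 hy
    obtain ⟨z, hz, h2⟩ := h1 hg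
    refine ⟨z, hz, (z ^ n)⁻¹ * g, ?_, by group⟩
    apply QuotientGroup.eq.1
    rw [← map_pow] at h2
    exact h2.symm
  · rintro ⟨z, hz, k, hk, rfl⟩
    exact Subgroup.mul_mem _ (Subgroup.subset_closure (Or.inl ⟨z, hz, rfl⟩))
      (Subgroup.subset_closure (Or.inr hk))

private theorem GoodA_fin {G : Type*} [Group G] {Q A : Subgroup G} (hQ : Q.Normal)
    (T : Finset G) (hT : ∀ t ∈ T, t ∈ A) {n : ℕ} (hn : 0 < n)
    (hpow : ∀ x ∈ A, x ^ n ∈ Q) (hab : ∀ x ∈ A, ∀ y ∈ A, x * y * x⁻¹ * y⁻¹ ∈ Q) :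
    ∃ X : Set G, X.Finite ∧ (∀ x ∈ X, x ∈ Q ⊔ Subgroup.closure (T : Set G)) ∧
      ∀ d ∈ Q ⊔ Subgroup.closure (T : Set G), ∃ x ∈ X, x⁻¹ * d ∈ Q := by
  classical
  let φ := QuotientGroup.mk' Q
  let E : Subgroup (G ⧸ Q) := (Subgroup.closure (T : Set G)).map φ
  have hTA : Subgroup.closure (T : Set G) ≤ A := by
    rw [Subgroup.closure_le]
    exact fun t ht => hT t (Finset.mem_coe.1 ht)
  have hcomm : ∀ x y : E, x * y = y * x := by
    rintro ⟨_, x, hx, rfl⟩ ⟨_, y, hy, rfl⟩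
    apply Subtype.ext
    show φ x * φ y = φ y * φ x
    rw [← map_mul, ← map_mul]
    apply Eq.symm
    apply QuotientGroup.eq.2
    have h1 := hab x⁻¹ (A.inv_mem (hTA hx)) y⁻¹ (A.inv_mem (hTA hy))
    have h2 : (y * x)⁻¹ * (x * y) = x⁻¹ * y⁻¹ * x⁻¹⁻¹ * y⁻¹⁻¹ := by group
    rw [h2]
    exact h1
  have hfg : Group.FG E := by
    rw [Group.fg_iff_subgroup_fg]
    refine ⟨T.image φ, ?_⟩
    rw [Finset.coe_image, ← MonoidHom.map_closure]
  have hfin : Finite E := by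
    let _ : CommGroup E := { (inferInstance : Group E) with mul_comm := hcomm }
    have htor : Monoid.IsTorsion E := by
      rintro ⟨_, x, hx, rfl⟩
      rw [isOfFinOrder_iff_pow_eq_one]
      refine ⟨n, hn, ?_⟩
      apply Subtype.ext
      show φ x ^ n = 1
      rw [← map_pow]
      exact (QuotientGroup.eq_one_iff _).2 (hpow x (hTA hx))
    exact CommGroup.finite_of_fg_torsion E htor
  have hsurj : ∀ d ∈ Q ⊔ Subgroup.closure (T : Set G), φ d ∈ E := by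
    intro d hd
    have h1 : Q ⊔ Subgroup.closure (T : Set G) ≤ E.comap φ := by
      refine sup_le ?_ ?_
      · intro q hq
        rw [Subgroup.mem_comap]
        have h2 : φ q = 1 := (QuotientGroup.eq_one_iff q).2 hq
        rw [h2]
        exact E.one_mem
      · intro t ht
        exact ⟨t, ht, rfl⟩
    exact h1 hd
  choose f hf1 hf2 using fun e : E => e.2
  refine ⟨Set.range f, Set.finite_range f, ?_, ?_⟩
  · rintro x ⟨e, rfl⟩
    exact Subgroup.mem_sup_right (hf1 e)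
  · intro d hd
    refine ⟨f ⟨φ d, hsurj d hd⟩, ⟨_, rfl⟩, ?_⟩
    apply QuotientGroup.eq.1
    exact hf2 ⟨φ d, hsurj d hd⟩

private theorem GoodA_index {p : ℕ} (hp : p.Prime) {K A : Subgroup G} (hK : K.Normal)
    (hA : A.Normal) (hAc : IsClosed (A : Set G)) (hKc : IsClosed (K : Set G))
    (hab : ∀ x ∈ A, ∀ y ∈ A, x * y * x⁻¹ * y⁻¹ ∈ K) {T : Finset G} (hT : TopGen K A T)
    {Q : Subgroup G} (hQ : Q = Subgroup.closure ({y | ∃ z ∈ A, y = z ^ (p ^ 2)} ∪ (K : Set G))) :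
    IsClosed (Q : Set G) ∧ Q.relIndex A ≠ 0 ∧ A ≤ Q ⊔ Subgroup.closure (T : Set G) := by
  have hmem : ∀ g, g ∈ Q ↔ ∃ z ∈ A, ∃ k ∈ K, g = z ^ (p ^ 2) * k := by
    intro g
    rw [hQ]
    exact GoodA_mem (p ^ 2) hK hab g
  have hQc : IsClosed (Q : Set G) := by
    have h1 : (Q : Set G) = (fun q : G × G => q.1 ^ (p ^ 2) * q.2) '' ((A : Set G) ×ˢ (K : Set G)) := by
      ext g
      constructor
      · intro hg
        obtain ⟨z, hz, k, hk, h2⟩ := (hmem g).1 hg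
        exact ⟨(z, k), ⟨hz, hk⟩, h2.symm⟩
      · rintro ⟨⟨z, k⟩, ⟨hz, hk⟩, rfl⟩
        exact (hmem _).2 ⟨z, hz, k, hk, rfl⟩
    rw [h1]
    refine ((hAc.isCompact.prod hKc.isCompact).image ?_).isClosed
    fun_prop
  have hKQ : K ≤ Q := by
    rw [hQ]
    exact fun k hk => Subgroup.subset_closure (Or.inr hk)
  have hQn : Q.Normal := by
    constructor
    intro q hq g
    rw [hQ] at hq ⊢
    exact GoodA_norm (p ^ 2) hK ⊤ (fun m _ z hz => hA.conj_mem z hz m) g (Subgroup.mem_top g) q hq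
  have hpow : ∀ x ∈ A, x ^ (p ^ 2) ∈ Q := by
    intro x hx
    exact (hmem _).2 ⟨x, hx, 1, K.one_mem, (mul_one _).symm⟩
  obtain ⟨X, hXf, hX1, hX2⟩ := GoodA_fin hQn T hT.1 (pow_pos hp.pos 2) hpow
    (fun x hx y hy => hKQ (hab x hx y hy))
  have hcl : IsClosed ((Q ⊔ Subgroup.closure (T : Set G) : Subgroup G) : Set G) := by
    have h1 : ((Q ⊔ Subgroup.closure (T : Set G) : Subgroup G) : Set G) =
        ⋃ x ∈ X, (fun g : G => x⁻¹ * g) ⁻¹' (Q : Set G) := by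
      ext g
      simp only [Set.mem_iUnion]
      constructor
      · intro hg
        obtain ⟨x, hx, h2⟩ := hX2 g hg
        exact ⟨x, hx, h2⟩
      · rintro ⟨x, hx, h2⟩
        have h3 : x * (x⁻¹ * g) = g := by group
        rw [← h3]
        exact Subgroup.mul_mem _ (hX1 x hx) (Subgroup.mem_sup_left h2)
    rw [h1]
    refine hXf.isClosed_biUnion fun x _ => ?_
    exact hQc.preimage (by fun_prop)
  have hle : A ≤ Q ⊔ Subgroup.closure (T : Set G) := by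
    intro a ha
    refine closure_minimal ?_ hcl (hT.2 ha)
    exact SetLike.coe_subset_coe.2 (sup_le_sup_right hKQ _)
  exact ⟨hQc, relIndex_ne_zero_of_cover X hXf fun m hm => hX2 m (hle hm), hle⟩

theorem good_a (hb : Basis1 G) {p : ℕ} (hp : p.Prime) {P K A : Subgroup G} (hP : ProP p P)
    (hPo : IsOpen (P : Set G)) (hK : K.Normal) (hA : A.Normal) (hAc : IsClosed (A : Set G))
    (hKA : K ≤ A) (hAP : A ≤ P) (hab : ∀ x ∈ A, ∀ y ∈ A, x * y * x⁻¹ * y⁻¹ ∈ K)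
    (hch : Chn K P) :
    ∃ (H : Subgroup G) (S T : Finset G), IsOpen (H : Set G) ∧ H ≤ P ∧ GoodA p K A H S T ∧
      TopGen K H S ∧ TopGen K A T := by
  classical
  have hKc : IsClosed (K : Set G) := hch.closed_left
  have hchA : Chn K A := by
    have h1 := Chn.inter hb hch hAc
    rwa [inf_eq_left.2 hKA, inf_eq_right.2 hAP] at h1
  obtain ⟨T, hT⟩ := hchA.topGen
  obtain ⟨Q, hQ⟩ : ∃ Q : Subgroup G,
      Q = Subgroup.closure ({y | ∃ z ∈ A, y = z ^ (p ^ 2)} ∪ (K : Set G)) := ⟨_, rfl⟩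
  obtain ⟨hQc, hi, hAT⟩ := GoodA_index hp hK hA hAc hKc hab hT hQ
  have hKQ : K ≤ Q := by
    rw [hQ]
    exact fun k hk => Subgroup.subset_closure (Or.inr hk)
  have hQA : Q ≤ A := by
    rw [hQ, Subgroup.closure_le]
    rintro y (⟨z, hz, rfl⟩ | hy)
    · exact A.pow_mem hz _
    · exact hKA hy
  have hQn : ∀ m ∈ (⊤ : Subgroup G), ∀ q ∈ Q, m * q * m⁻¹ ∈ Q := by
    rw [hQ]
    exact GoodA_norm (p ^ 2) hK ⊤ (fun m _ z hz => hA.conj_mem z hz m)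
  obtain ⟨V, hVn, hVo, hV⟩ := open_in hb hAc hQc hQA hi
  obtain ⟨C, hC⟩ : ∃ C : Subgroup G, C = P ⊓ (V ⊔ K) := ⟨_, rfl⟩
  have hVKo : IsOpen ((V ⊔ K : Subgroup G) : Set G) := Subgroup.isOpen_mono le_sup_left hVo
  have hCo : IsOpen (C : Set G) := by
    rw [hC, Subgroup.coe_inf]
    exact hPo.inter hVKo
  have hCc : IsClosed (C : Set G) := Subgroup.isClosed_of_isOpen C hCo
  have hCP : C ≤ P := by
    rw [hC]
    exact inf_le_left
  have hKC : K ≤ C := by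
    rw [hC]
    exact le_inf (hKA.trans hAP) le_sup_right
  have hcom : ∀ c ∈ C, ∀ a ∈ A, c * a * c⁻¹ * a⁻¹ ∈ Q := by
    intro c hc a ha
    rw [hC] at hc
    obtain ⟨v, hv, k, hk, h1⟩ := Subgroup.mem_sup_of_normal_right.1 hc.2
    have h1' : v * k = c := h1
    have h2 : c * a * c⁻¹ * a⁻¹ =
        (v * (k * (a * k⁻¹ * a⁻¹)) * v⁻¹) * (v * a * v⁻¹ * a⁻¹) := by
      rw [← h1']
      group
    rw [h2]
    refine Q.mul_mem (hQn v (Subgroup.mem_top v) _ (hKQ (K.mul_mem hk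
      (hK.conj_mem _ (K.inv_mem hk) a)))) (hV ⟨?_, ?_⟩)
    · exact A.mul_mem (hA.conj_mem a ha v) (A.inv_mem ha)
    · have h3 : v * a * v⁻¹ * a⁻¹ = v * (a * v⁻¹ * a⁻¹) := by group
      rw [h3]
      exact V.mul_mem hv (hVn.conj_mem _ (V.inv_mem hv) a)
  have hchC : Chn K C := by
    have h1 := Chn.inter hb hch hCc
    rwa [inf_eq_left.2 hKC, inf_eq_right.2 hCP] at h1
  obtain ⟨H₁, S₁, hG⟩ := good_all hb hp hP hK hchC hCP
  have hH₁o : IsOpen (H₁ : Set G) := by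
    obtain ⟨W, hWn, hWo, hW⟩ := hG.opn
    have h1 : C ⊓ W ≤ H₁ := by
      refine hW.trans ?_
      rw [Subgroup.closure_le]
      rintro y (⟨z, hz, rfl⟩ | hy)
      · exact H₁.pow_mem hz _
      · exact hG.good.le hy
    refine Subgroup.isOpen_mono h1 ?_
    rw [Subgroup.coe_inf]
    exact hCo.inter hWo
  have hAgen : ∀ h ∈ A, h ∈ Subgroup.closure ((T : Set G) ∪ {y | ∃ z ∈ A, y = z ^ p} ∪ K) := by
    have h1 : Q ⊔ Subgroup.closure (T : Set G) ≤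
        Subgroup.closure ((T : Set G) ∪ {y | ∃ z ∈ A, y = z ^ p} ∪ K) := by
      refine sup_le ?_ (Subgroup.closure_mono fun t ht => Or.inl (Or.inl ht))
      rw [hQ, Subgroup.closure_le]
      rintro y (⟨z, hz, rfl⟩ | hy)
      · apply Subgroup.subset_closure
        exact Or.inl (Or.inr ⟨z ^ p, A.pow_mem hz p, by rw [← pow_mul, sq]⟩)
      · exact Subgroup.subset_closure (Or.inr hy)
    exact fun h hh => h1 (hAT hh)
  have hAcom : ∀ x ∈ H₁ ⊔ A, ∀ y ∈ A, x * y * x⁻¹ * y⁻¹ ∈ Q := by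
    intro x hx y hy
    have h1 := GoodA_comm hQn y (N := H₁) (Y := A) le_top le_top
      (fun n hn => by
        have h2 : y * n * y⁻¹ * n⁻¹ = (n * y * n⁻¹ * y⁻¹)⁻¹ := by group
        rw [h2]
        exact Q.inv_mem (hcom n (hG.le hn) y hy))
      (fun n hn => hKQ (hab y hy n hn)) x hx
    have h2 : x * y * x⁻¹ * y⁻¹ = (y * x * y⁻¹ * x⁻¹)⁻¹ := by group
    rw [h2]
    exact Q.inv_mem h1
  have hsub : ∀ s ∈ S₁ ∪ T, s ∈ H₁ ⊔ A := by
    intro s hs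
    rcases Finset.mem_union.1 hs with hs | hs
    · exact (le_sup_left : H₁ ≤ H₁ ⊔ A) (hG.good.sub s hs)
    · exact (le_sup_right : A ≤ H₁ ⊔ A) (hT.1 s hs)
  refine ⟨H₁ ⊔ A, S₁ ∪ T, T, Subgroup.isOpen_mono le_sup_left hH₁o,
    sup_le (hG.le.trans hCP) hAP,
    ⟨⟨hKA.trans le_sup_right, hsub, ?_, ?_⟩, hKA, le_sup_right, hT.1, hAgen, ?_, hab⟩,
    ⟨hsub, ?_⟩, hT⟩
  · -- generation
    have h1 : H₁ ⊔ A ≤ Subgroup.closure (((S₁ ∪ T : Finset G) : Set G) ∪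
        {y : G | ∃ z ∈ H₁ ⊔ A, y = z ^ p} ∪ (K : Set G)) := by
      refine sup_le (fun n hn => Subgroup.closure_mono ?_ (hG.good.gen n hn))
        (fun n hn => Subgroup.closure_mono ?_ (hAgen n hn))
      · rintro z ((hz | ⟨z', hz', rfl⟩) | hz)
        · exact Or.inl (Or.inl (Finset.mem_coe.2 (Finset.mem_union_left _ (Finset.mem_coe.1 hz))))
        · exact Or.inl (Or.inr ⟨z', (le_sup_left : H₁ ≤ H₁ ⊔ A) hz', rfl⟩)
        · exact Or.inr hz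
      · rintro z ((hz | ⟨z', hz', rfl⟩) | hz)
        · exact Or.inl (Or.inl (Finset.mem_coe.2 (Finset.mem_union_right _ (Finset.mem_coe.1 hz))))
        · exact Or.inl (Or.inr ⟨z', (le_sup_right : A ≤ H₁ ⊔ A) hz', rfl⟩)
        · exact Or.inr hz
    exact fun g hg => h1 hg
  · -- commutators
    obtain ⟨Q', hQ'⟩ : ∃ Q' : Subgroup G,
        Q' = Subgroup.closure ({y | ∃ z ∈ H₁ ⊔ A, y = z ^ (p ^ 2)} ∪ (K : Set G)) := ⟨_, rfl⟩
    have hQQ' : Q ≤ Q' := by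
      rw [hQ, hQ']
      apply Subgroup.closure_mono
      rintro z (⟨z', hz', rfl⟩ | hz)
      · exact Or.inl ⟨z', (le_sup_right : A ≤ H₁ ⊔ A) hz', rfl⟩
      · exact Or.inr hz
    have hQ1 : Subgroup.closure ({y | ∃ z ∈ H₁, y = z ^ (p ^ 2)} ∪ (K : Set G)) ≤ Q' := by
      rw [hQ']
      apply Subgroup.closure_mono
      rintro z (⟨z', hz', rfl⟩ | hz)
      · exact Or.inl ⟨z', (le_sup_left : H₁ ≤ H₁ ⊔ A) hz', rfl⟩
      · exact Or.inr hz
    have hnorm : ∀ m ∈ H₁ ⊔ A, ∀ q ∈ Q', m * q * m⁻¹ ∈ Q' := by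
      rw [hQ']
      exact GoodA_norm (p ^ 2) hK (H₁ ⊔ A) (fun m hm z hz =>
        Subgroup.mul_mem _ (Subgroup.mul_mem _ hm hz) (Subgroup.inv_mem _ hm))
    have hinv : ∀ a b : G, a * b * a⁻¹ * b⁻¹ ∈ Q' → b * a * b⁻¹ * a⁻¹ ∈ Q' := by
      intro a b hab
      have h1 : b * a * b⁻¹ * a⁻¹ = (a * b * a⁻¹ * b⁻¹)⁻¹ := by group
      rw [h1]
      exact Q'.inv_mem hab
    have h1 : ∀ a ∈ H₁, ∀ b ∈ H₁ ⊔ A, a * b * a⁻¹ * b⁻¹ ∈ Q' := fun a ha =>
      GoodA_comm hnorm a le_sup_left le_sup_right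
        (fun n hn0 => hQ1 (hG.good.com a ha n hn0))
        (fun ξ hξ => hQQ' (hcom a (hG.le ha) ξ hξ))
    have h2 : ∀ a ∈ A, ∀ b ∈ H₁ ⊔ A, a * b * a⁻¹ * b⁻¹ ∈ Q' := fun a ha b hb' =>
      hinv _ _ (hQQ' (hAcom b hb' a ha))
    intro a ha b hb'
    rw [← hQ']
    exact hinv _ _ (GoodA_comm hnorm b le_sup_left le_sup_right
      (fun n hn0 => hinv _ _ (h1 n hn0 b hb')) (fun ξ hξ => hinv _ _ (h2 ξ hξ b hb')) a ha)
  · -- commutators with A
    rw [← hQ]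
    exact hAcom
  · -- topological generation
    have h1 : H₁ ⊔ A ≤ (K ⊔ Subgroup.closure ((S₁ ∪ T : Finset G) : Set G)).topologicalClosure := by
      refine sup_le ?_ ?_
      · refine (ChnB_le_of_subset hG.top.2).trans (Subgroup.topologicalClosure_mono
          (sup_le_sup_left (Subgroup.closure_mono ?_) _))
        intro s hs
        exact Finset.mem_coe.2 (Finset.mem_union_left _ (Finset.mem_coe.1 hs))
      · refine (ChnB_le_of_subset hT.2).trans (Subgroup.topologicalClosure_mono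
          (sup_le_sup_left (Subgroup.closure_mono ?_) _))
        intro s hs
        exact Finset.mem_coe.2 (Finset.mem_union_right _ (Finset.mem_coe.1 hs))
    exact fun g hg => h1 hg

end Pool.Agent.Lib.MP_ae9e3a_al
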