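import Pool.Agent.Lib.MP_ae9e3a_al.ChnB

set_option autoImplicit false

/-!
# VPP module NSerEx: a polyprocyclic group has a closed normal series with abelian factors

PROOF. Induction on the chain, statement: for `Chn A H` and every closed normal (in `G`) subgroup
`X` with `A ≤ X ≤ H` there is `m` with `NSer A X m`.
`refl`: `X = A`, `m = 0`, `N = fun _ => A`.
`step H K x`: `[K, K] ≤ H`: the map `(a, b) ↦ a b a⁻¹ b⁻¹` is continuous, `H` is closed and
`K ⊆ closure (H ⊔ ⟨x⟩)`; for `a, b ∈ H ⊔ ⟨x⟩ = H ⟨x⟩` the commutator is in `H` (`H` is normal in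
`K ∋ x`, and `(H ⟨x⟩) / H` is cyclic). Let `X ≤ K`, and
`X' = (⁅X, X⁆ ⊔ A).topologicalClosure`: closed, normal in `G` (`Subgroup.commutator_normal`,
`Subgroup.is_normal_topologicalClosure`), `A ≤ X' ≤ X`, `X' ≤ H`. By induction `NSer A X' m`, with
`N`; then `NSer A X (m+1)` with `N' i = if i ≤ m then N i else X`.
-/

namespace Pool.Agent.Lib.MP_ae9e3a_al

variable {G : Type*} [Group G] [TopologicalSpace G] [IsTopologicalGroup G] [CompactSpace G]
  [T2Space G]

omit [CompactSpace G] [T2Space G] in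
private theorem nserEx_comm {H K : Subgroup G} {x : G} (hH : IsClosed (H : Set G))
    (hn : ∀ h ∈ H, ∀ k ∈ K, k * h * k⁻¹ ∈ H) (hx : x ∈ K)
    (hK : (K : Set G) ⊆ closure ((H ⊔ Subgroup.zpowers x : Subgroup G) : Set G)) :
    ∀ a ∈ K, ∀ b ∈ K, a * b * a⁻¹ * b⁻¹ ∈ H := by
  have h1 : ∀ y ∈ Subgroup.zpowers x, ∀ n ∈ H, y * n * y⁻¹ ∈ H := fun y hy n hn' =>
    hn n hn' y ((Subgroup.zpowers_le.mpr hx) hy)
  have h2 := coe_sup_of_normalizes h1
  have h3 : ∀ a ∈ (H ⊔ Subgroup.zpowers x : Subgroup G),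
      ∀ b ∈ (H ⊔ Subgroup.zpowers x : Subgroup G), a * b * a⁻¹ * b⁻¹ ∈ H := by
    intro a ha b hb
    have ha' : a ∈ {g | ∃ n ∈ H, ∃ y ∈ Subgroup.zpowers x, g = n * y} := by rw [← h2]; exact ha
    have hb' : b ∈ {g | ∃ n ∈ H, ∃ y ∈ Subgroup.zpowers x, g = n * y} := by rw [← h2]; exact hb
    obtain ⟨n, hn1, y, hy, rfl⟩ := ha'
    obtain ⟨n', hn1', y', hy', rfl⟩ := hb'
    have hc : y * y' = y' * y := by
      obtain ⟨i, rfl⟩ := Subgroup.mem_zpowers_iff.mp hy
      obtain ⟨j, rfl⟩ := Subgroup.mem_zpowers_iff.mp hy'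
      rw [← zpow_add, ← zpow_add, add_comm]
    have hc' : y * y' * y⁻¹ = y' := by rw [hc, mul_inv_cancel_right]
    have e : n * y * (n' * y') * (n * y)⁻¹ * (n' * y')⁻¹ =
        n * (y * n' * y⁻¹) * (y' * n⁻¹ * y'⁻¹) * n'⁻¹ := by
      calc n * y * (n' * y') * (n * y)⁻¹ * (n' * y')⁻¹ =
          n * (y * n' * y⁻¹) * (y * y' * y⁻¹) * n⁻¹ * y'⁻¹ * n'⁻¹ := by group
        _ = n * (y * n' * y⁻¹) * (y' * n⁻¹ * y'⁻¹) * n'⁻¹ := by rw [hc']; group
    rw [e]
    exact H.mul_mem (H.mul_mem (H.mul_mem hn1 (h1 y hy n' hn1')) (h1 y' hy' _ (H.inv_mem hn1)))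
      (H.inv_mem hn1')
  have h4 : closure (((H ⊔ Subgroup.zpowers x : Subgroup G) : Set G) ×ˢ
      ((H ⊔ Subgroup.zpowers x : Subgroup G) : Set G)) ⊆
      (fun q : G × G => q.1 * q.2 * q.1⁻¹ * q.2⁻¹) ⁻¹' (H : Set G) := by
    refine closure_minimal ?_ (hH.preimage (by fun_prop))
    rintro ⟨a, b⟩ ⟨ha, hb⟩
    exact h3 a ha b hb
  intro a ha b hb
  have h5 : (a, b) ∈ closure (((H ⊔ Subgroup.zpowers x : Subgroup G) : Set G) ×ˢ
      ((H ⊔ Subgroup.zpowers x : Subgroup G) : Set G)) := by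
    rw [closure_prod_eq]
    exact ⟨hK ha, hK hb⟩
  exact h4 h5

omit [CompactSpace G] [T2Space G] in
private theorem nserEx_aux {A H : Subgroup G} (h : Chn A H) (hA : A.Normal) :
    ∀ X : Subgroup G, X.Normal → IsClosed (X : Set G) → A ≤ X → X ≤ H → ∃ m, NSer A X m := by
  induction h with
  | refl hc =>
    intro X hXn hXc hAX hXA
    have e : X = A := le_antisymm hXA hAX
    subst e
    exact ⟨0, fun _ => X, rfl, rfl, fun _ _ => ⟨hXn, hXc⟩, fun i hi => absurd hi (Nat.not_lt_zero i)⟩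
  | step H K x hch hHK hKc hn hx hK ih =>
    intro X hXn hXc hAX hXK
    have hcomm := nserEx_comm hch.closed_right hn hx hK
    have hcX : ⁅X, X⁆ ≤ X := Subgroup.commutator_le.mpr fun a ha b hb => by
      rw [commutatorElement_def]
      exact X.mul_mem (X.mul_mem (X.mul_mem ha hb) (X.inv_mem ha)) (X.inv_mem hb)
    have hcH : ⁅X, X⁆ ≤ H := Subgroup.commutator_le.mpr fun a ha b hb => by
      rw [commutatorElement_def]
      exact hcomm a (hXK ha) b (hXK hb)
    have hn0 : (⁅X, X⁆ ⊔ A).Normal := Subgroup.sup_normal _ _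
    have hn' : ((⁅X, X⁆ ⊔ A).topologicalClosure).Normal :=
      Subgroup.is_normal_topologicalClosure _
    have hle : (⁅X, X⁆ ⊔ A).topologicalClosure ≤ X :=
      Subgroup.topologicalClosure_minimal _ (sup_le hcX hAX) hXc
    have hleH : (⁅X, X⁆ ⊔ A).topologicalClosure ≤ H :=
      Subgroup.topologicalClosure_minimal _ (sup_le hcH hch.le) hch.closed_right
    obtain ⟨m, N, hN0, hNm, hNn, hNc⟩ := ih _ hn' (Subgroup.isClosed_topologicalClosure _)
      (le_sup_right.trans (Subgroup.le_topologicalClosure _)) hleH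
    refine ⟨m + 1, fun i => if i ≤ m then N i else X, ?_, ?_, ?_, ?_⟩
    · simp only [Nat.zero_le, if_true]
      exact hN0
    · simp only [Nat.not_succ_le_self, if_false]
    · intro i hi
      by_cases him : i ≤ m
      · simp only [him, if_true]
        exact hNn i him
      · simp only [him, if_false]
        exact ⟨hXn, hXc⟩
    · intro i hi
      rcases Nat.lt_or_ge i m with him | him
      · simp only [him.le, Nat.succ_le_of_lt him, if_true]
        exact hNc i him
      · have e : i = m := le_antisymm (Nat.lt_succ_iff.mp hi) him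
        subst e
        simp only [le_refl, Nat.not_succ_le_self, if_true, if_false]
        rw [hNm]
        refine ⟨hle, fun a ha b hb => ?_⟩
        have h6 := Subgroup.commutator_mem_commutator ha hb
        rw [commutatorElement_def] at h6
        exact Subgroup.le_topologicalClosure _ (Subgroup.mem_sup_left h6)

theorem Chn.nser {A P : Subgroup G} (h : Chn A P) (hA : A.Normal) (hP : P.Normal) :
    ∃ m, NSer A P m :=
  nserEx_aux h hA P hP h.closed_right h.le le_rfl

end Pool.Agent.Lib.MP_ae9e3a_al
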