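import Pool.Agent.Lib.MP_ae9e3a_al.ZpMod
import Pool.Agent.Lib.MP_ae9e3a_al.ClAug
import Pool.Agent.Lib.MP_ae9e3a_al.WkBas

set_option autoImplicit false

/-!
# VPP module RankStep: if `(A - 1)^n W = 0` and the fixed points of `A` in `W` are finitely generated
over `ℤ_p` then so is `W`

`wk p H A W 0 n` is the `n`-fold augmentation `(A - 1)^n W` (it does not depend on `p`, `H`).
`wk_shift`: `(A-1)^(n+1) W = (A-1)^n ((A-1) W)`: induction on `n` (both sides are
`closure {a • x - x | x ∈ ...}` of the previous ones).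

PROOF of `rank_step`. Choose the module structure (`exists_zp`, `hV`). Induction on `n`,
for all `W`. `n = 0`: `W = ⊥`. `n + 1`: let `W' = wk p H A W 0 1`, closed (`closed_aug`), stable under
`A` (`a • (b • x - x) = (a b a⁻¹) • (a • x) - a • x`), `W' ≤ W` (so `K` acts trivially on it and
`W' ⊓ Fix A V` is a closed subgroup of `W ⊓ Fix A V`, hence finitely generated: by `fgen_iff` these
are submodules of a Noetherian `ℤ_[p]`-module; closed subgroups are submodules,
`zp_mem_of_closed`), and `wk p H A W' 0 n = ⊥` by `wk_shift`: so `W'` is finitely generated by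
induction. The `ℤ_[p]`-linear map `f : W → (↥T → W')`, `f x t = t • x - x` (linear by `zp_linear`,
`x ↦ t • x - x` is continuous) has the kernel `W ⊓ Fix A V`: if `t • x = x` for all `t ∈ T` then the
stabiliser of `x` is closed and contains `K` and `T`, so `A` (`TopGen`). Kernel and image
are finitely generated (`ℤ_[p]` is Noetherian), so `W` is
(`Submodule.fg_of_fg_map_of_fg_inf_ker`).
-/

namespace Pool.Agent.Lib.MP_ae9e3a_al

theorem wk_shift {G V : Type*} [Group G] [AddCommGroup V] [DistribMulAction G V] (p : ℕ)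
    (H A : Subgroup G) (W : AddSubgroup V) (n : ℕ) :
    wk p H A W 0 (n + 1) = wk p H A (wk p H A W 0 1) 0 n := by
  induction n with
  | zero => conv_rhs => rw [wk]
  | succ n ih =>
    conv_lhs => rw [wk]
    conv_rhs => rw [wk]
    rw [ih]

theorem rankStep_fg {V : Type*} [AddCommGroup V] {p : ℕ} [Fact p.Prime] [Module ℤ_[p] V]
    {N N' : Submodule ℤ_[p] V} (hN : N.FG) (h : N' ≤ N) : N'.FG :=
  isNoetherian_submodule.1 (isNoetherian_of_fg_of_noetherian N hN) N' h

/-- a closed subgroup as a submodule -/
def rankStep_sub {V : Type*} [AddCommGroup V] [TopologicalSpace V] {p : ℕ} [Fact p.Prime]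
    [Module ℤ_[p] V] [ContinuousSMul ℤ_[p] V] (W : AddSubgroup V) (hW : IsClosed (W : Set V)) :
    Submodule ℤ_[p] V where
  carrier := W
  zero_mem' := W.zero_mem
  add_mem' := fun ha hb => W.add_mem ha hb
  smul_mem' := fun c x hx => zp_mem_of_closed hW c x hx

theorem rankStep_fgen {G V : Type*} [Group G] [AddCommGroup V] [TopologicalSpace V]
    [IsTopologicalAddGroup V] [T2Space V] [DistribMulAction G V] {p : ℕ} [Fact p.Prime]
    [Module ℤ_[p] V] [ContinuousSMul ℤ_[p] V] {W : AddSubgroup V} (hW : IsClosed (W : Set V)) :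
    FGen (⊥ : Subgroup G) W ↔ (rankStep_sub (p := p) W hW).FG := by
  rw [fgen_iff (p := p) hW]
  constructor
  · rintro ⟨N, hN, hNW⟩
    have : rankStep_sub (p := p) W hW = N := by
      ext x
      have h1 : x ∈ (N : Set V) ↔ x ∈ (W : Set V) := by rw [hNW]
      exact h1.symm
    rw [this]
    exact hN
  · intro h
    exact ⟨_, h, rfl⟩

theorem rankStep_fix_closed {G V : Type*} [Group G] [TopologicalSpace G]
    [AddCommGroup V] [TopologicalSpace V] [T2Space V] [DistribMulAction G V]
    [ContinuousSMul G V] (A : Subgroup G) : IsClosed (Fix A V : Set V) := by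
  have h1 : (Fix A V : Set V) = ⋂ h ∈ A, {x : V | h • x = x} := by
    ext x
    simp only [Set.mem_iInter, Set.mem_ofPred_eq]
    exact Iff.rfl
  rw [h1]
  exact isClosed_biInter fun h _ => isClosed_eq (continuous_const_smul h) continuous_id

theorem rank_step {G V : Type*} [Group G] [TopologicalSpace G] [IsTopologicalGroup G]
    [AddCommGroup V] [TopologicalSpace V] [IsTopologicalAddGroup V] [CompactSpace V] [T2Space V]
    [DistribMulAction G V] [ContinuousSMul G V] {p : ℕ} (hp : p.Prime) (hV : ProPAdd p V)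
    {K A : Subgroup G} (H : Subgroup G) {T : Finset G} (hT : TopGen K A T) (n : ℕ)
    (W : AddSubgroup V) (hWc : IsClosed (W : Set V)) (hW : Stab A W)
    (hK : ∀ g ∈ K, ∀ x ∈ W, g • x = x) (hfix : FGen (⊥ : Subgroup G) (W ⊓ Fix A V))
    (hn : wk p H A W 0 n = ⊥) : FGen (⊥ : Subgroup G) W := by
  have : Fact p.Prime := ⟨hp⟩
  obtain ⟨M, hM⟩ := exists_zp hV
  induction n generalizing W with
  | zero =>
    have hW0 : W = ⊥ := by
      rw [wk] at hn
      exact hn
    refine ⟨∅, by simp, ?_⟩
    rw [hW0]
    intro x hx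
    have hx0 : x = 0 := hx
    rw [hx0]
    exact subset_closure (AddSubgroup.zero_mem _)
  | succ n ih =>
    have hW'def : wk p H A W 0 1 = AddSubgroup.closure {y : V | ∃ x ∈ W, ∃ a ∈ A, y = a • x - x} := by
      rw [wk, wk]
    set W' := wk p H A W 0 1 with hW'
    have hW'c : IsClosed (W' : Set V) := by
      rw [hW'def]
      exact (closed_aug hT hWc hW hK).1
    have hW'W : W' ≤ W := by
      rw [hW'def, AddSubgroup.closure_le]
      rintro y ⟨x, hx, a, ha, rfl⟩
      exact W.sub_mem (hW a ha x hx) hx
    have hW'gen : ∀ a ∈ A, ∀ x ∈ W, a • x - x ∈ W' := by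
      intro a ha x hx
      rw [hW'def]
      exact AddSubgroup.subset_closure ⟨x, hx, a, ha, rfl⟩
    have hW's : Stab A W' := by
      intro a ha x hx
      have h1 := W'.add_mem (hW'gen a ha x (hW'W hx)) hx
      rwa [sub_add_cancel] at h1
    have hfixc : IsClosed ((W ⊓ Fix A V : AddSubgroup V) : Set V) :=
      hWc.inter (rankStep_fix_closed A)
    have hfixc' : IsClosed ((W' ⊓ Fix A V : AddSubgroup V) : Set V) :=
      hW'c.inter (rankStep_fix_closed A)
    have hfixN := (rankStep_fgen (p := p) hfixc).1 hfix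
    have hfix' : FGen (⊥ : Subgroup G) (W' ⊓ Fix A V) := by
      refine (rankStep_fgen (p := p) hfixc').2 (rankStep_fg hfixN ?_)
      intro x hx
      exact ⟨hW'W hx.1, hx.2⟩
    have hIH : FGen (⊥ : Subgroup G) W' := by
      refine ih W' hW'c hW's (fun g hg x hx => hK g hg x (hW'W hx)) hfix' ?_
      rw [hW', ← wk_shift]
      exact hn
    have hN' := (rankStep_fgen (p := p) hW'c).1 hIH
    have : Module.Finite ℤ_[p] (rankStep_sub (p := p) W' hW'c) := Module.Finite.of_fg hN'
    let L : ↥T → V →ₗ[ℤ_[p]] V := fun t =>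
      { toFun := fun x => (t : G) • x - x
        map_add' := fun x y => by
          rw [smul_add]
          abel
        map_smul' := fun c x => by
          have h1 := zp_linear (p := p)
            (DistribSMul.toAddMonoidHom V (t : G) - AddMonoidHom.id V)
            ((continuous_const_smul (t : G)).sub continuous_id) c x
          exact h1 }
    have hL : ∀ t x, L t x = (t : G) • x - x := fun _ _ => rfl
    let f : V →ₗ[ℤ_[p]] (↥T → V) := LinearMap.pi L
    let g : (↥T → rankStep_sub (p := p) W' hW'c) →ₗ[ℤ_[p]] (↥T → V) :=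
      LinearMap.pi fun t => (rankStep_sub (p := p) W' hW'c).subtype ∘ₗ LinearMap.proj t
    have hg : (LinearMap.range g).FG := by
      rw [LinearMap.range_eq_map]
      exact Submodule.FG.map _ Module.Finite.fg_top
    refine (rankStep_fgen (p := p) hWc).2
      (Submodule.fg_of_fg_map_of_fg_inf_ker f ?_ ?_)
    · refine isNoetherian_submodule.1 (isNoetherian_of_fg_of_noetherian _ hg) _ ?_
      rintro _ ⟨x, hx, rfl⟩
      refine ⟨fun t => ⟨(t : G) • x - x, hW'gen t (hT.1 t t.2) x hx⟩, ?_⟩
      rfl
    · refine rankStep_fg hfixN ?_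
      rintro x ⟨hx, hxk⟩
      refine ⟨hx, ?_⟩
      have hxW : x ∈ W := hx
      have h1 : ∀ t ∈ T, t • x = x := by
        intro t ht
        have h2 : f x = 0 := hxk
        have h3 : f x ⟨t, ht⟩ = 0 := by
          rw [h2]
          rfl
        have h4 : t • x - x = 0 := h3
        exact sub_eq_zero.1 h4
      have hcl : IsClosed {a : G | a • x = x} :=
        isClosed_eq (continuous_id.smul continuous_const) continuous_const
      have hle : K ⊔ Subgroup.closure (T : Set G) ≤ MulAction.stabilizer G x := by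
        refine sup_le (fun k hk => hK k hk x hxW) ?_
        rw [Subgroup.closure_le]
        intro t ht
        exact h1 t ht
      intro a ha
      have h5 := hT.2 ha
      exact closure_minimal (fun b hb => hle hb) hcl h5

end Pool.Agent.Lib.MP_ae9e3a_al
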