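import Pool.Agent.Lib.MP_ae9e3a_al.ARTop
import Pool.Agent.Lib.MP_ae9e3a_al.RankStep
import Pool.Agent.Lib.MP_ae9e3a_al.GoodA
import Pool.Agent.Lib.MP_ae9e3a_al.NSerEx

set_option autoImplicit false

/-!
# VPP module FinRank: an essential trivial submodule forces finite rank

PROOF. Let `N : ℕ → Subgroup G` be the series of `Chn.nser` (`N 0 = D`, `N m = P`). CLAIM for
`i ≤ m` (descending induction): `FGen ⊥ (Fix (N i) V)`. For `i = 0` this is the theorem, because
`D` acts trivially: `Fix D V = ⊤`.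
All `Fix (N i) V` are closed (intersections of equalisers) and `Stab ⊤` (`N i` is normal in `G`).
(F) for every open `H ≤ P` with `D ≤ H` and every closed `W` with `Stab ⊤ W`: `FGen H W`. Proof:
`Chn D H` (`Chn.inter` with `C = H`, `D ⊓ H = D`, `P ⊓ H = H`; open subgroups are closed),
`good_all` gives `GT p D H H₁ S₁`; `H₁` is open (it contains `H ⊓ V'`), `FGen H₁ ⊤` by
`FGen.of_relIndex` (from `hF`, `H₁` has finite index), `ModP p H₁ V` by `ModP.mono`; so
`fgen_of_closed` gives `FGen H₁ W`, and `FGen H W` by `FGen.mono`.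
`i = m`: `FGen P (Fix P V)` by (F), `P` acts trivially, so `FGen ⊥` (`FGen.of_trivial`).
Step from `i + 1` to `i` (`i < m`): `K = N i`, `A = N (i+1)`. `Chn K P`: `Chn.sup` of `Chn D P` with
`B = K` (`D ⊔ K = K`, `P ⊔ K = P`). `good_a` gives `H`, `S`, `T` (`H` open, `D ≤ K ≤ H ≤ P`). Let
`W = Fix K V`; `FGen H W` by (F). `N₀ ≤ Fix P V ≤ W`. `ar_top` gives `n` with `wk p H A W 0 n` closed
and `N₀ ⊓ wk p H A W 0 n = ⊥`; `wk p H A W 0 n` is `Stab ⊤` (`wk_stab_of_normal`), so it is `⊥` by
`hess`. `W ⊓ Fix A V = Fix A V` (`K ≤ A`) is `FGen ⊥` by induction, and `rank_step` gives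
`FGen ⊥ W`.
-/

namespace Pool.Agent.Lib.MP_ae9e3a_al

/-- A good closed subgroup of an open subgroup is open. -/
theorem GT.isOpen {G : Type*} [Group G] [TopologicalSpace G] [IsTopologicalGroup G] {p : ℕ}
    {K N N₀ : Subgroup G} {S : Finset G} (h : GT p K N N₀ S) (hN : IsOpen (N : Set G)) :
    IsOpen (N₀ : Set G) := by
  obtain ⟨V, _, hVo, hV⟩ := h.opn
  have h1 : IsOpen ((N ⊓ V : Subgroup G) : Set G) := by
    rw [Subgroup.coe_inf]
    exact hN.inter hVo
  refine Subgroup.isOpen_mono (hV.trans ?_) h1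
  rw [Subgroup.closure_le]
  rintro y (⟨z, hz, rfl⟩ | hy)
  · exact N₀.pow_mem hz _
  · exact h.good.le hy

theorem fix_closed {G V : Type*} [Group G] [TopologicalSpace G] [AddCommGroup V]
    [TopologicalSpace V] [T2Space V] [DistribMulAction G V] [ContinuousSMul G V]
    (H : Subgroup G) : IsClosed (Fix H V : Set V) := by
  have : (Fix H V : Set V) = ⋂ h ∈ H, {x : V | h • x = x} := by
    ext x
    simp only [Set.mem_iInter, Set.mem_ofPred_eq]
    rfl
  rw [this]
  exact isClosed_biInter fun h _ => isClosed_eq (continuous_const_smul h) continuous_id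

theorem fix_stab {G V : Type*} [Group G] [AddCommGroup V] [DistribMulAction G V]
    (H : Subgroup G) (hH : H.Normal) : Stab (⊤ : Subgroup G) (Fix H V) := by
  intro g _ x hx h hh
  have h1 : (g⁻¹ * h * g) • x = x := by
    apply hx
    have := hH.conj_mem h hh g⁻¹
    simpa using this
  calc h • g • x = g • ((g⁻¹ * h * g) • x) := by
        rw [← mul_smul, ← mul_smul]
        congr 1
        group
    _ = g • x := by rw [h1]

theorem Stab.mono {G V : Type*} [Group G] [AddCommGroup V] [DistribMulAction G V]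
    {H H' : Subgroup G} {W : AddSubgroup V} (h : Stab H W) (hH : H' ≤ H) : Stab H' W :=
  fun g hg x hx => h g (hH hg) x hx

/-- For every open `H ≤ P` containing `D`, the closed stable subgroups are finitely generated. -/
theorem fgen_open {G V : Type*} [Group G] [TopologicalSpace G] [IsTopologicalGroup G]
    [CompactSpace G] [T2Space G] [AddCommGroup V] [TopologicalSpace V] [IsTopologicalAddGroup V]
    [CompactSpace V] [T2Space V] [DistribMulAction G V] [ContinuousSMul G V]
    {p : ℕ} (hp : p.Prime) {P D : Subgroup G} (hS : Setup p P D) (hV : ModP p P V)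
    (hD : ∀ d ∈ D, ∀ x : V, d • x = x) (hF : FGen (⊤ : Subgroup G) (⊤ : AddSubgroup V))
    {H : Subgroup G} (hH : IsOpen (H : Set G)) (hDH : D ≤ H) (hHP : H ≤ P) {W : AddSubgroup V}
    (hWc : IsClosed (W : Set V)) (hW : Stab H W) : FGen H W := by
  have hch : Chn D H := by
    have h1 := hS.chn.inter hS.basis (Subgroup.isClosed_of_isOpen H hH)
    rwa [inf_eq_left.2 hDH, inf_eq_right.2 hHP] at h1
  obtain ⟨H₁, S₁, hGT⟩ := good_all hS.basis hp hS.Pp hS.An hch hHP
  have hH₁ := hGT.isOpen hH
  have h1 : FGen H₁ (⊤ : AddSubgroup V) :=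
    hF.of_relIndex le_top (fun _ _ _ _ => AddSubgroup.mem_top _) (by
      rw [Subgroup.relIndex_top_right]
      exact index_ne_zero_of_isOpen hH₁)
  have h2 : ModP p H₁ V := hV.mono (hGT.le.trans hHP)
  exact (fgen_of_closed hp hGT.good hGT.top hD h2 h1 hWc (hW.mono hGT.le)).mono hGT.le

theorem fin_rank {G V : Type*} [Group G] [TopologicalSpace G] [IsTopologicalGroup G]
    [CompactSpace G] [T2Space G] [AddCommGroup V] [TopologicalSpace V] [IsTopologicalAddGroup V]
    [CompactSpace V] [T2Space V] [DistribMulAction G V] [ContinuousSMul G V]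
    {p : ℕ} (hp : p.Prime) {P D : Subgroup G} (hS : Setup p P D) (hV : ModP p P V)
    (hD : ∀ d ∈ D, ∀ x : V, d • x = x) (hF : FGen (⊤ : Subgroup G) (⊤ : AddSubgroup V))
    {N₀ : AddSubgroup V} (hNc : IsClosed (N₀ : Set V)) (hN : Stab (⊤ : Subgroup G) N₀)
    (hPN : ∀ g ∈ P, ∀ x ∈ N₀, g • x = x)
    (hess : ∀ W : AddSubgroup V, IsClosed (W : Set V) → Stab (⊤ : Subgroup G) W →
      N₀ ⊓ W = ⊥ → W = ⊥) :
    FGen (⊥ : Subgroup G) (⊤ : AddSubgroup V) := by
  obtain ⟨m, N, hN0, hNm, hN1, hN2⟩ := hS.chn.nser hS.An hS.Pn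
  have hup : ∀ i ≤ m, ∀ j ≤ i, N j ≤ N i := by
    intro i
    induction i with
    | zero =>
      intro _ j hj
      obtain rfl : j = 0 := by omega
      exact le_refl _
    | succ i ih =>
      intro hi j hj
      rcases Nat.lt_or_ge j (i + 1) with h1 | h1
      · exact (ih (by omega) j (by omega)).trans (hN2 i (by omega)).1
      · obtain rfl : j = i + 1 := by omega
        exact le_refl _
  have hDN : ∀ i ≤ m, D ≤ N i := fun i hi => by
    rw [← hN0]
    exact hup i hi 0 (by omega)
  have hNP : ∀ i ≤ m, N i ≤ P := fun i hi => by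
    rw [← hNm]
    exact hup m (le_refl _) i hi
  have main : ∀ j, ∀ i ≤ m, m - i = j → FGen (⊥ : Subgroup G) (Fix (N i) V) := by
    intro j
    induction j with
    | zero =>
      intro i hi hij
      obtain rfl : i = m := by omega
      rw [hNm]
      exact (fgen_open hp hS hV hD hF hS.Po hS.AP (le_refl _) (fix_closed P)
        ((fix_stab P hS.Pn).mono le_top)).of_trivial (fun g hg x hx => hx g hg)
    | succ j ih =>
      intro i hi hij
      have ih' := ih (i + 1) (by omega) (by omega)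
      have hKn := (hN1 i hi).1
      have hKc := (hN1 i hi).2
      have hAn := (hN1 (i + 1) (by omega)).1
      have hAc := (hN1 (i + 1) (by omega)).2
      have hKA := (hN2 i (by omega)).1
      have hch : Chn (N i) P := by
        have h1 := hS.chn.sup hKn hKc
        rwa [sup_eq_right.2 (hDN i hi), sup_eq_left.2 (hNP i hi)] at h1
      obtain ⟨H, S, T, hHo, hHP, hGA, hTS, hTT⟩ := good_a hS.basis hp hS.Pp hS.Po hKn hAn hAc hKA
        (hNP (i + 1) (by omega)) (hN2 i (by omega)).2 hch
      have hDH : D ≤ H := (hDN i hi).trans hGA.good.le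
      have hWc : IsClosed (Fix (N i) V : Set V) := fix_closed _
      have hWst : Stab (⊤ : Subgroup G) (Fix (N i) V) := fix_stab _ hKn
      have hFW : FGen H (Fix (N i) V) :=
        fgen_open hp hS hV hD hF hHo hDH hHP hWc (hWst.mono le_top)
      have hNW : N₀ ≤ Fix (N i) V := fun x hx g hg => hPN g (hNP i hi hg) x hx
      obtain ⟨n, hnc, hn⟩ := ar_top hp hGA hTS hTT (hV.mono hHP) hWc (hWst.mono le_top)
        (fun g hg x hx => hx g hg) hFW hNc hNW (hN.mono le_top)
        (fun a ha x hx => hPN a (hNP (i + 1) (by omega) ha) x hx)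
      have h0 : wk p H (N (i + 1)) (Fix (N i) V) 0 n = ⊥ :=
        hess _ hnc (wk_stab_of_normal p H (N (i + 1)) (Fix (N i) V) hAn hWst n) hn
      have hfix : Fix (N i) V ⊓ Fix (N (i + 1)) V = Fix (N (i + 1)) V :=
        inf_eq_right.2 fun x hx g hg => hx g (hKA hg)
      refine rank_step hp hV.proPAdd H hTT n (Fix (N i) V) hWc (hWst.mono le_top)
        (fun g hg x hx => hx g hg) ?_ h0
      rw [hfix]
      exact ih'
  have h0 := main m 0 (by omega) (by omega)
  rw [hN0] at h0
  have htop : Fix D V = ⊤ := by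
    rw [eq_top_iff]
    intro x _ d hd
    exact hD d hd x
  rwa [htop] at h0

end Pool.Agent.Lib.MP_ae9e3a_al
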