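import Mathlib

set_option autoImplicit false

/-!
# VPP module MatRep: the affine representation on a finitely generated `ℤ_p`-module

PROOF. Let `E = V ⧸ Submodule.torsion ℤ_[p] V`, a finitely generated torsion-free, hence free
`ℤ_[p]`-module (`Module.free_of_finite_type_torsion_free'`, `Submodule.QuotientTorsion`), `b` a basis
indexed by `Fin r` (`Module.finBasis`), `π : V → E`. Every `g` acts `ℤ_[p]`-linearly on `V` (`hlin`),
preserves the torsion, so it acts on `E` by a linear map `a g : E →ₗ E`, `a (g h) = a g ∘ a h`,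
`a 1 = id`. On `E × ℤ_[p]` let `R g (x, z) = (a g x + z • π (δ g), z)`: linear, and
`R (g h) = R g ∘ R h` by the derivation rule (`R g (R h (x, z)) = (a g (a h x + z π (δ h)) +
z π (δ g), z)`). `R 1 = id` (`δ 1 = 0`). So `R` is a monoid homomorphism
`G →* Module.End ℤ_[p] (E × ℤ_[p])`; with the basis `b.prod (Basis.singleton ..)` reindexed by
`Fin (r+1)` (`finProdFinEquiv`.../`Module.finBasis ℤ_[p] (E × ℤ_[p])` is simplest, the module is
free and finite) one gets `G →* Matrix (Fin n) (Fin n) ℤ_[p]` (`LinearMap.toMatrixAlgEquiv`), map the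
entries to `ℚ_[p]` (injective ring homomorphism `PadicInt.Coe.ringHom`) and use
`MonoidHom.toHomUnits` to get `ρ : G →* GL (Fin n) ℚ_[p]`. If `ρ g = 1` then `R g = 1`, so
`(π (δ g), 1) = R g (0, 1) = (0, 1)`: `π (δ g) = 0`, `δ g` is torsion: `z • δ g = 0`, `z ≠ 0`;
`z = u p ^ k` with `u` a unit (`PadicInt.unitCoeff_spec`), so `p ^ k • δ g = 0`.
-/

namespace Pool.Agent.Lib.MP_ae9e3a_al

theorem mat_rep {G V : Type*} [Group G] [AddCommGroup V] {p : ℕ} [Fact p.Prime]
    [Module ℤ_[p] V] [Module.Finite ℤ_[p] V] [DistribMulAction G V]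
    (hlin : ∀ (g : G) (z : ℤ_[p]) (x : V), g • z • x = z • g • x) (δ : G → V)
    (hδ : ∀ g h, δ (g * h) = δ g + g • δ h) :
    ∃ (n : ℕ) (ρ : G →* GL (Fin n) ℚ_[p]), ∀ g, ρ g = 1 → ∃ m : ℕ, 0 < m ∧ m • δ g = 0 := by
  classical
  let Tor := Submodule.torsion ℤ_[p] V
  -- the action as a linear map
  let A : G → (V →ₗ[ℤ_[p]] V) := fun g =>
    { toFun := fun x => g • x
      map_add' := fun x y => smul_add g x y
      map_smul' := fun z x => hlin g z x }
  have hA : ∀ g, Tor ≤ Tor.comap (A g) := by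
    intro g x hx
    obtain ⟨z, hz⟩ := (Submodule.mem_torsion_iff x).1 hx
    refine (Submodule.mem_torsion_iff _).2 ⟨z, ?_⟩
    have h1 : z • (A g x) = g • (z • x) := (hlin g (z : ℤ_[p]) x).symm
    rw [h1, hz, smul_zero]
  let a : G → ((V ⧸ Tor) →ₗ[ℤ_[p]] (V ⧸ Tor)) := fun g => Tor.mapQ Tor (A g) (hA g)
  have ha_mk : ∀ g x, a g (Submodule.Quotient.mk x) = Submodule.Quotient.mk (g • x) := fun g x => rfl
  have ha_mul : ∀ g h x, a (g * h) x = a g (a h x) := by
    intro g h x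
    obtain ⟨x, rfl⟩ := Submodule.Quotient.mk_surjective _ x
    rw [ha_mk, ha_mk, ha_mk, mul_smul]
  have ha_one : ∀ x, a 1 x = x := by
    intro x
    obtain ⟨x, rfl⟩ := Submodule.Quotient.mk_surjective _ x
    rw [ha_mk, one_smul]
  let π : V →ₗ[ℤ_[p]] (V ⧸ Tor) := Tor.mkQ
  have hπ : ∀ g x, a g (π x) = π (g • x) := fun g x => rfl
  let R : G → ((V ⧸ Tor) × ℤ_[p] →ₗ[ℤ_[p]] (V ⧸ Tor) × ℤ_[p]) := fun g =>
    LinearMap.prod ((a g) ∘ₗ LinearMap.fst _ _ _ + (LinearMap.toSpanSingleton ℤ_[p] _ (π (δ g))) ∘ₗ LinearMap.snd _ _ _)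
      (LinearMap.snd _ _ _)
  have hR : ∀ g x z, R g (x, z) = (a g x + z • π (δ g), z) := fun g x z => rfl
  have hδ1 : δ 1 = 0 := by
    have h := hδ 1 1
    rw [mul_one, one_smul] at h
    exact (add_eq_left.1 h.symm)
  let Rh : G →* Module.End ℤ_[p] ((V ⧸ Tor) × ℤ_[p]) :=
    { toFun := R
      map_one' := by
        apply LinearMap.ext
        rintro ⟨x, z⟩
        rw [hR, ha_one, hδ1, map_zero, smul_zero, add_zero]
        rfl
      map_mul' := by
        intro g h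
        apply LinearMap.ext
        rintro ⟨x, z⟩
        show (a (g * h) x + z • π (δ (g * h)), z) = (a g (a h x + z • π (δ h)) + z • π (δ g), z)
        rw [ha_mul, hδ, (a g).map_add, π.map_add, (a g).map_smul, hπ, smul_add]
        congr 1
        abel }
  have hfree : Module.Free ℤ_[p] (V ⧸ Tor) := inferInstance
  have hfin : Module.Finite ℤ_[p] (V ⧸ Tor) := inferInstance
  let b := Module.finBasis ℤ_[p] ((V ⧸ Tor) × ℤ_[p])
  let n := Module.finrank ℤ_[p] ((V ⧸ Tor) × ℤ_[p])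
  let mat : Module.End ℤ_[p] ((V ⧸ Tor) × ℤ_[p]) →* Matrix (Fin n) (Fin n) ℚ_[p] :=
    ((PadicInt.Coe.ringHom (p := p)).mapMatrix : Matrix (Fin n) (Fin n) ℤ_[p] →+* _).toMonoidHom.comp
      (LinearMap.toMatrixAlgEquiv b).toMulEquiv.toMonoidHom
  refine ⟨n, (mat.comp Rh).toHomUnits, ?_⟩
  intro g hg
  have h1 : mat (Rh g) = mat 1 := by
    have h2 := congrArg Units.val hg
    rw [map_one]
    exact h2
  have hmat : Function.Injective mat := by
    intro u v huv
    apply (LinearMap.toMatrixAlgEquiv b).injective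
    ext i j
    have h3 := congrFun (congrFun huv i) j
    exact Subtype.val_injective h3
  have h4 : R g = LinearMap.id := hmat h1
  have h5 : π (δ g) = 0 := by
    have h6 := hR g 0 1
    rw [h4, map_zero, zero_add, one_smul] at h6
    exact (congrArg Prod.fst h6).symm
  have h7 : δ g ∈ Tor := (Submodule.Quotient.mk_eq_zero _).1 h5
  obtain ⟨z, hz⟩ := (Submodule.mem_torsion_iff _).1 h7
  have hz0 : (z : ℤ_[p]) ≠ 0 := nonZeroDivisors.coe_ne_zero z
  have hz' : (z : ℤ_[p]) • δ g = 0 := hz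
  refine ⟨p ^ (z : ℤ_[p]).valuation, pow_pos (Fact.out : p.Prime).pos _, ?_⟩
  have h8 := PadicInt.unitCoeff_spec hz0
  have h9 : ((p : ℤ_[p]) ^ (z : ℤ_[p]).valuation) • δ g = 0 := by
    have h10 : ((p : ℤ_[p]) ^ (z : ℤ_[p]).valuation)
        = ((PadicInt.unitCoeff hz0)⁻¹ : ℤ_[p]ˣ) * (z : ℤ_[p]) := by
      have h11 := congrArg (fun t => (((PadicInt.unitCoeff hz0)⁻¹ : ℤ_[p]ˣ) : ℤ_[p]) * t) h8
      rw [h11, ← mul_assoc, Units.inv_mul, one_mul]
    rw [h10, mul_smul, hz', smul_zero]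
  rw [← Nat.cast_smul_eq_nsmul ℤ_[p]]
  push_cast
  exact h9

end Pool.Agent.Lib.MP_ae9e3a_al
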