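import Pool.Agent.Lib.MP_ae9e3a_al.Magnus
import Pool.Agent.Lib.MP_ae9e3a_al.MatRep
import Pool.Agent.Lib.MP_ae9e3a_al.FinRank

set_option autoImplicit false

/-!
# VPP module AffRep: a representation over `ℚ_p`, injective on `F₀`

PROOF. `magnus` gives `M`, `δ`. `good_all` for `Chn D P` gives `GT p D P H S`, `H` open (it contains
`P ⊓ V'`), so `H` has finite index, `FGen H ⊤` (`FGen.of_relIndex`), `ModP p H M`; `acc_top` applies to
`H`. For `e ∈ D`, `g ∈ G`: `δ (g e g⁻¹) = g • δ e` (`D` acts trivially, `δ 1 = 0`); on `D`, `δ` is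
additive: `δ (d e) = δ d + δ e`. `E₀ = δ '' F₀` is an additive subgroup of `M`, compact, so
closed, and `Stab ⊤`. Let `L` be a maximal element of the family of the closed `Stab ⊤` subgroups `L`
with `L ⊓ E₀ = ⊥` (`acc_top`; `⊥` is in the family). `exists_quot` gives `V = M / L`, `q`;
`N₀ = q '' E₀` (`AddSubgroup.map`): closed, `Stab ⊤`, `P` acts trivially on it (`g • δ e =
δ (g e g⁻¹) = δ e` for `g ∈ P ≤ centralizer F₀`). Essential: if `W ≤ V` is closed, `Stab ⊤` and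
`N₀ ⊓ W = ⊥`, then `L' = W.comap q` is closed, `Stab ⊤`, `L ≤ L'` and `L' ⊓ E₀ = ⊥`: if
`δ e ∈ L'` then `q (δ e) ∈ N₀ ⊓ W`, so `δ e ∈ L ⊓ E₀ = ⊥`. By maximality `L' = L`, so `W = ⊥`
(`q` is surjective). `fin_rank` gives `FGen ⊥ ⊤` for `V`; `exists_zp` (from `ModP.proPAdd`) and
`fgen_iff` give `Module.Finite ℤ_[p] V`; `hlin` from `zp_linear` (`x ↦ g • x` is continuous). The
derivation `q ∘ δ`; `mat_rep` gives `ρ`. If `e ∈ F₀`, `ρ e = 1`: `m • q (δ e) = 0`, i.e.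
`q (δ (e ^ m)) = 0`, so `δ (e ^ m) ∈ L ⊓ E₀ = ⊥`, `e ^ m = 1`, `e = 1`.
-/

namespace Pool.Agent.Lib.MP_ae9e3a_al

universe u

/-- A derivation is additive on a subgroup that acts trivially; conjugation becomes the action. -/
theorem der_one {G M : Type*} [Group G] [AddCommGroup M] [DistribMulAction G M] (δ : G → M)
    (hδ : ∀ g h, δ (g * h) = δ g + g • δ h) : δ 1 = 0 := by
  have h := hδ 1 1
  rw [mul_one, one_smul] at h
  exact left_eq_add.1 h

theorem der_conj {G M : Type*} [Group G] [AddCommGroup M] [DistribMulAction G M] (δ : G → M)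
    (hδ : ∀ g h, δ (g * h) = δ g + g • δ h) {D : Subgroup G}
    (hD : ∀ d ∈ D, ∀ x : M, d • x = x) (g : G) {e : G} (he : e ∈ D) :
    δ (g * e * g⁻¹) = g • δ e := by
  rw [hδ, hδ, mul_smul, hD e he]
  have h1 : δ g + g • δ g⁻¹ = 0 := by
    rw [← hδ, mul_inv_cancel, der_one δ hδ]
  calc δ g + g • δ e + g • δ g⁻¹ = g • δ e + (δ g + g • δ g⁻¹) := by abel
    _ = g • δ e := by rw [h1, add_zero]

theorem der_mul {G M : Type*} [Group G] [AddCommGroup M] [DistribMulAction G M] (δ : G → M)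
    (hδ : ∀ g h, δ (g * h) = δ g + g • δ h) {D : Subgroup G}
    (hD : ∀ d ∈ D, ∀ x : M, d • x = x) {d : G} (hd : d ∈ D) (e : G) :
    δ (d * e) = δ d + δ e := by
  rw [hδ, hD d hd]

theorem der_pow {G M : Type*} [Group G] [AddCommGroup M] [DistribMulAction G M] (δ : G → M)
    (hδ : ∀ g h, δ (g * h) = δ g + g • δ h) {D : Subgroup G}
    (hD : ∀ d ∈ D, ∀ x : M, d • x = x) {d : G} (hd : d ∈ D) (n : ℕ) :
    δ (d ^ n) = n • δ d := by
  induction n with
  | zero => rw [pow_zero, der_one δ hδ, zero_smul]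
  | succ n ih => rw [pow_succ', der_mul δ hδ hD hd, ih, succ_nsmul']

theorem der_inv {G M : Type*} [Group G] [AddCommGroup M] [DistribMulAction G M] (δ : G → M)
    (hδ : ∀ g h, δ (g * h) = δ g + g • δ h) {D : Subgroup G}
    (hD : ∀ d ∈ D, ∀ x : M, d • x = x) {d : G} (hd : d ∈ D) :
    δ d⁻¹ = - δ d := by
  have h := der_mul δ hδ hD hd d⁻¹
  rw [mul_inv_cancel, der_one δ hδ] at h
  exact (neg_eq_of_add_eq_zero_right h.symm).symm

/-- The image of a subgroup of `D` under a derivation. -/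
def derImg {G M : Type*} [Group G] [AddCommGroup M] [DistribMulAction G M] (δ : G → M)
    (hδ : ∀ g h, δ (g * h) = δ g + g • δ h) {D : Subgroup G}
    (hD : ∀ d ∈ D, ∀ x : M, d • x = x) (F : Subgroup G) (hF : F ≤ D) : AddSubgroup M where
  carrier := δ '' F
  zero_mem' := ⟨1, F.one_mem, der_one δ hδ⟩
  add_mem' := by
    rintro _ _ ⟨x, hx, rfl⟩ ⟨y, hy, rfl⟩
    exact ⟨x * y, F.mul_mem hx hy, der_mul δ hδ hD (hF hx) y⟩
  neg_mem' := by
    rintro _ ⟨x, hx, rfl⟩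
    exact ⟨x⁻¹, F.inv_mem hx, der_inv δ hδ hD (hF hx)⟩

theorem aff_rep {G : Type u} [Group G] [TopologicalSpace G] [IsTopologicalGroup G]
    [CompactSpace G] [T2Space G] {p : ℕ} [Fact p.Prime] {P D : Subgroup G} (hS : Setup p P D)
    (t : Finset G) (ht : (Set.univ : Set G) ⊆ closure (Subgroup.closure (t : Set G) : Set G))
    {F₀ : Subgroup G} (hn : F₀.Normal) (hc : IsClosed (F₀ : Set G)) (hF : F₀ ≤ D)
    (hP : ∀ g ∈ P, ∀ x ∈ F₀, g * x = x * g)
    (htf : ∀ x ∈ F₀, ∀ m : ℕ, 0 < m → x ^ m = 1 → x = 1) :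
    ∃ (n : ℕ) (ρ : G →* GL (Fin n) ℚ_[p]), ∀ x ∈ F₀, ρ x = 1 → x = 1 := by
  have hp : p.Prime := Fact.out
  obtain ⟨M, _, _, _, _, _, _, _, δ, hδc, hδ, hDM, hinj, hMp, hMF⟩ := magnus hp hS t ht
  obtain ⟨H, S, hGT⟩ := good_all hS.basis hp hS.Pp hS.An hS.chn (le_refl P)
  have hHo := hGT.isOpen hS.Po
  have hFH : FGen H (⊤ : AddSubgroup M) :=
    hMF.of_relIndex le_top (fun _ _ _ _ => AddSubgroup.mem_top _) (by
      rw [Subgroup.relIndex_top_right]
      exact index_ne_zero_of_isOpen hHo)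
  have hHp : ModP p H M := hMp.mono hGT.le
  set E₀ : AddSubgroup M := derImg δ hδ hDM F₀ hF with hE₀
  have hE₀c : IsClosed (E₀ : Set M) := (hc.isCompact.image hδc).isClosed
  have hE₀st : Stab (⊤ : Subgroup G) E₀ := by
    rintro g _ _ ⟨e, he, rfl⟩
    exact ⟨g * e * g⁻¹, hn.conj_mem e he g, der_conj δ hδ hDM g (hF he)⟩
  obtain ⟨L, ⟨hLc, hLst, hLE⟩, hLmax⟩ := acc_top hp hGT.good hGT.top hDM hHp hFH
    {L : AddSubgroup M | IsClosed (L : Set M) ∧ Stab (⊤ : Subgroup G) L ∧ L ⊓ E₀ = ⊥}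
    ⟨⊥, by
      refine ⟨?_, ?_, bot_inf_eq _⟩
      · rw [AddSubgroup.coe_bot]
        exact isClosed_singleton
      · rintro g _ x hx
        rw [AddSubgroup.mem_bot] at hx ⊢
        rw [hx, smul_zero]⟩
    (fun N hN => hN.1) (fun N hN => hN.2.1.mono le_top)
  obtain ⟨V, _, _, _, _, _, _, _, q, hqc, hqs, hq0, hqe, hqp⟩ := exists_quot L hLc hLst
  have hVp : ModP p P V := hqp p P hp hMp
  have hDV : ∀ d ∈ D, ∀ x : V, d • x = x := by
    intro d hd x
    obtain ⟨y, rfl⟩ := hqs x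
    rw [← hqe, hDM d hd]
  have hVF : FGen (⊤ : Subgroup G) (⊤ : AddSubgroup V) := hMF.map q hqc hqs hqe
  set N₀ : AddSubgroup V := E₀.map q with hN₀
  have hN₀c : IsClosed (N₀ : Set V) := by
    rw [hN₀, AddSubgroup.coe_map]
    exact (hE₀c.isCompact.image hqc).isClosed
  have hN₀st : Stab (⊤ : Subgroup G) N₀ := by
    rintro g hg _ ⟨y, hy, rfl⟩
    exact ⟨g • y, hE₀st g hg y hy, hqe g y⟩
  have hPN : ∀ g ∈ P, ∀ x ∈ N₀, g • x = x := by
    rintro g hg _ ⟨_, ⟨e, he, rfl⟩, rfl⟩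
    have h1 : g • δ e = δ e := by
      rw [← der_conj δ hδ hDM g (hF he), hP g hg e he, mul_assoc, mul_inv_cancel, mul_one]
    show g • q (δ e) = q (δ e)
    rw [← hqe, h1]
  have hess : ∀ W : AddSubgroup V, IsClosed (W : Set V) → Stab (⊤ : Subgroup G) W →
      N₀ ⊓ W = ⊥ → W = ⊥ := by
    intro W hWc hWst hW
    have hL' : W.comap q ∈
        {L : AddSubgroup M | IsClosed (L : Set M) ∧ Stab (⊤ : Subgroup G) L ∧ L ⊓ E₀ = ⊥} := by
      refine ⟨?_, ?_, ?_⟩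
      · rw [AddSubgroup.coe_comap]
        exact hWc.preimage hqc
      · intro g hg x hx
        show q (g • x) ∈ W
        rw [hqe]
        exact hWst g hg _ hx
      · rw [eq_bot_iff]
        rintro x ⟨hx1, hx2⟩
        have h1 : q x ∈ N₀ ⊓ W := ⟨⟨x, hx2, rfl⟩, hx1⟩
        rw [hW, AddSubgroup.mem_bot, hq0] at h1
        rw [← hLE]
        exact ⟨h1, hx2⟩
    have hLL : L ≤ W.comap q := by
      intro x hx
      show q x ∈ W
      rw [(hq0 x).2 hx]
      exact W.zero_mem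
    have h1 := hLmax _ hL' hLL
    rw [eq_bot_iff]
    intro y hy
    obtain ⟨x, rfl⟩ := hqs y
    have h2 : x ∈ W.comap q := hy
    rw [h1] at h2
    rw [AddSubgroup.mem_bot]
    exact (hq0 x).2 h2
  have hfg := fin_rank hp hS hVp hDV hVF hN₀c hN₀st hPN hess
  obtain ⟨hmod, hcs⟩ := exists_zp (V := V) (p := p) hVp.proPAdd
  have hfin : Module.Finite ℤ_[p] V := by
    obtain ⟨N, hN, hN'⟩ := (fgen_iff (p := p) (W := (⊤ : AddSubgroup V)) isClosed_univ).1 hfg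
    rw [Module.finite_def]
    have : N = ⊤ := by
      rw [eq_top_iff]
      intro x _
      have : x ∈ ((⊤ : AddSubgroup V) : Set V) := AddSubgroup.mem_top _
      rw [← hN'] at this
      exact this
    rw [← this]
    exact hN
  have hlin : ∀ (g : G) (z : ℤ_[p]) (x : V), g • z • x = z • g • x := fun g z x =>
    zp_linear (DistribSMul.toAddMonoidHom V g) (continuous_const_smul g) z x
  obtain ⟨n, ρ, hρ⟩ := mat_rep hlin (fun g => q (δ g)) (fun g h => by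
    rw [hδ, map_add, hqe])
  refine ⟨n, ρ, ?_⟩
  intro x hx hρx
  obtain ⟨m, hm, hmx⟩ := hρ x hρx
  have h1 : q (δ (x ^ m)) = 0 := by
    rw [der_pow δ hδ hDM (hF hx), map_nsmul]
    exact hmx
  have h2 : δ (x ^ m) ∈ L ⊓ E₀ := ⟨(hq0 _).1 h1, ⟨x ^ m, F₀.pow_mem hx m, rfl⟩⟩
  rw [hLE, AddSubgroup.mem_bot] at h2
  exact htf x hx m hm (hinj _ (D.pow_mem (hF hx) m) h2)

end Pool.Agent.Lib.MP_ae9e3a_al
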