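import Mathlib

set_option autoImplicit false

/-!
# VPP module Small: compact Hausdorff spaces with fewer than continuum many points

PROOF of `exists_isolated`. Suppose that no point is isolated. STEP: every nonempty open set `U`
contains two disjoint closed sets `C₁, C₂ ⊆ U` with nonempty interiors: take `x ∈ U`, `{x}` is not
open so `U ≠ {x}`, take `y ∈ U`, `y ≠ x`; Hausdorff + regular (compact Hausdorff spaces are
regular: `exists_mem_nhds_isClosed_subset`). By recursion on lists define closed sets
`D : List Bool → Set X` with nonempty interiors, `D (b :: l) ⊆ D l`, `D (true :: l)` and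
`D (false :: l)` disjoint (e.g. as a function to the subtype `{C // IsClosed C ∧
(interior C).Nonempty}`). For a branch `β : ℕ → Bool` let `l_n = [β (n-1), ..., β 0]`
(`PiNat.res`); by compactness
(`IsCompact.nonempty_iInter_of_sequence_nonempty_isCompact_isClosed`) there is a point
`f β ∈ ⋂ n, D (l_n)`, and `f` is injective (first difference of two branches; compare
`CantorScheme.Disjoint.map_injective`). So `2 ^ ℵ₀ ≤ #X` (with a lift:
`Cardinal.mk_le_of_injective` for `ULift`).

PROOF of `finite_of_small`. There is an isolated point; by homogeneity all the points are isolated,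
so `X` is discrete and compact, hence finite. `finite_of_small_addGroup`: translations.
-/

namespace Pool.Agent.Lib.MP_ae9e3a_al

open Cardinal

private theorem small_step {X : Type*} [TopologicalSpace X] [T2Space X] [CompactSpace X]
    (hiso : ∀ x : X, ¬ IsOpen ({x} : Set X)) (C : {C : Set X // IsClosed C ∧ (interior C).Nonempty}) :
    ∃ E : Bool → {C : Set X // IsClosed C ∧ (interior C).Nonempty},
      (∀ b, (E b : Set X) ⊆ C) ∧ Disjoint (E true : Set X) (E false) := by
  obtain ⟨C, hC, x, hx⟩ := C
  have h1 : interior C ≠ {x} := fun h => hiso x (h ▸ isOpen_interior)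
  obtain ⟨y, hy, hyx⟩ : ∃ y ∈ interior C, y ≠ x := by
    by_contra hcon
    push Not at hcon
    exact h1 (Set.eq_singleton_iff_unique_mem.mpr ⟨hx, hcon⟩)
  obtain ⟨u, v, hu, hv, hxu, hyv, huv⟩ := t2_separation hyx.symm
  have key : ∀ (z : X) (w : Set X), IsOpen w → z ∈ w → z ∈ interior C →
      ∃ K : Set X, IsClosed K ∧ (interior K).Nonempty ∧ K ⊆ w ∧ K ⊆ C := by
    intro z w hw hzw hzC
    obtain ⟨K, hK, hKc, hKw⟩ := exists_mem_nhds_isClosed_subset
      ((hw.inter isOpen_interior).mem_nhds ⟨hzw, hzC⟩)
    exact ⟨K, hKc, ⟨z, mem_interior_iff_mem_nhds.mpr hK⟩, fun a ha => (hKw ha).1,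
      fun a ha => interior_subset (hKw ha).2⟩
  obtain ⟨K, hK1, hK2, hK3, hK4⟩ := key x u hu hxu hx
  obtain ⟨L, hL1, hL2, hL3, hL4⟩ := key y v hv hyv hy
  refine ⟨fun b => if b then ⟨K, hK1, hK2⟩ else ⟨L, hL1, hL2⟩, ?_, ?_⟩
  · intro b
    cases b
    · exact hL4
    · exact hK4
  · exact huv.mono hK3 hL3

theorem exists_isolated {X : Type*} [TopologicalSpace X] [T2Space X] [CompactSpace X] [Nonempty X]
    (h : #X < 𝔠) : ∃ x : X, IsOpen ({x} : Set X) := by
  by_contra hcon
  push Not at hcon
  choose f hf1 hf2 using small_step hcon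
  let D : List Bool → {C : Set X // IsClosed C ∧ (interior C).Nonempty} := fun l =>
    l.rec ⟨Set.univ, isClosed_univ, by simp⟩ (fun b _ ih => f ih b)
  have hD : ∀ b l, D (b :: l) = f (D l) b := fun _ _ => rfl
  have hne : ∀ β : ℕ → Bool, (⋂ n, (D (PiNat.res β n)).1).Nonempty := by
    intro β
    refine IsCompact.nonempty_iInter_of_sequence_nonempty_isCompact_isClosed
      (fun n => (D (PiNat.res β n)).1) ?_ ?_ ?_ ?_
    · intro n
      show (D (PiNat.res β (n + 1))).1 ⊆ (D (PiNat.res β n)).1
      rw [PiNat.res_succ, hD]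
      exact hf1 _ _
    · exact fun n => (D (PiNat.res β n)).2.2.mono interior_subset
    · exact (D (PiNat.res β 0)).2.1.isCompact
    · exact fun n => (D (PiNat.res β n)).2.1
  choose g hg using hne
  have hinj : Function.Injective g := by
    intro β γ hβγ
    by_contra hne'
    have hex : ∃ n, β n ≠ γ n := by
      by_contra hall
      push Not at hall
      exact hne' (funext hall)
    classical
    have hn := Nat.find_spec hex
    have hmin : ∀ m < Nat.find hex, β m = γ m := fun m hm => by
      by_contra hm'
      exact Nat.find_min hex hm hm'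
    set n := Nat.find hex
    have hres : PiNat.res β n = PiNat.res γ n := PiNat.res_eq_res.mpr (fun {m} hm => hmin m hm)
    have h1 : g β ∈ (D (PiNat.res β (n + 1))).1 := Set.mem_iInter.mp (hg β) (n + 1)
    have h2 : g β ∈ (D (PiNat.res γ (n + 1))).1 := by
      rw [hβγ]
      exact Set.mem_iInter.mp (hg γ) (n + 1)
    rw [PiNat.res_succ, hD] at h1 h2
    rw [← hres] at h2
    have h3 := hf2 (D (PiNat.res β n))
    rw [Set.disjoint_left] at h3
    cases hb : β n <;> cases hc : γ n <;> rw [hb] at h1 <;> rw [hc] at h2
    · exact hn (hb.trans hc.symm)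
    · exact h3 h2 h1
    · exact h3 h1 h2
    · exact hn (hb.trans hc.symm)
  have hle := Cardinal.lift_mk_le_lift_mk_of_injective hinj
  have h4 : Cardinal.lift #(ℕ → Bool) = 𝔠 := by
    simp
  rw [h4, Cardinal.lift_id'] at hle
  exact absurd h (not_lt.mpr (by simpa using hle))

theorem finite_of_small {X : Type*} [TopologicalSpace X] [T2Space X] [CompactSpace X]
    (h : #X < 𝔠) (hom : ∀ x y : X, ∃ e : X ≃ₜ X, e x = y) : Finite X := by
  cases isEmpty_or_nonempty X with
  | inl he => infer_instance
  | inr hn =>
    obtain ⟨x, hx⟩ := exists_isolated h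
    have hd : DiscreteTopology X := by
      rw [discreteTopology_iff_isOpen_singleton]
      intro y
      obtain ⟨e, he⟩ := hom x y
      have h1 := e.isOpenMap _ hx
      rwa [Set.image_singleton, he] at h1
    exact finite_of_compact_of_discrete

theorem finite_of_small_addGroup {B : Type*} [AddCommGroup B] [TopologicalSpace B]
    [IsTopologicalAddGroup B] [T2Space B] [CompactSpace B] (h : #B < 𝔠) : Finite B :=
  finite_of_small h fun x y => ⟨Homeomorph.addRight (y - x), by
    rw [Homeomorph.coe_addRight]
    exact add_sub_cancel x y⟩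

end Pool.Agent.Lib.MP_ae9e3a_al
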