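import Pool.Agent.Lib.MP_ae9e3a_al.Defs
import Pool.Agent.Lib.MP_ae9e3a_al.Small

set_option autoImplicit false

/-!
# VPP module Cent: few values of `w` imply open centralisers and local constancy

PROOF of `centralizer_open`. First `v = w(g)` a value: the conjugates `x v x⁻¹ = w(x g x⁻¹)`
(`map_freeGroup_lift` for `MulAut.conj x`; e.g. `FreeGroup.lift` composed with the homomorphism,
`FreeGroup.lift_unique`/`MonoidHom.comp` + `FreeGroup.ext_hom`) are values, so
`C = range (x ↦ x v x⁻¹)` is a compact set with `#C < 𝔠`; `C` (as a subtype) is homogeneous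
(conjugations are homeomorphisms of `C`, transitive), hence finite by `finite_of_small`. The
centraliser of `v` is the preimage of `{v}` under the continuous map `x ↦ x v x⁻¹`, its complement
is the preimage of the finite, hence closed set `C \ {v}`. In general, induction on
`v ∈ Subgroup.closure (vals w G)`: the centraliser of `a b` contains the intersection of those of
`a` and `b` (`Subgroup.isOpen_mono`), the centraliser of `a⁻¹` is that of `a`, that of `1` is `⊤`.

PROOF of `locC_of_small`. Given `g` and `U` (open, hence closed), the image `I` of the compact set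
`{h : Fin k → G | ∀ i, h i ∈ U}` under the continuous map `h ↦ w(g h)` is compact, nonempty,
`I ⊆ vals w G`, `#I < 𝔠`; by `exists_isolated` (for the subtype `I`) there are `h ∈ U^k` and an
open set `O ∋ w(g h)` with `O ∩ I = {w(g h)}`. By continuity of `v ↦ w(g (h v))` at `v = 1`
(and `Basis1` + finitely many coordinates) there is an open subgroup `V ≤ U` with
`w(g (h v)) ∈ O` for all `v ∈ V^k`; since `h v ∈ U^k` we get `w(g (h v)) ∈ O ∩ I`.
(Continuity of `g ↦ FreeGroup.lift g w`: induction on `w`, or see `continuous_lift` below.)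
-/

namespace Pool.Agent.Lib.MP_ae9e3a_al

open Cardinal

theorem continuous_lift {G : Type*} [Group G] [TopologicalSpace G] [IsTopologicalGroup G]
    {k : ℕ} (w : FreeGroup (Fin k)) : Continuous fun g : Fin k → G => FreeGroup.lift g w := by
  induction w using FreeGroup.induction_on with
  | C1 => simpa using continuous_const
  | of i => simpa using continuous_apply i
  | inv_of i h =>
    have h2 : Continuous fun g : Fin k → G => (FreeGroup.lift g (FreeGroup.of i))⁻¹ := h.inv
    simpa using h2
  | mul x y hx hy =>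
    have h2 : Continuous fun g : Fin k → G => FreeGroup.lift g x * FreeGroup.lift g y := hx.mul hy
    simpa using h2

theorem map_lift {G G' : Type*} [Group G] [Group G'] (f : G →* G') {k : ℕ}
    (w : FreeGroup (Fin k)) (g : Fin k → G) :
    f (FreeGroup.lift g w) = FreeGroup.lift (fun i => f (g i)) w := by
  have h : f.comp (FreeGroup.lift g) = FreeGroup.lift (fun i => f (g i)) := by
    ext i
    simp
  rw [← h]
  rfl

theorem conj_lift {G : Type*} [Group G] {k : ℕ} (w : FreeGroup (Fin k)) (g : Fin k → G) (x : G) :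
    x * FreeGroup.lift g w * x⁻¹ = FreeGroup.lift (fun i => x * g i * x⁻¹) w := by
  have h := map_lift (MulAut.conj x).toMonoidHom w g
  simpa using h

private theorem cent_value {G : Type*} [Group G] [TopologicalSpace G] [IsTopologicalGroup G]
    [CompactSpace G] [T2Space G] {k : ℕ} (w : FreeGroup (Fin k)) (h : #(vals w G) < 𝔠)
    (v : G) (hv : v ∈ vals w G) : IsOpen (Subgroup.centralizer {v} : Set G) := by
  obtain ⟨g, rfl⟩ := hv
  set v : G := FreeGroup.lift g w with hvd
  let f : G → G := fun x => x * v * x⁻¹
  have hf : Continuous f := (continuous_id.mul continuous_const).mul continuous_inv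
  let C : Set G := Set.range f
  have hCv : C ⊆ vals w G := by
    rintro _ ⟨x, rfl⟩
    exact ⟨fun i => x * g i * x⁻¹, (conj_lift w g x).symm⟩
  have hC1 : #C < 𝔠 := (Cardinal.mk_le_mk_of_subset hCv).trans_lt h
  have hC2 : CompactSpace C := isCompact_iff_compactSpace.mp (isCompact_range hf)
  have hfin : Finite C := by
    refine finite_of_small hC1 ?_
    rintro ⟨a, x, hx⟩ ⟨b, y, hy⟩
    let t : G := y * x⁻¹
    let e : G ≃ₜ G := (Homeomorph.mulLeft t).trans (Homeomorph.mulRight t⁻¹)
    have he : ∀ c, e c = t * c * t⁻¹ := fun _ => rfl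
    have hiff : ∀ c, c ∈ C ↔ e c ∈ C := by
      intro c
      rw [he]
      constructor
      · rintro ⟨z, rfl⟩
        exact ⟨t * z, by simp [f, mul_assoc]⟩
      · rintro ⟨z, hz⟩
        refine ⟨t⁻¹ * z, ?_⟩
        have h3 : t⁻¹ * (z * v * z⁻¹) * t = c := by
          have h4 : z * v * z⁻¹ = t * c * t⁻¹ := hz
          rw [h4]
          group
        rw [← h3]
        simp [f, mul_assoc]
    refine ⟨e.subtype hiff, ?_⟩
    apply Subtype.ext
    show e a = b
    rw [he, ← hx, ← hy]
    simp only [f, t]
    group
  have hcl : IsClosed (C \ {v}) := by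
    have : (C : Set G).Finite := Set.toFinite C
    exact (this.subset Set.sdiff_subset).isClosed
  have hset : (Subgroup.centralizer {v} : Set G) = (f ⁻¹' (C \ {v}))ᶜ := by
    ext x
    simp only [SetLike.mem_coe, Subgroup.mem_centralizer_singleton_iff, Set.mem_compl_iff,
      Set.mem_preimage, Set.mem_sdiff, Set.mem_singleton_iff, not_and, not_not]
    constructor
    · intro h1 _
      show x * v * x⁻¹ = v
      rw [h1, mul_inv_cancel_right]
    · intro h1
      have h2 : x * v * x⁻¹ = v := h1 ⟨x, rfl⟩
      calc x * v = (x * v * x⁻¹) * x := by group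
        _ = v * x := by rw [h2]
  rw [hset]
  exact (hcl.preimage hf).isOpen_compl

theorem centralizer_open {G : Type*} [Group G] [TopologicalSpace G] [IsTopologicalGroup G]
    [CompactSpace G] [T2Space G] {k : ℕ} (w : FreeGroup (Fin k)) (h : #(vals w G) < 𝔠) :
    ∀ v ∈ verb w G, IsOpen (Subgroup.centralizer {v} : Set G) := by
  intro v hv
  induction hv using Subgroup.closure_induction with
  | mem x hx => exact cent_value w h x hx
  | one =>
    have h1 : (Subgroup.centralizer {(1 : G)}) = ⊤ := by
      ext x
      simp [Subgroup.mem_centralizer_singleton_iff]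
    rw [h1]
    exact isOpen_univ
  | mul x y _ _ hx hy =>
    have h1 : (Subgroup.centralizer {x} ⊓ Subgroup.centralizer {y}) ≤
        Subgroup.centralizer {x * y} := by
      intro z hz
      have h2 := Subgroup.mem_centralizer_singleton_iff.mp hz.1
      have h3 := Subgroup.mem_centralizer_singleton_iff.mp hz.2
      rw [Subgroup.mem_centralizer_singleton_iff]
      rw [← mul_assoc, h2, mul_assoc, h3, ← mul_assoc]
    refine Subgroup.isOpen_mono h1 ?_
    rw [Subgroup.coe_inf]
    exact hx.inter hy
  | inv x _ hx =>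
    have h1 : Subgroup.centralizer {x} ≤ Subgroup.centralizer {x⁻¹} := by
      intro z hz
      have h2 := Subgroup.mem_centralizer_singleton_iff.mp hz
      rw [Subgroup.mem_centralizer_singleton_iff]
      exact (Commute.inv_right (show Commute z x from h2))
    exact Subgroup.isOpen_mono h1 hx

theorem locC_of_small {G : Type*} [Group G] [TopologicalSpace G] [IsTopologicalGroup G]
    [CompactSpace G] [T2Space G] (hb : Basis1 G) {k : ℕ} (w : FreeGroup (Fin k))
    (h : #(vals w G) < 𝔠) : LocC w G := by
  intro g U hU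
  let S : Set (Fin k → G) := Set.univ.pi fun _ => (U : Set G)
  have hS : IsCompact S := isCompact_univ_pi fun _ => (Subgroup.isClosed_of_isOpen U hU).isCompact
  let F : (Fin k → G) → G := fun x => FreeGroup.lift (fun i => g i * x i) w
  have hF : Continuous F := (continuous_lift w).comp
    (continuous_pi fun i => continuous_const.mul (continuous_apply i))
  let I : Set G := F '' S
  have hI1 : I ⊆ vals w G := by
    rintro _ ⟨x, _, rfl⟩
    exact ⟨fun i => g i * x i, rfl⟩
  have hI2 : #I < 𝔠 := (Cardinal.mk_le_mk_of_subset hI1).trans_lt h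
  have hI3 : CompactSpace I := isCompact_iff_compactSpace.mp (hS.image hF)
  have hI4 : Nonempty I := ⟨⟨F 1, 1, fun i _ => U.one_mem, rfl⟩⟩
  obtain ⟨⟨_, hh, hhS, rfl⟩, hx⟩ := exists_isolated hI2
  obtain ⟨O, hO, hOx⟩ := isOpen_induced_iff.mp hx
  have hhU : ∀ i, hh i ∈ U := fun i => hhS i (Set.mem_univ i)
  have hFO : F hh ∈ O := by
    have h1 : (⟨F hh, hh, hhS, rfl⟩ : I) ∈ (Subtype.val ⁻¹' O : Set I) := by
      rw [hOx]
      rfl
    exact h1
  let F' : (Fin k → G) → G := fun v => F (fun i => hh i * v i)
  have hF' : Continuous F' := hF.comp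
    (continuous_pi fun i => continuous_const.mul (continuous_apply i))
  have h1 : (1 : Fin k → G) ∈ F' ⁻¹' O := by
    show F (fun i => hh i * (1 : Fin k → G) i) ∈ O
    simpa using hFO
  obtain ⟨u, hu1, hu2⟩ := isOpen_pi_iff'.mp (hO.preimage hF') 1 h1
  choose V hV1 hV2 hV3 using fun i => hb (u i) ((hu1 i).1.mem_nhds (hu1 i).2)
  refine ⟨hh, hhU, U ⊓ ⨅ i, V i, ?_, inf_le_left, ?_⟩
  · rw [Subgroup.coe_inf, Subgroup.coe_iInf]
    exact hU.inter (isOpen_iInter_of_finite hV2)
  · intro v hv
    have hvU : ∀ i, v i ∈ U := fun i => (hv i).1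
    have hvV : ∀ i, v i ∈ V i := fun i => by
      have h2 := (hv i).2
      exact (Subgroup.mem_iInf.mp h2) i
    have h2 : F' v ∈ O := hu2 fun i _ => hV3 i (hvV i)
    have h3 : F' v ∈ I := ⟨fun i => hh i * v i, fun i _ => U.mul_mem (hhU i) (hvU i), rfl⟩
    have h4 : (⟨F' v, h3⟩ : I) ∈ (Subtype.val ⁻¹' O : Set I) := h2
    rw [hOx] at h4
    exact congrArg Subtype.val h4

end Pool.Agent.Lib.MP_ae9e3a_al
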