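import Pool.Agent.Lib.MP_ae9e3a_al.Top

set_option autoImplicit false

/-!
# VPP module ChnB: polyprocyclic chains: transitivity, images, products

All by induction on the chain.
* `Chn.le`, `Chn.closed_left`, `Chn.closed_right`, `Chn.trans`: immediate.
* `Chn.map`: images of closed subgroups are closed (`isClosed_map`); `f '' closure S ⊆
  closure (f '' S)` (`image_closure_subset_closure_image`), `Subgroup.map_sup`,
  `MonoidHom.map_zpowers`.
* `Chn.sup`: `H ↦ H ⊔ B`, `B` closed normal: closed by `isClosed_sup`; the elements of `K ⊔ B` are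
  `k b`; `K B ⊆ closure (H ⊔ ⟨x⟩) * B ⊆ closure ((H ⊔ B) ⊔ ⟨x⟩)` (multiplication by a fixed
  element of `B` on the right maps `closure (H ⊔ ⟨x⟩)` into it, because the closure of a subgroup
  is a subgroup: `Subgroup.topologicalClosure`).
* `Chn.topGen`: step: `M ⊆ closure (H ⊔ ⟨x⟩)` and `H ⊆ closure (K ⊔ ⟨S⟩)` give
  `M ⊆ closure (K ⊔ ⟨insert x S⟩)`.
-/

namespace Pool.Agent.Lib.MP_ae9e3a_al

variable {G : Type*} [Group G] [TopologicalSpace G]

theorem Chn.le {A P : Subgroup G} (h : Chn A P) : A ≤ P := by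
  induction h with
  | refl _ => exact le_rfl
  | step H K x _ hHK _ _ _ _ ih => exact ih.trans hHK

theorem Chn.closed_left {A P : Subgroup G} (h : Chn A P) : IsClosed (A : Set G) := by
  induction h with
  | refl hA => exact hA
  | step H K x _ _ _ _ _ _ ih => exact ih

theorem Chn.closed_right {A P : Subgroup G} (h : Chn A P) : IsClosed (P : Set G) := by
  cases h with
  | refl hA => exact hA
  | step H _ x _ _ hK _ _ _ => exact hK

theorem Chn.trans {A B C : Subgroup G} (h : Chn A B) (h' : Chn B C) : Chn A C := by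
  induction h' with
  | refl _ => exact h
  | step H K x _ h1 h2 h3 h4 h5 ih => exact Chn.step H K x ih h1 h2 h3 h4 h5

theorem Chn.map {G' : Type*} [Group G'] [TopologicalSpace G'] [IsTopologicalGroup G']
    [T2Space G'] [IsTopologicalGroup G] [CompactSpace G] [T2Space G] (f : G →* G')
    (hf : Continuous f) {A P : Subgroup G} (h : Chn A P) : Chn (A.map f) (P.map f) := by
  induction h with
  | refl hA => exact Chn.refl (isClosed_map f hf hA)
  | step H K x _ h1 h2 h3 h4 h5 ih =>
    refine Chn.step (H.map f) (K.map f) (f x) ih (Subgroup.map_mono h1) (isClosed_map f hf h2)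
      ?_ ⟨x, h4, rfl⟩ ?_
    · rintro _ ⟨h, hh, rfl⟩ _ ⟨k, hk, rfl⟩
      exact ⟨k * h * k⁻¹, h3 h hh k hk, by simp⟩
    · rintro _ ⟨k, hk, rfl⟩
      have h6 : f k ∈ f '' closure ((H ⊔ Subgroup.zpowers x : Subgroup G) : Set G) :=
        ⟨k, h5 hk, rfl⟩
      have h7 := image_closure_subset_closure_image hf h6
      have h8 : f '' ((H ⊔ Subgroup.zpowers x : Subgroup G) : Set G) =
          ((H.map f ⊔ Subgroup.zpowers (f x) : Subgroup G') : Set G') := by
        rw [← Subgroup.coe_map, Subgroup.map_sup, MonoidHom.map_zpowers]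
      rwa [h8] at h7

theorem ChnB_le_of_subset [IsTopologicalGroup G] {M S : Subgroup G}
    (h : (M : Set G) ⊆ closure (S : Set G)) : M ≤ S.topologicalClosure := fun _ hm => h hm

theorem Chn.sup [IsTopologicalGroup G] [CompactSpace G] [T2Space G] {A P B : Subgroup G}
    (h : Chn A P) (hB : B.Normal) (hBc : IsClosed (B : Set G)) : Chn (A ⊔ B) (P ⊔ B) := by
  have hclosed : ∀ X : Subgroup G, IsClosed (X : Set G) →
      IsClosed ((X ⊔ B : Subgroup G) : Set G) := by
    intro X hX
    rw [sup_comm]
    exact isClosed_sup hBc hX fun y _ n hn => hB.conj_mem n hn y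
  have hmem : ∀ (X : Subgroup G) (g : G), g ∈ X ⊔ B ↔ ∃ y ∈ X, ∃ b ∈ B, g = y * b := by
    intro X g
    constructor
    · intro hg
      have h1 : g ∈ ((X ⊔ B : Subgroup G) : Set G) := hg
      rw [Subgroup.mul_normal] at h1
      obtain ⟨y, hy, b, hb, h2⟩ := h1
      exact ⟨y, hy, b, hb, h2.symm⟩
    · rintro ⟨y, hy, b, hb, rfl⟩
      exact Subgroup.mul_mem _ (Subgroup.mem_sup_left hy) (Subgroup.mem_sup_right hb)
  induction h with
  | refl hA => exact Chn.refl (hclosed _ hA)
  | step H K x _ h1 h2 h3 h4 h5 ih =>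
    refine Chn.step (H ⊔ B) (K ⊔ B) x ih (sup_le_sup_right h1 B) (hclosed _ h2) ?_
      (Subgroup.mem_sup_left h4) ?_
    · intro h hh k hk
      obtain ⟨y, hy, b, hb, rfl⟩ := (hmem H h).1 hh
      obtain ⟨z, hz, c, hc, rfl⟩ := (hmem K k).1 hk
      refine (hmem H _).2 ⟨z * y * z⁻¹, h3 y hy z hz,
        z * ((y⁻¹ * c * y) * (b * c⁻¹)) * z⁻¹, ?_, by group⟩
      refine hB.conj_mem _ (B.mul_mem ?_ (B.mul_mem hb (B.inv_mem hc))) z
      have := hB.conj_mem c hc y⁻¹
      rwa [inv_inv] at this
    · have hT1 : K ≤ ((H ⊔ B) ⊔ Subgroup.zpowers x).topologicalClosure :=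
        (ChnB_le_of_subset h5).trans (Subgroup.topologicalClosure_mono
          (sup_le_sup_right le_sup_left _))
      have hT2 : B ≤ ((H ⊔ B) ⊔ Subgroup.zpowers x).topologicalClosure :=
        (le_sup_right.trans le_sup_left).trans (Subgroup.le_topologicalClosure _)
      intro g hg
      exact sup_le hT1 hT2 hg

theorem Chn.topGen [IsTopologicalGroup G] [CompactSpace G] [T2Space G] {K H : Subgroup G}
    (h : Chn K H) : ∃ S : Finset G, TopGen K H S := by
  classical
  induction h with
  | refl hK =>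
    refine ⟨∅, by simp, fun g hg => subset_closure ?_⟩
    exact Subgroup.mem_sup_left (S := K) hg
  | step H M x _ h1 h2 h3 h4 h5 ih =>
    obtain ⟨S, hS1, hS2⟩ := ih
    refine ⟨insert x S, ?_, ?_⟩
    · intro s hs
      rcases Finset.mem_insert.1 hs with rfl | hs
      · exact h4
      · exact h1 (hS1 s hs)
    · have hT1 : H ≤ (K ⊔ Subgroup.closure ((insert x S : Finset G) : Set G)).topologicalClosure :=
        (ChnB_le_of_subset hS2).trans (Subgroup.topologicalClosure_mono
          (sup_le_sup_left (Subgroup.closure_mono (by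
            rw [Finset.coe_insert]; exact Set.subset_insert _ _)) _))
      have hT2 : Subgroup.zpowers x ≤
          (K ⊔ Subgroup.closure ((insert x S : Finset G) : Set G)).topologicalClosure := by
        rw [Subgroup.zpowers_le]
        exact Subgroup.le_topologicalClosure _ (Subgroup.mem_sup_right
          (Subgroup.subset_closure (by simp)))
      have hT3 : M ≤ (K ⊔ Subgroup.closure ((insert x S : Finset G) : Set G)).topologicalClosure :=
        (ChnB_le_of_subset h5).trans (Subgroup.topologicalClosure_minimal _ (sup_le hT1 hT2)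
          (Subgroup.isClosed_topologicalClosure _))
      intro g hg
      exact hT3 hg

end Pool.Agent.Lib.MP_ae9e3a_al
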