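import Pool.Agent.Lib.MP_ae9e3a_al.Xcls
import Pool.Agent.Lib.MP_ae9e3a_al.ChnB

set_option autoImplicit false

/-!
# VPP module GoodStep: good subgroups of finite index in polyprocyclic pro-`p` groups

`GT p K N N₀ S`: `N₀` is a closed subgroup of `N`, good modulo `K`, topologically generated by `S`
modulo `K`, and the subgroup generated by the `p ^ 2`-th powers and `K` is open in `N`.

PROOF of `good_step`. Let `Q = closure ({z ^ p ^ 2 | z ∈ N₀} ∪ K) ≥ N ⊓ V`, `V` open normal; `Q ≤ N₀`.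
As `x ∈ M ≤ P` is a pro-`p` element there is `j` with `y = x ^ p ^ j ∈ V` (`exists_pow_mem`), so
`Y = Xc y ≤ V` (`V` is closed) and `Y ≤ M`. For `ξ ∈ Y` and `n ∈ N`: `ξ n ξ⁻¹ n⁻¹ ∈ N ⊓ V ≤ Q`
(in `V` because `V` is normal, in `N` because `N` is normal in `M`). So `Y` normalises `N₀`:
`ξ n ξ⁻¹ = (ξ n ξ⁻¹ n⁻¹) n ∈ Q N₀ = N₀` for `n ∈ N₀`. Put `M₀ = N₀ ⊔ Y = N₀ Y` (closed,
`isClosed_sup`), `S' = insert y S`.
* `good.gen`: `n ∈ N₀` by `h.good.gen` (monotone closure); `ξ ∈ Y`: `ξ = y ^ i * z ^ p`, `z ∈ Y`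
  (`Xc_decomp`).
* `good.com`: `Q' = closure ({z ^ p ^ 2 | z ∈ M₀} ∪ K)` contains `Q`, and it is normalised by `M₀`
  (conjugates of `p ^ 2`-th powers are `p ^ 2`-th powers; `K` is normal in `G`). `[N₀, N₀] ≤ Q`,
  `[Y, N₀] ≤ Q`, `Y` is commutative; so `[n ξ, n' ξ'] ∈ Q'`, e.g. in the quotient group
  `M₀ ⧸ Q'.subgroupOf M₀` the images of the generators `N₀ ∪ Y` commute, so it is commutative
  (`Subgroup.closureCommGroupOfComm`...), or expand the commutator by hand.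
* `top`: `M₀ = N₀ Y ⊆ closure (K ⊔ ⟨S'⟩)`.
* `opn`: `R = (N ⊓ V) ⊔ Xc (y ^ p ^ 2)` (`Y` normalises `N ⊓ V`) is closed and `R ≤ Q'`
  (`N ⊓ V ≤ Q ≤ Q'`, `Xc (y ^ p ^ 2) = {ξ ^ p ^ 2 | ξ ∈ Y}` by `Xc_pow`). `R` has finite index in `M`:
  `M = N * Xc x` (`N ⊔ Xc x` is closed and contains `N ⊔ ⟨x⟩`, so it is all of `M`), `N` is a finite
  union of cosets `n_i (N ⊓ V)`, `Xc x` is a finite union of cosets `x ^ l * Xc (y ^ p ^ 2)`
  (`y ^ p ^ 2 = x ^ p ^ (j+2)`, `Xc_decomp`, `Xc_pow`), and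
  `n_i (N ⊓ V) x ^ l Xc (..) = n_i x ^ l (N ⊓ V) Xc (..)`. So `relIndex_ne_zero_of_cover` and
  `open_in` give `V'` with `M ⊓ V' ≤ R ≤ Q'`.

PROOF of `good_all`: induction on the chain. `refl`: `H₀ = K`, `S = ∅`, all conditions are trivial
(`V = ⊤`).
-/

namespace Pool.Agent.Lib.MP_ae9e3a_al

variable {G : Type*} [Group G] [TopologicalSpace G]

/-- A good closed subgroup `N₀` of `N`, modulo `K`. -/
structure GT (p : ℕ) {G : Type*} [Group G] [TopologicalSpace G] (K N N₀ : Subgroup G)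
    (S : Finset G) : Prop where
  closed : IsClosed (N₀ : Set G)
  le : N₀ ≤ N
  good : Good p K N₀ S
  top : TopGen K N₀ S
  opn : ∃ V : Subgroup G, V.Normal ∧ IsOpen (V : Set G) ∧
    N ⊓ V ≤ Subgroup.closure ({y | ∃ z ∈ N₀, y = z ^ (p ^ 2)} ∪ K)

private theorem GoodStep_comm {G : Type*} [Group G] {M Q : Subgroup G}
    (hQ : ∀ m ∈ M, ∀ q ∈ Q, m * q * m⁻¹ ∈ Q) (a : G) {N Y : Subgroup G} (hN : N ≤ M)
    (hY : Y ≤ M) (h1 : ∀ n ∈ N, a * n * a⁻¹ * n⁻¹ ∈ Q) (h2 : ∀ y ∈ Y, a * y * a⁻¹ * y⁻¹ ∈ Q) :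
    ∀ b ∈ N ⊔ Y, a * b * a⁻¹ * b⁻¹ ∈ Q := by
  let C : Subgroup G :=
    { carrier := {b | b ∈ M ∧ a * b * a⁻¹ * b⁻¹ ∈ Q}
      one_mem' := ⟨M.one_mem, by simp [Q.one_mem]⟩
      mul_mem' := fun {b c} hb hc => ⟨M.mul_mem hb.1 hc.1, by
        have h3 : a * (b * c) * a⁻¹ * (b * c)⁻¹ =
            (a * b * a⁻¹ * b⁻¹) * (b * (a * c * a⁻¹ * c⁻¹) * b⁻¹) := by group
        rw [h3]
        exact Q.mul_mem hb.2 (hQ b hb.1 _ hc.2)⟩
      inv_mem' := fun {b} hb => ⟨M.inv_mem hb.1, by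
        have h3 : a * b⁻¹ * a⁻¹ * b⁻¹⁻¹ = b⁻¹ * (a * b * a⁻¹ * b⁻¹)⁻¹ * b⁻¹⁻¹ := by group
        rw [h3]
        exact hQ _ (M.inv_mem hb.1) _ (Q.inv_mem hb.2)⟩ }
  have h3 : N ⊔ Y ≤ C := sup_le (fun n hn => ⟨hN hn, h1 n hn⟩) (fun y hy => ⟨hY hy, h2 y hy⟩)
  exact fun b hb => (h3 hb).2

private theorem GoodStep_norm {G : Type*} [Group G] (n : ℕ) {K M : Subgroup G} (hK : K.Normal) :
    ∀ m ∈ M, ∀ q ∈ Subgroup.closure ({y | ∃ z ∈ M, y = z ^ n} ∪ (K : Set G)),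
      m * q * m⁻¹ ∈ Subgroup.closure ({y | ∃ z ∈ M, y = z ^ n} ∪ (K : Set G)) := by
  intro m hm q hq
  induction hq using Subgroup.closure_induction with
  | mem q hq =>
    apply Subgroup.subset_closure
    rcases hq with ⟨z, hz, rfl⟩ | hq
    · exact Or.inl ⟨m * z * m⁻¹, M.mul_mem (M.mul_mem hm hz) (M.inv_mem hm), conj_pow.symm⟩
    · exact Or.inr (hK.conj_mem q hq m)
  | one => simp
  | mul a b _ _ ha hb =>
    have h : m * (a * b) * m⁻¹ = (m * a * m⁻¹) * (m * b * m⁻¹) := by group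
    rw [h]
    exact Subgroup.mul_mem _ ha hb
  | inv a _ ha =>
    have h : m * a⁻¹ * m⁻¹ = (m * a * m⁻¹)⁻¹ := by group
    rw [h]
    exact Subgroup.inv_mem _ ha

theorem good_step [IsTopologicalGroup G] [CompactSpace G] [T2Space G] (hb : Basis1 G) {p : ℕ}
    (hp : p.Prime) {P K N M N₀ : Subgroup G} {S : Finset G} (hP : ProP p P) (hK : K.Normal)
    (hMP : M ≤ P) (hM : IsClosed (M : Set G)) (hN : IsClosed (N : Set G)) (hNM : N ≤ M)
    (hn : ∀ h ∈ N, ∀ k ∈ M, k * h * k⁻¹ ∈ N) {x : G} (hx : x ∈ M)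
    (hgen : (M : Set G) ⊆ closure ((N ⊔ Subgroup.zpowers x : Subgroup G) : Set G))
    (h : GT p K N N₀ S) : ∃ (M₀ : Subgroup G) (S' : Finset G), GT p K M M₀ S' := by
  classical
  obtain ⟨V, hVn, hVo, hVQ⟩ := h.opn
  set Q := Subgroup.closure ({y | ∃ z ∈ N₀, y = z ^ (p ^ 2)} ∪ (K : Set G)) with hQ
  have hQN₀ : Q ≤ N₀ := by
    rw [hQ, Subgroup.closure_le]
    rintro y (⟨z, hz, rfl⟩ | hy)
    · exact N₀.pow_mem hz _
    · exact h.good.le hy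
  have hVc : IsClosed (V : Set G) := Subgroup.isClosed_of_isOpen V hVo
  obtain ⟨j, hj⟩ := exists_pow_mem hP (hMP hx) hVn hVo
  set y := x ^ p ^ j with hy
  have hyM : y ∈ M := M.pow_mem hx _
  have hYV : Xc y ≤ V := Xc_le_of_mem hVc hj
  have hYM : Xc y ≤ M := Xc_le_of_mem hM hyM
  have hcom : ∀ ξ ∈ Xc y, ∀ n ∈ N, ξ * n * ξ⁻¹ * n⁻¹ ∈ Q := by
    intro ξ hξ n hnN
    refine hVQ ⟨N.mul_mem (hn n hnN ξ (hYM hξ)) (N.inv_mem hnN), ?_⟩
    have h1 : ξ * n * ξ⁻¹ * n⁻¹ = ξ * (n * ξ⁻¹ * n⁻¹) := by group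
    rw [SetLike.mem_coe, h1]
    exact V.mul_mem (hYV hξ) (hVn.conj_mem _ (V.inv_mem (hYV hξ)) n)
  have hY0 : ∀ ξ ∈ Xc y, ∀ n ∈ N₀, ξ * n * ξ⁻¹ ∈ N₀ := by
    intro ξ hξ n hn0
    have h1 : ξ * n * ξ⁻¹ = (ξ * n * ξ⁻¹ * n⁻¹) * n := by group
    rw [h1]
    exact N₀.mul_mem (hQN₀ (hcom ξ hξ n (h.le hn0))) hn0
  have hM₀M : N₀ ⊔ Xc y ≤ M := sup_le (h.le.trans hNM) hYM
  set Q' := Subgroup.closure ({z' | ∃ z ∈ N₀ ⊔ Xc y, z' = z ^ (p ^ 2)} ∪ (K : Set G)) with hQ'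
  have hQQ' : Q ≤ Q' := by
    apply Subgroup.closure_mono
    rintro z (⟨z', hz', rfl⟩ | hz)
    · exact Or.inl ⟨z', (le_sup_left : N₀ ≤ N₀ ⊔ Xc y) hz', rfl⟩
    · exact Or.inr hz
  have hnorm := GoodStep_norm (p ^ 2) (M := N₀ ⊔ Xc y) hK
  have hyS : ∀ s ∈ insert y S, s ∈ N₀ ⊔ Xc y := by
    intro s hs
    rcases Finset.mem_insert.1 hs with rfl | hs
    · exact (le_sup_right : Xc y ≤ N₀ ⊔ Xc y) (Xc_mem y)
    · exact (le_sup_left : N₀ ≤ N₀ ⊔ Xc y) (h.good.sub s hs)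
  refine ⟨N₀ ⊔ Xc y, insert y S, ⟨isClosed_sup h.closed (Xc_closed y) hY0, hM₀M,
    ⟨h.good.le.trans le_sup_left, hyS, ?_, ?_⟩, ⟨hyS, ?_⟩, ?_⟩⟩
  · -- generation
    have h1 : N₀ ⊔ Xc y ≤ Subgroup.closure (((insert y S : Finset G) : Set G) ∪
        {z' : G | ∃ z ∈ N₀ ⊔ Xc y, z' = z ^ p} ∪ (K : Set G)) := by
      refine sup_le (fun n hn0 => ?_) (fun ξ hξ => ?_)
      · refine Subgroup.closure_mono ?_ (h.good.gen n hn0)
        rintro z ((hz | ⟨z', hz', rfl⟩) | hz)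
        · exact Or.inl (Or.inl (Finset.mem_coe.2 (Finset.mem_insert_of_mem (Finset.mem_coe.1 hz))))
        · exact Or.inl (Or.inr ⟨z', (le_sup_left : N₀ ≤ N₀ ⊔ Xc y) hz', rfl⟩)
        · exact Or.inr hz
      · obtain ⟨i, _, z, hz, rfl⟩ := Xc_decomp y p hp.pos ξ hξ
        refine mul_mem (pow_mem (Subgroup.subset_closure ?_) i) (Subgroup.subset_closure ?_)
        · exact Or.inl (Or.inl (Finset.mem_coe.2 (Finset.mem_insert_self y S)))
        · exact Or.inl (Or.inr ⟨z, (le_sup_right : Xc y ≤ N₀ ⊔ Xc y) hz, rfl⟩)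
    exact fun g hg => h1 hg
  · -- commutators
    have hinv : ∀ a b : G, a * b * a⁻¹ * b⁻¹ ∈ Q' → b * a * b⁻¹ * a⁻¹ ∈ Q' := by
      intro a b hab
      have h1 : b * a * b⁻¹ * a⁻¹ = (a * b * a⁻¹ * b⁻¹)⁻¹ := by group
      rw [h1]
      exact Q'.inv_mem hab
    have hNn : ∀ a ∈ N₀, ∀ b ∈ N₀ ⊔ Xc y, a * b * a⁻¹ * b⁻¹ ∈ Q' := fun a ha =>
      GoodStep_comm hnorm a le_sup_left le_sup_right
        (fun n hn0 => hQQ' (h.good.com a ha n hn0))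
        (fun ξ hξ => hinv _ _ (hQQ' (hcom ξ hξ a (h.le ha))))
    have hYn : ∀ a ∈ Xc y, ∀ b ∈ N₀ ⊔ Xc y, a * b * a⁻¹ * b⁻¹ ∈ Q' := fun a ha =>
      GoodStep_comm hnorm a le_sup_left le_sup_right
        (fun n hn0 => hQQ' (hcom a ha n (h.le hn0)))
        (fun ξ hξ => by
          rw [Xc_comm y a ha ξ hξ]
          simp)
    intro a ha b hb'
    exact hinv _ _ (GoodStep_comm hnorm b le_sup_left le_sup_right
      (fun n hn0 => hinv _ _ (hNn n hn0 b hb')) (fun ξ hξ => hinv _ _ (hYn ξ hξ b hb')) a ha)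
  · -- topological generation
    set T := (K ⊔ Subgroup.closure ((insert y S : Finset G) : Set G)).topologicalClosure with hT
    have h1 : N₀ ⊔ Xc y ≤ T := by
      refine sup_le ?_ (Xc_le_of_mem (Subgroup.isClosed_topologicalClosure _) ?_)
      · intro n hn0
        have h2 := h.top.2 hn0
        have h3 : ((K ⊔ Subgroup.closure (S : Set G) : Subgroup G) : Set G) ⊆
            ((K ⊔ Subgroup.closure ((insert y S : Finset G) : Set G) : Subgroup G) : Set G) := by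
          apply SetLike.coe_subset_coe.2
          refine sup_le_sup_left (Subgroup.closure_mono ?_) K
          intro s hs
          exact Finset.mem_coe.2 (Finset.mem_insert_of_mem (Finset.mem_coe.1 hs))
        exact closure_mono h3 h2
      · apply Subgroup.le_topologicalClosure
        apply (le_sup_right : Subgroup.closure ((insert y S : Finset G) : Set G) ≤ _)
        exact Subgroup.subset_closure (Finset.mem_coe.2 (Finset.mem_insert_self y S))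
    exact h1
  · -- openness
    have hZM : Xc (y ^ p ^ 2) ≤ M := Xc_le_of_mem hM (M.pow_mem hyM _)
    have hnR : ∀ ζ ∈ M, ∀ v ∈ N ⊓ V, ζ * v * ζ⁻¹ ∈ N ⊓ V := fun ζ hζ v hv =>
      ⟨hn v hv.1 ζ hζ, hVn.conj_mem v hv.2 ζ⟩
    have hRc : IsClosed (((N ⊓ V) ⊔ Xc (y ^ p ^ 2) : Subgroup G) : Set G) :=
      isClosed_sup (hN.inter hVc) (Xc_closed _) fun ζ hζ v hv => hnR ζ (hZM hζ) v hv
    have hRM : (N ⊓ V) ⊔ Xc (y ^ p ^ 2) ≤ M := sup_le (inf_le_left.trans hNM) hZM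
    have hRQ : (N ⊓ V) ⊔ Xc (y ^ p ^ 2) ≤ Q' := by
      refine sup_le (hVQ.trans hQQ') fun ζ hζ => ?_
      obtain ⟨z, hz, rfl⟩ := (Xc_pow y (p ^ 2) ζ).1 hζ
      exact Subgroup.subset_closure (Or.inl ⟨z, (le_sup_right : Xc y ≤ N₀ ⊔ Xc y) hz, rfl⟩)
    have hMx : ∀ m ∈ M, ∃ n ∈ N, ∃ ξ ∈ Xc x, m = n * ξ := by
      have hxM : Xc x ≤ M := Xc_le_of_mem hM hx
      have hnx : ∀ ξ ∈ Xc x, ∀ n ∈ N, ξ * n * ξ⁻¹ ∈ N := fun ξ hξ n hnN => hn n hnN ξ (hxM hξ)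
      have h1 : IsClosed ((N ⊔ Xc x : Subgroup G) : Set G) := isClosed_sup hN (Xc_closed x) hnx
      intro m hm
      have h2 : m ∈ ((N ⊔ Xc x : Subgroup G) : Set G) := by
        refine closure_minimal ?_ h1 (hgen hm)
        apply SetLike.coe_subset_coe.2
        refine sup_le_sup_left ?_ N
        rw [Subgroup.zpowers_le]
        exact Xc_mem x
      rw [coe_sup_of_normalizes hnx] at h2
      exact h2
    have hVi : V.index ≠ 0 := index_ne_zero_of_isOpen hVo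
    have hfin : Finite (N ⧸ V.subgroupOf N) := by
      have h1 : (V.subgroupOf N).index ≠ 0 := by
        have h2 : V.relIndex N ∣ V.index := Subgroup.relIndex_dvd_index_of_normal V N
        intro h0
        exact hVi (Nat.eq_zero_of_zero_dvd (by
          rw [Subgroup.relIndex, h0] at h2
          exact h2))
      exact Nat.finite_of_card_ne_zero h1
    let X₁ : Set G := Set.range fun q : N ⧸ V.subgroupOf N => ((Quotient.out q : N) : G)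
    have hX₁ : ∀ n ∈ N, ∃ c ∈ X₁, c ∈ N ∧ c⁻¹ * n ∈ N ⊓ V := by
      intro n hnN
      let q : N ⧸ V.subgroupOf N := QuotientGroup.mk ⟨n, hnN⟩
      refine ⟨((Quotient.out q : N) : G), ⟨q, rfl⟩, (Quotient.out q : N).2, ?_⟩
      have h1 : (QuotientGroup.mk (Quotient.out q : N) : N ⧸ V.subgroupOf N) =
          QuotientGroup.mk ⟨n, hnN⟩ := Quotient.out_eq q
      rw [QuotientGroup.eq] at h1
      exact ⟨N.mul_mem (N.inv_mem (Quotient.out q : N).2) hnN, h1⟩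
    have hpp : 0 < p ^ j * p ^ 2 := Nat.mul_pos (pow_pos hp.pos _) (pow_pos hp.pos _)
    have hyx : y ^ p ^ 2 = x ^ (p ^ j * p ^ 2) := by rw [hy, pow_mul]
    have hi : ((N ⊓ V) ⊔ Xc (y ^ p ^ 2)).relIndex M ≠ 0 := by
      refine relIndex_ne_zero_of_cover
        (Set.image2 (fun (c : G) (i : ℕ) => c * x ^ i) X₁ (Set.Iio (p ^ j * p ^ 2)))
        (Set.Finite.image2 _ (Set.finite_range _) (Set.finite_Iio _)) ?_
      intro m hm
      obtain ⟨n, hnN, ξ, hξ, rfl⟩ := hMx m hm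
      obtain ⟨c, hc, _, hcn⟩ := hX₁ n hnN
      obtain ⟨i, hi, z, hz, rfl⟩ := Xc_decomp x (p ^ j * p ^ 2) hpp ξ hξ
      refine ⟨c * x ^ i, ⟨c, hc, i, hi, rfl⟩, ?_⟩
      have h1 : (c * x ^ i)⁻¹ * (n * (x ^ i * z ^ (p ^ j * p ^ 2))) =
          ((x ^ i)⁻¹ * (c⁻¹ * n) * (x ^ i)⁻¹⁻¹) * z ^ (p ^ j * p ^ 2) := by group
      rw [h1]
      refine Subgroup.mul_mem _ ((le_sup_left : N ⊓ V ≤ (N ⊓ V) ⊔ Xc (y ^ p ^ 2))
        (hnR _ (M.inv_mem (M.pow_mem hx i)) _ hcn)) ?_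
      apply (le_sup_right : Xc (y ^ p ^ 2) ≤ (N ⊓ V) ⊔ Xc (y ^ p ^ 2))
      rw [hyx]
      exact (Xc_pow x _ _).2 ⟨z, hz, rfl⟩
    obtain ⟨V', hV'n, hV'o, hV'⟩ := open_in hb hM hRc hRM hi
    exact ⟨V', hV'n, hV'o, hV'.trans hRQ⟩

theorem good_all [IsTopologicalGroup G] [CompactSpace G] [T2Space G] (hb : Basis1 G) {p : ℕ}
    (hp : p.Prime) {P K H : Subgroup G} (hP : ProP p P) (hK : K.Normal) (hH : Chn K H)
    (hHP : H ≤ P) : ∃ (H₀ : Subgroup G) (S : Finset G), GT p K H H₀ S := by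
  induction hH with
  | refl hc =>
    refine ⟨K, ∅, hc, le_rfl, ⟨le_rfl, fun s hs => absurd hs (Finset.notMem_empty s),
      fun h hh => Subgroup.subset_closure (Or.inr hh), fun x hx y hy =>
        Subgroup.subset_closure (Or.inr (K.mul_mem (K.mul_mem (K.mul_mem hx hy) (K.inv_mem hx))
          (K.inv_mem hy)))⟩,
      ⟨fun s hs => absurd hs (Finset.notMem_empty s), fun g hg => subset_closure
        ((le_sup_left : K ≤ K ⊔ _) hg)⟩, ⊤, inferInstance, isOpen_univ, ?_⟩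
    intro g hg
    exact Subgroup.subset_closure (Or.inr hg.1)
  | step H M x hH hHM hM hn hx hgen ih =>
    obtain ⟨N₀, S, hG⟩ := ih (hHM.trans hHP)
    exact good_step hb hp hP hK hHP hM hH.closed_right hHM hn hx hgen hG

end Pool.Agent.Lib.MP_ae9e3a_al
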