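import Pool.Agent.Lib.MP_ae9e3a_al.Fox
import Pool.Agent.Lib.MP_ae9e3a_al.AccMod
import Pool.Agent.Lib.MP_ae9e3a_al.PNil
import Pool.Agent.Lib.MP_ae9e3a_al.Small
import Pool.Agent.Lib.MP_ae9e3a_al.GoodStep
import Pool.Agent.Lib.MP_ae9e3a_al.Addit

set_option autoImplicit false

/-!
# VPP module Marg: `A` has an open marginal subgroup

PROOF. `B`, `ι` from `exists_additive`. For a tuple `g` let `φ = φ^g` be as in `fox`.
(1) Each `φ i` has finite range: `b ↦ ι (φ i b) * w(g)` (put the other `b`'s equal to `0`) is a value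
of `w`, so `#(range (φ i)) ≤ #(vals w G) < 𝔠`; `range (φ i)` is a compact topological group
(`φ i ∈ Lam G B` is continuous: closure induction), so it is finite (`finite_of_small_addGroup`).
So the kernel of `φ i` is closed of finite index, hence open: it contains `ι ⁻¹' V` for some open
normal subgroup `V` of `G` (`ι` is an embedding of the compact space `B`; `Basis1`).
(2) For an open normal `V` let `J_V = {f ∈ Lam G B | f b = 0 for all b with ι b ∈ V}`, a
subgroup of `B →+ B`; `V' ≤ V → J_V ≤ J_{V'}`. `good_all` (`K = A`, `H = P`) gives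
`GT p A P H S`, `H` open (contains `P ⊓ V'`), so of finite index. `G` acts on `B →+ B` by
`(g • f) b = g • f b` (the Mathlib instance), `W = Lam G B` is stable (`lam_stab`), `A` acts trivially
on `B` (conjugation, `A` is abelian), so on `W`. `acc_mod` with `v` from `lam_gen` and
`𝒩 = {J_V}`: `J_V` is `H`-stable; closed: let `f ∈ W` and for all `k` there is `f' ∈ J_V` with
`f - f' ∈ mk p H W k`; for `ι b ∈ V`: `f b = (f - f') b ∈ mk p H ⊤ k` (`mk_apply`) for all `k`, and
`⋂ mk p H ⊤ k = 0` (`pgroup_nil` for the open subgroups of `ModP p P B`, `H ≤ P`; Hausdorff). So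
`f b = 0`.
(3) Let `J_{V₀}` be maximal. For every `V`: `J_V ≤ J_{V ⊓ V₀} = J_{V₀}`. So all `φ i` (all `g`) are in
`J_{V₀}` by (1). For `d i ∈ A ⊓ V₀`: `g i * d i = (g i d i (g i)⁻¹) * g i = ι (b i) * g i` with
`ι (b i) ∈ V₀`, so `w(g d) = ι (∑ φ i (b i)) * w(g) = w(g)`.
-/

namespace Pool.Agent.Lib.MP_ae9e3a_al

open Cardinal

universe u

section

variable {G : Type u} [Group G] {B : Type u} [AddCommGroup B] [DistribMulAction G B]

/-- The operators in `Lam G B` which vanish on the part of `B` in `V`. -/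
private def marg_J (ι : B → G) (V : Subgroup G) : AddSubgroup (B →+ B) where
  carrier := {f | f ∈ Lam G B ∧ ∀ b, ι b ∈ V → f b = 0}
  zero_mem' := ⟨zero_mem _, fun _ _ => rfl⟩
  add_mem' := fun {f g} hf hg => ⟨add_mem hf.1 hg.1, fun b hb => by
    rw [AddMonoidHom.add_apply, hf.2 b hb, hg.2 b hb, add_zero]⟩
  neg_mem' := fun {f} hf => ⟨neg_mem hf.1, fun b hb => by rw [AddMonoidHom.neg_apply, hf.2 b hb, neg_zero]⟩

private theorem marg_mem (ι : B → G) (V : Subgroup G) (f : B →+ B) :
    f ∈ marg_J ι V ↔ f ∈ Lam G B ∧ ∀ b, ι b ∈ V → f b = 0 := Iff.rfl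

private theorem marg_smul (g : G) (f : B →+ B) (b : B) : (g • f) b = g • f b := rfl

private theorem marg_cont [TopologicalSpace G] [TopologicalSpace B] [IsTopologicalAddGroup B]
    [ContinuousSMul G B] {f : B →+ B} (hf : f ∈ Lam G B) : Continuous f := by
  unfold Lam at hf
  induction hf using AddSubgroup.closure_induction with
  | mem x hx =>
    obtain ⟨g, rfl⟩ := hx
    exact continuous_const_smul g
  | zero => exact continuous_const
  | add x y _ _ h1 h2 => exact h1.add h2
  | neg x _ h => exact h.neg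

omit [Group G] [DistribMulAction G B] in
private theorem marg_fin [TopologicalSpace B] [IsTopologicalAddGroup B] [CompactSpace B] [T2Space B]
    {f : B →+ B} (hf : Continuous f) {S : Set G} (hS : #S < 𝔠) (j : B → G)
    (hj : Function.Injective j) (h : ∀ b, j (f b) ∈ S) : (Set.range f).Finite := by
  have hc : CompactSpace f.range := by
    have h0 : IsCompact (f.range : Set B) := by
      rw [AddMonoidHom.coe_range]
      exact isCompact_range hf
    exact isCompact_iff_compactSpace.1 h0
  have h1 : ∀ y : f.range, j (y : B) ∈ S := by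
    rintro ⟨y, b, rfl⟩
    exact h b
  have h2 : #f.range ≤ #S := by
    refine Cardinal.mk_le_of_injective (f := fun y : f.range => (⟨j (y : B), h1 y⟩ : S)) ?_
    intro y y' hy
    exact Subtype.ext (hj (congrArg Subtype.val hy))
  have h3 : Finite f.range := finite_of_small_addGroup (lt_of_le_of_lt h2 hS)
  have h4 : (f.range : Set B).Finite := Set.toFinite _
  rwa [AddMonoidHom.coe_range] at h4

private theorem marg_ker [TopologicalSpace B] [T2Space B] {f : B →+ B} (hf : Continuous f)
    (hfin : (Set.range f).Finite) : IsOpen {b : B | f b = 0} := by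
  have h1 : IsClosed (Set.range f \ {0}) := (hfin.subset Set.sdiff_subset).isClosed
  have h2 : {b : B | f b = 0} = f ⁻¹' (Set.range f \ {0})ᶜ := by
    ext b
    simp
  rw [h2]
  exact h1.isOpen_compl.preimage hf

end

theorem marginal_open {G : Type u} [Group G] [TopologicalSpace G] [IsTopologicalGroup G]
    [CompactSpace G] [T2Space G] {p : ℕ} (hp : p.Prime) {P A : Subgroup G} (hS : Setup p P A)
    {k : ℕ} (w : FreeGroup (Fin k)) (h : #(vals w G) < 𝔠) :
    ∃ V : Subgroup G, V.Normal ∧ IsOpen (V : Set G) ∧ Marginal w (A ⊓ V) := by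
  classical
  obtain ⟨B, _, _, _, _, _, _, _, ι, hιc, hιi, hιr, hadd, hact, hmod⟩ := exists_additive hp hS
  have hι0 : ι 0 = 1 := by
    have := hadd 0 0
    rw [add_zero] at this
    exact (mul_eq_left.1 this.symm)
  -- `A` acts trivially
  have htriv : ∀ g ∈ A, ∀ b : B, g • b = b := by
    intro g hg b
    apply hιi
    have hb : ι b ∈ A := by
      have : ι b ∈ Set.range ι := ⟨b, rfl⟩
      rw [hιr] at this
      exact this
    rw [hact, hS.abel g hg _ hb, mul_inv_cancel_right]
  -- the operators `φ i` vanish on an open subgroup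
  have hφ : ∀ (g : Fin k → G) (φ : Fin k → (B →+ B)), (∀ i, φ i ∈ Lam G B) →
      (∀ b : Fin k → B, FreeGroup.lift (fun i => ι (b i) * g i) w = ι (∑ i, φ i (b i)) * FreeGroup.lift g w) →
      ∀ i, ∃ V : Subgroup G, V.Normal ∧ IsOpen (V : Set G) ∧ φ i ∈ marg_J ι V := by
    intro g φ hL hfox i
    have hcont := marg_cont (hL i)
    have hfin : (Set.range (φ i)).Finite := by
      refine marg_fin hcont h (fun y => ι y * FreeGroup.lift g w) ?_ ?_
      · intro y y' hy
        exact hιi (mul_right_cancel hy)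
      · intro b
        refine ⟨fun j => ι ((Pi.single i b : Fin k → B) j) * g j, ?_⟩
        show FreeGroup.lift (fun j => ι ((Pi.single i b : Fin k → B) j) * g j) w = _
        rw [hfox]
        have e : ∑ j, φ j ((Pi.single i b : Fin k → B) j) = φ i b := by
          rw [Finset.sum_eq_single i]
          · rw [Pi.single_eq_same]
          · intro j _ hj
            rw [Pi.single_eq_of_ne hj, map_zero]
          · intro hi
            exact absurd (Finset.mem_univ _) hi
        rw [e]
    have hopen := marg_ker hcont hfin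
    have hemb : Topology.IsClosedEmbedding ι := hιc.isClosedEmbedding hιi
    obtain ⟨U, hU, hUe⟩ := hemb.isInducing.isOpen_iff.1 hopen
    have h1U : (1 : G) ∈ U := by
      have : (0 : B) ∈ ι ⁻¹' U := by
        rw [hUe]
        exact map_zero _
      rw [← hι0]
      exact this
    obtain ⟨V, hVn, hVo, hVU⟩ := hS.basis U (hU.mem_nhds h1U)
    refine ⟨V, hVn, hVo, hL i, fun b hb => ?_⟩
    have : b ∈ ι ⁻¹' U := hVU hb
    rw [hUe] at this
    exact this
  -- the good subgroup
  obtain ⟨H, S, hGT⟩ := good_all hS.basis hp hS.Pp hS.An hS.chn le_rfl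
  obtain ⟨V1, hV1n, hV1o, hV1⟩ := hGT.opn
  have hHo : IsOpen (H : Set G) := by
    refine Subgroup.isOpen_mono (H₁ := P ⊓ V1) ?_ ?_
    · refine hV1.trans ?_
      rw [Subgroup.closure_le]
      rintro y (⟨z, hz, rfl⟩ | hy)
      · exact H.pow_mem hz _
      · exact hGT.good.le hy
    · rw [Subgroup.coe_inf]
      exact hS.Po.inter hV1o
  obtain ⟨r, v, hv, hgen⟩ := lam_gen (G := G) (B := B) p H (index_ne_zero_of_isOpen hHo)
  have hW : Stab H (Lam G B) := fun g _ f hf => lam_stab g (Subgroup.mem_top g) f hf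
  obtain ⟨J, ⟨V0, hV0n, hV0o, rfl⟩, hmax⟩ := acc_mod hp hGT.good hW
    (fun g hg f _ => by
      ext b
      rw [marg_smul, htriv g hg]) v hv hgen
    {J | ∃ V : Subgroup G, V.Normal ∧ IsOpen (V : Set G) ∧ J = marg_J ι V}
    ⟨_, ⊤, inferInstance, isOpen_univ, rfl⟩
    (by
      rintro N ⟨V, _, _, rfl⟩ f hf
      exact hf.1)
    (by
      rintro N ⟨V, _, _, rfl⟩ g hg f hf
      refine ⟨hW g hg f hf.1, fun b hb => ?_⟩
      rw [marg_smul, hf.2 b hb, smul_zero])
    (by
      rintro N ⟨V, _, _, rfl⟩ f hf hk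
      refine ⟨hf, fun b hb => ?_⟩
      by_contra hne
      obtain ⟨V', hst, hV'o, hi, hp', hV'⟩ := hmod ({f b}ᶜ) (isOpen_compl_singleton.mem_nhds (fun h => hne h.symm))
      obtain ⟨m, hm⟩ := pgroup_nil hp H V' (fun g hg => hst g (hGT.le hg)) hi (fun g hg => hp' g (hGT.le hg))
      obtain ⟨f', hf', hff'⟩ := hk m
      have h1 := mk_apply p H (Lam G B) m b _ hff'
      rw [AddMonoidHom.sub_apply, hf'.2 b hb, sub_zero] at h1
      exact hV' (hm h1) rfl)
  refine ⟨V0, hV0n, hV0o, ?_⟩
  intro g d hd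
  obtain ⟨φ, hφL, hfox⟩ := fox ι hadd hact w g
  have hφ0 : ∀ i, φ i ∈ marg_J ι V0 := by
    intro i
    obtain ⟨V, hVn, hVo, hV⟩ := hφ g φ hφL hfox i
    have h1 : marg_J ι V0 ≤ marg_J ι (V ⊓ V0) := fun f hf => ⟨hf.1, fun b hb => hf.2 b hb.2⟩
    have h2 : marg_J ι (V ⊓ V0) = marg_J ι V0 := by
      refine hmax _ ⟨V ⊓ V0, inferInstance, ?_, rfl⟩ h1
      rw [Subgroup.coe_inf]
      exact hVo.inter hV0o
    rw [← h2]
    exact ⟨hV.1, fun b hb => hV.2 b hb.1⟩
  have hc : ∀ i, ∃ c : B, ι c = d i := by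
    intro i
    have : d i ∈ Set.range ι := by
      rw [hιr]
      exact (hd i).1
    exact this
  choose c hc using hc
  have e1 : (fun i => g i * d i) = fun i => ι (g i • c i) * g i := by
    funext i
    rw [hact, hc]
    group
  rw [e1, hfox]
  have e2 : ∑ i, φ i (g i • c i) = 0 := by
    refine Finset.sum_eq_zero fun i _ => (hφ0 i).2 _ ?_
    rw [hact, hc]
    exact hV0n.conj_mem _ (hd i).2 _
  rw [e2, hι0, one_mul]

end Pool.Agent.Lib.MP_ae9e3a_al
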