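import Pool.Agent.Lib.MP_ae9e3a_al.CoreFG
import Pool.Agent.Lib.MP_ae9e3a_al.Marg
import Pool.Agent.Lib.MP_ae9e3a_al.ChnA
import Pool.Agent.Lib.MP_ae9e3a_al.ChnB

set_option autoImplicit false

/-!
# VPP module Core: reduction to topologically finitely generated groups

PROOF. `marginal_open` gives `V` (open normal) with `D = A ⊓ V` marginal. `P' = P ⊓ V` is open and
normal, `Setup p P' D` (`Chn D P'` = `Chn.inter` with `C = V`). There is a finite set `t` with
`G ⊆ closure (D ⊔ ⟨t⟩)`: `Chn.topGen` for `Chn D P'` and representatives of the finitely many cosets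
of `P'`. Let `T` be the topological closure of `⟨t⟩`. `D ⊔ T = D T` is closed (`isClosed_sup`), so it is
`G`. For a tuple `g`: `g i = t_i * d_i`, (`T D = D T`) so `w(g) = w(t)`: `vals w G` is the image
of `vals w ↥T` under the inclusion (`map_lift`), and `verb w G` is the image of `verb w ↥T`. Apply
`core_fg` to the compact group `↥T` with `P'.subgroupOf T`, `D.subgroupOf T`:
`Basis1 ↥T` (subspace topology: `V'.subgroupOf T`), open, normal, `ProP`
(an open normal subgroup of `↥T` contains `V'.subgroupOf T` for an open normal `V'` of `G`;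
so the relative index divides `V'.relIndex (P' ⊓ T)`, which divides `V'.relIndex P'`: `proP_of_le`),
`Chn` by `Chn.subgroupOf`; generated by `t` (as a `Finset ↥T`: `closure` in `↥T`); `#vals` equal;
`FinMod w (D.subgroupOf T)`: `verb w G ⊆ R A`, `A` is a finite union of cosets of `D = A ⊓ V`, so
`verb w G ⊆ R' D` with `R'` finite; for elements of `T` choose for each coset `r D` that meets
`T` a representative in `T`.
-/

namespace Pool.Agent.Lib.MP_ae9e3a_al

open Cardinal

universe u

theorem basis1_subgroup {G : Type*} [Group G] [TopologicalSpace G] [IsTopologicalGroup G]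
    (hb : Basis1 G) (T : Subgroup G) : ∀ U ∈ nhds (1 : T), ∃ V : Subgroup G, V.Normal ∧
      IsOpen (V : Set G) ∧ ((V.subgroupOf T : Subgroup T) : Set T) ⊆ U := by
  intro U hU
  rw [nhds_subtype_eq_comap, Filter.mem_comap] at hU
  obtain ⟨U', hU', hUU'⟩ := hU
  obtain ⟨V, hVn, hVo, hV⟩ := hb U' hU'
  exact ⟨V, hVn, hVo, fun x hx => hUU' (hV hx)⟩

/-- Choosing representatives in a subset. -/
theorem finMod_of_subset {G : Type*} [Group G] (X : Set G) (D : Subgroup G) (R : Set G)
    (hR : R.Finite) (h : ∀ v ∈ X, ∃ r ∈ R, r⁻¹ * v ∈ D) :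
    ∃ R' : Set G, R'.Finite ∧ R' ⊆ X ∧ ∀ v ∈ X, ∃ r ∈ R', r⁻¹ * v ∈ D := by
  classical
  set R₁ := {r | r ∈ R ∧ ∃ v ∈ X, r⁻¹ * v ∈ D} with hR₁
  have hR₁f : R₁.Finite := hR.subset fun r hr => hr.1
  choose! f hf1 hf2 using fun (r : G) (hr : r ∈ R₁) => hr.2
  refine ⟨f '' R₁, hR₁f.image _, ?_, ?_⟩
  · rintro _ ⟨r, hr, rfl⟩
    exact hf1 r hr
  · intro v hv
    obtain ⟨r, hr, hrv⟩ := h v hv
    have hr' : r ∈ R₁ := ⟨hr, v, hv, hrv⟩
    refine ⟨f r, ⟨r, hr', rfl⟩, ?_⟩
    have : (f r)⁻¹ * v = (r⁻¹ * f r)⁻¹ * (r⁻¹ * v) := by group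
    rw [this]
    exact D.mul_mem (D.inv_mem (hf2 r hr')) hrv

theorem core {G : Type u} [Group G] [TopologicalSpace G] [IsTopologicalGroup G]
    [CompactSpace G] [T2Space G] {p : ℕ} (hp : p.Prime) {P A : Subgroup G} (hS : Setup p P A)
    {k : ℕ} (w : FreeGroup (Fin k)) (h : #(vals w G) < 𝔠) (hfin : FinMod w A) :
    (verb w G : Set G).Finite := by
  classical
  have hPn := hS.Pn
  have hAn := hS.An
  obtain ⟨V, hVn, hVo, hVm⟩ := marginal_open hp hS w h
  have hVc : IsClosed (V : Set G) := Subgroup.isClosed_of_isOpen V hVo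
  set D : Subgroup G := A ⊓ V with hD
  set P' : Subgroup G := P ⊓ V with hP'
  have hDn : D.Normal := by rw [hD]; infer_instance
  have hDc : IsClosed (D : Set G) := by
    rw [hD, Subgroup.coe_inf]
    exact hS.Ac.inter hVc
  have hP'o : IsOpen (P' : Set G) := by
    rw [hP', Subgroup.coe_inf]
    exact hS.Po.inter hVo
  have hS' : Setup p P' D :=
    { basis := hS.basis
      Pn := by rw [hP']; infer_instance
      Po := hP'o
      Pp := proP_of_le hp hS.Pp inf_le_left
      An := hDn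
      Ac := hDc
      AP := inf_le_inf_right V hS.AP
      abel := fun x hx y hy => hS.abel x hx.1 y hy.1
      chn := hS.chn.inter hS.basis hVc }
  obtain ⟨S, hS1, hS2⟩ := hS'.chn.topGen
  have hfinP : Finite (G ⧸ P') := Nat.finite_of_card_ne_zero (index_ne_zero_of_isOpen hP'o)
  have : Fintype (G ⧸ P') := Fintype.ofFinite _
  set t : Finset G := S ∪ Finset.univ.image (fun q : G ⧸ P' => (q.out : G)) with ht
  set T : Subgroup G := (Subgroup.closure (t : Set G)).topologicalClosure with hT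
  have hTc : IsClosed (T : Set G) := Subgroup.isClosed_topologicalClosure _
  have htT : ∀ x ∈ t, x ∈ T := fun x hx =>
    Subgroup.le_topologicalClosure _ (Subgroup.subset_closure hx)
  have hDTc : IsClosed ((D ⊔ T : Subgroup G) : Set G) :=
    isClosed_sup hDc hTc fun y _ n hn => hDn.conj_mem n hn y
  have hDT : D ⊔ T = ⊤ := by
    rw [eq_top_iff]
    intro g _
    have h1 : ((g : G ⧸ P').out : G)⁻¹ * g ∈ P' :=
      QuotientGroup.eq.1 (QuotientGroup.out_eq' (g : G ⧸ P'))
    have h2 : ((g : G ⧸ P').out : G) ∈ D ⊔ T := by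
      apply (le_sup_right : T ≤ D ⊔ T)
      apply htT
      rw [ht, Finset.mem_union]
      right
      exact Finset.mem_image.2 ⟨(g : G ⧸ P'), Finset.mem_univ _, rfl⟩
    have h3 : (P' : Set G) ⊆ ((D ⊔ T : Subgroup G) : Set G) := by
      refine hS2.trans (closure_minimal ?_ hDTc)
      have h5 : Subgroup.closure (S : Set G) ≤ T := by
        rw [Subgroup.closure_le]
        intro s hs
        apply htT
        rw [ht, Finset.mem_union]
        left
        exact hs
      exact sup_le_sup_left h5 D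
    have h4 : g = ((g : G ⧸ P').out : G) * (((g : G ⧸ P').out : G)⁻¹ * g) := by group
    rw [h4]
    exact (D ⊔ T).mul_mem h2 (h3 h1)
  have hdec : ∀ g : G, ∃ y : T, ∃ d ∈ D, g = y * d := by
    intro g
    have h1 : g ∈ ((D ⊔ T : Subgroup G) : Set G) := by rw [hDT]; trivial
    rw [coe_sup_of_normalizes (fun y _ n hn => hDn.conj_mem n hn y)] at h1
    obtain ⟨d, hd, y, hy, rfl⟩ := h1
    refine ⟨⟨y, hy⟩, y⁻¹ * d * y, ?_, by group⟩
    have := hDn.conj_mem d hd y⁻¹
    simpa using this
  have hval : ∀ g : Fin k → G, ∃ y : Fin k → T,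
      FreeGroup.lift g w = T.subtype (FreeGroup.lift y w) := by
    intro g
    choose y d hd hg using fun i => hdec (g i)
    refine ⟨y, ?_⟩
    rw [map_lift]
    have h1 := hVm (fun i => (y i : G)) d hd
    have h2 : g = fun i => (y i : G) * d i := funext hg
    rw [h2]
    exact h1
  have hcard : #(vals w T) < 𝔠 := by
    refine lt_of_le_of_lt ?_ h
    rw [← Cardinal.mk_image_eq (s := vals w T) T.subtype_injective]
    apply Cardinal.mk_le_mk_of_subset
    rintro _ ⟨_, ⟨y, rfl⟩, rfl⟩
    exact ⟨fun i => (y i : G), (map_lift T.subtype w y).symm⟩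
  have hverb : verb w G ≤ (verb w T).map T.subtype := by
    unfold verb
    rw [Subgroup.closure_le]
    rintro _ ⟨g, rfl⟩
    obtain ⟨y, hy⟩ := hval g
    exact ⟨FreeGroup.lift y w, Subgroup.subset_closure ⟨y, rfl⟩, hy.symm⟩
  have hverb' : ∀ v ∈ verb w T, (v : G) ∈ verb w G := by
    intro v hv
    have h1 : verb w T ≤ (verb w G).comap T.subtype := by
      unfold verb
      rw [Subgroup.closure_le]
      rintro _ ⟨y, rfl⟩
      apply Subgroup.subset_closure
      exact ⟨fun i => (y i : G), (map_lift T.subtype w y).symm⟩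
    exact h1 hv
  have hcomp : CompactSpace T := isCompact_iff_compactSpace.1 hTc.isCompact
  -- the setup for `T`
  have hST : Setup p (P'.subgroupOf T) (D.subgroupOf T) :=
    { basis := by
        intro U hU
        obtain ⟨V', hV'n, hV'o, hV'⟩ := basis1_subgroup hS.basis T U hU
        exact ⟨V'.subgroupOf T, inferInstance, hV'o.preimage continuous_subtype_val, hV'⟩
      Pn := by
        have := hS'.Pn
        infer_instance
      Po := hP'o.preimage continuous_subtype_val
      Pp := by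
        intro V₁ hV₁n hV₁o
        obtain ⟨V₂, hV₂n, hV₂o, hV₂⟩ := basis1_subgroup hS.basis T (V₁ : Set T)
          (hV₁o.mem_nhds V₁.one_mem)
        obtain ⟨j, hj⟩ := proP_of_le hp hS'.Pp (inf_le_left : P' ⊓ T ≤ P') V₂ hV₂n hV₂o
        have h1 : (V₂.subgroupOf T).relIndex (P'.subgroupOf T) = p ^ j := by
          rw [← hj, ← Subgroup.relIndex_subgroupOf (inf_le_right : P' ⊓ T ≤ T),
            Subgroup.inf_subgroupOf_right]
        have h2 : V₁.relIndex (P'.subgroupOf T) ∣ p ^ j := by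
          rw [← h1]
          exact Subgroup.relIndex_dvd_of_le_left _ hV₂
        obtain ⟨i, _, hi⟩ := (Nat.dvd_prime_pow hp).1 h2
        exact ⟨i, hi⟩
      An := inferInstance
      Ac := hDc.preimage continuous_subtype_val
      AP := Subgroup.comap_mono hS'.AP
      abel := fun x hx y hy => Subtype.ext (hS'.abel x hx y hy)
      chn := hS'.chn.subgroupOf hS.basis hTc }
  -- generators
  set t' : Finset T := t.subtype (· ∈ T) with ht'
  have hgen : (Set.univ : Set T) ⊆ closure (Subgroup.closure (t' : Set T) : Set T) := by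
    intro x _
    rw [closure_subtype]
    have h1 : ((↑) : T → G) '' (Subgroup.closure (t' : Set T) : Set T) =
        (Subgroup.closure (t : Set G) : Set G) := by
      have h2 : (Subgroup.closure (t' : Set T)).map T.subtype = Subgroup.closure (t : Set G) := by
        rw [MonoidHom.map_closure]
        congr 1
        ext y
        constructor
        · rintro ⟨z, hz, rfl⟩
          exact (Finset.mem_subtype.1 hz)
        · intro hy
          exact ⟨⟨y, htT y hy⟩, Finset.mem_subtype.2 hy, rfl⟩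
      rw [← h2]
      rfl
    rw [h1]
    exact x.2
  -- finitely many cosets
  have hfinT : FinMod w (D.subgroupOf T) := by
    obtain ⟨R, hRf, hR⟩ := hfin
    -- representatives of `A` modulo `D`
    have hA : ∃ R₁ : Set G, R₁.Finite ∧ R₁ ⊆ (A : Set G) ∧ ∀ v ∈ (A : Set G), ∃ r ∈ R₁,
        r⁻¹ * v ∈ V := by
      have hfinV : Finite (G ⧸ V) := Nat.finite_of_card_ne_zero (index_ne_zero_of_isOpen hVo)
      apply finMod_of_subset (A : Set G) V (Set.range fun q : G ⧸ V => (q.out : G))
        (Set.finite_range _)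
      intro v _
      exact ⟨_, ⟨(v : G ⧸ V), rfl⟩, QuotientGroup.eq.1 (QuotientGroup.out_eq' (v : G ⧸ V))⟩
    obtain ⟨R₁, hR₁f, hR₁A, hR₁⟩ := hA
    have h1 : ∀ v ∈ ((verb w T).map T.subtype : Set G), ∃ r ∈ Set.image2 (· * ·) R R₁,
        r⁻¹ * v ∈ D := by
      rintro _ ⟨v, hv, rfl⟩
      obtain ⟨r, hr, hrv⟩ := hR _ (hverb' v hv)
      obtain ⟨r₁, hr₁, hr₁v⟩ := hR₁ _ hrv
      refine ⟨r * r₁, ⟨r, hr, r₁, hr₁, rfl⟩, ?_⟩
      have h2 : (r * r₁)⁻¹ * T.subtype v = r₁⁻¹ * (r⁻¹ * (v : G)) := by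
        rw [mul_inv_rev, mul_assoc]
        rfl
      rw [h2]
      exact ⟨A.mul_mem (A.inv_mem (hR₁A hr₁)) hrv, hr₁v⟩
    obtain ⟨R₂, hR₂f, hR₂s, hR₂⟩ := finMod_of_subset _ D _ (hRf.image2 _ hR₁f) h1
    refine ⟨T.subtype ⁻¹' R₂, hR₂f.preimage T.subtype_injective.injOn, ?_⟩
    intro v hv
    obtain ⟨r, hr, hrv⟩ := hR₂ (T.subtype v) ⟨v, hv, rfl⟩
    obtain ⟨z, _, hzr⟩ := hR₂s hr
    refine ⟨z, ?_, ?_⟩
    · show T.subtype z ∈ R₂
      rw [hzr]
      exact hr
    · rw [Subgroup.mem_subgroupOf]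
      rw [← hzr] at hrv
      exact hrv
  have hmain := core_fg hp hST t' hgen w hcard hfinT
  refine (hmain.image T.subtype).subset ?_
  intro v hv
  obtain ⟨z, hz, hzv⟩ := hverb hv
  exact ⟨z, hz, hzv⟩

end Pool.Agent.Lib.MP_ae9e3a_al
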