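import Pool.Agent.Lib.MP_ae9e3a_al.FGenL

set_option autoImplicit false

/-!
# VPP module QuotMod: quotients and closed submodules of compact modules

PROOF of `exists_quot`. `V = M ⧸ L` (quotient topology; `IsTopologicalAddGroup`, compact, `T2`
because `L` is closed: `QuotientAddGroup.instT3Space` or so), `g • (x + L) = g • x + L` (well defined
by `Stab ⊤ L`; `QuotientAddGroup.map`), `q = QuotientAddGroup.mk' L`. Continuity of the action:
`G × M → G × V` is an open (quotient) map (`IsOpenMap.prodMap`, `IsOpenMap.id`,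
`QuotientAddGroup.isOpenMap_coe`), so continuity of `(g, x + L) ↦ g • x + L` follows from that of
`(g, x) ↦ g • x + L`. `ModP`: given `U ∈ nhds 0` in `V` take `V' ⊆ q ⁻¹' U` and the image `V'.map q`:
open (`q` is open), stable, its index is `(V' ⊔ L).index`, a divisor of `V'.index`
(`AddSubgroup.index_map`, `index_dvd_of_le`), so a power of `p`. `FGen`: `FGen.map`.

PROOF of `exists_sub`. `M' = ↥W`, the restricted action, `j` the inclusion. `ModP`: `V'.comap j`
(`= V'.addSubgroupOf W`), its index `V'.relIndex W` divides `V'.index`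
(`AddSubgroup.relIndex_dvd_index_of_normal`).
-/

namespace Pool.Agent.Lib.MP_ae9e3a_al

universe u

private def quotSmul {G M : Type u} [Group G] [AddCommGroup M] [DistribMulAction G M]
    (L : AddSubgroup M) (hst : Stab (⊤ : Subgroup G) L) (g : G) : (M ⧸ L) →+ (M ⧸ L) :=
  QuotientAddGroup.map L L (DistribSMul.toAddMonoidHom M g)
    (fun x hx => hst g (Subgroup.mem_top g) x hx)

private theorem quotSmul_mk {G M : Type u} [Group G] [AddCommGroup M] [DistribMulAction G M]
    (L : AddSubgroup M) (hst : Stab (⊤ : Subgroup G) L) (g : G) (x : M) :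
    quotSmul L hst g (x : M ⧸ L) = ((g • x : M) : M ⧸ L) := rfl

theorem exists_quot {G M : Type u} [Group G] [TopologicalSpace G] [IsTopologicalGroup G]
    [AddCommGroup M] [TopologicalSpace M] [IsTopologicalAddGroup M] [CompactSpace M] [T2Space M]
    [DistribMulAction G M] [ContinuousSMul G M] (L : AddSubgroup M) (hL : IsClosed (L : Set M))
    (hst : Stab (⊤ : Subgroup G) L) :
    ∃ (V : Type u) (_ : AddCommGroup V) (_ : TopologicalSpace V) (_ : IsTopologicalAddGroup V)
      (_ : CompactSpace V) (_ : T2Space V) (_ : DistribMulAction G V) (_ : ContinuousSMul G V)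
      (q : M →+ V), Continuous q ∧ Function.Surjective q ∧ (∀ x, q x = 0 ↔ x ∈ L) ∧
      (∀ (g : G) x, q (g • x) = g • q x) ∧
      (∀ (p : ℕ) (P : Subgroup G), p.Prime → ModP p P M → ModP p P V) := by
  let act : DistribMulAction G (M ⧸ L) :=
    { smul := fun g x => quotSmul L hst g x
      one_smul := by
        intro x
        obtain ⟨x, rfl⟩ := QuotientAddGroup.mk_surjective x
        show quotSmul L hst 1 (x : M ⧸ L) = _
        rw [quotSmul_mk, one_smul]
      mul_smul := by
        intro g h x
        obtain ⟨x, rfl⟩ := QuotientAddGroup.mk_surjective x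
        show quotSmul L hst (g * h) (x : M ⧸ L) = quotSmul L hst g (quotSmul L hst h (x : M ⧸ L))
        rw [quotSmul_mk, quotSmul_mk, quotSmul_mk, mul_smul]
      smul_zero := fun g => (quotSmul L hst g).map_zero
      smul_add := fun g x y => (quotSmul L hst g).map_add x y }
  have hT2 : T2Space (M ⧸ L) := by
    have : IsClosed (L : Set M) := hL
    infer_instance
  have hcs : ContinuousSMul G (M ⧸ L) := by
    refine ⟨?_⟩
    have h1 : IsOpenMap (Prod.map (id : G → G) (QuotientAddGroup.mk : M → M ⧸ L)) :=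
      IsOpenMap.id.prodMap QuotientAddGroup.isOpenMap_coe
    have h2 : Topology.IsQuotientMap (Prod.map (id : G → G) (QuotientAddGroup.mk : M → M ⧸ L)) :=
      h1.isQuotientMap (continuous_id.prodMap continuous_quotient_mk')
        (Function.surjective_id.prodMap QuotientAddGroup.mk_surjective)
    rw [h2.continuous_iff]
    exact continuous_quotient_mk'.comp continuous_smul
  refine ⟨M ⧸ L, inferInstance, inferInstance, inferInstance, inferInstance, hT2, act, hcs,
    QuotientAddGroup.mk' L, continuous_quotient_mk', QuotientAddGroup.mk_surjective,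
    fun x => QuotientAddGroup.eq_zero_iff x, fun g x => rfl, ?_⟩
  intro p P hp hM U hU
  obtain ⟨V', h1, h2, ⟨j, h3⟩, h4, h5⟩ := hM ((QuotientAddGroup.mk' L) ⁻¹' U) (by
    have hq : Continuous (QuotientAddGroup.mk' L) := continuous_quotient_mk'
    have h6 : (QuotientAddGroup.mk' L) 0 = 0 := map_zero _
    refine hq.continuousAt.preimage_mem_nhds ?_
    rw [h6]
    exact hU)
  refine ⟨V'.map (QuotientAddGroup.mk' L), ?_, ?_, ?_, ?_, ?_⟩
  · rintro g hg _ ⟨x, hx, rfl⟩
    exact ⟨g • x, h1 g hg x hx, rfl⟩
  · rw [AddSubgroup.coe_map]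
    exact QuotientAddGroup.isOpenMap_coe _ h2
  · have h6 : (V'.map (QuotientAddGroup.mk' L)).index ∣ V'.index :=
      V'.index_map_dvd (QuotientAddGroup.mk'_surjective L)
    rw [h3] at h6
    obtain ⟨i, -, hi⟩ := (Nat.dvd_prime_pow hp).mp h6
    exact ⟨i, hi⟩
  · intro h hh
    obtain ⟨i, hi⟩ := h4 h hh
    refine ⟨i, fun x => ?_⟩
    obtain ⟨x, rfl⟩ := QuotientAddGroup.mk'_surjective L x
    exact ⟨_, hi x, rfl⟩
  · rintro _ ⟨x, hx, rfl⟩
    exact h5 hx

private def subSmul {G M : Type u} [Group G] [AddCommGroup M] [DistribMulAction G M]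
    (W : AddSubgroup M) (hst : Stab (⊤ : Subgroup G) W) (g : G) (x : W) : W :=
  ⟨g • (x : M), hst g (Subgroup.mem_top g) x x.2⟩

theorem exists_sub {G M : Type u} [Group G] [TopologicalSpace G] [IsTopologicalGroup G]
    [AddCommGroup M] [TopologicalSpace M] [IsTopologicalAddGroup M] [CompactSpace M] [T2Space M]
    [DistribMulAction G M] [ContinuousSMul G M] (W : AddSubgroup M) (hW : IsClosed (W : Set M))
    (hst : Stab (⊤ : Subgroup G) W) :
    ∃ (V : Type u) (_ : AddCommGroup V) (_ : TopologicalSpace V) (_ : IsTopologicalAddGroup V)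
      (_ : CompactSpace V) (_ : T2Space V) (_ : DistribMulAction G V) (_ : ContinuousSMul G V)
      (j : V →+ M), Topology.IsClosedEmbedding j ∧ Set.range j = (W : Set M) ∧
      (∀ (g : G) x, j (g • x) = g • j x) ∧
      (∀ (p : ℕ) (P : Subgroup G), p.Prime → ModP p P M → ModP p P V) := by
  let act : DistribMulAction G W :=
    { smul := fun g x => subSmul W hst g x
      one_smul := fun x => Subtype.ext (one_smul G (x : M))
      mul_smul := fun g h x => Subtype.ext (mul_smul g h (x : M))
      smul_zero := fun g => Subtype.ext (smul_zero g)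
      smul_add := fun g x y => Subtype.ext (smul_add g (x : M) y) }
  have hcs : ContinuousSMul G W := by
    refine ⟨?_⟩
    refine Continuous.subtype_mk ?_ _
    exact continuous_fst.smul (continuous_subtype_val.comp continuous_snd)
  have hcomp : CompactSpace W := isCompact_iff_compactSpace.mp hW.isCompact
  refine ⟨W, inferInstance, inferInstance, inferInstance, hcomp, inferInstance, act, hcs,
    W.subtype, hW.isClosedEmbedding_subtypeVal, ?_, fun g x => rfl, ?_⟩
  · rw [AddSubgroup.coe_subtype]
    exact Subtype.range_coe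
  intro p P hp hM U hU
  obtain ⟨O, hO, hOU⟩ := mem_nhds_subtype (W : Set M) (0 : W) U |>.mp hU
  obtain ⟨V', h1, h2, ⟨j, h3⟩, h4, h5⟩ := hM O hO
  refine ⟨V'.addSubgroupOf W, ?_, ?_, ?_, ?_, ?_⟩
  · intro g hg x hx
    exact h1 g hg x hx
  · exact h2.preimage continuous_subtype_val
  · have h6 : V'.relIndex W ∣ V'.index := AddSubgroup.relIndex_dvd_index_of_normal V' W
    rw [h3] at h6
    obtain ⟨i, -, hi⟩ := (Nat.dvd_prime_pow hp).mp h6
    exact ⟨i, hi⟩
  · intro h hh
    obtain ⟨i, hi⟩ := h4 h hh
    exact ⟨i, fun x => hi x⟩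
  · intro x hx
    exact hOU (h5 hx)

end Pool.Agent.Lib.MP_ae9e3a_al
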