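import Pool.Agent.Lib.MP_ae9e3a_al.MagX
import Pool.Agent.Lib.MP_ae9e3a_al.Addit
import Pool.Agent.Lib.MP_ae9e3a_al.QuotMod

set_option autoImplicit false

/-!
# VPP module Magnus: the Magnus module of a topologically finitely generated group

PROOF. `exists_additive`, `magnus_big` give `X`, `δ`. Let `W` be the topological closure of the
additive subgroup generated by all `g • δ h`: closed, `Stab ⊤`, and `M = ↥W` (`exists_sub`), `δ`
corestricted (`δ g = g • δ 1 ...`: `δ h = 1 • δ h ∈ W`). `D` acts trivially on `W`: the fixed points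
`Fix D X` are a closed subgroup, and `d • (g • δ h) = g • (g⁻¹ d g) • δ h = g • δ h`.
`FGen ⊤ ⊤`: take `S' = {δ t | t ∈ t₀}` (`t₀` the finite generating set). Let `Z` be the closure of the
subgroup generated by all `g • δ t`; `{h | ∀ g, g • δ h ∈ Z}` is a closed subgroup of `G` (it is
closed under products by the derivation rule, `δ 1 = 0`, `δ h⁻¹ = - h⁻¹ • δ h`; closed because `δ` and
the action are continuous) containing `t₀`, so it is `G`.
-/

namespace Pool.Agent.Lib.MP_ae9e3a_al

universe u

theorem magnus {G : Type u} [Group G] [TopologicalSpace G] [IsTopologicalGroup G]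
    [CompactSpace G] [T2Space G] {p : ℕ} (hp : p.Prime) {P D : Subgroup G} (hS : Setup p P D)
    (t : Finset G) (ht : (Set.univ : Set G) ⊆ closure (Subgroup.closure (t : Set G) : Set G)) :
    ∃ (M : Type u) (_ : AddCommGroup M) (_ : TopologicalSpace M) (_ : IsTopologicalAddGroup M)
      (_ : CompactSpace M) (_ : T2Space M) (_ : DistribMulAction G M) (_ : ContinuousSMul G M)
      (δ : G → M), Continuous δ ∧ (∀ g h, δ (g * h) = δ g + g • δ h) ∧
      (∀ d ∈ D, ∀ x : M, d • x = x) ∧ (∀ d ∈ D, δ d = 0 → d = 1) ∧ ModP p P M ∧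
      FGen (⊤ : Subgroup G) (⊤ : AddSubgroup M) := by
  classical
  obtain ⟨B, _, _, _, _, _, _, _, ι, hιc, hιi, hιr, hadd, hact, hmod⟩ := exists_additive hp hS
  obtain ⟨X, _, _, _, _, _, _, _, ε, hεc, hεd, hεf, hε0, hεm⟩ :=
    magnus_big hp hS ι hιc hιi hιr hadd hact hmod
  let W0 : AddSubgroup X := AddSubgroup.closure {y | ∃ g h : G, y = g • ε h}
  let W : AddSubgroup X := W0.topologicalClosure
  have hWc : IsClosed (W : Set X) := AddSubgroup.isClosed_topologicalClosure W0
  have hWg : ∀ g h : G, g • ε h ∈ W := fun g h =>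
    AddSubgroup.le_topologicalClosure W0 (AddSubgroup.subset_closure ⟨g, h, rfl⟩)
  have hWmin : ∀ Y : AddSubgroup X, IsClosed (Y : Set X) → (∀ g h : G, g • ε h ∈ Y) → W ≤ Y := by
    intro Y hY hgh
    refine AddSubgroup.topologicalClosure_minimal W0 ?_ hY
    rw [AddSubgroup.closure_le]
    rintro y ⟨g, h, rfl⟩
    exact hgh g h
  have hst : Stab (⊤ : Subgroup G) W := by
    intro g _ x hx
    have h1 : W ≤ W.comap (DistribSMul.toAddMonoidHom X g) := by
      refine hWmin _ ?_ ?_
      · exact hWc.preimage (continuous_const_smul g)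
      · intro g' h
        show g • g' • ε h ∈ W
        rw [smul_smul]
        exact hWg _ _
    exact h1 hx
  have hWD : ∀ d ∈ D, ∀ x ∈ W, d • x = x := by
    intro d hd x hx
    have h1 : W ≤ Fix D X := by
      refine hWmin _ ?_ ?_
      · have e : (Fix D X : Set X) = ⋂ d ∈ D, {x : X | d • x = x} := by
          ext x
          simp only [Set.mem_iInter]
          exact Iff.rfl
        rw [e]
        exact isClosed_biInter fun d _ => isClosed_eq (continuous_const_smul d) continuous_id
      · intro g h d hd
        have h2 := hεf _ (hS.An.conj_mem d hd g⁻¹) h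
        rw [inv_inv] at h2
        calc d • g • ε h = g • ((g⁻¹ * d * g) • ε h) := by
              rw [smul_smul, smul_smul]
              congr 1
              group
          _ = g • ε h := by rw [h2]
    exact h1 hx d hd
  obtain ⟨M, _, _, _, _, _, _, _, j, hjc, hjr, hje, hjm⟩ := exists_sub W hWc hst
  have hex : ∀ g, ∃ m : M, j m = ε g := by
    intro g
    have h1 : ε g ∈ (W : Set X) := by
      have := hWg 1 g
      rwa [one_smul] at this
    rw [← hjr] at h1
    exact h1
  choose δ hδ using hex
  have hδc : Continuous δ := by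
    rw [hjc.isInducing.continuous_iff]
    have : j ∘ δ = ε := funext hδ
    rw [this]
    exact hεc
  have hδd : ∀ g h, δ (g * h) = δ g + g • δ h := by
    intro g h
    apply hjc.injective
    rw [map_add, hje, hδ, hδ, hδ, hεd]
  have hjW : ∀ x : M, j x ∈ W := by
    intro x
    have : j x ∈ Set.range j := ⟨x, rfl⟩
    rw [hjr] at this
    exact this
  have hδ1 : δ 1 = 0 := by
    have := hδd 1 1
    rw [one_smul, mul_one] at this
    exact left_eq_add.1 this
  refine ⟨M, inferInstance, inferInstance, inferInstance, inferInstance, inferInstance, inferInstance,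
    inferInstance, δ, hδc, hδd, ?_, ?_, hjm p P hp hεm, ?_⟩
  · intro d hd x
    apply hjc.injective
    rw [hje, hWD d hd _ (hjW x)]
  · intro d hd h0
    apply hε0 d hd
    rw [← hδ, h0, map_zero]
  · refine ⟨t.image δ, fun s _ => AddSubgroup.mem_top s, ?_⟩
    let Z0 : AddSubgroup M := AddSubgroup.closure {y : M | ∃ h ∈ (⊤ : Subgroup G), ∃ s ∈ t.image δ, y = h • s}
    let Z : AddSubgroup M := Z0.topologicalClosure
    have hZc : IsClosed (Z : Set M) := AddSubgroup.isClosed_topologicalClosure Z0
    let E : Subgroup G :=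
      { carrier := {h | ∀ g : G, g • δ h ∈ Z}
        one_mem' := fun g => by
          rw [hδ1, smul_zero]
          exact Z.zero_mem
        mul_mem' := fun {a b} ha hb g => by
          rw [hδd, smul_add, smul_smul]
          exact Z.add_mem (ha g) (hb (g * a))
        inv_mem' := fun {a} ha g => by
          have h1 : δ a⁻¹ = -(a⁻¹ • δ a) := by
            have := hδd a⁻¹ a
            rw [inv_mul_cancel, hδ1] at this
            exact eq_neg_of_add_eq_zero_left this.symm
          rw [h1, smul_neg, smul_smul]
          exact Z.neg_mem (ha _) }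
    have hEc : IsClosed (E : Set G) := by
      have e : (E : Set G) = ⋂ g : G, {h | g • δ h ∈ (Z : Set M)} := by
        ext x
        simp only [Set.mem_iInter]
        exact Iff.rfl
      rw [e]
      exact isClosed_iInter fun g => hZc.preimage ((continuous_const_smul g).comp hδc)
    have hE : ∀ h : G, h ∈ E := by
      intro h
      have h1 : Subgroup.closure (t : Set G) ≤ E := by
        rw [Subgroup.closure_le]
        intro x hx g
        refine AddSubgroup.le_topologicalClosure Z0 (AddSubgroup.subset_closure ⟨g, Subgroup.mem_top g, δ x, ?_, rfl⟩)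
        exact Finset.mem_image_of_mem δ hx
      exact closure_minimal h1 hEc (ht (Set.mem_univ h))
    have hZX : IsClosed ((Z.map j : AddSubgroup X) : Set X) := by
      rw [AddSubgroup.coe_map]
      exact hjc.isClosedMap _ hZc
    have hWZ : W ≤ Z.map j := by
      refine hWmin _ hZX ?_
      intro g h
      refine ⟨g • δ h, hE h g, ?_⟩
      show j (g • δ h) = g • ε h
      rw [hje, hδ]
    intro x _
    obtain ⟨z, hz, hzx⟩ := hWZ (hjW x)
    have : z = x := hjc.injective hzx
    rw [← this]
    exact hz

end Pool.Agent.Lib.MP_ae9e3a_al
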