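import Pool.Agent.Lib.MP_ae9e3a_al.Top

set_option autoImplicit false

/-!
# VPP module Xcls: procyclic pro-`p` groups

`Xc x` is the closure of `⟨x⟩`. PROOFS.
* `Xc_pow`: the set `{z ^ n | z ∈ Xc x}` is a closed subgroup (`isClosed_pow_image`) containing
  `x ^ n`, so it contains `Xc (x ^ n)`; conversely `z ↦ z ^ n` is continuous and maps `⟨x⟩` into
  `⟨x ^ n⟩`.
* `Xc_decomp`: `⟨x⟩ * Xc (x ^ n)` is the union of the sets `x ^ i * Xc (x ^ n)`, `0 ≤ i < n`,
  closed, contains `⟨x⟩`, so it is everything (`n > 0`).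
* `Xc_cover`: the same covering shows that `Xc (x ^ n)` has finite index.
* `Xc_le_of_mem`: a closed subgroup containing `x` contains `Xc x`.
-/

namespace Pool.Agent.Lib.MP_ae9e3a_al

variable {G : Type*} [Group G] [TopologicalSpace G] [IsTopologicalGroup G] [CompactSpace G]
  [T2Space G]

/-- The closed subgroup generated by `x`. -/
def Xc {G : Type*} [Group G] [TopologicalSpace G] [IsTopologicalGroup G] (x : G) : Subgroup G :=
  (Subgroup.zpowers x).topologicalClosure

omit [CompactSpace G] [T2Space G] in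
theorem Xc_closed (x : G) : IsClosed (Xc x : Set G) :=
  Subgroup.isClosed_topologicalClosure _

omit [CompactSpace G] [T2Space G] in
theorem Xc_mem (x : G) : x ∈ Xc x :=
  Subgroup.le_topologicalClosure _ (Subgroup.mem_zpowers x)

omit [CompactSpace G] [T2Space G] in
theorem Xc_le_of_mem {C : Subgroup G} (hC : IsClosed (C : Set G)) {x : G} (hx : x ∈ C) :
    Xc x ≤ C :=
  Subgroup.topologicalClosure_minimal _ (Subgroup.zpowers_le.2 hx) hC

omit [CompactSpace G] in
theorem Xc_comm (x : G) : ∀ a ∈ Xc x, ∀ b ∈ Xc x, a * b = b * a := by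
  have hcen : ∀ a : G, IsClosed ((Subgroup.centralizer {a} : Subgroup G) : Set G) := by
    intro a
    have h1 : ((Subgroup.centralizer {a} : Subgroup G) : Set G) = {b | a * b = b * a} := by
      ext b
      simp [Subgroup.mem_centralizer_iff]
    rw [h1]
    exact isClosed_eq (continuous_const.mul continuous_id) (continuous_id.mul continuous_const)
  have h1 : ∀ a ∈ Xc x, x * a = a * x := by
    intro a ha
    have h2 : a ∈ Subgroup.centralizer {x} := Xc_le_of_mem (hcen x)
      (by simp [Subgroup.mem_centralizer_iff]) ha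
    simpa [Subgroup.mem_centralizer_iff] using h2
  intro a ha b hb
  have h2 : b ∈ Subgroup.centralizer {a} := Xc_le_of_mem (hcen a)
    (by
      have := h1 a ha
      simp only [Subgroup.mem_centralizer_iff, Set.mem_singleton_iff, forall_eq]
      exact this.symm) hb
  simpa [Subgroup.mem_centralizer_iff] using h2

theorem Xc_pow (x : G) (n : ℕ) : ∀ y, y ∈ Xc (x ^ n) ↔ ∃ z ∈ Xc x, y = z ^ n := by
  intro y
  constructor
  · intro hy
    obtain ⟨Y, hYc, hYe⟩ := isClosed_pow_image (Xc_closed x) (Xc_comm x) n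
    have h1 : x ^ n ∈ Y := by
      have : x ^ n ∈ (Y : Set G) := by
        rw [hYe]
        exact ⟨x, Xc_mem x, rfl⟩
      exact this
    have h2 : y ∈ (Y : Set G) := Xc_le_of_mem hYc h1 hy
    rw [hYe] at h2
    exact h2
  · rintro ⟨z, hz, rfl⟩
    have hz' : z ∈ closure (Subgroup.zpowers x : Set G) := hz
    have h1 : z ^ n ∈ closure (Subgroup.zpowers (x ^ n) : Set G) := by
      refine map_mem_closure (f := fun w : G => w ^ n) (continuous_pow n) hz' ?_
      rintro _ ⟨k, rfl⟩
      refine ⟨k, ?_⟩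
      simp only
      rw [← zpow_natCast, ← zpow_natCast, ← zpow_mul, ← zpow_mul, mul_comm]
    exact h1

theorem Xc_decomp (x : G) (n : ℕ) (hn : 0 < n) :
    ∀ y ∈ Xc x, ∃ i : ℕ, i < n ∧ ∃ z ∈ Xc x, y = x ^ i * z ^ n := by
  have hD : IsClosed (⋃ i ∈ Finset.range n, (fun y : G => (x ^ i)⁻¹ * y) ⁻¹' (Xc (x ^ n) : Set G)) :=
    isClosed_biUnion_finset fun i _ =>
      (Xc_closed (x ^ n)).preimage (continuous_const.mul continuous_id)
  have hsub : (Subgroup.zpowers x : Set G) ⊆
      ⋃ i ∈ Finset.range n, (fun y : G => (x ^ i)⁻¹ * y) ⁻¹' (Xc (x ^ n) : Set G) := by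
    rintro _ ⟨k, rfl⟩
    have hn' : (0 : ℤ) < n := by exact_mod_cast hn
    have h0 : 0 ≤ k % n := Int.emod_nonneg k hn'.ne'
    have h1 : k % n < n := Int.emod_lt_of_pos k hn'
    rw [Set.mem_iUnion₂]
    refine ⟨(k % n).toNat, Finset.mem_range.2 (by omega), ?_⟩
    have h2 : (x ^ (k % n).toNat)⁻¹ * x ^ k = (x ^ n) ^ (k / n) := by
      rw [← zpow_natCast x (k % n).toNat, Int.toNat_of_nonneg h0, ← zpow_natCast x n, ← zpow_mul,
        ← zpow_neg, ← zpow_add]
      congr 1
      have := Int.emod_add_mul_ediv k n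
      omega
    change (x ^ (k % n).toNat)⁻¹ * x ^ k ∈ Xc (x ^ n)
    rw [h2]
    exact Subgroup.zpow_mem _ (Xc_mem _) _
  intro y hy
  have hy' : y ∈ closure (Subgroup.zpowers x : Set G) := hy
  have h3 := closure_minimal hsub hD hy'
  rw [Set.mem_iUnion₂] at h3
  obtain ⟨i, hi, h4⟩ := h3
  have h5 : (x ^ i)⁻¹ * y ∈ Xc (x ^ n) := h4
  obtain ⟨z, hz, h6⟩ := (Xc_pow x n _).1 h5
  refine ⟨i, Finset.mem_range.1 hi, z, hz, ?_⟩
  rw [← h6]
  group

end Pool.Agent.Lib.MP_ae9e3a_al
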