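import Pool.Agent.Lib.MP_ae9e3a_al.AffRep
import Pool.Agent.Lib.MP_ae9e3a_al.Magnus
import Pool.Agent.Lib.MP_ae9e3a_al.AccTop
import Pool.Agent.Lib.MP_ae9e3a_al.GoodStep
import Pool.Agent.Lib.MP_ae9e3a_al.ChnA
import Pool.Agent.Lib.MP_ae9e3a_al.Xcls

set_option autoImplicit false

/-!
# VPP module Fc: the elements of `D` with open centralisers

PROOF. `magnus` gives `M`, `δ`; for `e ∈ D`: `δ (g e g⁻¹) = g • δ e`, `δ (d e) = δ d + δ e`,
`δ (e ^ n) = n • δ e`, and `δ` is injective on `D`. For a closed subgroup `Y ≤ D` normal in `G`,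
`δ '' Y` is a closed (compact) additive subgroup, `Stab ⊤`.
(A) For every closed `C ≤ P` with `D ≤ C` and `C` open: `good_all` for `Chn D C` (`Chn.inter`) gives
`GT p D C H S` with `H` open; `FGen H ⊤` (`FGen.of_relIndex`), `ModP p H M`: `acc_top` and
`fgen_of_closed` apply to `H`.
(B) For `U` open normal let `D_U = D ⊓ centralizer U`, closed, normal. By `acc_top` (with `C = P`)
there is `U₀` such that `D_{U₀}` is maximal among the `D_U`; `D_U ≤ D_{U ⊓ U₀} = D_{U₀}` for all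
`U`. Put `F = D_{U₀}`. Every `e ∈ D` with open centraliser is in some `D_U`
(`exists_normal_le` for the centraliser), so in `F`.
(C) `C = P ⊓ (D ⊔ U₀)` is open, closed, contains `D`; `H ≤ C` from (A): `fgen_of_closed` gives
`FGen H (δ '' F)`, and `H ≤ D ⊔ U₀` acts trivially on `δ '' F`: `FGen ⊥ (δ '' F)`
(`FGen.of_trivial`).
(D) `F[p ^ i] = {e ∈ F | e ^ p ^ i = 1}`: closed, normal, increasing; by `acc_top` there is `c` with
`F[p ^ i] ≤ F[p ^ c]` for all `i`. Let `F₀ = {e ^ p ^ c | e ∈ F}` (`isClosed_pow_image`): closed,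
normal in `G`, `F₀ ≤ F`; centralised by the open `U₀`. Torsion-free: let `x = e ^ p ^ c`, `x ^ m = 1`,
`m = p ^ i l`, `l` prime to `p`. `y = x ^ p ^ i` satisfies `y ^ l = 1`, and for every open normal
`V` some `y ^ p ^ j ∈ V` (`exists_pow_mem`), so `y ∈ V` (Bezout); `y = 1`. So
`e ^ p ^ (c + i) = 1`, `e ∈ F[p ^ (c+i)] ≤ F[p ^ c]`, `x = 1`.
(E) finitely many cosets: let `S'` be the finite set of `FGen ⊥ (δ '' F)`. The set
`AddSubgroup.closure S' + δ '' F₀` is a finite union of cosets of the closed subgroup `δ '' F₀`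
(`p ^ c • s ∈ δ '' F₀`), so it is closed and equals `δ '' F`. Take for `R` preimages in `F` of the
combinations `∑ c_s s`, `0 ≤ c_s < p ^ c`.
-/

namespace Pool.Agent.Lib.MP_ae9e3a_al

universe u

/-- The elements of `F` (commutative) killed by `n`. -/
def torsSub {G : Type*} [Group G] (F : Subgroup G) (hF : ∀ a ∈ F, ∀ b ∈ F, a * b = b * a)
    (n : ℕ) : Subgroup G where
  carrier := {e | e ∈ F ∧ e ^ n = 1}
  one_mem' := ⟨F.one_mem, one_pow n⟩
  mul_mem' := by
    rintro a b ⟨ha, ha'⟩ ⟨hb, hb'⟩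
    refine ⟨F.mul_mem ha hb, ?_⟩
    have : Commute a b := hF a ha b hb
    rw [this.mul_pow, ha', hb', one_mul]
  inv_mem' := by
    rintro a ⟨ha, ha'⟩
    exact ⟨F.inv_mem ha, by rw [inv_pow, ha', inv_one]⟩

theorem fc {G : Type u} [Group G] [TopologicalSpace G] [IsTopologicalGroup G]
    [CompactSpace G] [T2Space G] {p : ℕ} (hp : p.Prime) {P D : Subgroup G} (hS : Setup p P D)
    (t : Finset G) (ht : (Set.univ : Set G) ⊆ closure (Subgroup.closure (t : Set G) : Set G)) :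
    ∃ F₀ : Subgroup G, F₀.Normal ∧ IsClosed (F₀ : Set G) ∧ F₀ ≤ D ∧
      IsOpen (Subgroup.centralizer (F₀ : Set G) : Set G) ∧
      (∀ x ∈ F₀, ∀ m : ℕ, 0 < m → x ^ m = 1 → x = 1) ∧
      ∃ R : Set G, R.Finite ∧ ∀ e ∈ D, IsOpen (Subgroup.centralizer {e} : Set G) →
        ∃ r ∈ R, r⁻¹ * e ∈ F₀ := by
  have hDn := hS.An
  have hPn := hS.Pn
  obtain ⟨M, _, _, _, _, _, _, _, δ, hδc, hδ, hDM, hinj, hMp, hMF⟩ := magnus hp hS t ht
  obtain ⟨H, S, hGT⟩ := good_all hS.basis hp hS.Pp hS.An hS.chn (le_refl P)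
  have hHo := hGT.isOpen hS.Po
  have hFH : FGen H (⊤ : AddSubgroup M) :=
    hMF.of_relIndex le_top (fun _ _ _ _ => AddSubgroup.mem_top _) (by
      rw [Subgroup.relIndex_top_right]
      exact index_ne_zero_of_isOpen hHo)
  have hHp : ModP p H M := hMp.mono hGT.le
  -- injectivity on `D`
  have hinj' : ∀ a ∈ D, ∀ b ∈ D, δ a = δ b → a = b := by
    intro a ha b hb hab
    have h1 : δ (a⁻¹ * b) = 0 := by
      rw [der_mul δ hδ hDM (D.inv_mem ha), der_inv δ hδ hDM ha, hab, neg_add_cancel]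
    exact inv_mul_eq_one.1 (hinj _ (D.mul_mem (D.inv_mem ha) hb) h1)
  -- closed normal subgroups give closed stable submodules
  have hcl : ∀ (Y : Subgroup G) (hY : Y ≤ D), IsClosed (Y : Set G) →
      IsClosed (derImg δ hδ hDM Y hY : Set M) := fun Y hY hYc =>
    (hYc.isCompact.image hδc).isClosed
  have hst : ∀ (Y : Subgroup G) (hY : Y ≤ D), Y.Normal →
      Stab (⊤ : Subgroup G) (derImg δ hδ hDM Y hY) := by
    rintro Y hY hYn g _ _ ⟨e, he, rfl⟩
    exact ⟨g * e * g⁻¹, hYn.conj_mem e he g, der_conj δ hδ hDM g (hY he)⟩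
  -- the ascending chain condition
  have acc : ∀ 𝒴 : Set (Subgroup G), 𝒴.Nonempty → (∀ Y ∈ 𝒴, Y ≤ D ∧ IsClosed (Y : Set G) ∧
      Y.Normal) → ∃ Y ∈ 𝒴, ∀ Y' ∈ 𝒴, Y ≤ Y' → Y' = Y := by
    intro 𝒴 hne h𝒴
    obtain ⟨Y₁, hY₁⟩ := hne
    obtain ⟨N, ⟨Y, hY, hYD, rfl⟩, hmax⟩ := acc_top hp hGT.good hGT.top hDM hHp hFH
      {N : AddSubgroup M | ∃ Y ∈ 𝒴, ∃ h : Y ≤ D, N = derImg δ hδ hDM Y h}
      ⟨_, Y₁, hY₁, (h𝒴 Y₁ hY₁).1, rfl⟩
      (by rintro _ ⟨Y, hY, h, rfl⟩; exact hcl Y h (h𝒴 Y hY).2.1)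
      (by rintro _ ⟨Y, hY, h, rfl⟩; exact (hst Y h (h𝒴 Y hY).2.2).mono le_top)
    refine ⟨Y, hY, ?_⟩
    intro Y' hY' hYY'
    have h1 := hmax _ ⟨Y', hY', (h𝒴 Y' hY').1, rfl⟩ (by
      rintro _ ⟨e, he, rfl⟩
      exact ⟨e, hYY' he, rfl⟩)
    apply le_antisymm _ hYY'
    intro e he
    have h2 : δ e ∈ derImg δ hδ hDM Y' (h𝒴 Y' hY').1 := ⟨e, he, rfl⟩
    rw [h1] at h2
    obtain ⟨e', he', hee'⟩ := h2
    rw [← hinj' e' (hYD he') e ((h𝒴 Y' hY').1 he) hee']
    exact he'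
  -- the subgroup `F`
  obtain ⟨Y₀, ⟨U₀, hU₀n, hU₀o, rfl⟩, hY₀max⟩ := acc
    {Y | ∃ U : Subgroup G, U.Normal ∧ IsOpen (U : Set G) ∧
      Y = D ⊓ Subgroup.centralizer (U : Set G)}
    ⟨_, ⊤, inferInstance, isOpen_univ, rfl⟩ (by
      rintro _ ⟨U, hUn, hUo, rfl⟩
      refine ⟨inf_le_left, ?_, ?_⟩
      · rw [Subgroup.coe_inf]
        exact hS.Ac.inter (Set.isClosed_centralizer _)
      · infer_instance)
  set F : Subgroup G := D ⊓ Subgroup.centralizer (U₀ : Set G) with hF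
  have hFD : F ≤ D := inf_le_left
  have hFn : F.Normal := by rw [hF]; infer_instance
  have hFc : IsClosed (F : Set G) := by
    rw [hF, Subgroup.coe_inf]
    exact hS.Ac.inter (Set.isClosed_centralizer _)
  have hFab : ∀ a ∈ F, ∀ b ∈ F, a * b = b * a := fun a ha b hb =>
    hS.abel a (hFD ha) b (hFD hb)
  have hFall : ∀ e ∈ D, IsOpen (Subgroup.centralizer {e} : Set G) → e ∈ F := by
    intro e he heo
    obtain ⟨V, hVn, hVo, hV⟩ := exists_normal_le heo
    have h1 : e ∈ D ⊓ Subgroup.centralizer ((V ⊓ U₀ : Subgroup G) : Set G) := by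
      refine ⟨he, ?_⟩
      show e ∈ Subgroup.centralizer ((V ⊓ U₀ : Subgroup G) : Set G)
      rw [Subgroup.mem_centralizer_iff]
      intro x hx
      have h2 := hV hx.1
      rw [Subgroup.mem_centralizer_singleton_iff] at h2
      first | exact h2.symm | exact h2
    have h2 := hY₀max (D ⊓ Subgroup.centralizer ((V ⊓ U₀ : Subgroup G) : Set G))
      ⟨V ⊓ U₀, inferInstance, by
        rw [Subgroup.coe_inf]
        exact hVo.inter hU₀o, rfl⟩ (by
      apply inf_le_inf_left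
      apply Subgroup.centralizer_le
      exact fun x hx => hx.2)
    rw [h2] at h1
    exact h1
  -- `F` is finitely generated over `ℤ_p`
  set C : Subgroup G := P ⊓ (D ⊔ U₀) with hC
  have hCo : IsOpen (C : Set G) := by
    rw [hC, Subgroup.coe_inf]
    exact hS.Po.inter (Subgroup.isOpen_mono le_sup_right hU₀o)
  have hDC : D ≤ C := le_inf hS.AP le_sup_left
  have hFC : FGen C (derImg δ hδ hDM F hFD) :=
    fgen_open hp hS hMp hDM hMF hCo hDC inf_le_left (hcl F hFD hFc)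
      ((hst F hFD hFn).mono le_top)
  have hFbot : FGen (⊥ : Subgroup G) (derImg δ hδ hDM F hFD) := by
    apply hFC.of_trivial
    rintro g hg _ ⟨e, he, rfl⟩
    have hcomm : g * e = e * g := by
      have h1 : D ⊔ U₀ ≤ Subgroup.centralizer {e} := by
        apply sup_le
        · intro d hd
          rw [Subgroup.mem_centralizer_singleton_iff]
          have := hS.abel d hd e he.1
          exact this
        · intro u hu
          rw [Subgroup.mem_centralizer_singleton_iff]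
          have := (Subgroup.mem_centralizer_iff.1 he.2) u hu
          exact this
      have h2 := h1 hg.2
      rw [Subgroup.mem_centralizer_singleton_iff] at h2
      exact h2
    rw [← der_conj δ hδ hDM g (hFD he), hcomm, mul_assoc, mul_inv_cancel, mul_one]
  -- torsion
  obtain ⟨Y₁, ⟨c, rfl⟩, hc⟩ := acc {Y | ∃ i : ℕ, Y = torsSub F hFab (p ^ i)} ⟨_, 0, rfl⟩ (by
    rintro _ ⟨i, rfl⟩
    refine ⟨fun e he => hFD he.1, ?_, ?_⟩
    · have : ((torsSub F hFab (p ^ i) : Subgroup G) : Set G) =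
          (F : Set G) ∩ {e | e ^ p ^ i = 1} := by
        ext e
        exact Iff.rfl
      rw [this]
      exact hFc.inter (isClosed_eq (continuous_pow _) continuous_const)
    · constructor
      rintro e ⟨he, he'⟩ g
      refine ⟨hFn.conj_mem e he g, ?_⟩
      rw [conj_pow, he', mul_one, mul_inv_cancel])
  have hcc : ∀ i, ∀ e ∈ F, e ^ p ^ (c + i) = 1 → e ^ p ^ c = 1 := by
    intro i e he hei
    have h1 := hc _ ⟨c + i, rfl⟩ (by
      rintro a ⟨ha, ha'⟩
      refine ⟨ha, ?_⟩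
      rw [pow_add, pow_mul, ha', one_pow])
    have h2 : e ∈ torsSub F hFab (p ^ (c + i)) := ⟨he, hei⟩
    rw [h1] at h2
    exact h2.2
  obtain ⟨F₀, hF₀c, hF₀⟩ := isClosed_pow_image hFc hFab (p ^ c)
  have hF₀mem : ∀ x, x ∈ F₀ ↔ ∃ z ∈ F, x = z ^ p ^ c := by
    intro x
    have h1 : x ∈ (F₀ : Set G) ↔ x ∈ {y | ∃ z ∈ F, y = z ^ p ^ c} := by rw [hF₀]
    exact h1
  have hF₀F : F₀ ≤ F := by
    intro x hx
    obtain ⟨z, hz, rfl⟩ := (hF₀mem x).1 hx
    exact F.pow_mem hz _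
  have hF₀n : F₀.Normal := by
    constructor
    intro x hx g
    obtain ⟨z, hz, rfl⟩ := (hF₀mem x).1 hx
    rw [hF₀mem]
    exact ⟨g * z * g⁻¹, hFn.conj_mem z hz g, by rw [conj_pow]⟩
  refine ⟨F₀, hF₀n, hF₀c, hF₀F.trans hFD, ?_, ?_, ?_⟩
  · refine Subgroup.isOpen_mono ?_ hU₀o
    intro u hu
    rw [Subgroup.mem_centralizer_iff]
    intro x hx
    exact ((Subgroup.mem_centralizer_iff.1 (hF₀F hx).2) u hu).symm
  · intro x hx m hm hxm
    obtain ⟨e, he, rfl⟩ := (hF₀mem x).1 hx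
    obtain ⟨i, l, hl, rfl⟩ := Nat.exists_eq_pow_mul_and_not_dvd hm.ne' p hp.ne_one
    have hcop : Nat.Coprime p l := (Nat.Prime.coprime_iff_not_dvd hp).2 hl
    set y := (e ^ p ^ c) ^ p ^ i with hy
    have hyl : y ^ l = 1 := by rw [hy, ← pow_mul]; exact hxm
    have hyP : y ∈ P := P.pow_mem (P.pow_mem (hS.AP (hFD he)) _) _
    have hy1 : y ∈ ({1} : Set G) := by
      apply mem_of_forall hS.basis isClosed_singleton
      intro V hVn hVo
      refine ⟨1, rfl, ?_⟩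
      rw [inv_one, one_mul]
      obtain ⟨j, hj⟩ := exists_pow_mem hS.Pp hyP hVn hVo
      have hcop' : Nat.Coprime (p ^ j) l := Nat.Coprime.pow_left j hcop
      have h1 : (y : G) ^ (Nat.gcd (p ^ j) l : ℤ) ∈ V := by
        rw [Nat.gcd_eq_gcd_ab, zpow_add, zpow_mul, zpow_mul]
        refine V.mul_mem (V.zpow_mem ?_ _) (V.zpow_mem ?_ _)
        · rw [zpow_natCast]
          exact hj
        · rw [zpow_natCast, hyl]
          exact V.one_mem
      rw [hcop'] at h1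
      simpa using h1
    have hy1' : y = 1 := hy1
    apply hcc i e he
    rw [pow_add, pow_mul]
    exact hy1'
  · -- finitely many cosets
    obtain ⟨S', hS'1, hS'2⟩ := hFbot
    have hF₀D : F₀ ≤ D := hF₀F.trans hFD
    set E₀ : AddSubgroup M := derImg δ hδ hDM F₀ hF₀D with hE₀
    have hE₀c : IsClosed (E₀ : Set M) := hcl F₀ hF₀D hF₀c
    set Z : AddSubgroup M := AddSubgroup.closure (S' : Set M) with hZ
    have hZE : ∀ z ∈ Z, p ^ c • z ∈ E₀ := by
      intro z hz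
      have h1 : Z ≤ derImg δ hδ hDM F hFD := by
        rw [hZ, AddSubgroup.closure_le]
        exact fun s hs => hS'1 s hs
      obtain ⟨e, he, rfl⟩ := h1 hz
      refine ⟨e ^ p ^ c, (hF₀mem _).2 ⟨e, he, rfl⟩, der_pow δ hδ hDM (hFD he) _⟩
    have hfin : Finite (Z ⧸ E₀.addSubgroupOf Z) := by
      have hfg : AddGroup.FG Z := by
        rw [AddGroup.fg_iff_addSubgroup_fg]
        exact ⟨S', rfl⟩
      have hfg' : AddGroup.FG (Z ⧸ E₀.addSubgroupOf Z) := inferInstance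
      apply AddCommGroup.finite_of_fg_isAddTorsion
      intro q
      obtain ⟨⟨z, hz⟩, rfl⟩ := QuotientAddGroup.mk_surjective q
      rw [isOfFinAddOrder_iff_nsmul_eq_zero]
      refine ⟨p ^ c, pow_pos hp.pos c, ?_⟩
      rw [← QuotientAddGroup.mk_nsmul, QuotientAddGroup.eq_zero_iff,
        AddSubgroup.mem_addSubgroupOf]
      exact hZE z hz
    set X : Set M := Set.range fun q : Z ⧸ E₀.addSubgroupOf Z => (q.out : M) with hX
    have hXf : X.Finite := Set.finite_range _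
    have hcov : ∀ x ∈ derImg δ hδ hDM F hFD, ∃ z ∈ X, x - z ∈ E₀ := by
      have h1 : IsClosed (⋃ z ∈ X, {x : M | x - z ∈ E₀}) :=
        hXf.isClosed_biUnion fun z _ =>
          hE₀c.preimage (continuous_id.sub continuous_const)
      have h2 : (Z : Set M) ⊆ ⋃ z ∈ X, {x : M | x - z ∈ E₀} := by
        intro x hx
        refine Set.mem_biUnion (x := ((((⟨x, hx⟩ : Z) : Z ⧸ E₀.addSubgroupOf Z).out : Z) : M))
          ⟨_, rfl⟩ ?_
        have h3 := QuotientAddGroup.eq.1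
          (QuotientAddGroup.out_eq' (((⟨x, hx⟩ : Z) : Z ⧸ E₀.addSubgroupOf Z)))
        rw [AddSubgroup.mem_addSubgroupOf] at h3
        have h4 : -((((⟨x, hx⟩ : Z) : Z ⧸ E₀.addSubgroupOf Z).out : Z) : M) + x ∈ E₀ := h3
        show x - _ ∈ E₀
        rw [sub_eq_neg_add]
        exact h4
      intro x hx
      have h3 : x ∈ closure (AddSubgroup.closure
          {y : M | ∃ h ∈ (⊥ : Subgroup G), ∃ s ∈ S', y = h • s} : Set M) := hS'2 hx
      have h4 : (AddSubgroup.closure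
          {y : M | ∃ h ∈ (⊥ : Subgroup G), ∃ s ∈ S', y = h • s} : Set M) ⊆ Z := by
        apply AddSubgroup.closure_mono
        rintro y ⟨h, hh, s, hs, rfl⟩
        rw [Subgroup.mem_bot.1 hh, one_smul]
        exact hs
      have h5 := (closure_minimal (h4.trans h2) h1) h3
      simpa using h5
    classical
    refine ⟨(fun z : M => if h : ∃ e ∈ F, δ e - z ∈ E₀ then h.choose else 1) '' X,
      hXf.image _, ?_⟩
    intro e he heo
    have heF := hFall e he heo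
    obtain ⟨z, hz, hez⟩ := hcov (δ e) ⟨e, heF, rfl⟩
    have hex : ∃ e ∈ F, δ e - z ∈ E₀ := ⟨e, heF, hez⟩
    refine ⟨_, ⟨z, hz, rfl⟩, ?_⟩
    show (dite _ _ _)⁻¹ * e ∈ F₀
    rw [dif_pos hex]
    obtain ⟨hr1, hr2⟩ := hex.choose_spec
    set r := hex.choose with hr
    have h1 : δ (r⁻¹ * e) ∈ E₀ := by
      rw [der_mul δ hδ hDM (D.inv_mem (hFD hr1)), der_inv δ hδ hDM (hFD hr1)]
      have : -δ r + δ e = (δ e - z) - (δ r - z) := by abel
      rw [this]
      exact E₀.sub_mem hez hr2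
    obtain ⟨f, hf, hff⟩ := h1
    rw [← hinj' f (hF₀D hf) _ (D.mul_mem (D.inv_mem (hFD hr1)) he) hff]
    exact hf

end Pool.Agent.Lib.MP_ae9e3a_al
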