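import Mathlib

set_option autoImplicit false

/-!
# VPP module LinRes: residual finiteness of linear groups away from `m`

`S₀` is a finitely generated group, `ρ` a linear representation in characteristic `0`, and `ρ z` has
infinite order. Then there are a prime `ℓ` not dividing `m` and a finite quotient of `S₀` in which
some power of `z` is a nontrivial element of `ℓ`-power order.

PROOF. Let `R = Algebra.adjoin ℤ E`, `E` the finite set of the entries of the matrices `ρ s` and
`(ρ s)⁻¹` (`s` in a finite set of generators of `S₀`) and of `(m : K)⁻¹`; `R` is a finitely generated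
`ℤ`-algebra (`Subalgebra.fg_adjoin_finset`), a domain, Noetherian (Hilbert). For every `g : S₀` the
entries of `ρ g` and of `(ρ g)⁻¹` are in `R` (closure induction). Let `q` be a maximal ideal of `R`
(`Ideal.exists_maximal`). `F = R ⧸ q` is a field which is a finitely generated `ℤ`-algebra, so it is
a finite `ℤ`-module (`finite_of_finite_type_of_isJacobsonRing`, `ℤ` is a Jacobson ring); hence it
has positive characteristic `ℓ` (otherwise `ℤ → F` is injective and integral, and `ℤ` would be a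
field) and is finite. As `m` is invertible in `R`, `ℓ` does not divide `m`; and `ℓ ∈ q`.
`R ⧸ q ^ k` is finite for all `k` (`Ideal.finite_quotient_pow`, `q` finitely generated).
Let `N_k = {g | all the entries of ρ g - 1 are in q ^ k}`: it is the kernel of
`S₀ → GL_n(R ⧸ q ^ k)` (or `S₀ →* Matrix (Fin n) (Fin n) (R ⧸ q ^ k)`, `Matrix.map` with the
quotient map, which lands in the units because `S₀` is a group: use `MonoidHom.toHomUnits`), so it
is normal of finite index. Let `j = N_1.index > 0`, so `z ^ j ∈ N_1`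
(`Subgroup.pow_index_mem`). `ρ (z ^ j) ≠ 1`, so some entry of `ρ (z ^ j) - 1`, an element of `R`, is
not zero, and by Krull's theorem (`Ideal.iInf_pow_eq_bot_of_isDomain`) it is not in `q ^ k` for
some `k`: `z ^ j ∉ N_k`. Finally `(z ^ j) ^ ℓ ^ i ∈ N_{i+1}` by induction: if
`Y ∈ Matrix (q ^ i)`, `i ≥ 1`, then `(1 + Y) ^ ℓ = 1 + ℓ Y + ... + Y ^ ℓ ∈ 1 + Matrix (q ^ (i+1))`
since `ℓ ∈ q` (every binomial coefficient in between is divisible by `ℓ`, or just: `Y ^ 2` has
entries in `q ^ (2 i) ≤ q ^ (i+1)` and `ℓ Y` has entries in `q ^ (i+1)`). Take `N = N_k`.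
-/

namespace Pool.Agent.Lib.MP_ae9e3a_al

private theorem LinRes_jacobson : IsJacobsonRing ℤ := by
  rw [isJacobsonRing_iff_prime_eq]
  intro P hP
  by_cases h : P = ⊥
  · subst h
    rw [eq_bot_iff]
    intro x hx
    rw [Ideal.mem_jacobson_bot] at hx
    have h1 := hx x
    rw [Int.isUnit_iff] at h1
    rcases h1 with h1 | h1
    · have h2 : x * x = 0 := by linarith
      rw [Ideal.mem_bot]
      exact mul_self_eq_zero.1 h2
    · nlinarith [mul_self_nonneg x]
  · have := hP.isMaximal h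
    exact Ideal.jacobson_eq_self_of_isMaximal

private theorem LinRes_finite (F : Type*) [Field F] [i : Algebra ℤ F] [Algebra.FiniteType ℤ F] :
    ∃ ℓ : ℕ, ℓ.Prime ∧ (ℓ : F) = 0 ∧ Finite F := by
  obtain rfl : i = Ring.toIntAlgebra F := Subsingleton.elim _ _
  have := LinRes_jacobson
  have : Module.Finite ℤ F := finite_of_finite_type_of_isJacobsonRing ℤ F
  obtain ⟨ℓ, hℓ⟩ := CharP.exists F
  have h0 : ℓ ≠ 0 := by
    rintro rfl
    have : CharZero F := CharP.charP_to_charZero F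
    have h1 : IsField ℤ := isField_of_isIntegral_of_isField
      (algebraMap ℤ F).injective_int (Field.toIsField F)
    exact Int.not_isField h1
  have hp : ℓ.Prime := (CharP.char_is_prime_or_zero F ℓ).resolve_right h0
  refine ⟨ℓ, hp, CharP.cast_eq_zero F ℓ, ?_⟩
  apply Module.finite_of_fg_torsion F
  intro x
  refine ⟨⟨(ℓ : ℤ), mem_nonZeroDivisors_of_ne_zero (by exact_mod_cast h0)⟩, ?_⟩
  change (ℓ : ℤ) • x = 0
  rw [zsmul_eq_mul, Int.cast_natCast, CharP.cast_eq_zero F ℓ, zero_mul]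

private theorem LinRes_pow {A : Type*} [Ring A] (Y : A) (h : Y * Y = 0) (n : ℕ) :
    (1 + Y) ^ n = 1 + n • Y := by
  induction n with
  | zero => simp
  | succ n ih =>
    rw [pow_succ, ih, succ_nsmul, mul_add, mul_one, add_mul, one_mul, smul_mul_assoc, h,
      smul_zero, add_zero]
    abel

/-- The statement for representations over an integral domain of finite type over `ℤ`. -/
private theorem LinRes_ring {S₀ R : Type*} [Group S₀] [CommRing R] [IsDomain R]
    [Algebra.FiniteType ℤ R] {n : ℕ} (φ : S₀ →* Matrix (Fin n) (Fin n) R) (m : ℕ)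
    (hm : IsUnit (m : R)) (z : S₀) (hz : ∀ j : ℕ, 0 < j → φ (z ^ j) ≠ 1) :
    ∃ ℓ : ℕ, ℓ.Prime ∧ ¬ ℓ ∣ m ∧ ∃ N : Subgroup S₀, N.Normal ∧ N.index ≠ 0 ∧
      ∃ j : ℕ, z ^ j ∉ N ∧ ∃ i : ℕ, (z ^ j) ^ ℓ ^ i ∈ N := by
  have : IsNoetherianRing R := Algebra.FiniteType.isNoetherianRing ℤ R
  obtain ⟨q, hq⟩ := Ideal.exists_maximal R
  have hft : Algebra.FiniteType ℤ (R ⧸ q) :=
    Algebra.FiniteType.of_surjective (Ideal.Quotient.mkₐ ℤ q) (Ideal.Quotient.mkₐ_surjective ℤ q)
  let : Field (R ⧸ q) := Ideal.Quotient.field q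
  obtain ⟨ℓ, hℓ, hℓ0, hfin⟩ := @LinRes_finite (R ⧸ q) _ (Ideal.Quotient.algebra ℤ) hft
  have hℓq : (ℓ : R) ∈ q := by
    rw [← Ideal.Quotient.eq_zero_iff_mem, map_natCast]
    exact hℓ0
  have hℓm : ¬ ℓ ∣ m := by
    rintro ⟨c, rfl⟩
    apply hq.ne_top
    refine Ideal.eq_top_of_isUnit_mem q ?_ hm
    rw [Nat.cast_mul]
    exact Ideal.mul_mem_right _ _ hℓq
  have hqfg : q.FG := IsNoetherian.noetherian q
  have : ∀ k, Finite (R ⧸ q ^ k) := fun k => Ideal.finite_quotient_pow hqfg k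
  let ψ : (k : ℕ) → S₀ →* Matrix (Fin n) (Fin n) (R ⧸ q ^ k) := fun k =>
    ((Ideal.Quotient.mk (q ^ k)).mapMatrix : Matrix (Fin n) (Fin n) R →+*
      Matrix (Fin n) (Fin n) (R ⧸ q ^ k)).toMonoidHom.comp φ
  let N : ℕ → Subgroup S₀ := fun k => (MonoidHom.toHomUnits (ψ k)).ker
  have hN : ∀ k g, g ∈ N k ↔ ψ k g = 1 := fun k g => by
    rw [MonoidHom.mem_ker, Units.ext_iff]
    rfl
  have hψ : ∀ k g, ψ k g = (Ideal.Quotient.mk (q ^ k)).mapMatrix (φ g) := fun k g => rfl
  have hN' : ∀ k g, g ∈ N k ↔ ∀ a b, (φ g - 1) a b ∈ q ^ k := fun k g => by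
    rw [hN, hψ]
    constructor
    · intro h a b
      rw [← Ideal.Quotient.eq_zero_iff_mem]
      have h1 := congrFun (congrFun (congrArg (fun Z => Z -
        (Ideal.Quotient.mk (q ^ k)).mapMatrix (1 : Matrix (Fin n) (Fin n) R)) h) a) b
      simp only [map_one, sub_self] at h1
      rw [Matrix.sub_apply, map_sub]
      rw [← map_one (Ideal.Quotient.mk (q ^ k)).mapMatrix] at h1
      exact h1
    · intro h
      have h1 : (Ideal.Quotient.mk (q ^ k)).mapMatrix (φ g - 1) = 0 := by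
        ext a b
        exact Ideal.Quotient.eq_zero_iff_mem.2 (h a b)
      rw [map_sub, map_one, sub_eq_zero] at h1
      exact h1
  have hidx : ∀ k, (N k).index ≠ 0 := fun k => by
    change (MonoidHom.toHomUnits (ψ k)).ker.index ≠ 0
    rw [Subgroup.index_ker]
    exact Nat.card_pos.ne'
  have hstep : ∀ k g, g ∈ N (k + 1) → g ^ ℓ ∈ N (k + 2) := by
    intro k g hg
    rw [hN'] at hg
    rw [hN, map_pow, hψ]
    set Y := (Ideal.Quotient.mk (q ^ (k + 2))).mapMatrix (φ g - 1) with hY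
    have h1 : (Ideal.Quotient.mk (q ^ (k + 2))).mapMatrix (φ g) = 1 + Y := by
      rw [hY, map_sub, map_one]
      abel
    have h2 : Y * Y = 0 := by
      rw [hY, ← map_mul]
      ext a b
      refine Ideal.Quotient.eq_zero_iff_mem.2 ?_
      rw [Matrix.mul_apply]
      refine Ideal.sum_mem _ fun c _ => ?_
      have h3 := Ideal.mul_mem_mul (hg a c) (hg c b)
      rw [← pow_add] at h3
      exact Ideal.pow_le_pow_right (by omega) h3
    have h4 : ℓ • Y = 0 := by
      rw [hY, ← map_nsmul]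
      ext a b
      refine Ideal.Quotient.eq_zero_iff_mem.2 ?_
      rw [Matrix.smul_apply, nsmul_eq_mul, pow_succ']
      exact Ideal.mul_mem_mul hℓq (hg a b)
    rw [h1, LinRes_pow Y h2, h4, add_zero]
  set j := (N 1).index with hj
  have hjpos : 0 < j := Nat.pos_of_ne_zero (hidx 1)
  have hz1 : z ^ j ∈ N 1 := Subgroup.pow_index_mem (N 1) z
  have hpow : ∀ i, (z ^ j) ^ ℓ ^ i ∈ N (i + 1) := by
    intro i
    induction i with
    | zero => simpa using hz1
    | succ i ih =>
      rw [pow_succ, pow_mul]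
      exact hstep i _ ih
  obtain ⟨a, b, hab⟩ : ∃ a b, (φ (z ^ j) - 1) a b ≠ 0 := by
    by_contra h
    push Not at h
    apply hz j hjpos
    have h1 : φ (z ^ j) - 1 = 0 := by
      ext a b
      exact h a b
    exact sub_eq_zero.1 h1
  obtain ⟨k, hk⟩ : ∃ k, (φ (z ^ j) - 1) a b ∉ q ^ k := by
    by_contra h
    push Not at h
    apply hab
    have h1 : (φ (z ^ j) - 1) a b ∈ ⨅ i : ℕ, q ^ i := by
      rw [Ideal.mem_iInf]
      exact h
    rw [Ideal.iInf_pow_eq_bot_of_isDomain q hq.ne_top, Ideal.mem_bot] at h1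
    exact h1
  refine ⟨ℓ, hℓ, hℓm, N k, inferInstance, hidx k, j, fun h => hk ((hN' k _).1 h a b), k, ?_⟩
  rw [hN']
  intro a b
  exact Ideal.pow_le_pow_right (Nat.le_succ k) ((hN' (k + 1) _).1 (hpow k) a b)

theorem lin_res {S₀ K : Type*} [Group S₀] [Group.FG S₀] [Field K] [CharZero K] {n : ℕ}
    (ρ : S₀ →* GL (Fin n) K) (m : ℕ) (hm : m ≠ 0) (z : S₀) (hz : ∀ j : ℕ, 0 < j → ρ (z ^ j) ≠ 1) :
    ∃ ℓ : ℕ, ℓ.Prime ∧ ¬ ℓ ∣ m ∧ ∃ N : Subgroup S₀, N.Normal ∧ N.index ≠ 0 ∧
      ∃ j : ℕ, z ^ j ∉ N ∧ ∃ i : ℕ, (z ^ j) ^ ℓ ^ i ∈ N := by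
  classical
  obtain ⟨T, hT⟩ := Group.fg_def.1 (inferInstance : Group.FG S₀)
  let E : Set K := (⋃ s ∈ T, (Set.range (fun p : Fin n × Fin n =>
      (ρ s : Matrix (Fin n) (Fin n) K) p.1 p.2) ∪ Set.range (fun p : Fin n × Fin n =>
      (ρ s⁻¹ : Matrix (Fin n) (Fin n) K) p.1 p.2))) ∪ {(m : K)⁻¹}
  have hE : E.Finite := by
    refine Set.Finite.union (Set.Finite.biUnion T.finite_toSet fun s _ => ?_)
      (Set.finite_singleton _)
    exact (Set.finite_range _).union (Set.finite_range _)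
  let R := Algebra.adjoin ℤ E
  have hfg : R.FG := by
    rw [Subalgebra.fg_def]
    exact ⟨E, hE, rfl⟩
  have : Algebra.FiniteType ℤ R := (Subalgebra.fg_iff_finiteType R).1 hfg
  have hent : ∀ g : S₀, (∀ a b, (ρ g : Matrix (Fin n) (Fin n) K) a b ∈ R) ∧
      ∀ a b, (ρ g⁻¹ : Matrix (Fin n) (Fin n) K) a b ∈ R := by
    intro g
    have hg : g ∈ Subgroup.closure (T : Set S₀) := by
      rw [hT]
      trivial
    induction hg using Subgroup.closure_induction with
    | mem s hs =>
      refine ⟨fun a b => Algebra.subset_adjoin (Or.inl ?_), fun a b =>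
        Algebra.subset_adjoin (Or.inl ?_)⟩
      · exact Set.mem_biUnion (Finset.mem_coe.1 hs) (Or.inl ⟨(a, b), rfl⟩)
      · exact Set.mem_biUnion (Finset.mem_coe.1 hs) (Or.inr ⟨(a, b), rfl⟩)
    | one =>
      have h1 : ∀ a b, (ρ (1 : S₀) : Matrix (Fin n) (Fin n) K) a b ∈ R := by
        intro a b
        rw [map_one, Units.val_one, Matrix.one_apply]
        split_ifs
        · exact R.one_mem
        · exact R.zero_mem
      exact ⟨h1, by rw [inv_one]; exact h1⟩
    | mul x y _ _ hx hy =>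
      refine ⟨fun a b => ?_, fun a b => ?_⟩
      · rw [map_mul, Units.val_mul, Matrix.mul_apply]
        exact R.sum_mem fun c _ => R.mul_mem (hx.1 a c) (hy.1 c b)
      · rw [mul_inv_rev, map_mul, Units.val_mul, Matrix.mul_apply]
        exact R.sum_mem fun c _ => R.mul_mem (hy.2 a c) (hx.2 c b)
    | inv x _ hx => exact ⟨hx.2, by rw [inv_inv]; exact hx.1⟩
  let φ : S₀ →* Matrix (Fin n) (Fin n) R :=
    { toFun := fun g => Matrix.of fun a b => ⟨(ρ g : Matrix (Fin n) (Fin n) K) a b, (hent g).1 a b⟩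
      map_one' := by
        ext a b
        change (ρ (1 : S₀) : Matrix (Fin n) (Fin n) K) a b =
          (((1 : Matrix (Fin n) (Fin n) R) a b : R) : K)
        rw [map_one, Units.val_one, Matrix.one_apply, Matrix.one_apply]
        split_ifs <;> rfl
      map_mul' := fun g h => by
        ext a b
        change (ρ (g * h) : Matrix (Fin n) (Fin n) K) a b = _
        rw [map_mul, Units.val_mul, Matrix.mul_apply, Matrix.mul_apply]
        rw [AddSubmonoidClass.coe_finsetSum]
        rfl }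
  have hφ : ∀ g, φ g = 1 → ρ g = 1 := by
    intro g hg
    ext a b
    have h1 := congrArg (fun x : R => (x : K)) (congrFun (congrFun hg a) b)
    change (ρ g : Matrix (Fin n) (Fin n) K) a b =
      (((1 : Matrix (Fin n) (Fin n) R) a b : R) : K) at h1
    rw [h1, Units.val_one, Matrix.one_apply, Matrix.one_apply]
    split_ifs <;> rfl
  have hmu : IsUnit (m : R) := by
    have h1 : (m : K)⁻¹ ∈ R := Algebra.subset_adjoin (Or.inr rfl)
    refine IsUnit.of_mul_eq_one (⟨(m : K)⁻¹, h1⟩ : R) ?_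
    apply Subtype.ext
    change (m : K) * (m : K)⁻¹ = 1
    exact mul_inv_cancel₀ (Nat.cast_ne_zero.2 hm)
  exact LinRes_ring φ m hmu z fun j hj h => hz j hj (hφ _ h)

end Pool.Agent.Lib.MP_ae9e3a_al
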