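import Pool.Agent.Lib.MP_ae9e3a_al.Supp
import Pool.Agent.Lib.MP_ae9e3a_al.LinRes
import Pool.Agent.Lib.MP_ae9e3a_al.Cent

set_option autoImplicit false

/-!
# VPP module LinConcise: conciseness for linear groups with a marginal subgroup of finite index
-/

namespace Pool.Agent.Lib.MP_ae9e3a_al

private theorem LC_map_verb {G G' : Type*} [Group G] [Group G'] (f : G →* G') {k : ℕ}
    (w : FreeGroup (Fin k)) {x : G} (hx : x ∈ verb w G) : f x ∈ verb w G' := by
  have : verb w G ≤ (verb w G').comap f := by
    unfold verb
    rw [Subgroup.closure_le]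
    rintro _ ⟨g, rfl⟩
    refine Subgroup.subset_closure ⟨fun i => f (g i), ?_⟩
    exact (map_lift f w g).symm
  exact this hx

private theorem LC_out_mem {H : Type*} [Group H] (U : Subgroup H) (g : H) :
    (Quotient.out (g : H ⧸ U))⁻¹ * g ∈ U := by
  apply QuotientGroup.eq.mp
  exact Quotient.out_eq' _

/-- Every value is a value at representatives. -/
private theorem LC_rep {H : Type*} [Group H] {k : ℕ} (w : FreeGroup (Fin k)) (U : Subgroup H)
    (hU : Marginal w U) (g : Fin k → H) :
    FreeGroup.lift g w = FreeGroup.lift (fun i => Quotient.out (g i : H ⧸ U)) w := by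
  have h := hU (fun i => Quotient.out (g i : H ⧸ U))
    (fun i => (Quotient.out (g i : H ⧸ U))⁻¹ * g i) (fun i => LC_out_mem U (g i))
  rw [← h]
  congr 2
  funext i
  group

private theorem LC_vals_finite {H : Type*} [Group H] {k : ℕ} (w : FreeGroup (Fin k))
    (U : Subgroup H) (hi : U.index ≠ 0) (hU : Marginal w U) : (vals w H).Finite := by
  have hfi : U.FiniteIndex := ⟨hi⟩
  have hf : Finite (H ⧸ U) := Subgroup.finite_quotient_of_finiteIndex
  refine (Set.finite_range
    (fun q : Fin k → H ⧸ U => FreeGroup.lift (fun i => Quotient.out (q i)) w)).subset ?_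
  rintro _ ⟨g, rfl⟩
  exact ⟨fun i => (g i : H ⧸ U), (LC_rep w U hU g).symm⟩

/-- `U` centralises the verbal subgroup. -/
private theorem LC_comm {H : Type*} [Group H] {k : ℕ} (w : FreeGroup (Fin k))
    (U : Subgroup H) (hn : U.Normal) (hU : Marginal w U) {u : H} (hu : u ∈ U) {v : H}
    (hv : v ∈ verb w H) : u * v = v * u := by
  have : verb w H ≤ Subgroup.centralizer {u} := by
    unfold verb
    rw [Subgroup.closure_le]
    rintro _ ⟨g, rfl⟩
    rw [SetLike.mem_coe, Subgroup.mem_centralizer_singleton_iff]
    have h1 := conj_lift w g u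
    have h2 := hU g (fun i => (g i)⁻¹ * u * g i * u⁻¹) (fun i => by
      have h3 := hn.conj_mem u hu (g i)⁻¹
      rw [inv_inv] at h3
      exact U.mul_mem h3 (U.inv_mem hu))
    have h4 : (fun i => g i * ((g i)⁻¹ * u * g i * u⁻¹)) = fun i => u * g i * u⁻¹ := by
      funext i
      group
    rw [h4, ← h1] at h2
    show FreeGroup.lift g w * u = u * FreeGroup.lift g w
    rw [mul_inv_eq_iff_eq_mul] at h2
    exact h2.symm
  have h := this hv
  rw [Subgroup.mem_centralizer_singleton_iff] at h
  exact h.symm

/-- The reduced statement: a linear group. -/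
private theorem LC_main {H K : Type*} [Group H] [Field K] [CharZero K] {n : ℕ}
    (j : H →* GL (Fin n) K) (hj : Function.Injective j) {k : ℕ} (w : FreeGroup (Fin k))
    (U : Subgroup H) (hn : U.Normal) (hi : U.index ≠ 0) (hU : Marginal w U) :
    (verb w H : Set H).Finite := by
  classical
  have hfi : U.FiniteIndex := ⟨hi⟩
  have hf : Finite (H ⧸ U) := Subgroup.finite_quotient_of_finiteIndex
  -- torsion
  have htor : ∀ z ∈ verb w H, ∃ i : ℕ, 0 < i ∧ z ^ i = 1 := by
    intro z hz
    by_contra hc
    push Not at hc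
    set R : Set H := Set.range (fun q : H ⧸ U => Quotient.out q) with hR
    have hRf : R.Finite := Set.finite_range _
    set S : Subgroup H := Subgroup.closure R with hS
    have hSfg : Group.FG S := by
      rw [Group.fg_iff_subgroup_fg]
      exact (Subgroup.fg_iff _).mpr ⟨R, rfl, hRf⟩
    have hzS : ∃ z' ∈ verb w S, (S.subtype z') = z := by
      have hle : verb w H ≤ (verb w S).map S.subtype := by
        unfold verb
        rw [Subgroup.closure_le]
        rintro _ ⟨g, rfl⟩
        refine ⟨FreeGroup.lift (fun i => (⟨Quotient.out (g i : H ⧸ U),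
          Subgroup.subset_closure ⟨_, rfl⟩⟩ : S)) w, Subgroup.subset_closure ⟨_, rfl⟩, ?_⟩
        rw [map_lift]
        exact (LC_rep w U hU g).symm
      obtain ⟨z', h1, h2⟩ := hle hz
      exact ⟨z', h1, h2⟩
    obtain ⟨z', hz', hzz⟩ := hzS
    have hinf : ∀ i : ℕ, 0 < i → (j.comp S.subtype) (z' ^ i) ≠ 1 := by
      intro i hi0 h1
      apply hc i hi0
      rw [MonoidHom.comp_apply, map_pow, hzz] at h1
      exact hj (h1.trans (map_one j).symm)
    obtain ⟨ℓ, hℓ, hℓm, N, hNn, hNi, a, haN, b, hbN⟩ :=
      lin_res (j.comp S.subtype) U.index hi z' hinf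
    have hNf : N.FiniteIndex := ⟨hNi⟩
    have hfin : Finite (S ⧸ N) := Subgroup.finite_quotient_of_finiteIndex
    have hsurj := QuotientGroup.mk'_surjective N
    have hnorm : ((U.subgroupOf S).map (QuotientGroup.mk' N)).Normal :=
      (inferInstance : (U.subgroupOf S).Normal).map _ hsurj
    have hmarg : Marginal w ((U.subgroupOf S).map (QuotientGroup.mk' N)) := by
      intro g d hd
      choose g' hg' using fun i => hsurj (g i)
      choose d' hd' hd'' using hd
      have h1 : (fun i => g i * d i) = fun i => QuotientGroup.mk' N (g' i * d' i) := by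
        funext i
        rw [map_mul, hg', hd'']
      have h2 : g = fun i => QuotientGroup.mk' N (g' i) := by
        funext i
        rw [hg']
      rw [h1, ← map_lift]
      conv_rhs => rw [h2, ← map_lift]
      congr 1
      apply S.subtype_injective
      rw [map_lift, map_lift]
      have := hU (fun i => S.subtype (g' i)) (fun i => S.subtype (d' i)) (fun i => by
        have := hd' i
        exact this)
      rw [← this]
      simp only [map_mul]
    have hdvd : ((U.subgroupOf S).map (QuotientGroup.mk' N)).index ∣ U.index := by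
      have h1 : ((U.subgroupOf S).map (QuotientGroup.mk' N)).index ∣ (U.subgroupOf S).index :=
        Subgroup.index_map_dvd _ hsurj
      have h2 : (U.subgroupOf S).index ∣ U.index := Subgroup.relIndex_dvd_index_of_normal U S
      exact h1.trans h2
    have hfinal := supp w ((U.subgroupOf S).map (QuotientGroup.mk' N)) hnorm hmarg hℓ
      (fun h => hℓm (h.trans hdvd)) (QuotientGroup.mk' N (z' ^ a))
      (LC_map_verb _ w ((verb w S).pow_mem hz' a))
      ⟨b, by
        rw [← map_pow]
        exact (QuotientGroup.eq_one_iff _).mpr hbN⟩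
    exact haN ((QuotientGroup.eq_one_iff _).mp hfinal)
  -- finiteness
  have hWfg : Group.FG (verb w H) := by
    rw [Group.fg_iff_subgroup_fg]
    exact (Subgroup.fg_iff _).mpr ⟨vals w H, rfl, LC_vals_finite w U hi hU⟩
  have hAi : (U.subgroupOf (verb w H)).FiniteIndex := inferInstance
  have hAfg : Group.FG (U.subgroupOf (verb w H)) := Subgroup.fg_of_index_ne_zero _
  let cg : CommGroup (U.subgroupOf (verb w H)) :=
    { (inferInstance : Group (U.subgroupOf (verb w H))) with
      mul_comm := fun a b => by
        apply Subtype.ext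
        apply Subtype.ext
        exact LC_comm w U hn hU (u := a.1.1) a.2 b.1.2 }
  have hAf : Finite (U.subgroupOf (verb w H)) := by
    refine @CommGroup.finite_of_fg_torsion _ cg hAfg ?_
    intro a
    obtain ⟨i, hi0, hi1⟩ := htor a.1.1 a.1.2
    rw [isOfFinOrder_iff_pow_eq_one]
    refine ⟨i, hi0, ?_⟩
    apply Subtype.ext
    apply Subtype.ext
    exact hi1
  have hqf : Finite (verb w H ⧸ U.subgroupOf (verb w H)) :=
    Subgroup.finite_quotient_of_finiteIndex
  have hW : Finite (verb w H) :=
    Finite.of_equiv _ (Subgroup.groupEquivQuotientProdSubgroup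
      (s := U.subgroupOf (verb w H))).symm
  exact Set.toFinite _

theorem lin_concise {G K : Type*} [Group G] [Field K] [CharZero K] {n : ℕ}
    (ρ : G →* GL (Fin n) K) {k : ℕ} (w : FreeGroup (Fin k)) (U : Subgroup G) (hn : U.Normal)
    (hi : U.index ≠ 0)
    (hU : ∀ g u : Fin k → G, (∀ i, u i ∈ U) →
      ρ (FreeGroup.lift (fun i => g i * u i) w) = ρ (FreeGroup.lift g w)) :
    (ρ '' (verb w G : Set G)).Finite := by
  have hsurj := ρ.rangeRestrict_surjective
  have hnorm : (U.map ρ.rangeRestrict).Normal := hn.map _ hsurj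
  have hind : (U.map ρ.rangeRestrict).index ≠ 0 := by
    intro h
    have := Subgroup.index_map_dvd U hsurj
    rw [h, zero_dvd_iff] at this
    exact hi this
  have hmarg : Marginal w (U.map ρ.rangeRestrict) := by
    intro g d hd
    choose g' hg' using fun i => hsurj (g i)
    choose d' hd' hd'' using hd
    have h1 : (fun i => g i * d i) = fun i => ρ.rangeRestrict (g' i * d' i) := by
      funext i
      rw [map_mul, hg', hd'']
    have h2 : g = fun i => ρ.rangeRestrict (g' i) := by
      funext i
      rw [hg']
    rw [h1, ← map_lift]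
    conv_rhs => rw [h2, ← map_lift]
    apply Subtype.ext
    exact hU g' d' hd'
  have hfin := LC_main ρ.range.subtype ρ.range.subtype_injective w (U.map ρ.rangeRestrict)
    hnorm hind hmarg
  refine (hfin.image ρ.range.subtype).subset ?_
  rintro _ ⟨x, hx, rfl⟩
  exact ⟨ρ.rangeRestrict x, LC_map_verb _ w hx, rfl⟩

end Pool.Agent.Lib.MP_ae9e3a_al
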