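import Pool.Agent.Lib.MP_ae9e3a_al.Defs

set_option autoImplicit false

/-!
# VPP module Zariski: a locally constant word is constant on cosets in every representation
-/

namespace Pool.Agent.Lib.MP_ae9e3a_al

section

variable {G K : Type*} [Group G] [Field K] {n : ℕ}

/-- Generators of the algebra of the functions `u ↦ (ρ u) a b`, `u ↦ (ρ u⁻¹) a b`. -/
private def Zgen (ρ : G →* GL (Fin n) K) : Set (G → K) :=
  Set.range (fun ab : Fin n × Fin n => fun u => (ρ u).val ab.1 ab.2) ∪
    Set.range (fun ab : Fin n × Fin n => fun u => (ρ u⁻¹).val ab.1 ab.2)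

private theorem Zgen_finite (ρ : G →* GL (Fin n) K) : (Zgen ρ).Finite :=
  (Set.finite_range _).union (Set.finite_range _)

private noncomputable def ZP (ρ : G →* GL (Fin n) K) : Subalgebra K (G → K) :=
  Algebra.adjoin K (Zgen ρ)

private theorem ZP_noeth (ρ : G →* GL (Fin n) K) : IsNoetherianRing (ZP ρ) :=
  isNoetherianRing_of_fg (Subalgebra.fg_def.2 ⟨Zgen ρ, Zgen_finite ρ, rfl⟩)

private theorem ZP_gen (ρ : G →* GL (Fin n) K) (a b : Fin n) :
    (fun u => (ρ u).val a b) ∈ ZP ρ :=
  Algebra.subset_adjoin (Or.inl ⟨(a, b), rfl⟩)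

private theorem ZP_gen' (ρ : G →* GL (Fin n) K) (a b : Fin n) :
    (fun u => (ρ u⁻¹).val a b) ∈ ZP ρ :=
  Algebra.subset_adjoin (Or.inr ⟨(a, b), rfl⟩)

private theorem ZP_const (ρ : G →* GL (Fin n) K) (x : K) : (fun _ => x : G → K) ∈ ZP ρ :=
  (ZP ρ).algebraMap_mem x

/-- Products of matrices with entries in the algebra. -/
private theorem ZP_mul (ρ : G →* GL (Fin n) K) {M N : G → Matrix (Fin n) (Fin n) K}
    (hM : ∀ a b, (fun u => M u a b) ∈ ZP ρ) (hN : ∀ a b, (fun u => N u a b) ∈ ZP ρ) (a b : Fin n) :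
    (fun u => (M u * N u) a b) ∈ ZP ρ := by
  have : (fun u => (M u * N u) a b) = ∑ c, (fun u => M u a c) * (fun u => N u c b) := by
    ext u
    simp [Matrix.mul_apply, Finset.sum_apply]
  rw [this]
  exact (ZP ρ).sum_mem fun c _ => (ZP ρ).mul_mem (hM a c) (hN c b)

/-- The algebra is stable under left translations. -/
private theorem ZP_transl (ρ : G →* GL (Fin n) K) (g : G) {f : G → K} (hf : f ∈ ZP ρ) :
    (fun u => f (g * u)) ∈ ZP ρ := by
  unfold ZP at hf
  induction hf using Algebra.adjoin_induction with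
  | mem f hf =>
    rcases hf with ⟨⟨a, b⟩, rfl⟩ | ⟨⟨a, b⟩, rfl⟩
    · have : (fun u => (ρ (g * u)).val a b) = fun u => ((ρ g).val * (ρ u).val) a b := by
        ext u
        rw [map_mul]; rfl
      show (fun u => (ρ (g * u)).val a b) ∈ ZP ρ
      rw [this]
      exact ZP_mul ρ (M := fun _ => (ρ g).val) (N := fun u => (ρ u).val)
        (fun a b => ZP_const ρ _) (fun a b => ZP_gen ρ a b) a b
    · have : (fun u => (ρ (g * u)⁻¹).val a b) = fun u => ((ρ u⁻¹).val * (ρ g⁻¹).val) a b := by
        ext u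
        rw [mul_inv_rev, map_mul]; rfl
      show (fun u => (ρ (g * u)⁻¹).val a b) ∈ ZP ρ
      rw [this]
      exact ZP_mul ρ (M := fun u => (ρ u⁻¹).val) (N := fun _ => (ρ g⁻¹).val)
        (fun a b => ZP_gen' ρ a b) (fun a b => ZP_const ρ _) a b
  | algebraMap x => exact ZP_const ρ x
  | add f f' _ _ h h' => exact (ZP ρ).add_mem h h'
  | mul f f' _ _ h h' => exact (ZP ρ).mul_mem h h'

/-- The vanishing ideal of a subgroup. -/
private def ZI (ρ : G →* GL (Fin n) K) (U : Subgroup G) : Ideal (ZP ρ) where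
  carrier := {f | ∀ u ∈ U, f.1 u = 0}
  zero_mem' := fun _ _ => rfl
  add_mem' := fun {f f'} h h' u hu => by
    show f.1 u + f'.1 u = 0
    rw [h u hu, h' u hu, add_zero]
  smul_mem' := fun c f h u hu => by
    show c.1 u * f.1 u = 0
    rw [h u hu, mul_zero]

private theorem ZI_anti (ρ : G →* GL (Fin n) K) {U U' : Subgroup G} (h : U' ≤ U) :
    ZI ρ U ≤ ZI ρ U' := fun _ hf u hu => hf u (h hu)

/-- The word functions. -/
private theorem ZP_word (ρ : G →* GL (Fin n) K) {k : ℕ} (w : FreeGroup (Fin k))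
    (g u : Fin k → G) (i : Fin k) (a b : Fin n) :
    (fun t => (ρ (FreeGroup.lift (fun j => g j * Function.update u i t j) w)).val a b) ∈ ZP ρ := by
  revert a b
  induction w using FreeGroup.induction_on with
  | C1 =>
    intro a b
    simp only [map_one]
    exact ZP_const ρ _
  | of j =>
    intro a b
    simp only [FreeGroup.lift_apply_of]
    by_cases h : j = i
    · subst h
      simp only [Function.update_self]
      exact ZP_transl ρ (g j) (ZP_gen ρ a b)
    · simp only [Function.update_of_ne h]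
      exact ZP_const ρ _
  | inv_of j _ =>
    intro a b
    simp only [map_inv, FreeGroup.lift_apply_of]
    by_cases h : j = i
    · subst h
      simp only [Function.update_self]
      simp only [← map_inv]
      exact ZP_transl ρ (g j) (ZP_gen' ρ a b)
    · simp only [Function.update_of_ne h]
      exact ZP_const ρ _
  | mul w₁ w₂ h₁ h₂ =>
    intro a b
    simp only [map_mul]
    exact ZP_mul ρ h₁ h₂ a b

end

theorem zariski {G K : Type*} [Group G] [TopologicalSpace G] [IsTopologicalGroup G]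
    [CompactSpace G] [Field K] {n : ℕ} (ρ : G →* GL (Fin n) K) {k : ℕ} (w : FreeGroup (Fin k))
    (hw : LocC w G) :
    ∃ U : Subgroup G, U.Normal ∧ IsOpen (U : Set G) ∧ ∀ g u : Fin k → G, (∀ i, u i ∈ U) →
      ρ (FreeGroup.lift (fun i => g i * u i) w) = ρ (FreeGroup.lift g w) := by
  classical
  have hN := ZP_noeth ρ
  have hwf : WellFoundedGT (Ideal (ZP ρ)) := inferInstance
  -- maximal vanishing ideal
  obtain ⟨I₀, ⟨U₀, hU₀n, hU₀o, rfl⟩, hmax⟩ := hwf.wf.has_min
    {I : Ideal (ZP ρ) | ∃ U : Subgroup G, U.Normal ∧ IsOpen (U : Set G) ∧ I = ZI ρ U}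
    ⟨ZI ρ ⊤, ⊤, inferInstance, isOpen_univ, rfl⟩
  have hstab : ∀ U' : Subgroup G, IsOpen (U' : Set G) → U' ≤ U₀ → ZI ρ U' = ZI ρ U₀ := by
    intro U' ho hle
    have hfin : Finite (G ⧸ U') := U'.quotient_finite_of_isOpen ho
    have hfi : U'.FiniteIndex := Subgroup.finiteIndex_of_finite_quotient
    have hcl : IsClosed (U' : Set G) := U'.isClosed_of_isOpen ho
    have hco : IsOpen (U'.normalCore : Set G) :=
      Subgroup.isOpen_of_isClosed_of_finiteIndex _ (U'.normalCore_isClosed hcl)
    have h1 := ZI_anti ρ hle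
    have h2 := ZI_anti ρ U'.normalCore_le
    have h3 : ¬ ZI ρ U₀ < ZI ρ U'.normalCore :=
      hmax _ ⟨U'.normalCore, inferInstance, hco, rfl⟩
    refine le_antisymm ?_ h1
    by_contra hc
    exact h3 (lt_of_le_not_ge (h1.trans h2) fun h => hc (h2.trans h))
  -- (1)
  have hone : ∀ (U' : Subgroup G), IsOpen (U' : Set G) → U' ≤ U₀ → ∀ g ∈ U₀, ∀ f ∈ ZP ρ,
      (∀ u ∈ U', f (g * u) = 0) → ∀ u ∈ U₀, f u = 0 := by
    intro U' ho hle g hg f hf hv u hu
    have h1 : (⟨fun u => f (g * u), ZP_transl ρ g hf⟩ : ZP ρ) ∈ ZI ρ U' := fun u hu => hv u hu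
    rw [hstab U' ho hle] at h1
    have h2 := h1 (g⁻¹ * u) (U₀.mul_mem (U₀.inv_mem hg) hu)
    simpa using h2
  -- (2)
  have htwo : ∀ (U' : Subgroup G), IsOpen (U' : Set G) → U' ≤ U₀ → ∀ h : Fin k → G,
      (∀ i, h i ∈ U₀) → ∀ F : (Fin k → G) → K,
      (∀ (i : Fin k) (u : Fin k → G), (fun t => F (Function.update u i t)) ∈ ZP ρ) →
      (∀ v : Fin k → G, (∀ i, v i ∈ U') → F (fun i => h i * v i) = 0) →
      ∀ u : Fin k → G, (∀ i, u i ∈ U₀) → F u = 0 := by
    intro U' ho hle h hh F hF hv
    have key : ∀ s : Finset (Fin k), ∀ u : Fin k → G, (∀ i ∈ s, u i ∈ U₀) →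
        (∀ i, i ∉ s → (h i)⁻¹ * u i ∈ U') → F u = 0 := by
      intro s
      induction s using Finset.induction_on with
      | empty =>
        intro u _ hu
        have := hv (fun i => (h i)⁻¹ * u i) (fun i => hu i (Finset.notMem_empty i))
        simpa using this
      | insert a s ha ih =>
        intro u hu hu'
        have h1 := hone U' ho hle (h a) (hh a) _ (hF a u) (fun t ht => by
          apply ih
          · intro i hi
            have hia : i ≠ a := fun e => ha (e ▸ hi)
            rw [Function.update_of_ne hia]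
            exact hu i (Finset.mem_insert_of_mem hi)
          · intro i hi
            by_cases hia : i = a
            · subst hia
              rw [Function.update_self]
              simpa using ht
            · rw [Function.update_of_ne hia]
              exact hu' i (by simp [hia, hi])) (u a) (hu a (Finset.mem_insert_self a s))
        simpa using h1
    intro u hu
    exact key Finset.univ u (fun i _ => hu i) (fun i hi => absurd (Finset.mem_univ i) hi)
  refine ⟨U₀, hU₀n, hU₀o, fun g u hu => ?_⟩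
  obtain ⟨h, hh, V, hVo, hVle, hV⟩ := hw g U₀ hU₀o
  have hmain : ∀ u : Fin k → G, (∀ i, u i ∈ U₀) →
      ρ (FreeGroup.lift (fun i => g i * u i) w) = ρ (FreeGroup.lift (fun i => g i * h i) w) := by
    intro u hu
    apply Units.ext
    ext a b
    have := htwo V hVo hVle h hh
      (fun u => (ρ (FreeGroup.lift (fun i => g i * u i) w)).val a b -
        (ρ (FreeGroup.lift (fun i => g i * h i) w)).val a b)
      (fun i u => (ZP ρ).sub_mem (ZP_word ρ w g u i a b) (ZP_const ρ _))
      (fun v hv => by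
        show (ρ (FreeGroup.lift (fun i => g i * (h i * v i)) w)).val a b - _ = 0
        rw [hV v hv, sub_self]) u hu
    exact sub_eq_zero.mp this
  rw [hmain u hu]
  have h1 := hmain (fun _ => 1) (fun _ => U₀.one_mem)
  simp only [mul_one] at h1
  rw [← h1]

end Pool.Agent.Lib.MP_ae9e3a_al
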