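import Pool.Agent.Lib.MP_ae9e3a_al.AffRep
import Pool.Agent.Lib.MP_ae9e3a_al.Fc
import Pool.Agent.Lib.MP_ae9e3a_al.Zariski
import Pool.Agent.Lib.MP_ae9e3a_al.LinConcise
import Pool.Agent.Lib.MP_ae9e3a_al.Cent

set_option autoImplicit false

/-!
# VPP module CoreFG: the main step for a topologically finitely generated group

PROOF. `fc` gives `F₀`, `R`. `P' = P ⊓ centralizer F₀`: open, normal (`F₀` is normal), contains `D`
(`D` is abelian, `F₀ ≤ D`); `Setup p P' D`: `ProP` by `proP_of_le`, `Chn D P'` by `Chn.inter`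
(`C = P'`, open subgroups are closed; `D ⊓ P' = D`, `P ⊓ P' = P'`). `aff_rep` for `P'` gives `ρ`,
injective on `F₀`. `locC_of_small`, `zariski` give an open normal `U` (finite index:
`index_ne_zero_of_isOpen`), and `lin_concise`: `ρ '' verb w G` is finite. So
`verb w G ⊓ F₀` is finite (`ρ` is injective on `F₀`: `ρ x = ρ y → ρ (x⁻¹ y) = 1`). Every
`e ∈ verb w G ⊓ D` has open centraliser (`centralizer_open`), so `e ∈ r F₀` for some `r ∈ R`; two such
elements in the same coset `r F₀` differ by an element of `verb w G ⊓ F₀`: so `verb w G ⊓ D` is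
finite. With `hfin` (`verb w G ⊆ R' D`, `R'` finite), the same argument: `verb w G` is finite.
-/

namespace Pool.Agent.Lib.MP_ae9e3a_al

open Cardinal

universe u

/-- `verb w G` meets only finitely many cosets of `D`. -/
def FinMod {k : ℕ} (w : FreeGroup (Fin k)) {G : Type*} [Group G] (D : Subgroup G) : Prop :=
  ∃ R : Set G, R.Finite ∧ ∀ v ∈ verb w G, ∃ r ∈ R, r⁻¹ * v ∈ D

/-- A set covered by finitely many left cosets of `B`, such that it (a subgroup) meets `B` in a
finite set, is finite. -/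
theorem finite_of_cover {G : Type*} [Group G] (V B : Subgroup G) (R : Set G) (hR : R.Finite)
    (h : ∀ v ∈ V, ∃ r ∈ R, r⁻¹ * v ∈ B) (hf : ((V ⊓ B : Subgroup G) : Set G).Finite) :
    (V : Set G).Finite := by
  classical
  have h1 : (V : Set G) ⊆ ⋃ r ∈ R, {v | v ∈ V ∧ r⁻¹ * v ∈ B} := by
    intro v hv
    obtain ⟨r, hr, hrv⟩ := h v hv
    exact Set.mem_biUnion hr ⟨hv, hrv⟩
  refine (hR.biUnion ?_).subset h1
  intro r _
  by_cases he : ({v | v ∈ V ∧ r⁻¹ * v ∈ B} : Set G) = ∅
  · rw [he]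
    exact Set.finite_empty
  · obtain ⟨v₀, hv₀, hv₀'⟩ := Set.nonempty_iff_ne_empty.2 he
    refine (hf.image fun x => v₀ * x).subset ?_
    rintro v ⟨hv, hv'⟩
    refine ⟨v₀⁻¹ * v, ⟨V.mul_mem (V.inv_mem hv₀) hv, ?_⟩, by simp⟩
    have : v₀⁻¹ * v = (r⁻¹ * v₀)⁻¹ * (r⁻¹ * v) := by group
    rw [this]
    exact B.mul_mem (B.inv_mem hv₀') hv'

theorem core_fg {G : Type u} [Group G] [TopologicalSpace G] [IsTopologicalGroup G]
    [CompactSpace G] [T2Space G] {p : ℕ} (hp : p.Prime) {P D : Subgroup G} (hS : Setup p P D)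
    (t : Finset G) (ht : (Set.univ : Set G) ⊆ closure (Subgroup.closure (t : Set G) : Set G))
    {k : ℕ} (w : FreeGroup (Fin k)) (h : #(vals w G) < 𝔠) (hfin : FinMod w D) :
    (verb w G : Set G).Finite := by
  have : Fact p.Prime := ⟨hp⟩
  obtain ⟨F₀, hFn, hFc, hFD, hFo, htf, R, hRf, hR⟩ := fc hp hS t ht
  have hDC : D ≤ Subgroup.centralizer (F₀ : Set G) := by
    intro d hd
    rw [Subgroup.mem_centralizer_iff]
    intro x hx
    exact hS.abel x (hFD hx) d hd
  have hCn : (Subgroup.centralizer (F₀ : Set G)).Normal := by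
    have := hFn
    infer_instance
  set P' := P ⊓ Subgroup.centralizer (F₀ : Set G) with hP'
  have hPo : IsOpen (P' : Set G) := by
    rw [hP', Subgroup.coe_inf]
    exact hS.Po.inter hFo
  have hPn := hS.Pn
  have hP'n : P'.Normal := by
    rw [hP']
    infer_instance
  have hDP' : D ≤ P' := le_inf hS.AP hDC
  have hchn : Chn D P' := by
    have h1 := hS.chn.inter hS.basis (Subgroup.isClosed_of_isOpen P' hPo)
    rwa [inf_eq_left.2 hDP', inf_eq_right.2 (inf_le_left : P' ≤ P)] at h1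
  have hS' : Setup p P' D :=
    { basis := hS.basis
      Pn := hP'n
      Po := hPo
      Pp := proP_of_le hp hS.Pp inf_le_left
      An := hS.An
      Ac := hS.Ac
      AP := hDP'
      abel := hS.abel
      chn := hchn }
  obtain ⟨n, ρ, hρ⟩ := aff_rep hS' t ht hFn hFc hFD
    (fun g hg x hx => ((Subgroup.mem_centralizer_iff.1 hg.2) x hx).symm) htf
  obtain ⟨U, hUn, hUo, hU⟩ := zariski ρ w (locC_of_small hS.basis w h)
  have hlin := lin_concise ρ w U hUn (index_ne_zero_of_isOpen hUo) hU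
  have h1 : ((verb w G ⊓ F₀ : Subgroup G) : Set G).Finite := by
    apply Set.Finite.of_finite_image (f := ρ)
    · exact hlin.subset (Set.image_mono fun x hx => hx.1)
    · intro x hx y hy hxy
      have h2 : ρ (x⁻¹ * y) = 1 := by
        rw [map_mul, map_inv]
        have : ρ x = ρ y := hxy
        rw [this]
        simp
      have h3 := hρ (x⁻¹ * y) (F₀.mul_mem (F₀.inv_mem hx.2) hy.2) h2
      exact inv_mul_eq_one.1 h3
  have h2 : ((verb w G ⊓ D : Subgroup G) : Set G).Finite := by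
    apply finite_of_cover (verb w G ⊓ D) F₀ R hRf
    · intro v hv
      exact hR v hv.2 (centralizer_open w h v hv.1)
    · refine h1.subset ?_
      rintro x ⟨⟨hx, _⟩, hx'⟩
      exact ⟨hx, hx'⟩
  obtain ⟨R', hR'f, hR'⟩ := hfin
  exact finite_of_cover (verb w G) D R' hR'f hR' h2

end Pool.Agent.Lib.MP_ae9e3a_al
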