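import Mathlib

set_option autoImplicit false

/-!
# MP_ae9e3a_al (strong conciseness): definitions

Words, profinite groups, chains with procyclic factors, and the algebraic filtrations.
-/

namespace Pool.Agent.Lib.MP_ae9e3a_al

open Cardinal

/-! ### Words -/

/-- The set of the values of the word `w` in the group `G`. -/
def vals {k : ℕ} (w : FreeGroup (Fin k)) (G : Type*) [Group G] : Set G :=
  Set.range fun g : Fin k → G => FreeGroup.lift g w

/-- The verbal subgroup: the (abstract) subgroup generated by the values of `w`. -/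
def verb {k : ℕ} (w : FreeGroup (Fin k)) (G : Type*) [Group G] : Subgroup G :=
  Subgroup.closure (vals w G)

/-- The subgroup `D` is `w`-marginal (on the right): multiplying the arguments by elements of `D`
does not change the value of `w`. -/
def Marginal {k : ℕ} (w : FreeGroup (Fin k)) {G : Type*} [Group G] (D : Subgroup G) : Prop :=
  ∀ g d : Fin k → G, (∀ i, d i ∈ D) →
    FreeGroup.lift (fun i => g i * d i) w = FreeGroup.lift g w

/-! ### Profinite groups -/

/-- The open normal subgroups form a basis of neighbourhoods of `1`. -/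
def Basis1 (G : Type*) [Group G] [TopologicalSpace G] : Prop :=
  ∀ U ∈ nhds (1 : G), ∃ V : Subgroup G, V.Normal ∧ IsOpen (V : Set G) ∧ (V : Set G) ⊆ U

/-- `P` is a pro-`p` subgroup: its images in the finite quotients of `G` are `p`-groups. -/
def ProP (p : ℕ) {G : Type*} [Group G] [TopologicalSpace G] (P : Subgroup G) : Prop :=
  ∀ V : Subgroup G, V.Normal → IsOpen (V : Set G) → ∃ k, V.relIndex P = p ^ k

/-- `S` topologically generates `H` modulo `K`. -/
def TopGen {G : Type*} [Group G] [TopologicalSpace G] (K H : Subgroup G) (S : Finset G) : Prop :=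
  (∀ s ∈ S, s ∈ H) ∧
    (H : Set G) ⊆ closure ((K ⊔ Subgroup.closure (S : Set G) : Subgroup G) : Set G)

/-- `H / A` is polyprocyclic: there is a chain from `A` to `H` of closed subgroups, each normal in
the next one and with procyclic factors (the next one is topologically generated by the previous
one and one element). -/
inductive Chn {G : Type*} [Group G] [TopologicalSpace G] (A : Subgroup G) : Subgroup G → Prop
  | refl : IsClosed (A : Set G) → Chn A A
  | step (H K : Subgroup G) (x : G) : Chn A H → H ≤ K → IsClosed (K : Set G) →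
      (∀ h ∈ H, ∀ k ∈ K, k * h * k⁻¹ ∈ H) → x ∈ K →
      (K : Set G) ⊆ closure ((H ⊔ Subgroup.zpowers x : Subgroup G) : Set G) → Chn A K

/-- There is a series of length `m` from `A` to `P` of closed subgroups, normal in `G` and with
abelian factors. -/
def NSer {G : Type*} [Group G] [TopologicalSpace G] (A P : Subgroup G) (m : ℕ) : Prop :=
  ∃ N : ℕ → Subgroup G, N 0 = A ∧ N m = P ∧
    (∀ i ≤ m, (N i).Normal ∧ IsClosed (N i : Set G)) ∧
    ∀ i < m, N i ≤ N (i + 1) ∧ ∀ x ∈ N (i + 1), ∀ y ∈ N (i + 1), x * y * x⁻¹ * y⁻¹ ∈ N i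

/-- The word `w` is locally constant somewhere in every open coset: for all `g` and every open
subgroup `U` there are `h` in `U^k` and an open subgroup `V ≤ U` such that `w` is constant on
`g h V^k`. -/
def LocC {k : ℕ} (w : FreeGroup (Fin k)) (G : Type*) [Group G] [TopologicalSpace G] : Prop :=
  ∀ (g : Fin k → G) (U : Subgroup G), IsOpen (U : Set G) → ∃ h : Fin k → G, (∀ i, h i ∈ U) ∧
    ∃ V : Subgroup G, IsOpen (V : Set G) ∧ V ≤ U ∧ ∀ v : Fin k → G, (∀ i, v i ∈ V) →
      FreeGroup.lift (fun i => g i * (h i * v i)) w = FreeGroup.lift (fun i => g i * h i) w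

/-- The standing hypotheses: `P` is open, normal and pro-`p`; `A ≤ P` is closed, normal in `G` and
abelian; `P / A` is polyprocyclic. -/
structure Setup (p : ℕ) {G : Type*} [Group G] [TopologicalSpace G] (P A : Subgroup G) : Prop where
  basis : Basis1 G
  Pn : P.Normal
  Po : IsOpen (P : Set G)
  Pp : ProP p P
  An : A.Normal
  Ac : IsClosed (A : Set G)
  AP : A ≤ P
  abel : ∀ x ∈ A, ∀ y ∈ A, x * y = y * x
  chn : Chn A P

/-! ### Filtrations of a module

`G` acts on the additive group `V`; `H`, `A` are subgroups of `G`, `W` is a subgroup of `V`. -/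

section Filt

variable {G : Type*} [Group G] {V : Type*} [AddCommGroup V] [DistribMulAction G V]

/-- `mk p H W k = m ^ k W`, `m` the ideal generated by `p` and all `h - 1`, `h ∈ H`. -/
def mk (p : ℕ) (H : Subgroup G) (W : AddSubgroup V) : ℕ → AddSubgroup V
  | 0 => W
  | k + 1 => AddSubgroup.closure
      {y | ∃ x ∈ mk p H W k, y = p • x ∨ ∃ h ∈ H, y = h • x - x}

/-- `wk p H A W k d`: the products of `k` operators `p`, `h - 1` (`h ∈ H`), `a - 1` (`a ∈ A`) and
of further operators `a - 1`, such that `d` operators `a - 1` are marked (the operators after the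
first `k` ones are marked). -/
def wk (p : ℕ) (H A : Subgroup G) (W : AddSubgroup V) : ℕ → ℕ → AddSubgroup V
  | 0, 0 => W
  | 0, d + 1 => AddSubgroup.closure {y | ∃ x ∈ wk p H A W 0 d, ∃ a ∈ A, y = a • x - x}
  | k + 1, 0 => AddSubgroup.closure
      {y | ∃ x ∈ wk p H A W k 0, y = p • x ∨ ∃ h ∈ H, y = h • x - x}
  | k + 1, d + 1 => AddSubgroup.closure
      ({y | ∃ x ∈ wk p H A W k (d + 1), y = p • x ∨ ∃ h ∈ H, y = h • x - x} ∪
        {y | ∃ x ∈ wk p H A W k d, ∃ a ∈ A, y = a • x - x})

/-- `W` is stable under `H`. -/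
def Stab (H : Subgroup G) (W : AddSubgroup V) : Prop := ∀ h ∈ H, ∀ x ∈ W, h • x ∈ W

/-- The fixed points of `H`. -/
def Fix (H : Subgroup G) (V : Type*) [AddCommGroup V] [DistribMulAction G V] :
    AddSubgroup V where
  carrier := {x | ∀ h ∈ H, h • x = x}
  zero_mem' := fun _ _ => smul_zero _
  add_mem' := fun {a b} ha hb h hh => by rw [smul_add, ha h hh, hb h hh]
  neg_mem' := fun {a} ha h hh => by rw [smul_neg, ha h hh]

/-- The additive group generated by the operators of `G` on `V`. -/
def Lam (G : Type*) [Group G] (V : Type*) [AddCommGroup V] [DistribMulAction G V] :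
    AddSubgroup (V →+ V) :=
  AddSubgroup.closure (Set.range fun g : G => DistribSMul.toAddMonoidHom V g)

/-- `V` is a pro-`p` module over `H`: the open `H`-stable subgroups `V'` of `p`-power index such
that `H` acts on `V / V'` as a `p`-group form a basis of neighbourhoods of `0`. -/
def ModP (p : ℕ) (H : Subgroup G) (V : Type*) [AddCommGroup V] [TopologicalSpace V]
    [DistribMulAction G V] : Prop :=
  ∀ U ∈ nhds (0 : V), ∃ V' : AddSubgroup V, Stab H V' ∧ IsOpen (V' : Set V) ∧
    (∃ j, V'.index = p ^ j) ∧ (∀ h ∈ H, ∃ j, ∀ x : V, h ^ p ^ j • x - x ∈ V') ∧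
    (V' : Set V) ⊆ U

/-- `W` is topologically finitely generated as a module over `H`. -/
def FGen [TopologicalSpace V] (H : Subgroup G) (W : AddSubgroup V) : Prop :=
  ∃ S : Finset V, (∀ s ∈ S, s ∈ W) ∧ (W : Set V) ⊆
    closure (AddSubgroup.closure {y : V | ∃ h ∈ H, ∃ s ∈ S, y = h • s} : Set V)

end Filt

/-- The hypotheses on the group `H` modulo `K`: `H` is generated by the finite set `S`, its `p`-th
powers and `K`; the commutators are products of `p²`-th powers modulo `K`. -/
structure Good (p : ℕ) {G : Type*} [Group G] (K H : Subgroup G) (S : Finset G) : Prop where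
  le : K ≤ H
  sub : ∀ s ∈ S, s ∈ H
  gen : ∀ h ∈ H, h ∈ Subgroup.closure ((S : Set G) ∪ {y | ∃ z ∈ H, y = z ^ p} ∪ K)
  com : ∀ x ∈ H, ∀ y ∈ H, x * y * x⁻¹ * y⁻¹ ∈
    Subgroup.closure ({y | ∃ z ∈ H, y = z ^ (p ^ 2)} ∪ K)

/-- The hypotheses on `A ≤ H` modulo `K`. -/
structure GoodA (p : ℕ) {G : Type*} [Group G] (K A H : Subgroup G) (S T : Finset G) : Prop where
  good : Good p K H S
  le : K ≤ A
  leH : A ≤ H
  sub : ∀ s ∈ T, s ∈ A
  gen : ∀ h ∈ A, h ∈ Subgroup.closure ((T : Set G) ∪ {y | ∃ z ∈ A, y = z ^ p} ∪ K)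
  com : ∀ x ∈ H, ∀ y ∈ A, x * y * x⁻¹ * y⁻¹ ∈
    Subgroup.closure ({y | ∃ z ∈ A, y = z ^ (p ^ 2)} ∪ K)
  abel : ∀ x ∈ A, ∀ y ∈ A, x * y * x⁻¹ * y⁻¹ ∈ K

end Pool.Agent.Lib.MP_ae9e3a_al
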