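import Pool.Agent.Lib.MP_ae9e3a_al.ChnB

set_option autoImplicit false

/-!
# VPP module QSetup: passing to a quotient by a closed normal subgroup

PROOF. `f : G →* G'` continuous, surjective, `G` compact, `G'` Hausdorff; so `f` is open (a
surjective continuous homomorphism of compact Hausdorff groups; `IsOpenQuotientMap` or: `f` is a
closed map, hence a quotient map, and a quotient homomorphism of groups is open:
`f ⁻¹' (f '' U) = U * ker f` is open).
* `basis1_map`: `U ∈ nhds 1` in `G'`; `f ⁻¹' U` contains an open normal `V`; `V.map f` is open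
  normal (`Subgroup.Normal.map`), contained in `U`.
* `proP_map`: `V'` open normal in `G'`: `V'.relIndex (P.map f) = (V'.comap f).relIndex P`
  (`Subgroup.relIndex_comap`-type; the elements of `P.map f` are the `f x`).
* `Setup.map`: `(N.map f)` closed (`isClosed_map`), normal; abelian because `[N, N] ≤ ker f`;
  `Chn (N.map f) (P.map f)`: `Chn.sup` with `B = N` gives `Chn N P` (`A ⊔ N = N`, `P ⊔ N = P`), then
  `Chn.map`.
* `NSer.map`: images of the series.
* `map_vals`: `vals w G' = f '' vals w G` (lift the arguments; `FreeGroup.lift` and `f`), so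
  `#(vals w G') ≤ #(vals w G)` (both in the same universe here) and `verb w G' = (verb w G).map f`.
-/

namespace Pool.Agent.Lib.MP_ae9e3a_al

open Cardinal

universe u

variable {G G' : Type u} [Group G] [TopologicalSpace G] [IsTopologicalGroup G]
  [CompactSpace G] [T2Space G] [Group G'] [TopologicalSpace G'] [IsTopologicalGroup G']
  [CompactSpace G'] [T2Space G']

theorem isOpenMap_of_surj (f : G →* G') (hf : Continuous f) (hs : Function.Surjective f) :
    IsOpenMap f :=
  MonoidHom.isOpenMap_of_sigmaCompact f hs hf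

theorem basis1_map (f : G →* G') (hf : Continuous f) (hs : Function.Surjective f)
    (hb : Basis1 G) : Basis1 G' := by
  intro U hU
  have h1 : f ⁻¹' U ∈ nhds (1 : G) := by
    refine hf.continuousAt.preimage_mem_nhds ?_
    rw [map_one]
    exact hU
  obtain ⟨V, hV, hVo, hVU⟩ := hb _ h1
  refine ⟨V.map f, hV.map f hs, ?_, ?_⟩
  · rw [Subgroup.coe_map]
    exact isOpenMap_of_surj f hf hs _ hVo
  · rw [Subgroup.coe_map]
    rintro _ ⟨x, hx, rfl⟩
    exact hVU hx

theorem proP_map (f : G →* G') (hf : Continuous f) (hs : Function.Surjective f) {p : ℕ}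
    {P : Subgroup G} (hP : ProP p P) : ProP p (P.map f) := by
  intro V hV hVo
  obtain ⟨k, hk⟩ := hP (V.comap f) (hV.comap f) (by
    rw [Subgroup.coe_comap]
    exact hVo.preimage hf)
  exact ⟨k, by rw [← hk, Subgroup.relIndex_comap]⟩

theorem Setup.map (f : G →* G') (hf : Continuous f) (hs : Function.Surjective f) {p : ℕ}
    {P A N : Subgroup G} (hS : Setup p P A) (hN : N.Normal) (hNc : IsClosed (N : Set G))
    (hAN : A ≤ N) (hNP : N ≤ P) (hab : ∀ x ∈ N, ∀ y ∈ N, f x * f y = f y * f x) :
    Setup p (P.map f) (N.map f) := by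
  have hch : Chn N P := by
    have h1 := hS.chn.sup hN hNc
    rwa [sup_eq_right.2 hAN, sup_eq_left.2 hNP] at h1
  exact
    { basis := basis1_map f hf hs hS.basis
      Pn := hS.Pn.map f hs
      Po := by
        rw [Subgroup.coe_map]
        exact isOpenMap_of_surj f hf hs _ hS.Po
      Pp := proP_map f hf hs hS.Pp
      An := hN.map f hs
      Ac := isClosed_map f hf hNc
      AP := Subgroup.map_mono hNP
      abel := by
        rintro _ ⟨x, hx, rfl⟩ _ ⟨y, hy, rfl⟩
        exact hab x hx y hy
      chn := hch.map f hf }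

theorem map_vals (f : G →* G') (hs : Function.Surjective f) {k : ℕ} (w : FreeGroup (Fin k)) :
    vals w G' = f '' vals w G ∧ verb w G' = (verb w G).map f ∧ #(vals w G') ≤ #(vals w G) := by
  have h0 : ∀ g : Fin k → G, f (FreeGroup.lift g w) = FreeGroup.lift (fun i => f (g i)) w := by
    intro g
    have h1 : f.comp (FreeGroup.lift g) = FreeGroup.lift (fun i => f (g i)) := by
      ext i
      simp
    rw [← h1]
    rfl
  have h1 : vals w G' = f '' vals w G := by
    ext y
    constructor
    · rintro ⟨g', rfl⟩
      choose g hg using fun i => hs (g' i)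
      refine ⟨FreeGroup.lift g w, ⟨g, rfl⟩, ?_⟩
      rw [h0]
      congr 1
      congr 1
      funext i
      exact hg i
    · rintro ⟨_, ⟨g, rfl⟩, rfl⟩
      exact ⟨fun i => f (g i), (h0 g).symm⟩
  refine ⟨h1, ?_, ?_⟩
  · unfold verb
    rw [h1, MonoidHom.map_closure]
  · rw [h1]
    exact Cardinal.mk_image_le

end Pool.Agent.Lib.MP_ae9e3a_al
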