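import Pool.Agent.Lib.MP_ae9e3a_al.Core
import Pool.Agent.Lib.MP_ae9e3a_al.QSetup
import Pool.Agent.Lib.MP_ae9e3a_al.NSerEx

set_option autoImplicit false

/-!
# VPP module Induct: induction on the length of the normal series

PROOF. Induction on `m`, for all `G`, `P`, `A` with `NSer A P m`. By `core` it is enough to show
`FinMod w A`. `m = 0`: `A = P` is open, so of finite index: take for `R` representatives of its left
cosets. `m + 1`: let `N` be the series, `N₁ = N 1`. The group `G ⧸ A` (with the quotient topology: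
`QuotientGroup` instances; compact; Hausdorff since `A` is closed) and `f = QuotientGroup.mk' A`:
`Setup p (P.map f) (N₁.map f)` by `Setup.map` (`f x * f y = f y * f x` because
`x y x⁻¹ y⁻¹ ∈ N 0 = A`), and `NSer (N₁.map f) (P.map f) m` (the images of `N (i+1)`; closed by
`isClosed_map`); `#(vals w (G ⧸ A)) < 𝔠` by `map_vals`. So `verb w (G ⧸ A)` is finite by
induction, and `FinMod w A`: choose one preimage in `G` of each of its elements.
-/

namespace Pool.Agent.Lib.MP_ae9e3a_al

open Cardinal

universe u

theorem induct (p : ℕ) (hp : p.Prime) {k : ℕ} (w : FreeGroup (Fin k)) (m : ℕ) :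
    ∀ (G : Type u) [Group G] [TopologicalSpace G] [IsTopologicalGroup G] [CompactSpace G]
      [T2Space G] (P A : Subgroup G), Setup p P A → NSer A P m → #(vals w G) < 𝔠 →
      (verb w G : Set G).Finite := by
  induction m with
  | zero =>
    intro G _ _ _ _ _ P A hS hN h
    apply core hp hS w h
    obtain ⟨N, hN0, hNm, _, _⟩ := hN
    have hAP : A = P := by rw [← hN0, hNm]
    have hAo : IsOpen (A : Set G) := by rw [hAP]; exact hS.Po
    have hi : A.index ≠ 0 := index_ne_zero_of_isOpen hAo
    have hfin : Finite (G ⧸ A) := Nat.finite_of_card_ne_zero hi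
    refine ⟨Set.range (Quotient.out : G ⧸ A → G), Set.finite_range _, ?_⟩
    intro v _
    refine ⟨Quotient.out (v : G ⧸ A), ⟨_, rfl⟩, ?_⟩
    have : ((Quotient.out (v : G ⧸ A) : G) : G ⧸ A) = (v : G ⧸ A) := QuotientGroup.out_eq' _
    exact QuotientGroup.eq.1 this
  | succ m ih =>
    intro G _ _ _ _ _ P A hS hN h
    apply core hp hS w h
    obtain ⟨N, hN0, hNm, hN1, hN2⟩ := hN
    have hAn := hS.An
    have hAc : IsClosed (A : Set G) := hS.Ac
    set f := QuotientGroup.mk' A with hf
    have hfc : Continuous f := QuotientGroup.continuous_mk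
    have hfs : Function.Surjective f := QuotientGroup.mk'_surjective A
    have hmono : ∀ i j, i ≤ j → j ≤ m + 1 → N i ≤ N j := by
      intro i j hij hj
      induction j with
      | zero =>
        have : i = 0 := by omega
        subst this
        exact le_refl _
      | succ j ihj =>
        rcases Nat.lt_or_ge i (j + 1) with h1 | h1
        · exact (ihj (by omega) (by omega)).trans (hN2 j (by omega)).1
        · have : i = j + 1 := by omega
          subst this
          exact le_refl _
    have hA1 : A ≤ N 1 := by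
      rw [← hN0]
      exact hmono 0 1 (by omega) (by omega)
    have h1P : N 1 ≤ P := by
      rw [← hNm]
      exact hmono 1 (m + 1) (by omega) (by omega)
    have hab : ∀ x ∈ N 1, ∀ y ∈ N 1, f x * f y = f y * f x := by
      intro x hx y hy
      have h1 := (hN2 0 (by omega)).2 x hx y hy
      rw [hN0] at h1
      have h2 : f (x * y * x⁻¹ * y⁻¹) = 1 := (QuotientGroup.eq_one_iff _).2 h1
      rw [map_mul, map_mul, map_mul, map_inv, map_inv] at h2
      have h3 : f x * f y * (f x)⁻¹ * (f y)⁻¹ = 1 := h2
      have h4 := mul_inv_eq_one.1 h3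
      have h5 := mul_inv_eq_iff_eq_mul.1 h4
      exact h5
    have hS' : Setup p (P.map f) ((N 1).map f) :=
      Setup.map f hfc hfs hS (hN1 1 (by omega)).1 (hN1 1 (by omega)).2 hA1 h1P hab
    have hN' : NSer ((N 1).map f) (P.map f) m := by
      refine ⟨fun i => (N (i + 1)).map f, rfl, ?_, ?_, ?_⟩
      · show (N (m + 1)).map f = P.map f
        rw [hNm]
      · intro i hi
        exact ⟨(hN1 (i + 1) (by omega)).1.map f hfs, isClosed_map f hfc (hN1 (i + 1) (by omega)).2⟩
      · intro i hi
        refine ⟨Subgroup.map_mono (hN2 (i + 1) (by omega)).1, ?_⟩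
        rintro _ ⟨x, hx, rfl⟩ _ ⟨y, hy, rfl⟩
        refine ⟨x * y * x⁻¹ * y⁻¹, (hN2 (i + 1) (by omega)).2 x hx y hy, ?_⟩
        simp
    obtain ⟨hv1, hv2, hv3⟩ := map_vals f hfs w
    have hfin : (verb w (G ⧸ A) : Set (G ⧸ A)).Finite :=
      ih (G ⧸ A) (P.map f) ((N 1).map f) hS' hN' (lt_of_le_of_lt hv3 h)
    refine ⟨Function.surjInv hfs '' (verb w (G ⧸ A) : Set (G ⧸ A)), hfin.image _, ?_⟩
    intro v hv
    refine ⟨Function.surjInv hfs (f v), ⟨f v, ?_, rfl⟩, ?_⟩
    · rw [hv2]
      exact ⟨v, hv, rfl⟩
    · have : f (Function.surjInv hfs (f v)) = f v := Function.surjInv_eq hfs (f v)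
      exact QuotientGroup.eq.1 this

theorem strongly_concise_of_setup {p : ℕ} (hp : p.Prime) {k : ℕ} (w : FreeGroup (Fin k))
    {G : Type u} [Group G] [TopologicalSpace G] [IsTopologicalGroup G] [CompactSpace G]
    [T2Space G] {P A : Subgroup G} (hS : Setup p P A) (h : #(vals w G) < 𝔠) :
    (verb w G : Set G).Finite := by
  obtain ⟨m, hm⟩ := Chn.nser hS.chn hS.An hS.Pn
  exact induct p hp w m G P A hS hm h

end Pool.Agent.Lib.MP_ae9e3a_al
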