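import Pool.Agent.Lib.MP_ae9e3a_al.Defs

set_option autoImplicit false

/-!
# VPP module Supp: finite groups with a marginal subgroup

PROOF. Let `Y` be a subgroup of `Γ` of minimal cardinality with `Y ⊔ U = ⊤` (`U` is normal, so
`Y U = Γ`). Then `U ∩ Y` is contained in every maximal subgroup `M` of `Y` (otherwise
`M (U ∩ Y) = Y`, so `M U = Y U = Γ`, against the minimality), so `U.subgroupOf Y ≤ frattini Y`,
hence `U.subgroupOf Y` is nilpotent (`frattini_nilpotent`, subgroups of nilpotent groups are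
nilpotent). CLAIM: `ℓ` does not divide `Nat.card Y`. The index of `U.subgroupOf Y` in `Y` divides
(equals) `U.index`, prime to `ℓ`. Let `L` be the Sylow `ℓ`-subgroup of the nilpotent normal
subgroup `U ∩ Y` of `Y`; it is characteristic there (nilpotent: all Sylow subgroups are normal,
`Sylow.normal_of_...`, `isNilpotent_of_finite_tfae`), so it is normal in `Y`, and its index in `Y`
is prime to `ℓ` (it is `[Y : U ∩ Y]` times the `ℓ'`-part of `|U ∩ Y|`). By Schur-Zassenhaus
(`Subgroup.exists_right_complement'_of_coprime`) `L` has a complement `C` in `Y`; then `C U ⊇ C L =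
Y`... so `C U = Γ` (`L ≤ U`), and `C = Y` by minimality, `L = 1`, and `ℓ ∤ |Y|`.
Every value `w(g)` is a value of `w` in `Y`: `g i = y i * u i`, `w(g) = w(y)` by marginality.
So `verb w Γ ≤ Y`, `z ∈ Y`, `z ^ (Nat.card Y) = 1`, `z ^ ℓ ^ j = 1`, coprime exponents: `z = 1`.
-/

namespace Pool.Agent.Lib.MP_ae9e3a_al

/-- A minimal supplement to a normal subgroup of index prime to `ℓ` has order prime to `ℓ`. -/
private theorem supp_aux {Y : Type*} [Group Y] [Finite Y] (N : Subgroup Y) [N.Normal] {ℓ : ℕ}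
    (hℓ : ℓ.Prime) (hi : ¬ ℓ ∣ N.index) (hmin : ∀ C : Subgroup Y, C ⊔ N = ⊤ → C = ⊤) :
    ¬ ℓ ∣ Nat.card Y := by
  have : Fact ℓ.Prime := ⟨hℓ⟩
  obtain ⟨P⟩ : Nonempty (Sylow ℓ N) := inferInstance
  set L : Subgroup Y := (P : Subgroup N).map N.subtype with hL
  have hLN : L ≤ N := by
    rw [hL]
    exact Subgroup.map_subtype_le _
  have h1 : Subgroup.normalizer (L : Set Y) = ⊤ := hmin _ P.normalizer_sup_eq_top
  have hLn : L.Normal := Subgroup.normalizer_eq_top_iff.mp h1
  have hind : ¬ ℓ ∣ L.index := by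
    rw [← Subgroup.relIndex_mul_index hLN, hℓ.dvd_mul]
    rintro (h | h)
    · have h2 : L.relIndex N = (P : Subgroup N).index := by
        rw [Subgroup.relIndex, hL, Subgroup.subgroupOf,
          Subgroup.comap_map_eq_self_of_injective N.subtype_injective]
      rw [h2] at h
      exact P.not_dvd_index h
    · exact hi h
  have hcard : Nat.Coprime (Nat.card L) L.index := by
    have h3 : Nat.card L = Nat.card (P : Subgroup N) :=
      Subgroup.card_map_of_injective N.subtype_injective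
    obtain ⟨n, hn⟩ := IsPGroup.iff_card.mp P.isPGroup'
    rw [h3, hn]
    exact Nat.Coprime.pow_left n ((Nat.Prime.coprime_iff_not_dvd hℓ).mpr hind)
  obtain ⟨C, hC⟩ := Subgroup.exists_right_complement'_of_coprime hcard
  have hCtop : C = ⊤ := by
    apply hmin
    rw [← top_le_iff, ← hC.sup_eq_top, sup_comm]
    exact sup_le_sup_left hLN C
  have hLbot : L = ⊥ := by
    have h4 := hC.disjoint
    rw [hCtop, disjoint_top] at h4
    exact h4
  intro h
  rw [← L.card_mul_index, hLbot, Subgroup.card_bot, one_mul] at h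
  rw [hLbot] at hind
  exact hind h

theorem supp {Γ : Type*} [Group Γ] [Finite Γ] {k : ℕ} (w : FreeGroup (Fin k)) (U : Subgroup Γ)
    (hn : U.Normal) (hU : Marginal w U) {ℓ : ℕ} (hℓ : ℓ.Prime) (hi : ¬ ℓ ∣ U.index) (z : Γ)
    (hz : z ∈ verb w Γ) (ho : ∃ j, z ^ ℓ ^ j = 1) : z = 1 := by
  classical
  -- a supplement of minimal order
  have hex : ∃ n, ∃ Y : Subgroup Γ, Y ⊔ U = ⊤ ∧ Nat.card Y = n :=
    ⟨_, ⊤, top_sup_eq _, rfl⟩
  obtain ⟨Y, hY, hcardY⟩ := Nat.find_spec hex
  have hmin : ∀ Z : Subgroup Γ, Z ⊔ U = ⊤ → Nat.card Y ≤ Nat.card Z := by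
    intro Z hZ
    rw [hcardY]
    exact Nat.find_le ⟨Z, hZ, rfl⟩
  have hYcard : ¬ ℓ ∣ Nat.card Y := by
    refine supp_aux (U.subgroupOf Y) hℓ ?_ ?_
    · intro h
      exact hi (h.trans (Subgroup.relIndex_dvd_index_of_normal U Y))
    · intro C hC
      have h1 : C.map Y.subtype ⊔ U = ⊤ := by
        rw [← top_le_iff, ← hY]
        refine sup_le ?_ le_sup_right
        have h2 : (C ⊔ U.subgroupOf Y).map Y.subtype = Y := by
          rw [hC, ← MonoidHom.range_eq_map, Subgroup.range_subtype]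
        refine h2.symm.le.trans ?_
        rw [Subgroup.map_sup, Subgroup.subgroupOf_map_subtype]
        exact sup_le_sup_left inf_le_left _
      have h3 := hmin _ h1
      rw [Subgroup.card_map_of_injective Y.subtype_injective] at h3
      exact Subgroup.eq_top_of_le_card C h3
  -- the values of `w` lie in `Y`
  have hval : verb w Γ ≤ Y := by
    refine (Subgroup.closure_le Y).mpr ?_
    rintro _ ⟨g, rfl⟩
    have hg : ∀ i, ∃ y ∈ Y, ∃ u ∈ U, y * u = g i := by
      intro i
      have h4 : g i ∈ Y ⊔ U := by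
        rw [hY]
        exact Subgroup.mem_top _
      rw [← SetLike.mem_coe, Subgroup.mul_normal, Set.mem_mul] at h4
      obtain ⟨y, hy, u, hu, h5⟩ := h4
      exact ⟨y, hy, u, hu, h5⟩
    choose y hy u hu hyu using hg
    have h6 : FreeGroup.lift g w = FreeGroup.lift y w := by
      rw [← hU y u hu]
      congr 2
      funext i
      exact (hyu i).symm
    show FreeGroup.lift g w ∈ Y
    rw [h6]
    have h7 : (FreeGroup.lift y : FreeGroup (Fin k) →* Γ) =
        Y.subtype.comp (FreeGroup.lift fun i => (⟨y i, hy i⟩ : Y)) := by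
      ext i
      simp
    rw [h7]
    exact SetLike.coe_mem _
  obtain ⟨j, hj⟩ := ho
  have h8 : orderOf z ∣ ℓ ^ j := orderOf_dvd_of_pow_eq_one hj
  have h9 : orderOf z ∣ Nat.card Y := Subgroup.orderOf_dvd_natCard Y (hval hz)
  have h10 : Nat.Coprime (ℓ ^ j) (Nat.card Y) :=
    Nat.Coprime.pow_left j ((Nat.Prime.coprime_iff_not_dvd hℓ).mpr hYcard)
  exact orderOf_eq_one_iff.mp (Nat.eq_one_of_dvd_coprimes h10 h8 h9)

end Pool.Agent.Lib.MP_ae9e3a_al
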