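import Pool.Agent.Lib.MP_ae9e3a_al.N2
import Pool.Agent.Lib.MP_ae9e3a_al.Cent
import Pool.Agent.Lib.MP_ae9e3a_al.Supp

set_option autoImplicit false

/-!
# VPP module N4: end of the reduction to the virtually pro-`p` case

PROOF. Let `S` be the finite set of the primes in `hm` and the prime divisors of `P.index`
(`index_ne_zero_of_isOpen`). Let `R` be the normal subgroup with carrier `PSub P Sᶜ`, and `R_p`
(`p ∈ S`) the one with carrier `PSub P {p}ᶜ`.
(1) `⋂_{p ∈ S} R_p = R` (inside `P`; if `S` is empty, `R = P`... then use `FinMod w P` from the finite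
index; or add the prime `2` to `S` so that `S` is not empty): if for every `p ∈ S` some
`{p}ᶜ`-number `n_p` has `x ^ n_p ∈ V`, the gcd of the `n_p`, `p ∈ S`, is an `Sᶜ`-number `n` with
`x ^ n ∈ V`.
(2) `verb w G` meets finitely many cosets of `R`: by `hq` the elements of `verb w G` lie in finitely many
cosets of each `R_p`, `p ∈ S`; if `v⁻¹ v' ∈ R_p` for all `p ∈ S` then `v⁻¹ v' ∈ R`.
(3) `R` is marginal: let `d i ∈ R`, `V` open normal; let `F` be the finite set of the primes dividing
`V.index` and not in `S`. Decompose `d i = a₁ ⋯ a_r * b`, `a_j ∈ PSub P {p_j}`, `F = {p_1, ..., p_r}`,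
`b ∈ PSub P (Sᶜ \ F)` (`psub_decomp` repeatedly). `b ∈ V`: some `b ^ n ∈ V` with `n` an
`(Sᶜ \ F)`-number, prime to `V.index`, and `b ^ V.index ∈ V`. So modulo `V`:
`w(g d) ≡ w(g a₁ ⋯ a_r) = w(g)` (marginality of the `PSub P {p_j}`, `p_j ∉ S`, `r` times). As
`V` is arbitrary, `w(g d) = w(g)`.
(4) `verb w G ⊓ R = 1`: let `z` be in it, `V` open normal, `Γ = G ⧸ V` finite, `f` the quotient map,
`U = R.map f`: normal, `Marginal w U` (lift the arguments), `f z ∈ verb w Γ`. If `f z ≠ 1`, let `ℓ` be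
a prime divisor of its order and `f z ^ j` a power of order `ℓ`. As `z ∈ R`, the order of `f z` is an
`Sᶜ`-number, `ℓ ∉ S`. `ℓ ∤ U.index`: `U.index = (P.map f).index * U.relIndex (P.map f)`; the first
divides `P.index`, whose prime divisors are in `S`; the second is the order of the quotient
`P.map f / U`, in which the image of `x = a b` (`a ∈ PSub P S`, `b ∈ PSub P Sᶜ = R`, `psub_univ`,
`psub_decomp`) is the image of `a`, of order an `S`-number; by Cauchy (`exists_prime_orderOf_dvd_card`)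
`ℓ` does not divide it. By `supp`, `f z ^ j = 1`, a contradiction. So `z ∈ V` for all `V`, `z = 1`.
(5) By (2) and (4) `verb w G` is finite.
-/

namespace Pool.Agent.Lib.MP_ae9e3a_al

private theorem n4_eq_one {G : Type*} [Group G] [TopologicalSpace G] [IsTopologicalGroup G]
    [CompactSpace G] [T2Space G] (hb : Basis1 G) {z : G}
    (h : ∀ V : Subgroup G, V.Normal → IsOpen (V : Set G) → z ∈ V) : z = 1 := by
  have h1 := mem_of_forall hb (C := {(1 : G)}) isClosed_singleton z (by
    intro V hVn hVo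
    exact ⟨1, rfl, by rw [inv_one, one_mul]; exact h V hVn hVo⟩)
  exact h1

private theorem n4_pow_mem_iff {G : Type*} [Group G] (V : Subgroup G) [V.Normal] (x : G) (n : ℕ) :
    x ^ n ∈ V ↔ (QuotientGroup.mk' V x) ^ n = 1 := by
  rw [← map_pow]
  exact (QuotientGroup.eq_one_iff _).symm

/-- removing finitely many primes -/
private theorem n4_remove {G : Type*} [Group G] [TopologicalSpace G] [IsTopologicalGroup G]
    [CompactSpace G] [T2Space G] (hb : Basis1 G) {P : Subgroup G} (hPc : IsClosed (P : Set G))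
    (hP : PNilp P) {k : ℕ} (w : FreeGroup (Fin k)) (T : Set ℕ) (F : Finset ℕ)
    (hF : ∀ p ∈ F, ∀ g d : Fin k → G, (∀ i, d i ∈ PSub P {p}) →
      FreeGroup.lift (fun i => g i * d i) w = FreeGroup.lift g w)
    (g d : Fin k → G) (hd : ∀ i, d i ∈ PSub P T) :
    ∃ e : Fin k → G, (∀ i, e i ∈ PSub P (T \ F)) ∧
      FreeGroup.lift (fun i => g i * d i) w = FreeGroup.lift (fun i => g i * e i) w := by
  classical
  induction F using Finset.induction_on with
  | empty =>
    refine ⟨d, ?_, rfl⟩
    simpa using hd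
  | insert p F hp ih =>
    obtain ⟨e, he, hw⟩ := ih (fun q hq => hF q (Finset.mem_insert_of_mem hq))
    have h1 : ∀ i, ∃ a ∈ PSub P ((T \ F) ∩ {p}), ∃ b ∈ PSub P ((T \ F) \ {p}), e i = a * b :=
      fun i => psub_decomp hb hPc {p} (T \ F) (e i) (he i)
    choose a ha b hbb hab using h1
    have ha' : ∀ i, a i ∈ PSub P {p} := fun i => psub_mono (fun q _ hq => hq.2) (ha i)
    have hb' : ∀ i, b i ∈ PSub P (T \ ((insert p F : Finset ℕ) : Set ℕ)) := by
      intro i
      apply psub_mono _ (hbb i)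
      intro q _ hq
      refine ⟨hq.1.1, fun h => ?_⟩
      rcases Finset.mem_insert.1 (Finset.mem_coe.1 h) with h | h
      · exact hq.2 h
      · exact hq.1.2 h
    refine ⟨b, hb', ?_⟩
    have h2 := hF p (Finset.mem_insert_self p F) (fun i => g i * b i) a ha'
    rw [hw, ← h2]
    congr 2
    funext i
    rw [mul_assoc, hab i]
    congr 1
    exact psub_comm hb hP (fun q _ h1 h2 => h2.2 h1) (ha' i) (hbb i)

theorem pronil_finish {G : Type*} [Group G] [TopologicalSpace G] [IsTopologicalGroup G]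
    [CompactSpace G] [T2Space G] (hb : Basis1 G) {P : Subgroup G} (hPn : P.Normal)
    (hPo : IsOpen (P : Set G)) (hP : PNilp P) {k : ℕ} (w : FreeGroup (Fin k))
    (hm : {p : ℕ | p.Prime ∧ ¬ ∀ g d : Fin k → G, (∀ i, d i ∈ PSub P {p}) →
      FreeGroup.lift (fun i => g i * d i) w = FreeGroup.lift g w}.Finite)
    (hq : ∀ p : ℕ, p.Prime → ∀ R : Subgroup G, R.Normal → (R : Set G) = PSub P {p}ᶜ →
      ∃ X : Set G, X.Finite ∧ ∀ v ∈ verb w G, ∃ x ∈ X, x⁻¹ * v ∈ R) :
    (verb w G : Set G).Finite := by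
  classical
  have hPc : IsClosed (P : Set G) := P.isClosed_of_isOpen hPo
  let S : Finset ℕ := (hm.toFinset ∪ P.index.primeFactors) ∪ {2}
  have hSprime : ∀ p ∈ S, p.Prime := by
    intro p hp
    rcases Finset.mem_union.1 hp with hp | hp
    · rcases Finset.mem_union.1 hp with hp | hp
      · exact ((Set.Finite.mem_toFinset hm).1 hp).1
      · exact Nat.prime_of_mem_primeFactors hp
    · rw [Finset.mem_singleton.1 hp]; exact Nat.prime_two
  have hS2 : 2 ∈ S := Finset.mem_union_right _ (Finset.mem_singleton_self 2)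
  have hSind : ∀ q : ℕ, q.Prime → q ∣ P.index → q ∈ S := by
    intro q hq' hd
    refine Finset.mem_union_left _ (Finset.mem_union_right _ ?_)
    exact Nat.mem_primeFactors.2 ⟨hq', hd, index_ne_zero_of_isOpen hPo⟩
  have hSm : ∀ p : ℕ, p.Prime → p ∉ S → ∀ g d : Fin k → G, (∀ i, d i ∈ PSub P {p}) →
      FreeGroup.lift (fun i => g i * d i) w = FreeGroup.lift g w := by
    intro p hp hpS
    by_contra hcon
    exact hpS (Finset.mem_union_left _ (Finset.mem_union_left _
      ((Set.Finite.mem_toFinset hm).2 ⟨hp, hcon⟩)))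
  let T : Set ℕ := ((S : Set ℕ))ᶜ
  obtain ⟨R, hR, hRn, hRc⟩ := psub_subgroup hPn hPc hP T
  have hRmem : ∀ x, x ∈ R ↔ x ∈ PSub P T := fun x => by rw [← hR]; rfl
  -- (1)
  have key1 : ∀ x : G, (∀ p ∈ S, x ∈ PSub P {p}ᶜ) → x ∈ R := by
    intro x hx
    rw [hRmem]
    refine ⟨(hx 2 hS2).1, fun V hVn hVo => ?_⟩
    have h1 : ∀ p ∈ S, ∃ n, PiNum {p}ᶜ n ∧ x ^ n ∈ V := fun p hp => (hx p hp).2 V hVn hVo
    choose! n hn hxn using h1
    refine ⟨S.gcd n, ⟨?_, ?_⟩, ?_⟩
    · intro h0
      rw [Finset.gcd_eq_zero_iff] at h0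
      exact (hn 2 hS2).1 (h0 2 hS2)
    · intro q hq' hd hqS
      exact (hn q hqS).2 q hq' (hd.trans (Finset.gcd_dvd hqS)) rfl
    · rw [n4_pow_mem_iff]
      apply orderOf_dvd_iff_pow_eq_one.1
      apply Finset.dvd_gcd
      intro p hp
      apply orderOf_dvd_of_pow_eq_one
      rw [← n4_pow_mem_iff]
      exact hxn p hp
  -- (3)
  have hmarg : Marginal w R := by
    intro g d hd
    have h1 : (FreeGroup.lift (fun i => g i * d i) w)⁻¹ * FreeGroup.lift g w = 1 := by
      apply n4_eq_one hb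
      intro V hVn hVo
      let F : Finset ℕ := V.index.primeFactors \ S
      obtain ⟨e, he, hw⟩ := n4_remove hb hPc hP w T F (by
        intro p hp
        rw [Finset.mem_sdiff] at hp
        exact hSm p (Nat.prime_of_mem_primeFactors hp.1) hp.2) g d (fun i => (hRmem _).1 (hd i))
      have heV : ∀ i, e i ∈ V := by
        intro i
        obtain ⟨n, hn, hen⟩ := (he i).2 V hVn hVo
        have h2 : (e i) ^ V.index ∈ V := V.pow_index_mem (e i)
        have hc : Nat.Coprime n V.index := by
          rw [Nat.coprime_iff_gcd_eq_one]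
          by_contra h
          obtain ⟨q, hq', hqd⟩ := Nat.exists_prime_and_dvd h
          have h3 := hn.2 q hq' (hqd.trans (Nat.gcd_dvd_left _ _))
          apply h3.2
          exact Finset.mem_coe.2 (Finset.mem_sdiff.2 ⟨Nat.mem_primeFactors.2
            ⟨hq', hqd.trans (Nat.gcd_dvd_right _ _), index_ne_zero_of_isOpen hVo⟩, h3.1⟩)
        rw [n4_pow_mem_iff] at hen h2
        have h4 := pow_gcd_eq_one.2 ⟨hen, h2⟩
        rw [hc, pow_one] at h4
        exact (QuotientGroup.eq_one_iff _).1 h4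
      have h5 : QuotientGroup.mk' V (FreeGroup.lift (fun i => g i * d i) w)
          = QuotientGroup.mk' V (FreeGroup.lift g w) := by
        rw [hw, map_lift, map_lift]
        congr 2
        funext i
        have h6 : QuotientGroup.mk' V (e i) = 1 := (QuotientGroup.eq_one_iff _).2 (heV i)
        rw [map_mul, h6, mul_one]
      have h7 : QuotientGroup.mk' V ((FreeGroup.lift (fun i => g i * d i) w)⁻¹ * FreeGroup.lift g w) = 1 := by
        rw [map_mul, map_inv, h5, inv_mul_cancel]
      exact (QuotientGroup.eq_one_iff _).1 h7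
    exact inv_mul_eq_one.1 h1
  -- (4)
  have key4 : ∀ z ∈ verb w G, z ∈ R → z = 1 := by
    intro z hz hzR
    apply n4_eq_one hb
    intro V hVn hVo
    have := Subgroup.quotient_finite_of_isOpen V hVo
    let f := QuotientGroup.mk' V
    have hfs : Function.Surjective f := QuotientGroup.mk'_surjective V
    let U : Subgroup (G ⧸ V) := R.map f
    have hUn : U.Normal := hRn.map f hfs
    have hUm : Marginal w U := by
      intro g d hd
      choose g' hg' using fun i => hfs (g i)
      choose d' hd' hd'' using hd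
      have h1 : (fun i => g i * d i) = fun i => f (g' i * d' i) := by
        funext i
        rw [map_mul, hg', hd'']
      have h2 : g = fun i => f (g' i) := by
        funext i
        rw [hg']
      rw [h1, ← map_lift, hmarg g' d' hd', map_lift, ← h2]
    have hfz : f z ∈ verb w (G ⧸ V) := by
      have h1 : (verb w G).map f ≤ verb w (G ⧸ V) := by
        unfold verb
        rw [MonoidHom.map_closure, Subgroup.closure_le]
        rintro _ ⟨_, ⟨g, rfl⟩, rfl⟩
        apply Subgroup.subset_closure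
        exact ⟨fun i => f (g i), (map_lift f w g).symm⟩
      exact h1 ⟨z, hz, rfl⟩
    by_contra hzV
    have hfz1 : f z ≠ 1 := fun h => hzV ((QuotientGroup.eq_one_iff _).1 h)
    have hord : orderOf (f z) ≠ 1 := fun h => hfz1 (orderOf_eq_one_iff.1 h)
    obtain ⟨l, hl, hld⟩ := Nat.exists_prime_and_dvd hord
    have hlS : l ∉ S := by
      obtain ⟨n, hn, hzn⟩ := ((hRmem z).1 hzR).2 V hVn hVo
      rw [n4_pow_mem_iff] at hzn
      exact hn.2 l hl (hld.trans (orderOf_dvd_of_pow_eq_one hzn))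
    have hUi : ¬ l ∣ U.index := by
      intro hd
      have : Fact l.Prime := ⟨hl⟩
      obtain ⟨t, ht⟩ := exists_prime_orderOf_dvd_card' (G := (G ⧸ V) ⧸ U) l hd
      obtain ⟨y, rfl⟩ := QuotientGroup.mk'_surjective U t
      obtain ⟨x, rfl⟩ := hfs y
      have hxm : x ^ P.index ∈ P := P.pow_index_mem x
      have hxm' : x ^ P.index ∈ PSub P Set.univ := by
        rw [psub_univ]; exact hxm
      obtain ⟨a, ha, b, hbm, hab⟩ := psub_decomp hb hPc (S : Set ℕ) Set.univ _ hxm'
      have hbR : b ∈ R := by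
        rw [hRmem]
        exact psub_mono (fun q _ hq' => hq'.2) hbm
      obtain ⟨n, hn, han⟩ := ha.2 V hVn hVo
      have hb1 : QuotientGroup.mk' U (f b) = 1 := (QuotientGroup.eq_one_iff _).2 ⟨b, hbR, rfl⟩
      have h1 : (QuotientGroup.mk' U (f x)) ^ (P.index * n) = 1 := by
        have e1 : (QuotientGroup.mk' U (f x)) ^ P.index = QuotientGroup.mk' U (f (x ^ P.index)) := by
          rw [map_pow, map_pow]
        rw [pow_mul, e1, hab, map_mul, map_mul, hb1, mul_one, ← map_pow, ← map_pow]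
        have h2 : f (a ^ n) = 1 := (QuotientGroup.eq_one_iff _).2 han
        rw [h2, map_one]
      have h3 : l ∣ P.index * n := by
        rw [← ht]
        exact orderOf_dvd_of_pow_eq_one h1
      rcases (hl.dvd_mul).1 h3 with h4 | h4
      · exact hlS (hSind l hl h4)
      · exact hlS (hn.2 l hl h4).2
    obtain ⟨c, hc⟩ := hld
    have hc0 : c ≠ 0 := by
      rintro rfl
      rw [mul_zero] at hc
      exact (orderOf_pos (f z)).ne' hc
    have h5 : (f z) ^ c = 1 := by
      apply supp w U hUn hUm hl hUi _ (Subgroup.pow_mem _ hfz c)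
      refine ⟨1, ?_⟩
      rw [pow_one, ← pow_mul, mul_comm, ← hc, pow_orderOf_eq_one]
    have h6 : orderOf (f z) ∣ c := orderOf_dvd_of_pow_eq_one h5
    have h7 := Nat.le_of_dvd (Nat.pos_of_ne_zero hc0) h6
    rw [hc] at h7
    have h8 : 2 * c ≤ l * c := Nat.mul_le_mul_right c hl.two_le
    omega
  -- (5)
  have hRp : ∀ p : S, ∃ X : Set G, X.Finite ∧ ∀ v ∈ verb w G, ∃ x ∈ X, x⁻¹ * v ∈ PSub P {(p : ℕ)}ᶜ := by
    intro p
    obtain ⟨R', hR', hRn', -⟩ := psub_subgroup hPn hPc hP {(p : ℕ)}ᶜ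
    obtain ⟨X, hX, hX'⟩ := hq p (hSprime p p.2) R' hRn' hR'
    refine ⟨X, hX, fun v hv => ?_⟩
    obtain ⟨x, hx, hxv⟩ := hX' v hv
    exact ⟨x, hx, by rw [← hR']; exact hxv⟩
  choose X hXf hX using hRp
  have hXfin : ∀ p, Finite (X p) := fun p => (hXf p).to_subtype
  choose c hc hc' using fun (v : verb w G) (p : S) => hX p v.1 v.2
  have hinj : Function.Injective (fun (v : verb w G) (p : S) => (⟨c v p, hc v p⟩ : X p)) := by
    intro v v' hvv
    have h1 : ∀ p : S, c v p = c v' p := fun p => congrArg Subtype.val (congrFun hvv p)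
    have h2 : (v : G)⁻¹ * v' ∈ R := by
      apply key1
      intro p hp
      obtain ⟨R', hR', -, -⟩ := psub_subgroup hPn hPc hP {p}ᶜ
      have h3 : (c v ⟨p, hp⟩)⁻¹ * v ∈ R' := by
        have h4 := hc' v ⟨p, hp⟩
        rw [← hR'] at h4
        exact h4
      have h5 : (c v ⟨p, hp⟩)⁻¹ * v' ∈ R' := by
        have h4 := hc' v' ⟨p, hp⟩
        rw [← hR', ← h1] at h4
        exact h4
      have h6 := R'.mul_mem (R'.inv_mem h3) h5
      have h7 : ((c v ⟨p, hp⟩)⁻¹ * (v : G))⁻¹ * ((c v ⟨p, hp⟩)⁻¹ * v') = (v : G)⁻¹ * v' := by group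
      rw [h7] at h6
      rw [← hR']
      exact h6
    have h8 := key4 _ ((verb w G).mul_mem ((verb w G).inv_mem v.2) v'.2) h2
    exact Subtype.ext (inv_mul_eq_one.1 h8)
  have hfin : Finite (verb w G) := Finite.of_injective _ hinj
  exact Set.toFinite _

end Pool.Agent.Lib.MP_ae9e3a_al
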