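import Pool.Agent.Lib.MP_ae9e3a_al.ChnA
import Pool.Agent.Lib.MP_ae9e3a_al.ChnB

set_option autoImplicit false

/-!
# VPP module Redn: from the definition of the class to the standing hypotheses

`H` is open, `A₀` is closed, normal in `H` and abelian, `Chn A₀ H`; `Q` is open and pro-`p`.

PROOF of `exists_core`. Let `P` be an open normal subgroup of `G` with `P ≤ H ⊓ Q`
(`exists_normal_le`). Put `A₁ = A₀ ⊓ P`: closed, abelian, normal in `P`, and `Chn A₁ P`
(`Chn.inter` with `C = P`: `Chn (A₀ ⊓ P) (H ⊓ P)`, `H ⊓ P = P`). For `g : G` the conjugate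
`A₁^g = A₁.map (MulAut.conj g)` satisfies `Chn (A₁^g) P` (`Chn.map` with the continuous
homomorphism `MulAut.conj g`; `P` is normal). If `B, C ≤ P` are closed with `Chn B P` and
`Chn C P` then `Chn (B ⊓ C) B` (`Chn.inter` of `Chn C P` with `B`: `Chn (C ⊓ B) (P ⊓ B)`), so
`Chn (B ⊓ C) P` (`Chn.trans`). `A₁^g` depends only on the coset `g P` (`P` normalises `A₁`), and `P`
has finite index: let `A` be the intersection of the `A₁^g`, `g` in a finite set of representatives
(finite induction): `A` is normal in `G` (it is the normal core of `A₁`), closed, abelian, `A ≤ P`,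
`Chn A P`.
-/

namespace Pool.Agent.Lib.MP_ae9e3a_al

private theorem redn_mem {G : Type*} [Group G] (A : Subgroup G) (g y : G) :
    y ∈ A.map (MulAut.conj g).toMonoidHom ↔ g⁻¹ * y * g ∈ A := by
  constructor
  · rintro ⟨a, ha, rfl⟩
    have e : g⁻¹ * (MulAut.conj g).toMonoidHom a * g = a := by
      change g⁻¹ * (g * a * g⁻¹) * g = a
      group
    rw [e]
    exact ha
  · intro h
    refine ⟨g⁻¹ * y * g, h, ?_⟩
    change g * (g⁻¹ * y * g) * g⁻¹ = y
    group

private theorem redn_chn {G : Type*} [Group G] [TopologicalSpace G] [IsTopologicalGroup G]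
    [CompactSpace G] [T2Space G] (hb : Basis1 G) {P A : Subgroup G} (hP : P.Normal)
    (hPc : IsClosed (P : Set G)) (h : Chn A P) (X : Finset G) :
    Chn (P ⊓ ⨅ g ∈ X, A.map (MulAut.conj g).toMonoidHom) P := by
  classical
  induction X using Finset.induction_on with
  | empty =>
    simp only [Finset.notMem_empty, iInf_false, iInf_top, inf_top_eq]
    exact Chn.refl hPc
  | insert g X _ ih =>
    have h1 : Chn (A.map (MulAut.conj g).toMonoidHom) P := by
      have hcont : Continuous (MulAut.conj g).toMonoidHom := by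
        change Continuous (fun a : G => g * a * g⁻¹)
        exact (continuous_const.mul continuous_id).mul continuous_const
      have h2 := Chn.map (MulAut.conj g).toMonoidHom hcont h
      have h3 : P.map (MulAut.conj g).toMonoidHom = P := by
        ext y
        rw [redn_mem]
        constructor
        · intro hy
          have h4 := hP.conj_mem _ hy g
          have e : g * (g⁻¹ * y * g) * g⁻¹ = y := by group
          rwa [e] at h4
        · intro hy
          have h4 := hP.conj_mem _ hy g⁻¹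
          rwa [inv_inv] at h4
      rwa [h3] at h2
    have h2 := Chn.inter hb h1 ih.closed_left
    have e1 : P ⊓ (P ⊓ ⨅ g ∈ X, A.map (MulAut.conj g).toMonoidHom) =
        P ⊓ ⨅ g ∈ X, A.map (MulAut.conj g).toMonoidHom := by
      rw [← inf_assoc, inf_idem]
    rw [e1] at h2
    have e2 : P ⊓ (⨅ g' ∈ insert g X, A.map (MulAut.conj g').toMonoidHom) =
        A.map (MulAut.conj g).toMonoidHom ⊓ (P ⊓ ⨅ g ∈ X, A.map (MulAut.conj g).toMonoidHom) := by
      rw [Finset.iInf_insert, ← inf_assoc, ← inf_assoc, inf_comm P]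
    rw [e2]
    exact h2.trans ih

theorem exists_core {G : Type*} [Group G] [TopologicalSpace G] [IsTopologicalGroup G]
    [CompactSpace G] [T2Space G] (hb : Basis1 G) {H A₀ Q : Subgroup G} (hH : IsOpen (H : Set G))
    (hQ : IsOpen (Q : Set G)) (hn : ∀ a ∈ A₀, ∀ h ∈ H, h * a * h⁻¹ ∈ A₀)
    (hab : ∀ x ∈ A₀, ∀ y ∈ A₀, x * y = y * x) (hch : Chn A₀ H) :
    ∃ P A : Subgroup G, P.Normal ∧ IsOpen (P : Set G) ∧ P ≤ H ⊓ Q ∧ A.Normal ∧
      IsClosed (A : Set G) ∧ A ≤ P ∧ (∀ x ∈ A, ∀ y ∈ A, x * y = y * x) ∧ Chn A P := by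
  classical
  have hHQ : IsOpen ((H ⊓ Q : Subgroup G) : Set G) := hH.inter hQ
  obtain ⟨P, hPn, hPo, hPle⟩ := exists_normal_le hHQ
  have hPH : P ≤ H := hPle.trans inf_le_left
  have hPc : IsClosed (P : Set G) := Subgroup.isClosed_of_isOpen P hPo
  have hch1 : Chn (A₀ ⊓ P) P := by
    have h1 := Chn.inter hb hch hPc
    rwa [inf_eq_right.2 hPH] at h1
  have hnorm : ∀ a ∈ A₀ ⊓ P, ∀ g ∈ P, g * a * g⁻¹ ∈ A₀ ⊓ P := by
    intro a ha g hg
    exact ⟨hn a ha.1 g (hPH hg), P.mul_mem (P.mul_mem hg ha.2) (P.inv_mem hg)⟩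
  have hfin : P.FiniteIndex := ⟨index_ne_zero_of_isOpen hPo⟩
  have hfin' : Finite (G ⧸ P) := inferInstance
  have hft : Fintype (G ⧸ P) := Fintype.ofFinite _
  set X : Finset G := (Finset.univ : Finset (G ⧸ P)).image Quotient.out with hX
  have hrep : ∀ g : G, ∃ x ∈ X, x⁻¹ * g ∈ P := by
    intro g
    refine ⟨(QuotientGroup.mk g : G ⧸ P).out, Finset.mem_image.2 ⟨_, Finset.mem_univ _, rfl⟩, ?_⟩
    rw [← QuotientGroup.eq, QuotientGroup.out_eq']
  set A : Subgroup G := P ⊓ ⨅ g ∈ X, (A₀ ⊓ P).map (MulAut.conj g).toMonoidHom with hA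
  have hchA : Chn A P := redn_chn hb hPn hPc hch1 X
  have hmem : ∀ a, a ∈ A ↔ a ∈ P ∧ ∀ x ∈ X, x⁻¹ * a * x ∈ A₀ ⊓ P := by
    intro a
    rw [hA, Subgroup.mem_inf]
    refine and_congr Iff.rfl ?_
    rw [Subgroup.mem_iInf]
    refine forall_congr' fun x => ?_
    rw [Subgroup.mem_iInf]
    refine forall_congr' fun _ => ?_
    exact redn_mem _ _ _
  refine ⟨P, A, hPn, hPo, hPle, ⟨?_⟩, hchA.closed_left, hchA.le, ?_, hchA⟩
  · intro a ha g
    rw [hmem] at ha ⊢
    refine ⟨hPn.conj_mem a ha.1 g, fun x _ => ?_⟩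
    obtain ⟨y, hy, hyp⟩ := hrep (g⁻¹ * x)
    have h1 := hnorm _ (ha.2 y hy) _ (P.inv_mem hyp)
    have e : (y⁻¹ * (g⁻¹ * x))⁻¹ * (y⁻¹ * a * y) * (y⁻¹ * (g⁻¹ * x))⁻¹⁻¹ =
        x⁻¹ * (g * a * g⁻¹) * x := by group
    rwa [e] at h1
  · intro a ha b hb'
    obtain ⟨x, hx, _⟩ := hrep 1
    have h1 := ((hmem a).1 ha).2 x hx
    have h2 := ((hmem b).1 hb').2 x hx
    have h3 := hab _ h1.1 _ h2.1
    have e1 : a * b = x * ((x⁻¹ * a * x) * (x⁻¹ * b * x)) * x⁻¹ := by group
    have e2 : b * a = x * ((x⁻¹ * b * x) * (x⁻¹ * a * x)) * x⁻¹ := by group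
    rw [e1, e2, h3]

end Pool.Agent.Lib.MP_ae9e3a_al
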