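import Pool.Agent.Lib.MP_ae9e3a_al.N3
import Pool.Agent.Lib.MP_ae9e3a_al.N4
import Pool.Agent.Lib.MP_ae9e3a_al.Redn
import Pool.Agent.Lib.MP_ae9e3a_al.Induct

set_option autoImplicit false

/-!
# VPP module Final: assembly for virtually pronilpotent groups

PROOF of `proP_quot`. Let `f : G → G ⧸ R`. An open normal subgroup `V'` of `G ⧸ R` has the open normal
preimage `V ≥ R`, and `V'.relIndex (P.map f) = V.relIndex P`. The finite group `P ⧸ (V ⊓ P)` is a
`p`-group (`IsPGroup.iff_card`): every `x ∈ P` is `a * b`, `a ∈ PSub P {p}`, `b ∈ PSub P {p}ᶜ = R ≤ V`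
(`psub_univ`, `psub_decomp`), and `a ^ n ∈ V` for some `{p}`-number `n`, a power of `p`; modulo `V`,
`x ≡ a`, so `x ^ n ∈ V`.
PROOF of `strongly_concise`. `exists_core` with `Q` the open pronilpotent subgroup gives `P`, `A`;
`P` is pronilpotent (subgroups of nilpotent groups). `marginal_almost`, `pronil_finish`. For a prime `p`
and `R` with carrier `PSub P {p}ᶜ` (closed: `psub_subgroup`, same carrier): in `G ⧸ R` (compact,
Hausdorff) `Setup p (P.map f) (A.map f)`: `basis1_map`, `proP_quot`, `isOpenMap_of_surj`,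
`isClosed_map`, `Chn.map`. `map_vals` and `strongly_concise_of_setup` give that `verb w (G ⧸ R)` is
finite: choose preimages.
-/

namespace Pool.Agent.Lib.MP_ae9e3a_al

open Cardinal

universe u

theorem pnilp_of_le {G : Type*} [Group G] [TopologicalSpace G] {P Q : Subgroup G} (h : P ≤ Q)
    (hQ : PNilp Q) : PNilp P := by
  intro V _ hV
  have := hQ V hV
  have hle : P.map (QuotientGroup.mk' V) ≤ Q.map (QuotientGroup.mk' V) := Subgroup.map_mono h
  exact Group.nilpotent_of_mulEquiv (Subgroup.subgroupOfEquivOfLe hle)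

theorem proP_quot {G : Type u} [Group G] [TopologicalSpace G] [IsTopologicalGroup G]
    [CompactSpace G] [T2Space G] (hb : Basis1 G) {p : ℕ} (hp : p.Prime) {P R : Subgroup G}
    (hPc : IsClosed (P : Set G)) [R.Normal] (hR : (R : Set G) = PSub P {p}ᶜ) :
    ProP p (P.map (QuotientGroup.mk' R)) := by
  intro V' hV'n hV'o
  have : Fact p.Prime := ⟨hp⟩
  set f := QuotientGroup.mk' R with hf
  set V := V'.comap f with hV
  have hVo : IsOpen (V : Set G) := by
    have hc : Continuous f := QuotientGroup.continuous_mk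
    exact hV'o.preimage hc
  have hVn : V.Normal := hV'n.comap f
  have hi : V'.relIndex (P.map f) ≠ 0 := by
    have h1 : V'.index ≠ 0 := by
      have : V.index = V'.index :=
        Subgroup.index_comap_of_surjective V' (QuotientGroup.mk'_surjective R)
      rw [← this]
      exact index_ne_zero_of_isOpen hVo
    intro h0
    have := Subgroup.relIndex_dvd_index_of_normal V' (P.map f)
    rw [h0] at this
    exact h1 (Nat.eq_zero_of_zero_dvd this)
  have hpg : IsPGroup p (↥(P.map f) ⧸ V'.subgroupOf (P.map f)) := by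
    intro y
    obtain ⟨⟨z, hz⟩, rfl⟩ := QuotientGroup.mk_surjective y
    obtain ⟨x, hx, rfl⟩ := hz
    have hx' : x ∈ PSub P Set.univ := by rw [psub_univ]; exact hx
    obtain ⟨a, ha, b, hbb, rfl⟩ := psub_decomp hb hPc {p} Set.univ x hx'
    have hbR : b ∈ R := by
      have : b ∈ PSub P ({p}ᶜ : Set ℕ) := by
        refine psub_mono ?_ hbb
        intro q _ hq
        exact hq.2
      rw [← hR] at this
      exact this
    obtain ⟨n, hn, han⟩ := ha.2 V hVn hVo
    have hn' : ∃ j, n = p ^ j := by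
      refine ⟨n.primeFactorsList.length, ?_⟩
      apply Nat.eq_prime_pow_of_unique_prime_dvd hn.1
      intro q hq hqn
      have := (hn.2 q hq hqn).2
      simpa using this
    obtain ⟨j, rfl⟩ := hn'
    refine ⟨j, ?_⟩
    rw [← QuotientGroup.mk_pow, QuotientGroup.eq_one_iff, Subgroup.mem_subgroupOf]
    have h1 : f (a * b) = f a := by
      rw [map_mul, (QuotientGroup.eq_one_iff b).2 hbR |> fun h => (h : f b = 1), mul_one]
    show ((⟨f (a * b), _⟩ : ↥(P.map f)) ^ p ^ j : ↥(P.map f)).1 ∈ V'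
    rw [SubmonoidClass.coe_pow]
    show (f (a * b)) ^ p ^ j ∈ V'
    rw [h1, ← map_pow]
    exact han
  have hfin : Finite (↥(P.map f) ⧸ V'.subgroupOf (P.map f)) := by
    apply Nat.finite_of_card_ne_zero
    exact hi
  obtain ⟨k, hk⟩ := (IsPGroup.iff_card).1 hpg
  exact ⟨k, hk⟩

theorem strongly_concise {G : Type u} [Group G] [TopologicalSpace G] [IsTopologicalGroup G]
    [CompactSpace G] [T2Space G] (hb : Basis1 G) {H A₀ Q : Subgroup G} (hH : IsOpen (H : Set G))
    (hn : ∀ a ∈ A₀, ∀ h ∈ H, h * a * h⁻¹ ∈ A₀) (hab : ∀ x ∈ A₀, ∀ y ∈ A₀, x * y = y * x)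
    (hch : Chn A₀ H) (hQ : IsOpen (Q : Set G)) (hQn : PNilp Q) {k : ℕ}
    (w : FreeGroup (Fin k)) (h : #(vals w G) < 𝔠) : (verb w G : Set G).Finite := by
  obtain ⟨P, A, hPn, hPo, hPle, hAn, hAc, hAP, hAab, hAch⟩ := exists_core hb hH hQ hn hab hch
  have hPP : PNilp P := pnilp_of_le (hPle.trans inf_le_right) hQn
  have hPc : IsClosed (P : Set G) := Subgroup.isClosed_of_isOpen P hPo
  refine pronil_finish hb hPn hPo hPP w (marginal_almost hb hPn hPo hPP w h) ?_
  intro p hp R hRn hR
  have hRc : IsClosed (R : Set G) := by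
    obtain ⟨N, hN, _, hNc⟩ := psub_subgroup hPn hPc hPP ({p}ᶜ : Set ℕ)
    rw [hR, ← hN]
    exact hNc
  set f := QuotientGroup.mk' R with hf
  have hfc : Continuous f := QuotientGroup.continuous_mk
  have hfs : Function.Surjective f := QuotientGroup.mk'_surjective R
  have hS : Setup p (P.map f) (A.map f) :=
    { basis := basis1_map f hfc hfs hb
      Pn := hPn.map f hfs
      Po := by
        have := isOpenMap_of_surj f hfc hfs P hPo
        rw [Subgroup.coe_map]
        exact this
      Pp := proP_quot hb hp hPc hR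
      An := hAn.map f hfs
      Ac := isClosed_map f hfc hAc
      AP := Subgroup.map_mono hAP
      abel := by
        rintro _ ⟨x, hx, rfl⟩ _ ⟨y, hy, rfl⟩
        rw [← map_mul, ← map_mul, hAab x hx y hy]
      chn := hAch.map f hfc }
  obtain ⟨hv1, hv2, hv3⟩ := map_vals f hfs w
  have hfin : (verb w (G ⧸ R) : Set (G ⧸ R)).Finite :=
    strongly_concise_of_setup hp w hS (lt_of_le_of_lt hv3 h)
  refine ⟨Function.surjInv hfs '' (verb w (G ⧸ R) : Set (G ⧸ R)), hfin.image _, ?_⟩
  intro v hv
  refine ⟨Function.surjInv hfs (f v), ⟨f v, ?_, rfl⟩, ?_⟩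
  · rw [hv2]
    exact ⟨v, hv, rfl⟩
  · have : f (Function.surjInv hfs (f v)) = f v := Function.surjInv_eq hfs (f v)
    exact QuotientGroup.eq.1 this

end Pool.Agent.Lib.MP_ae9e3a_al
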