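import Pool.Agent.Lib.MP_ae9e3a_al.Defs

set_option autoImplicit false

/-!
# VPP module Fox: Fox calculus
-/

namespace Pool.Agent.Lib.MP_ae9e3a_al

private theorem Fox_mem {G B : Type*} [Group G] [AddCommGroup B] [DistribMulAction G B] (g : G) :
    DistribSMul.toAddMonoidHom B g ∈ Lam G B :=
  AddSubgroup.subset_closure ⟨g, rfl⟩

theorem lam_stab {G B : Type*} [Group G] [AddCommGroup B] [DistribMulAction G B] :
    Stab (⊤ : Subgroup G) (Lam G B) := by
  intro g _ x hx
  unfold Lam at hx
  induction hx using AddSubgroup.closure_induction with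
  | mem x hx =>
    obtain ⟨h, rfl⟩ := hx
    have : g • DistribSMul.toAddMonoidHom B h = DistribSMul.toAddMonoidHom B (g * h) := by
      ext b
      simp [mul_smul]
    rw [this]
    exact Fox_mem _
  | zero =>
    rw [smul_zero]
    exact AddSubgroup.zero_mem _
  | add x y _ _ hx hy =>
    rw [smul_add]
    exact AddSubgroup.add_mem _ hx hy
  | neg x _ hx =>
    rw [smul_neg]
    exact AddSubgroup.neg_mem _ hx

private theorem Fox_comp {G B : Type*} [Group G] [AddCommGroup B] [DistribMulAction G B] (g : G)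
    {f : B →+ B} (hf : f ∈ Lam G B) : (DistribSMul.toAddMonoidHom B g).comp f ∈ Lam G B := by
  have : (DistribSMul.toAddMonoidHom B g).comp f = g • f := by
    ext b
    simp
  rw [this]
  exact lam_stab g (Subgroup.mem_top g) f hf

theorem fox {G B : Type*} [Group G] [AddCommGroup B] [DistribMulAction G B] (ι : B → G)
    (hadd : ∀ b c, ι (b + c) = ι b * ι c) (hact : ∀ g b, ι (g • b) = g * ι b * g⁻¹) {k : ℕ}
    (w : FreeGroup (Fin k)) (g : Fin k → G) :
    ∃ φ : Fin k → (B →+ B), (∀ i, φ i ∈ Lam G B) ∧ ∀ b : Fin k → B,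
      FreeGroup.lift (fun i => ι (b i) * g i) w = ι (∑ i, φ i (b i)) * FreeGroup.lift g w := by
  have h0 : ι 0 = 1 := by
    have := hadd 0 0
    rw [add_zero] at this
    exact (mul_eq_left.mp this.symm)
  have hneg : ∀ b, ι (-b) = (ι b)⁻¹ := by
    intro b
    have := hadd b (-b)
    rw [add_neg_cancel, h0] at this
    exact (inv_eq_of_mul_eq_one_right this.symm).symm
  induction w using FreeGroup.induction_on with
  | C1 =>
    refine ⟨fun _ => 0, fun _ => AddSubgroup.zero_mem _, fun b => ?_⟩
    simp [h0]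
  | of j =>
    refine ⟨fun i => if i = j then DistribSMul.toAddMonoidHom B (1 : G) else 0, fun i => ?_,
      fun b => ?_⟩
    · show (if i = j then DistribSMul.toAddMonoidHom B (1 : G) else 0) ∈ Lam G B
      by_cases h : i = j
      · rw [if_pos h]; exact Fox_mem _
      · rw [if_neg h]; exact AddSubgroup.zero_mem _
    · have e : ∑ i, (if i = j then DistribSMul.toAddMonoidHom B (1 : G) else 0) (b i) = b j := by
        rw [Finset.sum_eq_single j]
        · simp
        · intro i _ hi
          rw [if_neg hi]; rfl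
        · intro h; exact absurd (Finset.mem_univ j) h
      rw [e]
      simp
  | inv_of j _ =>
    refine ⟨fun i => if i = j then -DistribSMul.toAddMonoidHom B (g j)⁻¹ else 0, fun i => ?_,
      fun b => ?_⟩
    · show (if i = j then -DistribSMul.toAddMonoidHom B (g j)⁻¹ else 0) ∈ Lam G B
      by_cases h : i = j
      · rw [if_pos h]; exact AddSubgroup.neg_mem _ (Fox_mem _)
      · rw [if_neg h]; exact AddSubgroup.zero_mem _
    · have e : ∑ i, (if i = j then -DistribSMul.toAddMonoidHom B (g j)⁻¹ else 0) (b i) =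
          -((g j)⁻¹ • b j) := by
        rw [Finset.sum_eq_single j]
        · simp
        · intro i _ hi
          rw [if_neg hi]; rfl
        · intro h; exact absurd (Finset.mem_univ j) h
      rw [e, hneg, hact]
      simp only [map_inv, FreeGroup.lift_apply_of]
      group
  | mul w₁ w₂ ih₁ ih₂ =>
    obtain ⟨φ₁, m₁, e₁⟩ := ih₁
    obtain ⟨φ₂, m₂, e₂⟩ := ih₂
    refine ⟨fun i => φ₁ i + (DistribSMul.toAddMonoidHom B (FreeGroup.lift g w₁)).comp (φ₂ i),
      fun i => AddSubgroup.add_mem _ (m₁ i) (Fox_comp _ (m₂ i)), fun b => ?_⟩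
    rw [map_mul, map_mul, e₁, e₂]
    have e : ∑ i, (φ₁ i + (DistribSMul.toAddMonoidHom B (FreeGroup.lift g w₁)).comp (φ₂ i)) (b i) =
        ∑ i, φ₁ i (b i) + (FreeGroup.lift g w₁) • ∑ i, φ₂ i (b i) := by
      simp only [AddMonoidHom.add_apply, Finset.sum_add_distrib, AddMonoidHom.comp_apply,
        DistribSMul.toAddMonoidHom_apply, Finset.smul_sum]
    rw [e, hadd, hact]
    group

/-- The group `Lam G B` modulo `m = (p, h - 1 : h ∈ H)` is generated by the operators of a finite set
of representatives of the cosets `H g`: if `g = h * r`, then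
`toAddMonoidHom B g = toAddMonoidHom B r + (h - 1) • toAddMonoidHom B r`. -/
theorem lam_gen {G B : Type*} [Group G] [AddCommGroup B] [DistribMulAction G B] (p : ℕ)
    (H : Subgroup G) (hH : H.index ≠ 0) : ∃ (r : ℕ) (v : Fin r → (B →+ B)),
      (∀ l, v l ∈ Lam G B) ∧ ∀ x ∈ Lam G B, ∃ c : Fin r → ℤ,
        x - ∑ l, c l • v l ∈ mk p H (Lam G B) 1 := by
  classical
  have hfin : H.FiniteIndex := ⟨hH⟩
  have hfin' : Finite (G ⧸ H) := Subgroup.finite_quotient_of_finiteIndex
  obtain ⟨r, ⟨e⟩⟩ := Finite.exists_equiv_fin (G ⧸ H)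
  refine ⟨r, fun l => DistribSMul.toAddMonoidHom B (Quotient.out (e.symm l))⁻¹,
    fun l => Fox_mem _, ?_⟩
  intro x hx
  unfold Lam at hx
  induction hx using AddSubgroup.closure_induction with
  | mem x hx =>
    obtain ⟨g, rfl⟩ := hx
    set q : G ⧸ H := ((g⁻¹ : G) : G ⧸ H) with hq
    refine ⟨fun l => if l = e q then 1 else 0, ?_⟩
    have es : ∑ l, (if l = e q then (1 : ℤ) else 0) •
        DistribSMul.toAddMonoidHom B (Quotient.out (e.symm l))⁻¹ =
        DistribSMul.toAddMonoidHom B (Quotient.out q)⁻¹ := by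
      rw [Finset.sum_eq_single (e q)]
      · simp
      · intro l _ hl
        rw [if_neg hl, zero_smul]
      · intro h; exact absurd (Finset.mem_univ _) h
    rw [es]
    have hout : ((Quotient.out q : G) : G ⧸ H) = ((g⁻¹ : G) : G ⧸ H) := by
      rw [← hq]; exact Quotient.out_eq' q
    have hmem : (Quotient.out q)⁻¹ * g⁻¹ ∈ H := QuotientGroup.eq.mp hout
    have hmem' : g * Quotient.out q ∈ H := by
      have := H.inv_mem hmem
      simpa using this
    refine AddSubgroup.subset_closure
      ⟨DistribSMul.toAddMonoidHom B (Quotient.out q)⁻¹, Fox_mem _, Or.inr ⟨_, hmem', ?_⟩⟩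
    congr 1
    ext b
    simp [← mul_smul]
  | zero =>
    refine ⟨fun _ => 0, ?_⟩
    simp only [zero_smul, Finset.sum_const_zero, sub_zero]
    exact AddSubgroup.zero_mem _
  | add x y _ _ hx hy =>
    obtain ⟨c, hc⟩ := hx
    obtain ⟨d, hd⟩ := hy
    refine ⟨fun l => c l + d l, ?_⟩
    have := AddSubgroup.add_mem _ hc hd
    convert this using 1
    simp only [add_smul, Finset.sum_add_distrib]
    abel
  | neg x _ hx =>
    obtain ⟨c, hc⟩ := hx
    refine ⟨fun l => -c l, ?_⟩
    have := AddSubgroup.neg_mem _ hc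
    convert this using 1
    simp only [neg_smul, Finset.sum_neg_distrib]
    abel

end Pool.Agent.Lib.MP_ae9e3a_al
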