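import Mathlib

set_option autoImplicit false

/-!
# VPP module MagT: a section of the finite quotient (for the Magnus module)

`D = range ι` normal in `G`, `N` normal in `G`, `BN = ι⁻¹ N`.

PROOF. For `g : G` consider the relation `g ~ g'` iff `∃ b, ∃ n ∈ N, g' = ι b * g * n`: an
equivalence relation (`N` and `D` are normal: `ι b * g * n`; symmetric:
`g = ι (-b) * g' * n⁻¹`; transitive clear). Choose a representative `c g` of every class, so
`c g = c g'` if `g ~ g'`, and choose `b g`, `n g ∈ N` with `g = ι (b g) * c g * n g`; put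
`θ g = (b g : B ⧸ BN)`. If `g = ι b * c * n = ι b' * c * n'` then
`ι (b - b') = c n' n⁻¹ c⁻¹`... up to conjugation an element of `N` (`N` is normal), so `b - b' ∈ BN`:
`θ g` depends only on `c g` and `g`. So `θ (g * n) = θ g` for `n ∈ N` and
`θ (ι b * g) = b + θ g`.
-/

namespace Pool.Agent.Lib.MP_ae9e3a_al

theorem exists_theta {G B : Type*} [Group G] [AddCommGroup B] (ι : B → G)
    (hadd : ∀ b c, ι (b + c) = ι b * ι c) (hn : ∀ (g : G) b, ∃ c, g * ι b * g⁻¹ = ι c)
    (N : Subgroup G) (hN : N.Normal) (BN : AddSubgroup B) (hBN : ∀ b, b ∈ BN ↔ ι b ∈ N) :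
    ∃ θ : G → B ⧸ BN, (∀ g, ∀ n ∈ N, θ (g * n) = θ g) ∧
      ∀ b g, θ (ι b * g) = (b : B ⧸ BN) + θ g := by
  have h0 : ι 0 = 1 := by
    have h := hadd 0 0
    rw [add_zero] at h
    exact (mul_eq_left.1 h.symm)
  have hneg : ∀ b, ι (-b) = (ι b)⁻¹ := by
    intro b
    have h := hadd (-b) b
    rw [neg_add_cancel, h0] at h
    exact eq_inv_of_mul_eq_one_left h.symm
  let s : Setoid G :=
    { r := fun g g' => ∃ b, ∃ n ∈ N, g' = ι b * g * n
      iseqv := by
        refine ⟨fun g => ⟨0, 1, N.one_mem, by rw [h0]; group⟩, ?_, ?_⟩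
        · rintro g g' ⟨b, n, hn', rfl⟩
          refine ⟨-b, n⁻¹, N.inv_mem hn', ?_⟩
          rw [hneg]; group
        · rintro g g' g'' ⟨b, n, hn1, rfl⟩ ⟨c, m, hm, rfl⟩
          refine ⟨c + b, n * m, N.mul_mem hn1 hm, ?_⟩
          rw [hadd]; group }
  have hout : ∀ g : G, ∃ b, ∃ n ∈ N, g = ι b * (Quotient.out (Quotient.mk s g)) * n := by
    intro g
    exact Quotient.mk_out (s := s) g
  choose b n hnN hb using hout
  have huniq : ∀ (c : G) (b b' : B) (n n' : G), n ∈ N → n' ∈ N → ι b * c * n = ι b' * c * n' →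
      (b : B ⧸ BN) = b' := by
    intro c b b' n n' hn hn' h
    rw [QuotientAddGroup.eq, hBN, hadd, hneg]
    have h1 : (ι b)⁻¹ * ι b' = c * (n * n'⁻¹) * c⁻¹ := by
      have h2 : ι b' = ι b * c * n * n'⁻¹ * c⁻¹ := by
        rw [h]; group
      rw [h2]; group
    rw [h1]
    exact hN.conj_mem _ (N.mul_mem hn (N.inv_mem hn')) c
  refine ⟨fun g => (b g : B ⧸ BN), ?_, ?_⟩
  · intro g m hm
    have h1 : (Quotient.mk s (g * m)) = Quotient.mk s g := by
      apply Quotient.sound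
      refine ⟨0, m⁻¹, N.inv_mem hm, ?_⟩
      rw [h0]; group
    have h2 := hb (g * m)
    rw [h1] at h2
    apply huniq (Quotient.out (Quotient.mk s g)) (b (g * m)) (b g) (n (g * m)) (n g * m) (hnN _)
      (N.mul_mem (hnN _) hm)
    rw [← h2, ← mul_assoc, ← hb g]
  · intro c g
    have h1 : (Quotient.mk s (ι c * g)) = Quotient.mk s g := by
      apply Quotient.sound
      refine ⟨-c, 1, N.one_mem, ?_⟩
      rw [hneg]; group
    have h2 := hb (ι c * g)
    rw [h1] at h2
    have h3 : ((b (ι c * g) : B) : B ⧸ BN) = ((c + b g : B) : B ⧸ BN) := by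
      apply huniq (Quotient.out (Quotient.mk s g)) _ _ (n (ι c * g)) (n g) (hnN _) (hnN _)
      rw [← h2, hadd, mul_assoc (ι c), mul_assoc (ι c), ← hb g]
    show ((b (ι c * g) : B) : B ⧸ BN) = (c : B ⧸ BN) + ((b g : B) : B ⧸ BN)
    rw [h3]
    rfl

end Pool.Agent.Lib.MP_ae9e3a_al
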