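import Pool.Agent.Lib.MP_ae9e3a_al.MagT
import Pool.Agent.Lib.MP_ae9e3a_al.FGenL

set_option autoImplicit false

/-!
# VPP module MagX: the big Magnus module

`B`, `ι` as in `exists_additive` (hypotheses repeated). 

CONSTRUCTION. For an open normal subgroup `N` of `G` let `BN = {b | ι b ∈ N}`, an open subgroup of
`B`, and `X_N = (G ⧸ N → B ⧸ BN)`: a finite group (`G ⧸ N` is finite, `B ⧸ BN` is finite of
`p`-power order: the index of `BN` is that of an open subgroup of the pro-`p` module `B`; precisely,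
by `ModP p P B` there is `V' ≤ BN` of `p`-power index), with the discrete topology
(= the product of the quotient topologies, as `BN` is open). `G` acts by
`(g • f) (x) = f (x * (g : G ⧸ N))`: `g • (h • f) = (g * h) • f`. Let `X = ∏_N X_N` (all open normal
`N`; index type `{N : Subgroup G // N.Normal ∧ IsOpen (N : Set G)}`), with the product topology:
compact, Hausdorff, topological group. The action is continuous: coordinatewise, for fixed `N` the
map `(g, f) ↦ f (x * g)` is locally constant in `g` (constant on the cosets of `N`), and in `f` it is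
a projection. `ModP p P X`: a neighbourhood of `0` contains the kernel `V'` of the projection to
finitely many factors `X_N` (`N ∈ F`); `V'` is open, stable under `G`; its index is the order of
`∏_{N ∈ F} X_N`, a power of `p`; for `h ∈ P` there is `j` with `h ^ p ^ j ∈ ⋂_{N ∈ F} N`
(`exists_pow_mem` for the open normal subgroup `⋂ N`), which acts trivially on the factors.
`δ g N x = θ_N (x * g) - θ_N x`, `θ_N` from `exists_theta` viewed as a function on `G ⧸ N`.
* `δ (g h) (x) = (θ (x g h) - θ (x g)) + (θ (x g) - θ x) = (g • δ h) (x) + δ g (x)`.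
* continuous: each coordinate is locally constant.
* for `d ∈ D = range ι`: `(d • δ h) (x) = θ (x d h) - θ (x d)`, `x d = (x d x⁻¹) x`, and
  `θ (d' x h) - θ (d' x) = θ (x h) - θ x`: `d • δ h = δ h`.
* injective on `D`: for `d = ι b`: `δ d (1) = θ (ι b) - θ 1 = b + θ 1 - θ 1 = b` in `B ⧸ BN`; if
  `δ d = 0` then `ι b ∈ N` for all open normal `N`, so `d = 1` (`Basis1`, Hausdorff).
-/

namespace Pool.Agent.Lib.MP_ae9e3a_al

universe u

section MagX

variable {G : Type u} [Group G] {J : Type u} (N : J → Subgroup G) (C : J → Type u)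

/-- the product of the groups of functions on the quotients -/
def MX : Type u := (j : J) → (G ⧸ N j) → C j

variable [∀ j, AddCommGroup (C j)]

instance : AddCommGroup (MX N C) := inferInstanceAs (AddCommGroup ((j : J) → (G ⧸ N j) → C j))

theorem MX.zero_apply (j : J) (x : G ⧸ N j) : (0 : MX N C) j x = 0 := rfl

theorem MX.add_apply (f f' : MX N C) (j : J) (x : G ⧸ N j) : (f + f') j x = f j x + f' j x := rfl

theorem MX.sub_apply (f f' : MX N C) (j : J) (x : G ⧸ N j) : (f - f') j x = f j x - f' j x := rfl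

variable [hn : ∀ j, (N j).Normal]

instance : DistribMulAction G (MX N C) where
  smul g f := fun j x => f j (x * (g : G ⧸ N j))
  one_smul f := by
    funext j x
    show f j (x * ((1 : G) : G ⧸ N j)) = f j x
    rw [QuotientGroup.mk_one, mul_one]
  mul_smul g h f := by
    funext j x
    show f j (x * ((g * h : G) : G ⧸ N j)) = f j (x * (g : G ⧸ N j) * (h : G ⧸ N j))
    rw [QuotientGroup.mk_mul, mul_assoc]
  smul_zero _ := rfl
  smul_add _ _ _ := rfl

theorem MX.smul_apply (g : G) (f : MX N C) (j : J) (x : G ⧸ N j) :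
    (g • f) j x = f j (x * (g : G ⧸ N j)) := rfl

variable [∀ j, TopologicalSpace (C j)]

instance : TopologicalSpace (MX N C) :=
  inferInstanceAs (TopologicalSpace ((j : J) → (G ⧸ N j) → C j))

instance [∀ j, IsTopologicalAddGroup (C j)] : IsTopologicalAddGroup (MX N C) :=
  inferInstanceAs (IsTopologicalAddGroup ((j : J) → (G ⧸ N j) → C j))

instance [∀ j, CompactSpace (C j)] : CompactSpace (MX N C) :=
  inferInstanceAs (CompactSpace ((j : J) → (G ⧸ N j) → C j))

instance [∀ j, T2Space (C j)] : T2Space (MX N C) :=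
  inferInstanceAs (T2Space ((j : J) → (G ⧸ N j) → C j))

theorem MX.continuous_eval (j : J) (x : G ⧸ N j) : Continuous fun f : MX N C => f j x :=
  (continuous_apply x).comp (continuous_apply (A := fun j => (G ⧸ N j) → C j) j)

theorem MX.continuous_mk {T : Type*} [TopologicalSpace T] {F : T → MX N C}
    (h : ∀ j x, Continuous fun t => F t j x) : Continuous F :=
  continuous_pi (A := fun j => (G ⧸ N j) → C j) fun j => continuous_pi fun x => h j x

theorem MX.continuousSMul [TopologicalSpace G] [IsTopologicalGroup G]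
    (ho : ∀ j, IsOpen (N j : Set G)) : ContinuousSMul G (MX N C) := by
  refine ⟨MX.continuous_mk N C fun j x => ?_⟩
  have hd : DiscreteTopology (G ⧸ N j) := QuotientGroup.discreteTopology (ho j)
  have h1 : Continuous fun q : (G ⧸ N j) × MX N C => q.2 j (x * q.1) := by
    rw [continuous_prod_of_discrete_left]
    intro y
    exact MX.continuous_eval N C j (x * y)
  exact h1.comp ((QuotientGroup.continuous_mk.comp continuous_fst).prodMk continuous_snd)

theorem MX.modP [TopologicalSpace G] [IsTopologicalGroup G] [CompactSpace G] [T2Space G] {p : ℕ}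
    {P : Subgroup G} (hP : ProP p P) (ho : ∀ j, IsOpen (N j : Set G))
    [∀ j, DiscreteTopology (C j)] [∀ j, Finite (C j)] (hC : ∀ j, ∃ k, Nat.card (C j) = p ^ k) :
    ModP p P (MX N C) := by
  classical
  intro U hU
  have hfin : ∀ j, Finite (G ⧸ N j) := fun j => Subgroup.quotient_finite_of_isOpen (N j) (ho j)
  have h0 : ∀ U' : Set ((j : J) → (G ⧸ N j) → C j), U' ∈ nhds (0 : (j : J) → (G ⧸ N j) → C j) →
      ∃ I : Set J, I.Finite ∧ ∃ t : ∀ j, Set ((G ⧸ N j) → C j),
        (∀ j, t j ∈ nhds (0 : (G ⧸ N j) → C j)) ∧ I.pi t ⊆ U' := by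
    intro U' h1
    rw [nhds_pi, Filter.mem_pi] at h1
    exact h1
  obtain ⟨I, hI, t, ht, hsub⟩ := h0 U hU
  let V' : AddSubgroup (MX N C) :=
    { carrier := {f | ∀ j ∈ I, ∀ x, f j x = 0}
      zero_mem' := fun j _ x => rfl
      add_mem' := fun {f f'} hf hf' j hj x => by
        rw [MX.add_apply, hf j hj, hf' j hj, add_zero]
      neg_mem' := fun {f} hf j hj x => by
        show -(f j x) = 0
        rw [hf j hj, neg_zero] }
  have hV' : ∀ f : MX N C, f ∈ V' ↔ ∀ j ∈ I, ∀ x, f j x = 0 := fun f => Iff.rfl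
  refine ⟨V', ?_, ?_, ?_, ?_, ?_⟩
  · intro h _ f hf j hj x
    rw [MX.smul_apply]
    exact hf j hj _
  · have h2 : (V' : Set (MX N C)) = ⋂ j ∈ I, ⋂ x : G ⧸ N j, (fun f : MX N C => f j x) ⁻¹' {0} := by
      ext f
      simp only [SetLike.mem_coe, hV', Set.mem_iInter, Set.mem_preimage, Set.mem_singleton_iff]
    rw [h2]
    refine hI.isOpen_biInter fun j _ => isOpen_iInter_of_finite fun x => ?_
    exact (isOpen_discrete _).preimage (MX.continuous_eval N C j x)
  · have hIf : Finite I := hI.to_subtype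
    have hIF : Fintype I := Fintype.ofFinite _
    let π : MX N C →+ ((j : I) → (G ⧸ N j.1) → C j.1) :=
      { toFun := fun f j x => f j.1 x
        map_zero' := rfl
        map_add' := fun _ _ => rfl }
    have hπs : Function.Surjective π := by
      intro f
      refine ⟨fun j x => if hj : j ∈ I then f ⟨j, hj⟩ x else 0, ?_⟩
      funext j x
      show (if hj : j.1 ∈ I then f ⟨j.1, hj⟩ x else 0) = f j x
      rw [dif_pos j.2]
    have hker : V' = π.ker := by
      ext f
      rw [hV', AddMonoidHom.mem_ker]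
      constructor
      · intro h
        funext j x
        exact h j.1 j.2 x
      · intro h j hj x
        exact congrFun (congrFun h ⟨j, hj⟩) x
    choose e he using hC
    refine ⟨∑ j : I, (Nat.card (G ⧸ N j.1)) * e j.1, ?_⟩
    rw [hker, AddSubgroup.index_ker, AddMonoidHom.range_eq_top.2 hπs,
      Nat.card_congr (AddSubgroup.topEquiv (G := (j : I) → (G ⧸ N j.1) → C j.1)).toEquiv, Nat.card_pi,
      ← Finset.prod_pow_eq_pow_sum]
    refine Finset.prod_congr rfl fun j _ => ?_
    rw [Nat.card_fun, he, ← pow_mul, mul_comm]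
  · intro h hh
    have h2 : ∀ j, ∃ i, h ^ p ^ i ∈ N j := fun j => exists_pow_mem hP hh (hn j) (ho j)
    choose i hi using h2
    refine ⟨∑ j ∈ hI.toFinset, i j, fun f j hj x => ?_⟩
    have h3 : h ^ p ^ (∑ j ∈ hI.toFinset, i j) ∈ N j := by
      have h4 : i j ≤ ∑ j ∈ hI.toFinset, i j :=
        Finset.single_le_sum (f := i) (fun _ _ => Nat.zero_le _) (hI.mem_toFinset.2 hj)
      obtain ⟨r, hr⟩ := Nat.exists_eq_add_of_le h4
      rw [hr, pow_add, pow_mul]
      exact pow_mem (hi j) _
    have h5 : ((h ^ p ^ (∑ j ∈ hI.toFinset, i j) : G) : G ⧸ N j) = 1 :=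
      (QuotientGroup.eq_one_iff _).2 h3
    rw [MX.sub_apply, MX.smul_apply, h5, mul_one, sub_self]
  · intro f hf
    refine hsub fun j hj => ?_
    have h2 : f j = 0 := funext fun x => hf j hj x
    rw [h2]
    exact mem_of_mem_nhds (ht j)

end MagX

theorem magnus_big {G B : Type u} [Group G] [TopologicalSpace G] [IsTopologicalGroup G]
    [CompactSpace G] [T2Space G] {p : ℕ} (hp : p.Prime) {P D : Subgroup G} (hS : Setup p P D)
    [AddCommGroup B] [TopologicalSpace B] [IsTopologicalAddGroup B] [CompactSpace B] [T2Space B]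
    [DistribMulAction G B] [ContinuousSMul G B] (ι : B → G) (hc : Continuous ι)
    (hinj : Function.Injective ι) (hr : Set.range ι = (D : Set G))
    (hadd : ∀ b c, ι (b + c) = ι b * ι c) (hact : ∀ (g : G) b, ι (g • b) = g * ι b * g⁻¹)
    (hB : ModP p P B) :
    ∃ (X : Type u) (_ : AddCommGroup X) (_ : TopologicalSpace X) (_ : IsTopologicalAddGroup X)
      (_ : CompactSpace X) (_ : T2Space X) (_ : DistribMulAction G X) (_ : ContinuousSMul G X)
      (δ : G → X), Continuous δ ∧ (∀ g h, δ (g * h) = δ g + g • δ h) ∧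
      (∀ d ∈ D, ∀ g, d • δ g = δ g) ∧ (∀ d ∈ D, δ d = 0 → d = 1) ∧ ModP p P X := by
  let J : Type u := {N : Subgroup G // N.Normal ∧ IsOpen (N : Set G)}
  let N : J → Subgroup G := fun j => j.1
  have hN : ∀ j, (N j).Normal := fun j => j.2.1
  have hNo : ∀ j, IsOpen (N j : Set G) := fun j => j.2.2
  have hι0 : ι 0 = 1 := by
    have h1 := hadd 0 0
    rw [add_zero] at h1
    exact (mul_eq_left.1 h1.symm)
  have hιneg : ∀ b, ι (-b) = (ι b)⁻¹ := by
    intro b
    have h1 := hadd (-b) b
    rw [neg_add_cancel, hι0] at h1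
    exact eq_inv_of_mul_eq_one_left h1.symm
  let BN : J → AddSubgroup B := fun j =>
    { carrier := {b | ι b ∈ N j}
      zero_mem' := by
        show ι 0 ∈ N j
        rw [hι0]
        exact one_mem _
      add_mem' := fun {a b} ha hb => by
        show ι (a + b) ∈ N j
        rw [hadd]
        exact mul_mem ha hb
      neg_mem' := fun {a} ha => by
        show ι (-a) ∈ N j
        rw [hιneg]
        exact inv_mem ha }
  have hBN : ∀ j b, b ∈ BN j ↔ ι b ∈ N j := fun j b => Iff.rfl
  have hBNo : ∀ j, IsOpen (BN j : Set B) := fun j => (hNo j).preimage hc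
  let C : J → Type u := fun j => B ⧸ BN j
  have hCd : ∀ j, DiscreteTopology (B ⧸ BN j) := fun j => QuotientAddGroup.discreteTopology (hBNo j)
  have hCf : ∀ j, Finite (B ⧸ BN j) := fun j => AddSubgroup.quotient_finite_of_isOpen (BN j) (hBNo j)
  have hCp : ∀ j, ∃ k, Nat.card (B ⧸ BN j) = p ^ k := by
    intro j
    obtain ⟨V', _, _, ⟨k, hk⟩, _, hsub⟩ := hB (BN j : Set B) ((hBNo j).mem_nhds (BN j).zero_mem)
    have h1 : (BN j).index ∣ p ^ k := by
      rw [← hk]
      exact AddSubgroup.index_dvd_of_le hsub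
    obtain ⟨i, _, hi⟩ := (Nat.dvd_prime_pow hp).1 h1
    exact ⟨i, hi⟩
  have hθ : ∀ j, ∃ θ : G → B ⧸ BN j, (∀ g, ∀ n ∈ N j, θ (g * n) = θ g) ∧
      ∀ b g, θ (ι b * g) = (b : B ⧸ BN j) + θ g := fun j =>
    exists_theta ι hadd (fun g b => ⟨g • b, (hact g b).symm⟩) (N j) (hN j) (BN j) (hBN j)
  choose θ hθ1 hθ2 using hθ
  have hθ3 : ∀ j (g : G), θ j (Quotient.out (g : G ⧸ N j)) = θ j g := by
    intro j g
    obtain ⟨n, hn⟩ := QuotientGroup.mk_out_eq_mul (N j) g
    rw [hn]
    exact hθ1 j g n n.2
  let δ : G → MX N C := fun g j x => θ j (Quotient.out (x * (g : G ⧸ N j))) - θ j (Quotient.out x)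
  have hδ : ∀ (g : G) (j : J) (y : G), δ g j (y : G ⧸ N j) = θ j (y * g) - θ j y := by
    intro g j y
    show θ j (Quotient.out ((y : G ⧸ N j) * (g : G ⧸ N j))) - θ j (Quotient.out (y : G ⧸ N j)) = _
    rw [← QuotientGroup.mk_mul, hθ3, hθ3]
  have hcs : ContinuousSMul G (MX N C) := MX.continuousSMul N C hNo
  refine ⟨MX N C, inferInstance, inferInstance, inferInstance, inferInstance, inferInstance,
    inferInstance, hcs, δ, ?_, ?_, ?_, ?_, ?_⟩
  · refine MX.continuous_mk N C fun j x => ?_
    have hd : DiscreteTopology (G ⧸ N j) := QuotientGroup.discreteTopology (hNo j)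
    have h1 : Continuous fun y : G ⧸ N j => (θ j (Quotient.out (x * y)) - θ j (Quotient.out x) : B ⧸ BN j) :=
      continuous_of_discreteTopology
    exact h1.comp QuotientGroup.continuous_mk
  · intro g h
    funext j x
    obtain ⟨y, rfl⟩ := QuotientGroup.mk_surjective x
    rw [MX.add_apply, MX.smul_apply, ← QuotientGroup.mk_mul, hδ, hδ, hδ, mul_assoc]
    exact (sub_add_sub_cancel' _ _ _).symm
  · intro d hd g
    have hd' : d ∈ Set.range ι := by
      rw [hr]
      exact hd
    obtain ⟨b, rfl⟩ := hd'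
    funext j x
    obtain ⟨y, rfl⟩ := QuotientGroup.mk_surjective x
    rw [MX.smul_apply, ← QuotientGroup.mk_mul, hδ, hδ]
    have e1 : y * ι b = ι (y • b) * y := by
      rw [hact]
      group
    rw [e1, mul_assoc, hθ2, hθ2]
    exact add_sub_add_left_eq_sub _ _ _
  · intro d hd h0
    have hd' : d ∈ Set.range ι := by
      rw [hr]
      exact hd
    obtain ⟨b, rfl⟩ := hd'
    have h1 : ∀ j : J, ι b ∈ N j := by
      intro j
      have h2 : δ (ι b) j ((1 : G) : G ⧸ N j) = 0 := by
        rw [h0]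
        rfl
      rw [hδ, one_mul] at h2
      have h3 := hθ2 j b 1
      rw [mul_one] at h3
      rw [h3, add_sub_cancel_right] at h2
      exact (hBN j b).1 ((QuotientAddGroup.eq_zero_iff b).1 h2)
    by_contra hne
    obtain ⟨V, hVn, hVo, hV⟩ := hS.basis {ι b}ᶜ (isOpen_compl_singleton.mem_nhds (fun e => hne e.symm))
    exact hV (h1 ⟨V, hVn, hVo⟩) rfl
  · exact MX.modP N C hS.Pp hNo hCp

end Pool.Agent.Lib.MP_ae9e3a_al
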