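import Mathlib

set_option autoImplicit false

/-!
# VPP module N1: `π`-elements of finite nilpotent groups

`PiNum π n`: `n` is a positive integer all of whose prime divisors are in `π`.

PROOF. `P` is a finite nilpotent group, so it is the direct product of its Sylow subgroups
(`isNilpotent_of_finite_tfae`, `Sylow.directProductOfNormal`:
`(∀ p : (Nat.card P).primeFactors, ∀ S : Sylow p P, S) ≃* P`). In a coordinate `p ∉ π` an element `x`
with `x ^ n = 1`, `n` a `π`-number, is trivial (its coordinate has `p`-power order and order dividing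
`n`). `nil_mul`: so `x y` is trivial in the coordinates `p ∉ π`, and `(x y) ^ n = 1` for `n` the product
of the orders of the Sylow subgroups for the primes in `π`. `nil_comm`: in every coordinate one of the
two is trivial. `fin_decomp`: the order `N` of `x` is `n * m` with `n` a `π`-number, `m` a
`πᶜ`-number, coprime; `u n + v m = 1` (Bezout), `a = x ^ (v m)`, `b = x ^ (u n)`.
-/

namespace Pool.Agent.Lib.MP_ae9e3a_al

/-- `n` is a positive integer all of whose prime divisors are in `π`. -/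
def PiNum (π : Set ℕ) (n : ℕ) : Prop := n ≠ 0 ∧ ∀ q : ℕ, q.Prime → q ∣ n → q ∈ π

theorem PiNum.mul {π : Set ℕ} {m n : ℕ} (hm : PiNum π m) (hn : PiNum π n) : PiNum π (m * n) := by
  refine ⟨Nat.mul_ne_zero hm.1 hn.1, fun q hq hd => ?_⟩
  rcases (hq.dvd_mul).1 hd with h | h
  · exact hm.2 q hq h
  · exact hn.2 q hq h

theorem PiNum.coprime {π σ : Set ℕ} (hd : ∀ q : ℕ, q.Prime → q ∈ π → q ∈ σ → False) {m n : ℕ}
    (hm : PiNum π m) (hn : PiNum σ n) : Nat.Coprime m n := by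
  rw [Nat.coprime_iff_gcd_eq_one]
  by_contra h
  obtain ⟨q, hq, hqd⟩ := Nat.exists_prime_and_dvd h
  exact hd q hq (hm.2 q hq (hqd.trans (Nat.gcd_dvd_left m n))) (hn.2 q hq (hqd.trans (Nat.gcd_dvd_right m n)))

section nil

variable {Q : Type*} [Group Q] [Finite Q]

/-- coordinates outside `π` are trivial -/
private theorem coord_one {π : Set ℕ} {p : ℕ} (hp : p.Prime) (hpπ : p ∉ π) (S : Sylow p Q) (s : S)
    {n : ℕ} (hn : PiNum π n) (hs : s ^ n = 1) : s = 1 := by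
  have : Fact p.Prime := ⟨hp⟩
  obtain ⟨k, hk⟩ := S.isPGroup' s
  have h1 : orderOf s ∣ n := orderOf_dvd_of_pow_eq_one hs
  have h2 : orderOf s ∣ p ^ k := orderOf_dvd_of_pow_eq_one hk
  have hc : Nat.Coprime n (p ^ k) := by
    apply Nat.Coprime.pow_right
    rw [Nat.coprime_comm, hp.coprime_iff_not_dvd]
    exact fun h => hpπ (hn.2 p hp h)
  have h3 : orderOf s ∣ 1 := by
    have h4 := Nat.dvd_gcd h1 h2
    rwa [hc] at h4
  exact orderOf_eq_one_iff.1 (Nat.dvd_one.1 h3)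

private theorem exists_iso (hQ : Group.IsNilpotent Q) :
    Nonempty ((∀ p : (Nat.card Q).primeFactors, ∀ P : Sylow p Q, P) ≃* Q) := by
  have h := ((Group.isNilpotent_of_finite_tfae (G := Q)).out 0 4).1 hQ
  exact h

private theorem nil_mul_aux (hQ : Group.IsNilpotent Q) {π : Set ℕ} {x y : Q} (h1 : ∃ n, PiNum π n ∧ x ^ n = 1)
    (h2 : ∃ n, PiNum π n ∧ y ^ n = 1) : ∃ n, PiNum π n ∧ (x * y) ^ n = 1 := by
  classical
  obtain ⟨e⟩ := exists_iso hQ
  obtain ⟨n, hn, hxn⟩ := h1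
  obtain ⟨m, hm, hym⟩ := h2
  let K : ℕ := ∏ p ∈ (Nat.card Q).primeFactors.filter (fun p => p ∈ π), p ^ (Nat.card Q).factorization p
  refine ⟨K, ⟨?_, ?_⟩, ?_⟩
  · refine Finset.prod_ne_zero_iff.2 fun p hp => ?_
    rw [Finset.mem_filter] at hp
    exact pow_ne_zero _ (Nat.prime_of_mem_primeFactors hp.1).ne_zero
  · intro q hq hd
    obtain ⟨p, hp, hqp⟩ := (hq.prime.dvd_finset_prod_iff _).1 hd
    rw [Finset.mem_filter] at hp
    have h3 := (Nat.prime_dvd_prime_iff_eq hq (Nat.prime_of_mem_primeFactors hp.1)).1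
      (hq.dvd_of_dvd_pow hqp)
    rw [h3]
    exact hp.2
  · apply e.symm.injective
    rw [map_pow, map_one, map_mul]
    ext1 p
    ext1 S
    have hp : (p : ℕ).Prime := Nat.prime_of_mem_primeFactors p.2
    have : Fact (p : ℕ).Prime := ⟨hp⟩
    rw [Pi.pow_apply, Pi.pow_apply, Pi.mul_apply, Pi.mul_apply]
    show _ = (1 : S)
    by_cases hpi : (p : ℕ) ∈ π
    · have h4 : Nat.card S ∣ K := by
        rw [Sylow.card_eq_multiplicity]
        exact Finset.dvd_prod_of_mem (fun p => p ^ (Nat.card Q).factorization p)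
          (Finset.mem_filter.2 ⟨p.2, hpi⟩)
      obtain ⟨t, ht⟩ := h4
      rw [ht, pow_mul]
      have h8 : (e.symm x p S * e.symm y p S) ^ Nat.card S = 1 := pow_card_eq_one'
      rw [h8, one_pow]
    · have h5 : e.symm x p S = 1 := by
        apply coord_one hp hpi S _ hn
        have h6 := congrFun (congrFun (congrArg e.symm hxn) p) S
        rw [map_pow, map_one] at h6
        exact h6
      have h7 : e.symm y p S = 1 := by
        apply coord_one hp hpi S _ hm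
        have h6 := congrFun (congrFun (congrArg e.symm hym) p) S
        rw [map_pow, map_one] at h6
        exact h6
      rw [h5, h7, one_mul, one_pow]

private theorem nil_comm_aux (hQ : Group.IsNilpotent Q) {π σ : Set ℕ}
    (hd : ∀ q : ℕ, q.Prime → q ∈ π → q ∈ σ → False) {x y : Q} (h1 : ∃ n, PiNum π n ∧ x ^ n = 1)
    (h2 : ∃ n, PiNum σ n ∧ y ^ n = 1) : x * y = y * x := by
  classical
  obtain ⟨e⟩ := exists_iso hQ
  obtain ⟨n, hn, hxn⟩ := h1
  obtain ⟨m, hm, hym⟩ := h2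
  apply e.symm.injective
  rw [map_mul, map_mul]
  ext1 p
  ext1 S
  have hp : (p : ℕ).Prime := Nat.prime_of_mem_primeFactors p.2
  have : Fact (p : ℕ).Prime := ⟨hp⟩
  rw [Pi.mul_apply, Pi.mul_apply, Pi.mul_apply, Pi.mul_apply]
  by_cases hpi : (p : ℕ) ∈ π
  · have hps : (p : ℕ) ∉ σ := fun h => hd p hp hpi h
    have h7 : e.symm y p S = 1 := by
      apply coord_one hp hps S _ hm
      have h6 := congrFun (congrFun (congrArg e.symm hym) p) S
      rw [map_pow, map_one] at h6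
      exact h6
    rw [h7, mul_one, one_mul]
  · have h5 : e.symm x p S = 1 := by
      apply coord_one hp hpi S _ hn
      have h6 := congrFun (congrFun (congrArg e.symm hxn) p) S
      rw [map_pow, map_one] at h6
      exact h6
    rw [h5, mul_one, one_mul]

end nil

theorem nil_mul {Γ : Type*} [Group Γ] [Finite Γ] {P : Subgroup Γ} (hP : Group.IsNilpotent P)
    {π : Set ℕ} {x y : Γ} (hx : x ∈ P) (hy : y ∈ P) (h1 : ∃ n, PiNum π n ∧ x ^ n = 1)
    (h2 : ∃ n, PiNum π n ∧ y ^ n = 1) : ∃ n, PiNum π n ∧ (x * y) ^ n = 1 := by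
  obtain ⟨n, hn, hxn⟩ := h1
  obtain ⟨m, hm, hym⟩ := h2
  obtain ⟨k, hk, hxy⟩ := nil_mul_aux (Q := P) hP (π := π) (x := ⟨x, hx⟩) (y := ⟨y, hy⟩)
    ⟨n, hn, Subtype.ext hxn⟩ ⟨m, hm, Subtype.ext hym⟩
  exact ⟨k, hk, congrArg Subtype.val hxy⟩

theorem nil_comm {Γ : Type*} [Group Γ] [Finite Γ] {P : Subgroup Γ} (hP : Group.IsNilpotent P)
    {π σ : Set ℕ} (hd : ∀ q : ℕ, q.Prime → q ∈ π → q ∈ σ → False) {x y : Γ} (hx : x ∈ P)
    (hy : y ∈ P) (h1 : ∃ n, PiNum π n ∧ x ^ n = 1) (h2 : ∃ n, PiNum σ n ∧ y ^ n = 1) :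
    x * y = y * x := by
  obtain ⟨n, hn, hxn⟩ := h1
  obtain ⟨m, hm, hym⟩ := h2
  have h := nil_comm_aux (Q := P) hP hd (x := ⟨x, hx⟩) (y := ⟨y, hy⟩)
    ⟨n, hn, Subtype.ext hxn⟩ ⟨m, hm, Subtype.ext hym⟩
  exact congrArg Subtype.val h

private theorem nat_decomp (π : Set ℕ) (N : ℕ) : N ≠ 0 → ∃ n m, PiNum π n ∧ PiNum πᶜ m ∧ N = n * m := by
  have h1 : ∀ σ : Set ℕ, PiNum σ 1 := fun σ =>
    ⟨one_ne_zero, fun q hq hd => absurd (Nat.dvd_one.1 hd) hq.one_lt.ne'⟩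
  have hprime : ∀ (σ : Set ℕ) (p : ℕ), p.Prime → p ∈ σ → PiNum σ p := fun σ p hp hpσ =>
    ⟨hp.ne_zero, fun q hq hd => by rwa [(Nat.prime_dvd_prime_iff_eq hq hp).1 hd]⟩
  induction N using induction_on_primes with
  | zero => intro h; exact absurd rfl h
  | one => intro _; exact ⟨1, 1, h1 _, h1 _, rfl⟩
  | prime_mul p a hp ih =>
    intro h
    obtain ⟨n, m, hn, hm, rfl⟩ := ih (fun h0 => h (by rw [h0, mul_zero]))
    by_cases hpi : p ∈ π
    · exact ⟨p * n, m, (hprime π p hp hpi).mul hn, hm, by ring⟩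
    · exact ⟨n, p * m, hn, (hprime πᶜ p hp hpi).mul hm, by ring⟩

theorem fin_decomp {Γ : Type*} [Group Γ] [Finite Γ] (π : Set ℕ) (x : Γ) :
    ∃ a b : Γ, a ∈ Subgroup.zpowers x ∧ b ∈ Subgroup.zpowers x ∧ x = a * b ∧
      (∃ n, PiNum π n ∧ a ^ n = 1) ∧ (∃ n, PiNum πᶜ n ∧ b ^ n = 1) := by
  obtain ⟨n, m, hn, hm, hN⟩ := nat_decomp π (orderOf x) (orderOf_pos x).ne'
  have hc : Nat.Coprime n m := PiNum.coprime (π := π) (σ := πᶜ) (fun q _ h1 h2 => h2 h1) hn hm
  obtain ⟨u, v, huv⟩ := (Nat.isCoprime_iff_coprime.2 hc)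
  have hx : x ^ (((n * m : ℕ)) : ℤ) = 1 := by
    rw [zpow_natCast, ← hN, pow_orderOf_eq_one]
  refine ⟨x ^ (v * (m : ℤ)), x ^ (u * (n : ℤ)), ⟨_, rfl⟩, ⟨_, rfl⟩, ?_, ⟨n, hn, ?_⟩, ⟨m, hm, ?_⟩⟩
  · rw [← zpow_add, add_comm, huv, zpow_one]
  · rw [← zpow_natCast, ← zpow_mul]
    have h1 : v * (m : ℤ) * (n : ℤ) = ((n * m : ℕ) : ℤ) * v := by push_cast; ring
    rw [h1, zpow_mul, hx, one_zpow]
  · rw [← zpow_natCast, ← zpow_mul]
    have h1 : u * (n : ℤ) * (m : ℤ) = ((n * m : ℕ) : ℤ) * u := by push_cast; ring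
    rw [h1, zpow_mul, hx, one_zpow]

end Pool.Agent.Lib.MP_ae9e3a_al
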