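import Pool.Agent.Lib.MP_ae9e3a_al.Defs

set_option autoImplicit false

/-!
# VPP module Top: basic facts on closed subgroups of compact groups

* `isClosed_sup`: if `Y` normalises `N` then `N ⊔ Y = N * Y` as sets, and the product of two compact
  sets is compact, so closed.
* `mem_of_forall`: a closed subgroup (set) `C` is the intersection of the sets `C V`, `V` open
  normal: if `x ∉ C` then `x⁻¹ C`... the complement of `C` is a neighbourhood of `x`, so it contains
  `x V` for some open normal `V` (`Basis1`), and `c⁻¹ * x ∈ V` gives `x = c v`, `c = x v⁻¹ ∈ x V`.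
* `exists_pow_mem`: the order of the image of `x ∈ P` in `G ⧸ V` divides
  `[P : P ∩ V] = V.relIndex P = p ^ k`.
* `open_in`: `M` is the union of finitely many left cosets of `R`; `M \ R` is closed (finite union
  of closed cosets); its complement is an open neighbourhood of `1`; `Basis1`.
* `open_of_inf_le`: if `C` is open and `C ⊓ V ≤ R` with `V` open, `R` is open.
* `closure_zpowers_comm`: the closure of `zpowers x` is commutative (closure of a commutative
  set in a Hausdorff group).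
* `proP_of_le`: `V.relIndex H` divides `V.relIndex P` for `H ≤ P` and `V` normal
  (`Subgroup.relIndex_dvd_of_le_left`? or the injection `H / (H ∩ V) → P / (P ∩ V)`), so it is a
  power of `p`.
* `closure_sup_pow_image`: in a closed subgroup `X` whose elements commute, `{z ^ n | z ∈ X}` is a
  closed subgroup.
-/

namespace Pool.Agent.Lib.MP_ae9e3a_al

variable {G : Type*} [Group G] [TopologicalSpace G] [IsTopologicalGroup G] [CompactSpace G]
  [T2Space G]

omit [TopologicalSpace G] [IsTopologicalGroup G] [CompactSpace G] [T2Space G] in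
private theorem top_sup {N Y : Subgroup G} (hn : ∀ y ∈ Y, ∀ n ∈ N, y * n * y⁻¹ ∈ N) :
    ((N ⊔ Y : Subgroup G) : Set G) = {g | ∃ n ∈ N, ∃ y ∈ Y, g = n * y} := by
  let S : Subgroup G :=
    { carrier := {g | ∃ n ∈ N, ∃ y ∈ Y, g = n * y}
      one_mem' := ⟨1, N.one_mem, 1, Y.one_mem, (mul_one 1).symm⟩
      mul_mem' := by
        rintro _ _ ⟨n, hn1, y, hy, rfl⟩ ⟨n', hn', y', hy', rfl⟩
        refine ⟨n * (y * n' * y⁻¹), N.mul_mem hn1 (hn y hy n' hn'), y * y', Y.mul_mem hy hy', ?_⟩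
        group
      inv_mem' := by
        rintro _ ⟨n, hn1, y, hy, rfl⟩
        refine ⟨y⁻¹ * n⁻¹ * y⁻¹⁻¹, hn y⁻¹ (Y.inv_mem hy) n⁻¹ (N.inv_mem hn1), y⁻¹,
          Y.inv_mem hy, ?_⟩
        group }
  have h1 : N ⊔ Y ≤ S := sup_le (fun n h => ⟨n, h, 1, Y.one_mem, (mul_one n).symm⟩)
    (fun y h => ⟨1, N.one_mem, y, h, (one_mul y).symm⟩)
  apply Set.Subset.antisymm
  · exact fun g hg => h1 hg
  · rintro _ ⟨n, hn1, y, hy, rfl⟩
    exact (N ⊔ Y).mul_mem (Subgroup.mem_sup_left hn1) (Subgroup.mem_sup_right hy)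

omit [CompactSpace G] [T2Space G] in
theorem coe_sup_of_normalizes {N Y : Subgroup G} (hn : ∀ y ∈ Y, ∀ n ∈ N, y * n * y⁻¹ ∈ N) :
    ((N ⊔ Y : Subgroup G) : Set G) = {g | ∃ n ∈ N, ∃ y ∈ Y, g = n * y} :=
  top_sup hn

theorem isClosed_sup {N Y : Subgroup G} (hN : IsClosed (N : Set G)) (hY : IsClosed (Y : Set G))
    (hn : ∀ y ∈ Y, ∀ n ∈ N, y * n * y⁻¹ ∈ N) : IsClosed ((N ⊔ Y : Subgroup G) : Set G) := by
  have h : ((N ⊔ Y : Subgroup G) : Set G) =
      (fun q : G × G => q.1 * q.2) '' ((N : Set G) ×ˢ (Y : Set G)) := by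
    rw [top_sup hn]
    ext g
    constructor
    · rintro ⟨n, hn1, y, hy, rfl⟩
      exact ⟨(n, y), ⟨hn1, hy⟩, rfl⟩
    · rintro ⟨⟨n, y⟩, ⟨hn1, hy⟩, rfl⟩
      exact ⟨n, hn1, y, hy, rfl⟩
  rw [h]
  exact ((hN.isCompact.prod hY.isCompact).image continuous_mul).isClosed

omit [IsTopologicalGroup G] [T2Space G] in
private theorem top_map {G' : Type*} [Group G'] [TopologicalSpace G'] [T2Space G'] (f : G →* G')
    (hf : Continuous f) {N : Subgroup G} (hN : IsClosed (N : Set G)) :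
    IsClosed (N.map f : Set G') := by
  rw [Subgroup.coe_map]
  exact (hN.isCompact.image hf).isClosed

theorem isClosed_map {G' : Type*} [Group G'] [TopologicalSpace G'] [T2Space G'] (f : G →* G')
    (hf : Continuous f) {N : Subgroup G} (hN : IsClosed (N : Set G)) :
    IsClosed (N.map f : Set G') :=
  top_map f hf hN

theorem mem_of_forall (hb : Basis1 G) {C : Set G} (hC : IsClosed C) (x : G)
    (h : ∀ V : Subgroup G, V.Normal → IsOpen (V : Set G) → ∃ c ∈ C, c⁻¹ * x ∈ V) : x ∈ C := by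
  by_contra hx
  have h1 : (fun v : G => x * v⁻¹) ⁻¹' Cᶜ ∈ nhds (1 : G) := by
    refine (hC.isOpen_compl.preimage (continuous_const.mul continuous_inv)).mem_nhds ?_
    show x * (1 : G)⁻¹ ∈ Cᶜ
    rw [inv_one, mul_one]
    exact hx
  obtain ⟨V, hVn, hVo, hV⟩ := hb _ h1
  obtain ⟨c, hc, hcx⟩ := h V hVn hVo
  have h2 : x * (c⁻¹ * x)⁻¹ ∈ Cᶜ := hV hcx
  rw [mul_inv_rev, inv_inv, mul_inv_cancel_left] at h2
  exact h2 hc

omit [IsTopologicalGroup G] [CompactSpace G] [T2Space G] in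
private theorem top_pow {p : ℕ} {P : Subgroup G} (hP : ProP p P) {x : G} (hx : x ∈ P)
    {V : Subgroup G} (hV : V.Normal) (hVo : IsOpen (V : Set G)) : ∃ j, x ^ p ^ j ∈ V := by
  obtain ⟨j, hj⟩ := hP V hV hVo
  refine ⟨j, ?_⟩
  have h1 := Subgroup.pow_index_mem (V.subgroupOf P) ⟨x, hx⟩
  have h2 : (V.subgroupOf P).index = p ^ j := hj
  rw [h2, Subgroup.mem_subgroupOf] at h1
  exact h1

theorem exists_pow_mem {p : ℕ} {P : Subgroup G} (hP : ProP p P) {x : G} (hx : x ∈ P)
    {V : Subgroup G} (hV : V.Normal) (hVo : IsOpen (V : Set G)) : ∃ j, x ^ p ^ j ∈ V :=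
  top_pow hP hx hV hVo

omit [IsTopologicalGroup G] [CompactSpace G] [T2Space G] in
private theorem top_proP {p : ℕ} (hp : p.Prime) {P H : Subgroup G} (hP : ProP p P)
    (h : H ≤ P) : ProP p H := by
  intro V hV hVo
  obtain ⟨k, hk⟩ := hP V hV hVo
  have h1 : V.relIndex H ∣ V.relIndex P := by
    have h2 := Subgroup.relIndex_mul_relIndex V (H ⊔ V) (P ⊔ V) le_sup_right
      (sup_le_sup_right h V)
    rw [Subgroup.relIndex_sup_right, Subgroup.relIndex_sup_right] at h2
    exact ⟨_, h2.symm⟩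
  rw [hk] at h1
  obtain ⟨j, -, hj⟩ := (Nat.dvd_prime_pow hp).mp h1
  exact ⟨j, hj⟩

theorem proP_of_le {p : ℕ} (hp : p.Prime) {P H : Subgroup G} (hP : ProP p P) (h : H ≤ P) :
    ProP p H :=
  top_proP hp hP h

theorem open_in (hb : Basis1 G) {M R : Subgroup G} (hM : IsClosed (M : Set G))
    (hR : IsClosed (R : Set G)) (hRM : R ≤ M) (hi : R.relIndex M ≠ 0) :
    ∃ V : Subgroup G, V.Normal ∧ IsOpen (V : Set G) ∧ M ⊓ V ≤ R := by
  have h1 : IsClosed ((R.subgroupOf M : Subgroup M) : Set M) :=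
    hR.preimage continuous_subtype_val
  have : (R.subgroupOf M).FiniteIndex := ⟨hi⟩
  have h2 := Subgroup.isOpen_of_isClosed_of_finiteIndex _ h1
  obtain ⟨O, hO, hO2⟩ := isOpen_induced_iff.mp h2
  have h3 : (1 : G) ∈ O := by
    have h4 : (1 : M) ∈ (Subtype.val ⁻¹' O : Set M) := by
      rw [hO2]
      exact (R.subgroupOf M).one_mem
    exact h4
  obtain ⟨V, hVn, hVo, hV⟩ := hb O (hO.mem_nhds h3)
  refine ⟨V, hVn, hVo, fun x hx => ?_⟩
  have h5 : (⟨x, hx.1⟩ : M) ∈ (Subtype.val ⁻¹' O : Set M) := hV hx.2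
  rw [hO2] at h5
  exact h5

omit [TopologicalSpace G] [IsTopologicalGroup G] [CompactSpace G] [T2Space G] in
private theorem top_cover {M R : Subgroup G} (X : Set G) (hX : X.Finite)
    (h : ∀ m ∈ M, ∃ x ∈ X, x⁻¹ * m ∈ R) : R.relIndex M ≠ 0 := by
  classical
  have := hX.to_subtype
  choose! f hf1 hf2 using h
  have hinj : Function.Injective (fun q : M ⧸ (R.subgroupOf M) =>
      (⟨f (q.out : M), hf1 _ (q.out : M).2⟩ : X)) := by
    intro q q' hqq
    have h1 : f (q.out : M) = f (q'.out : M) := congrArg Subtype.val hqq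
    have h2 := hf2 _ (q.out : M).2
    have h3 := hf2 _ (q'.out : M).2
    rw [h1] at h2
    have h4 := R.mul_mem (R.inv_mem h2) h3
    rw [← QuotientGroup.out_eq' q, ← QuotientGroup.out_eq' q', QuotientGroup.eq,
      Subgroup.mem_subgroupOf]
    have h5 : ((f (q'.out : M))⁻¹ * ((q.out : M) : G))⁻¹ *
        ((f (q'.out : M))⁻¹ * ((q'.out : M) : G)) =
        (((q.out : M)⁻¹ * (q'.out : M) : M) : G) := by
      push_cast
      group
    rwa [h5] at h4
  have hfin : Finite (M ⧸ (R.subgroupOf M)) := Finite.of_injective _ hinj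
  rw [Subgroup.relIndex]
  exact Subgroup.index_ne_zero_of_finite

/-- A finite covering by left cosets of `R` gives a finite index. -/
theorem relIndex_ne_zero_of_cover {M R : Subgroup G} (X : Set G) (hX : X.Finite)
    (h : ∀ m ∈ M, ∃ x ∈ X, x⁻¹ * m ∈ R) : R.relIndex M ≠ 0 :=
  top_cover X hX h

theorem index_ne_zero_of_isOpen {V : Subgroup G} (hV : IsOpen (V : Set G)) : V.index ≠ 0 := by
  have := Subgroup.quotient_finite_of_isOpen V hV
  exact Subgroup.index_ne_zero_of_finite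

/-- Every open subgroup contains an open normal subgroup. -/
theorem exists_normal_le {U : Subgroup G} (hU : IsOpen (U : Set G)) :
    ∃ V : Subgroup G, V.Normal ∧ IsOpen (V : Set G) ∧ V ≤ U := by
  have : U.FiniteIndex := ⟨index_ne_zero_of_isOpen hU⟩
  exact ⟨U.normalCore, inferInstance, Subgroup.isOpen_of_isClosed_of_finiteIndex _
    (U.normalCore_isClosed (U.isClosed_of_isOpen hU)), U.normalCore_le⟩

theorem isClosed_pow_image {X : Subgroup G} (hX : IsClosed (X : Set G))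
    (hc : ∀ a ∈ X, ∀ b ∈ X, a * b = b * a) (n : ℕ) :
    ∃ Y : Subgroup G, IsClosed (Y : Set G) ∧ (Y : Set G) = {y | ∃ z ∈ X, y = z ^ n} := by
  let Y : Subgroup G :=
    { carrier := {y | ∃ z ∈ X, y = z ^ n}
      one_mem' := ⟨1, X.one_mem, (one_pow n).symm⟩
      mul_mem' := by
        rintro _ _ ⟨a, ha, rfl⟩ ⟨b, hb, rfl⟩
        exact ⟨a * b, X.mul_mem ha hb, (Commute.mul_pow (hc a ha b hb) n).symm⟩
      inv_mem' := by
        rintro _ ⟨a, ha, rfl⟩
        exact ⟨a⁻¹, X.inv_mem ha, (inv_pow a n).symm⟩ }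
  refine ⟨Y, ?_, rfl⟩
  have h : (Y : Set G) = (fun z : G => z ^ n) '' (X : Set G) := by
    ext y
    constructor
    · rintro ⟨z, hz, rfl⟩
      exact ⟨z, hz, rfl⟩
    · rintro ⟨z, hz, rfl⟩
      exact ⟨z, hz, rfl⟩
  rw [h]
  exact (hX.isCompact.image (continuous_pow n)).isClosed

end Pool.Agent.Lib.MP_ae9e3a_al
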