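import Pool.Agent.Lib.MP_ae9e3a_al.N1
import Pool.Agent.Lib.MP_ae9e3a_al.Top

set_option autoImplicit false

/-!
# VPP module N2: the `π`-parts of a pronilpotent group

PROOFS. For `V` open normal let `Γ = G ⧸ V` (finite), `f = QuotientGroup.mk' V`, `P̄ = P.map f`
(nilpotent); `x ^ n ∈ V` iff `(f x) ^ n = 1`.
* `psub_subgroup`: closed under products: `nil_mul` in every `Γ`; inverses and `1`: clear; normal:
  conjugates of `x ^ n` (and `P`, `V` normal); closed: for every `V` the set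
  `{x | ∃ n, PiNum π n ∧ x ^ n ∈ V}` is a union of cosets of `V` (`(x v) ^ n ∈ x ^ n V`), so it is
  closed (the complement is a union of open cosets); intersection with the closed `P`.
* `psub_decomp`: for every `V` the set `E_V` of the pairs `(a, b)` with `a, b ∈ P`, `x⁻¹ * (a * b) ∈ V`,
  `a ^ n ∈ V` for some `(σ ∩ π)`-number `n`, `b ^ m ∈ V` for some `(σ \ π)`-number `m`, is closed in
  `G × G` (union of cosets of `V × V`, intersected with `P × P`), nonempty (`fin_decomp` for the image of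
  `x`, `a = x ^ i`, `b = x ^ j`; the order of the image of `x` is a `σ`-number, and `a`, `b` are powers
  of `x`: take gcd's of exponents), and `E_{V ⊓ V'} ⊆ E_V ∩ E_{V'}`; by compactness there is
  `(a, b) ∈ ⋂ E_V`; `x⁻¹ a b ∈ ⋂ V = 1`.
* `psub_disj`: for every `V`: `x ^ n ∈ V`, `x ^ m ∈ V` with `n`, `m` coprime (`PiNum.coprime`), so
  `x ∈ V`; `⋂ V = 1` (`Basis1`, Hausdorff).
* `psub_comm`: `nil_comm` in every `G ⧸ V`.
* `psub_mono`: clear. `psub_univ`: the order of the image of `x` in the finite `G ⧸ V`.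
-/

namespace Pool.Agent.Lib.MP_ae9e3a_al

/-- `P` is pronilpotent: its images in the finite quotients of `G` are nilpotent. -/
def PNilp {G : Type*} [Group G] [TopologicalSpace G] (P : Subgroup G) : Prop :=
  ∀ (V : Subgroup G) [V.Normal], IsOpen (V : Set G) →
    Group.IsNilpotent ↥(P.map (QuotientGroup.mk' V))

/-- The set of the `π`-elements of `P`. -/
def PSub {G : Type*} [Group G] [TopologicalSpace G] (P : Subgroup G) (π : Set ℕ) : Set G :=
  {x | x ∈ P ∧ ∀ V : Subgroup G, V.Normal → IsOpen (V : Set G) → ∃ n, PiNum π n ∧ x ^ n ∈ V}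

variable {G : Type*} [Group G] [TopologicalSpace G] [IsTopologicalGroup G] [CompactSpace G]
  [T2Space G]

omit [CompactSpace G] [T2Space G] in
private theorem closed_of_coset {V : Subgroup G} (hV : IsOpen (V : Set G)) {E : Set G}
    (h : ∀ x, ∀ v ∈ V, (x * v ∈ E ↔ x ∈ E)) : IsClosed E := by
  rw [← isOpen_compl_iff, isOpen_iff_forall_mem_open]
  intro x hx
  refine ⟨(fun y => x⁻¹ * y) ⁻¹' (V : Set G), ?_, hV.preimage (continuous_const.mul continuous_id), ?_⟩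
  · intro y hy hyE
    apply hx
    have h1 := h y (x⁻¹ * y)⁻¹ (V.inv_mem hy)
    rw [mul_inv_rev, inv_inv, ← mul_assoc, mul_inv_cancel, one_mul] at h1
    exact h1.2 hyE
  · show x⁻¹ * x ∈ V
    rw [inv_mul_cancel]
    exact V.one_mem

omit [TopologicalSpace G] [IsTopologicalGroup G] [CompactSpace G] [T2Space G] in
private theorem pow_mem_iff (V : Subgroup G) [V.Normal] (x : G) (n : ℕ) :
    x ^ n ∈ V ↔ (QuotientGroup.mk' V x) ^ n = 1 := by
  rw [← map_pow]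
  exact (QuotientGroup.eq_one_iff _).symm

omit [TopologicalSpace G] [IsTopologicalGroup G] [CompactSpace G] [T2Space G] in
private theorem mk_mul_mem (V : Subgroup G) [V.Normal] (x v : G) (hv : v ∈ V) :
    QuotientGroup.mk' V (x * v) = QuotientGroup.mk' V x := by
  have h : QuotientGroup.mk' V v = 1 := (QuotientGroup.eq_one_iff v).2 hv
  rw [map_mul, h, mul_one]

private theorem closed_pi (V : Subgroup G) (hVn : V.Normal) (hV : IsOpen (V : Set G)) (π : Set ℕ) :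
    IsClosed {x : G | ∃ n, PiNum π n ∧ x ^ n ∈ V} := by
  have := hVn
  apply closed_of_coset hV
  intro x v hv
  show (∃ n, PiNum π n ∧ (x * v) ^ n ∈ V) ↔ (∃ n, PiNum π n ∧ x ^ n ∈ V)
  simp only [pow_mem_iff, mk_mul_mem V x v hv]

private theorem piNum_one (π : Set ℕ) : PiNum π 1 :=
  ⟨one_ne_zero, fun q hq hd => absurd (Nat.dvd_one.1 hd) hq.one_lt.ne'⟩

private theorem eq_one_of_forall (hb : Basis1 G) {z : G}
    (h : ∀ V : Subgroup G, V.Normal → IsOpen (V : Set G) → z ∈ V) : z = 1 := by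
  have h1 := mem_of_forall hb (C := {(1 : G)}) isClosed_singleton z (by
    intro V hVn hVo
    exact ⟨1, rfl, by rw [inv_one, one_mul]; exact h V hVn hVo⟩)
  exact h1

theorem psub_subgroup {P : Subgroup G} (hPn : P.Normal) (hPc : IsClosed (P : Set G))
    (hP : PNilp P) (π : Set ℕ) :
    ∃ N : Subgroup G, (N : Set G) = PSub P π ∧ N.Normal ∧ IsClosed (N : Set G) := by
  let N : Subgroup G :=
    { carrier := PSub P π
      one_mem' := ⟨P.one_mem, fun V _ _ => ⟨1, piNum_one π, by rw [one_pow]; exact V.one_mem⟩⟩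
      mul_mem' := by
        rintro x y ⟨hx, hx'⟩ ⟨hy, hy'⟩
        refine ⟨P.mul_mem hx hy, fun V hVn hVo => ?_⟩
        have := Subgroup.quotient_finite_of_isOpen V hVo
        obtain ⟨n, hn, hxn⟩ := hx' V hVn hVo
        obtain ⟨m, hm, hym⟩ := hy' V hVn hVo
        rw [pow_mem_iff] at hxn hym
        obtain ⟨k, hk, hk'⟩ := nil_mul (hP V hVo) (π := π) (x := QuotientGroup.mk' V x)
          (y := QuotientGroup.mk' V y) ⟨x, hx, rfl⟩ ⟨y, hy, rfl⟩ ⟨n, hn, hxn⟩ ⟨m, hm, hym⟩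
        refine ⟨k, hk, ?_⟩
        rw [pow_mem_iff, map_mul]
        exact hk'
      inv_mem' := by
        rintro x ⟨hx, hx'⟩
        refine ⟨P.inv_mem hx, fun V hVn hVo => ?_⟩
        obtain ⟨n, hn, hxn⟩ := hx' V hVn hVo
        exact ⟨n, hn, by rw [inv_pow]; exact V.inv_mem hxn⟩ }
  refine ⟨N, rfl, ⟨?_⟩, ?_⟩
  · rintro x ⟨hx, hx'⟩ g
    refine ⟨hPn.conj_mem x hx g, fun V hVn hVo => ?_⟩
    obtain ⟨n, hn, hxn⟩ := hx' V hVn hVo
    exact ⟨n, hn, by rw [conj_pow]; exact hVn.conj_mem _ hxn g⟩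
  · have h1 : (N : Set G) = (P : Set G) ∩ ⋂ (V : Subgroup G) (_ : V.Normal) (_ : IsOpen (V : Set G)),
        {x : G | ∃ n, PiNum π n ∧ x ^ n ∈ V} := by
      ext x
      simp only [Set.mem_inter_iff, Set.mem_iInter, Set.mem_setOf_eq]
      exact Iff.rfl
    rw [h1]
    refine hPc.inter (isClosed_iInter fun V => isClosed_iInter fun hVn => isClosed_iInter fun hVo => ?_)
    exact closed_pi V hVn hVo π

theorem psub_decomp (hb : Basis1 G) {P : Subgroup G} (hPc : IsClosed (P : Set G))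
    (π σ : Set ℕ) : ∀ x ∈ PSub P σ, ∃ a ∈ PSub P (σ ∩ π), ∃ b ∈ PSub P (σ \ π), x = a * b := by
  rintro x ⟨hx, hx'⟩
  let ι := {V : Subgroup G // V.Normal ∧ IsOpen (V : Set G)}
  let E : ι → Set (G × G) := fun V =>
    {q | q.1 ∈ P ∧ q.2 ∈ P ∧ x⁻¹ * (q.1 * q.2) ∈ V.1 ∧ (∃ n, PiNum (σ ∩ π) n ∧ q.1 ^ n ∈ V.1) ∧
      ∃ n, PiNum (σ \ π) n ∧ q.2 ^ n ∈ V.1}
  have hclosed : ∀ V, IsClosed (E V) := by
    intro V
    have h1 : IsClosed {q : G × G | q.1 ∈ P} := hPc.preimage continuous_fst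
    have h2 : IsClosed {q : G × G | q.2 ∈ P} := hPc.preimage continuous_snd
    have h3 : IsClosed {q : G × G | x⁻¹ * (q.1 * q.2) ∈ V.1} :=
      (V.1.isClosed_of_isOpen V.2.2).preimage (continuous_const.mul (continuous_fst.mul continuous_snd))
    have h4 : IsClosed {q : G × G | ∃ n, PiNum (σ ∩ π) n ∧ q.1 ^ n ∈ V.1} :=
      (closed_pi V.1 V.2.1 V.2.2 (σ ∩ π)).preimage continuous_fst
    have h5 : IsClosed {q : G × G | ∃ n, PiNum (σ \ π) n ∧ q.2 ^ n ∈ V.1} :=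
      (closed_pi V.1 V.2.1 V.2.2 (σ \ π)).preimage continuous_snd
    exact h1.inter (h2.inter (h3.inter (h4.inter h5)))
  have hdir : Directed (fun s t => s ⊇ t) E := by
    intro V V'
    have := V.2.1
    have := V'.2.1
    refine ⟨⟨V.1 ⊓ V'.1, inferInstance, V.2.2.inter V'.2.2⟩, ?_, ?_⟩
    · rintro q ⟨h1, h2, h3, ⟨n, h4, h5⟩, m, h6, h7⟩
      exact ⟨h1, h2, h3.1, ⟨n, h4, h5.1⟩, m, h6, h7.1⟩
    · rintro q ⟨h1, h2, h3, ⟨n, h4, h5⟩, m, h6, h7⟩
      exact ⟨h1, h2, h3.2, ⟨n, h4, h5.2⟩, m, h6, h7.2⟩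
  have hne : ∀ V, (E V).Nonempty := by
    intro V
    have hVn := V.2.1
    have := Subgroup.quotient_finite_of_isOpen V.1 V.2.2
    obtain ⟨s, hs, hxs⟩ := hx' V.1 V.2.1 V.2.2
    obtain ⟨a, b, ⟨i, hi⟩, ⟨j, hj⟩, hab, ⟨n, hn, han⟩, m, hm, hbm⟩ := fin_decomp π (QuotientGroup.mk' V.1 x)
    have hi' : QuotientGroup.mk' V.1 (x ^ i) = a := by rw [map_zpow]; exact hi
    have hj' : QuotientGroup.mk' V.1 (x ^ j) = b := by rw [map_zpow]; exact hj
    have hgcd : ∀ (y : G) (u v : ℕ), y ^ u ∈ V.1 → y ^ v ∈ V.1 → y ^ (u.gcd v) ∈ V.1 := by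
      intro y u v hu hv
      rw [pow_mem_iff] at hu hv ⊢
      exact pow_gcd_eq_one.2 ⟨hu, hv⟩
    have hxi : ∀ i : ℤ, (x ^ i) ^ s ∈ V.1 := by
      intro i
      have h1 : (x ^ i) ^ s = (x ^ s) ^ i := by
        rw [← zpow_natCast, ← zpow_natCast, ← zpow_mul, ← zpow_mul, mul_comm]
      rw [h1]
      exact V.1.zpow_mem hxs i
    refine ⟨(x ^ i, x ^ j), P.zpow_mem hx i, P.zpow_mem hx j, ?_, ⟨Nat.gcd n s, ⟨?_, ?_⟩, ?_⟩,
      Nat.gcd m s, ⟨?_, ?_⟩, ?_⟩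
    · have h1 : QuotientGroup.mk' V.1 (x⁻¹ * (x ^ i * x ^ j)) = 1 := by
        rw [map_mul, map_mul, map_inv, hi', hj', ← hab, inv_mul_cancel]
      exact (QuotientGroup.eq_one_iff _).1 h1
    · exact Nat.gcd_ne_zero_left hn.1
    · intro q hq hd
      exact ⟨hs.2 q hq (hd.trans (Nat.gcd_dvd_right n s)), hn.2 q hq (hd.trans (Nat.gcd_dvd_left n s))⟩
    · apply hgcd _ _ _ _ (hxi i)
      rw [pow_mem_iff, hi']
      exact han
    · exact Nat.gcd_ne_zero_left hm.1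
    · intro q hq hd
      exact ⟨hs.2 q hq (hd.trans (Nat.gcd_dvd_right m s)), hm.2 q hq (hd.trans (Nat.gcd_dvd_left m s))⟩
    · apply hgcd _ _ _ _ (hxi j)
      rw [pow_mem_iff, hj']
      exact hbm
  have hI : Nonempty ι := ⟨⟨⊤, inferInstance, isOpen_univ⟩⟩
  obtain ⟨⟨a, b⟩, hq⟩ := IsCompact.nonempty_iInter_of_directed_nonempty_isCompact_isClosed E hdir hne
    (fun V => (hclosed V).isCompact) hclosed
  rw [Set.mem_iInter] at hq
  refine ⟨a, ⟨(hq hI.some).1, fun V hVn hVo => (hq ⟨V, hVn, hVo⟩).2.2.2.1⟩,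
    b, ⟨(hq hI.some).2.1, fun V hVn hVo => (hq ⟨V, hVn, hVo⟩).2.2.2.2⟩, ?_⟩
  have h1 : x⁻¹ * (a * b) = 1 := eq_one_of_forall hb fun V hVn hVo => (hq ⟨V, hVn, hVo⟩).2.2.1
  exact (inv_mul_eq_one.1 h1)

theorem psub_disj (hb : Basis1 G) {P : Subgroup G} {π σ : Set ℕ}
    (hd : ∀ q : ℕ, q.Prime → q ∈ π → q ∈ σ → False) {x : G} (h1 : x ∈ PSub P π)
    (h2 : x ∈ PSub P σ) : x = 1 := by
  apply eq_one_of_forall hb
  intro V hVn hVo
  obtain ⟨n, hn, hxn⟩ := h1.2 V hVn hVo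
  obtain ⟨m, hm, hxm⟩ := h2.2 V hVn hVo
  have hc : Nat.Coprime n m := PiNum.coprime hd hn hm
  rw [pow_mem_iff] at hxn hxm
  have h3 := pow_gcd_eq_one.2 ⟨hxn, hxm⟩
  rw [hc, pow_one] at h3
  exact (QuotientGroup.eq_one_iff _).1 h3

theorem psub_comm (hb : Basis1 G) {P : Subgroup G} (hP : PNilp P) {π σ : Set ℕ}
    (hd : ∀ q : ℕ, q.Prime → q ∈ π → q ∈ σ → False) {x y : G} (h1 : x ∈ PSub P π)
    (h2 : y ∈ PSub P σ) : x * y = y * x := by
  have h3 : x * y * (y * x)⁻¹ = 1 := by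
    apply eq_one_of_forall hb
    intro V hVn hVo
    have := Subgroup.quotient_finite_of_isOpen V hVo
    obtain ⟨n, hn, hxn⟩ := h1.2 V hVn hVo
    obtain ⟨m, hm, hym⟩ := h2.2 V hVn hVo
    rw [pow_mem_iff] at hxn hym
    have h4 := nil_comm (hP V hVo) hd (x := QuotientGroup.mk' V x) (y := QuotientGroup.mk' V y)
      ⟨x, h1.1, rfl⟩ ⟨y, h2.1, rfl⟩ ⟨n, hn, hxn⟩ ⟨m, hm, hym⟩
    have h5 : QuotientGroup.mk' V (x * y * (y * x)⁻¹) = 1 := by
      rw [map_mul, map_inv, map_mul, map_mul, h4, mul_inv_cancel]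
    exact (QuotientGroup.eq_one_iff _).1 h5
  exact mul_inv_eq_one.1 h3

omit [IsTopologicalGroup G] [CompactSpace G] [T2Space G] in
theorem psub_mono {P : Subgroup G} {π σ : Set ℕ}
    (h : ∀ q : ℕ, q.Prime → q ∈ π → q ∈ σ) : PSub P π ⊆ PSub P σ := by
  rintro x ⟨hx, hx'⟩
  refine ⟨hx, fun V hVn hVo => ?_⟩
  obtain ⟨n, hn, hxn⟩ := hx' V hVn hVo
  exact ⟨n, ⟨hn.1, fun q hq hd => h q hq (hn.2 q hq hd)⟩, hxn⟩

theorem psub_univ {P : Subgroup G} : PSub P Set.univ = (P : Set G) := by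
  ext x
  refine ⟨fun h => h.1, fun hx => ⟨hx, fun V hVn hVo => ?_⟩⟩
  exact ⟨V.index, ⟨index_ne_zero_of_isOpen hVo, fun _ _ _ => Set.mem_univ _⟩, V.pow_index_mem x⟩

end Pool.Agent.Lib.MP_ae9e3a_al
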