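import Pool.Agent.Lib.MP_ae9e3a_al.N2
import Pool.Agent.Lib.MP_ae9e3a_al.Cent

set_option autoImplicit false

/-!
# VPP module N3: for almost all `p` the `p`-part of a pronilpotent open subgroup is marginal

PROOF. Suppose that the set is infinite. For each `p` in it choose `g, d` with `d i ∈ PSub P {p}` and
`w(g d) ≠ w(g)`. `P` has finite index: fix a function `c : G → G` choosing representatives of the left
cosets `g P` (finitely many), so there are a tuple `c` and an INFINITE set `𝒫` of primes such that for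
`p ∈ 𝒫` the tuple `g` may be written `g i = c i * x i`, `x i ∈ P`. Let `R_p` be the normal subgroup with
carrier `PSub P {p}ᶜ` (`psub_subgroup`). Write `x i = a i * b i`, `a i ∈ PSub P {p}`, `b i ∈ R_p`
(`psub_univ`, `psub_decomp`). Modulo `R_p`: `w(g) ≡ w(c a)`, `w(g d) ≡ w(c (a d))`
(`c a b d = c a d (d⁻¹ b d)`; if `u i⁻¹ v i ∈ R` for all `i`, `R` normal, then `w(u)⁻¹ w(v) ∈ R`: apply
`map_lift` with `QuotientGroup.mk' R`). Also `w(g)⁻¹ w(g d) ∈ PSub P {p}` (same lemma for the normal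
subgroup `PSub P {p}`), it is not `1`, so it is not in `R_p` (`psub_disj`). Hence with `y⁰ = a`,
`y¹ = a d` (both in `PSub P {p}`): `w(c y⁰) ≢ w(c y¹)` modulo `R_p`.
For `ε : 𝒫 → Bool` there is `x_ε : Fin k → P` with `(x_ε i)⁻¹ * y_p^{ε p} i ∈ R_p` for all `p ∈ 𝒫`: by
compactness (the sets `y R_p` are closed) it is enough to treat finite subsets `F` of `𝒫`, and there the
product `∏_{q ∈ F} y_q^{ε q} i` (in any order, a list) works, because `y_q ∈ PSub P {q} ⊆ R_p` for
`q ≠ p` (`psub_mono`) and `G ⧸ R_p` kills these factors. Then `w(c x_ε) ≡ w(c y_p^{ε p})` modulo `R_p`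
for all `p ∈ 𝒫`, so `ε ↦ w(c x_ε)` is injective from `𝒫 → Bool` to `vals w G`; `𝒫` is countably
infinite, so `𝔠 = 2 ^ ℵ₀ ≤ #(vals w G)`, a contradiction.
-/

namespace Pool.Agent.Lib.MP_ae9e3a_al

open Cardinal

private theorem n3_cong {G : Type*} [Group G] (R : Subgroup G) (hR : R.Normal) {k : ℕ}
    (w : FreeGroup (Fin k)) (u v : Fin k → G) (h : ∀ i, (u i)⁻¹ * v i ∈ R) :
    (FreeGroup.lift u w)⁻¹ * FreeGroup.lift v w ∈ R := by
  rw [← QuotientGroup.eq]
  have h1 := map_lift (QuotientGroup.mk' R) w u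
  have h2 := map_lift (QuotientGroup.mk' R) w v
  have h3 : (fun i => QuotientGroup.mk' R (u i)) = fun i => QuotientGroup.mk' R (v i) :=
    funext fun i => QuotientGroup.eq.2 (h i)
  rw [h3] at h1
  exact h1.trans h2.symm

private theorem n3_crt {G ι : Type*} [Group G] [TopologicalSpace G] [IsTopologicalGroup G]
    [CompactSpace G] (R Q : ι → Subgroup G) (hR : ∀ i, (R i).Normal)
    (hRc : ∀ i, IsClosed (R i : Set G)) (hQ : ∀ i j, i ≠ j → Q i ≤ R j) (z : ι → G)
    (hz : ∀ i, z i ∈ Q i) : ∃ x : G, ∀ i, x⁻¹ * z i ∈ R i := by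
  classical
  have hfin : ∀ F : Finset ι, ∃ x : G, (∀ i ∈ F, x⁻¹ * z i ∈ R i) ∧ ∀ i, i ∉ F → x ∈ R i := by
    intro F
    induction F using Finset.induction_on with
    | empty => exact ⟨1, fun i hi => absurd hi (Finset.notMem_empty i), fun i _ => one_mem _⟩
    | insert j F hj ih =>
      obtain ⟨x, hx1, hx2⟩ := ih
      refine ⟨x * z j, ?_, ?_⟩
      · intro i hi
        by_cases hij : i = j
        · subst hij
          have h1 := (hR i).conj_mem x⁻¹ (inv_mem (hx2 i hj)) (z i)⁻¹
          rw [inv_inv] at h1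
          rwa [mul_inv_rev]
        · have h1 : i ∈ F := (Finset.mem_insert.1 hi).resolve_left hij
          have h2 : z j ∈ R i := hQ j i (fun e => hij e.symm) (hz j)
          rw [mul_inv_rev, mul_assoc]
          exact mul_mem (inv_mem h2) (hx1 i h1)
      · intro i hi
        rw [Finset.mem_insert, not_or] at hi
        exact mul_mem (hx2 i hi.2) (hQ j i (fun e => hi.1 e.symm) (hz j))
  have h1 := IsCompact.inter_iInter_nonempty (isCompact_univ : IsCompact (Set.univ : Set G))
    (fun i => {x : G | x⁻¹ * z i ∈ R i})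
    (fun i => (hRc i).preimage (continuous_inv.mul continuous_const)) (by
      intro F
      obtain ⟨x, hx1, _⟩ := hfin F
      exact ⟨x, Set.mem_univ x, Set.mem_iInter₂.2 fun i hi => hx1 i hi⟩)
  obtain ⟨x, _, hx⟩ := h1
  exact ⟨x, fun i => Set.mem_iInter.1 hx i⟩

theorem marginal_almost {G : Type*} [Group G] [TopologicalSpace G] [IsTopologicalGroup G]
    [CompactSpace G] [T2Space G] (hb : Basis1 G) {P : Subgroup G} (hPn : P.Normal)
    (hPo : IsOpen (P : Set G)) (hP : PNilp P) {k : ℕ} (w : FreeGroup (Fin k))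
    (h : #(vals w G) < 𝔠) :
    {p : ℕ | p.Prime ∧ ¬ ∀ g d : Fin k → G, (∀ i, d i ∈ PSub P {p}) →
      FreeGroup.lift (fun i => g i * d i) w = FreeGroup.lift g w}.Finite := by
  classical
  by_contra hinf
  set B : Set ℕ := {p : ℕ | p.Prime ∧ ¬ ∀ g d : Fin k → G, (∀ i, d i ∈ PSub P {p}) →
      FreeGroup.lift (fun i => g i * d i) w = FreeGroup.lift g w} with hB
  have hBi : Infinite B := Set.infinite_coe_iff.2 hinf
  have hPc : IsClosed (P : Set G) := P.isClosed_of_isOpen hPo
  have hfinQ : Finite (G ⧸ P) := Subgroup.quotient_finite_of_isOpen P hPo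
  have hbad : ∀ p : B, ∃ g d : Fin k → G, (∀ i, d i ∈ PSub P {(p : ℕ)}) ∧
      FreeGroup.lift (fun i => g i * d i) w ≠ FreeGroup.lift g w := by
    intro p
    have h1 := p.2.2
    push Not at h1
    exact h1
  choose g d hd hne using hbad
  obtain ⟨y, hy⟩ := Finite.exists_infinite_fiber
    (fun p : B => (fun i => (QuotientGroup.mk (g p i) : G ⧸ P)))
  let I : Type := ((fun p : B => (fun i => (QuotientGroup.mk (g p i) : G ⧸ P))) ⁻¹' {y} : Set B)
  have hI : Infinite I := hy
  let pr : I → ℕ := fun p => ((p : B) : ℕ)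
  have hprp : ∀ p : I, (pr p).Prime := fun p => p.1.2.1
  have hprinj : ∀ p q : I, p ≠ q → pr p ≠ pr q := fun p q hpq e =>
    hpq (Subtype.ext (Subtype.ext e))
  let c : Fin k → G := fun i => (y i).out
  have hx : ∀ (p : I) (i : Fin k), (c i)⁻¹ * g p.1 i ∈ P := by
    intro p i
    rw [← QuotientGroup.eq]
    have h1 : (QuotientGroup.mk (g p.1 i) : G ⧸ P) = y i := congrFun (show _ = y from p.2) i
    rw [h1]
    exact QuotientGroup.out_eq' (y i)
  have hR : ∀ p : I, ∃ N : Subgroup G, (N : Set G) = PSub P {pr p}ᶜ ∧ N.Normal ∧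
      IsClosed (N : Set G) := fun p => psub_subgroup hPn hPc hP _
  have hQ : ∀ p : I, ∃ N : Subgroup G, (N : Set G) = PSub P {pr p} ∧ N.Normal ∧
      IsClosed (N : Set G) := fun p => psub_subgroup hPn hPc hP _
  choose R hR1 hR2 hR3 using hR
  choose Q hQ1 hQ2 hQ3 using hQ
  have hRm : ∀ p x, x ∈ R p ↔ x ∈ PSub P {pr p}ᶜ := fun p x => by rw [← hR1]; rfl
  have hQm : ∀ p x, x ∈ Q p ↔ x ∈ PSub P {pr p} := fun p x => by rw [← hQ1]; rfl
  have hQR : ∀ p q : I, p ≠ q → Q p ≤ R q := by
    intro p q hpq x hx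
    rw [hQm] at hx
    rw [hRm]
    refine psub_mono ?_ hx
    intro r _ hr
    rw [Set.mem_singleton_iff] at hr
    rw [Set.mem_compl_iff, Set.mem_singleton_iff, hr]
    exact hprinj p q hpq
  have hdisj : ∀ (p : I) x, x ∈ Q p → x ∈ R p → x = 1 := by
    intro p x h1 h2
    exact psub_disj hb (π := {pr p}) (σ := {pr p}ᶜ) (fun q _ h3 h4 => h4 h3) ((hQm p x).1 h1)
      ((hRm p x).1 h2)
  have hdec : ∀ (p : I) (i : Fin k), ∃ a b, a ∈ Q p ∧ b ∈ R p ∧ (c i)⁻¹ * g p.1 i = a * b := by
    intro p i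
    have h1 : (c i)⁻¹ * g p.1 i ∈ PSub P Set.univ := by
      rw [psub_univ]
      exact hx p i
    obtain ⟨a, ha, b, hb', hab⟩ := psub_decomp hb hPc {pr p} Set.univ _ h1
    rw [Set.univ_inter] at ha
    rw [← Set.compl_eq_univ_sdiff] at hb'
    exact ⟨a, b, (hQm _ _).2 ha, (hRm _ _).2 hb', hab⟩
  choose a b ha hb' hab using hdec
  have hg : ∀ (p : I) i, g p.1 i = c i * a p i * b p i := by
    intro p i
    rw [mul_assoc, ← hab, mul_inv_cancel_left]
  have hdQ : ∀ (p : I) i, d p.1 i ∈ Q p := fun p i => (hQm p _).2 (hd p.1 i)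
  -- the two tuples
  let Y : I → Bool → Fin k → G := fun p e i => if e then a p i * d p.1 i else a p i
  have hY : ∀ p e i, Y p e i ∈ Q p := by
    intro p e i
    show (if e then a p i * d p.1 i else a p i) ∈ Q p
    split_ifs
    · exact mul_mem (ha p i) (hdQ p i)
    · exact ha p i
  have hkey : ∀ p : I, (FreeGroup.lift (fun i => c i * Y p false i) w)⁻¹ *
      FreeGroup.lift (fun i => c i * Y p true i) w ∉ R p := by
    intro p hmem
    have e0 : (FreeGroup.lift (g p.1) w)⁻¹ * FreeGroup.lift (fun i => c i * Y p false i) w ∈ R p := by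
      refine n3_cong (R p) (hR2 p) w _ _ fun i => ?_
      show (g p.1 i)⁻¹ * (c i * a p i) ∈ R p
      rw [hg]
      have : (c i * a p i * b p i)⁻¹ * (c i * a p i) = (b p i)⁻¹ := by group
      rw [this]
      exact inv_mem (hb' p i)
    have e1 : (FreeGroup.lift (fun i => c i * Y p true i) w)⁻¹ *
        FreeGroup.lift (fun i => g p.1 i * d p.1 i) w ∈ R p := by
      refine n3_cong (R p) (hR2 p) w _ _ fun i => ?_
      show (c i * (a p i * d p.1 i))⁻¹ * (g p.1 i * d p.1 i) ∈ R p
      rw [hg]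
      have : (c i * (a p i * d p.1 i))⁻¹ * (c i * a p i * b p i * d p.1 i) =
          (d p.1 i)⁻¹ * b p i * (d p.1 i)⁻¹⁻¹ := by group
      rw [this]
      exact (hR2 p).conj_mem _ (hb' p i) _
    have e2 : (FreeGroup.lift (g p.1) w)⁻¹ * FreeGroup.lift (fun i => g p.1 i * d p.1 i) w ∈ Q p := by
      refine n3_cong (Q p) (hQ2 p) w _ _ fun i => ?_
      rw [inv_mul_cancel_left]
      exact hdQ p i
    have e3 : (FreeGroup.lift (g p.1) w)⁻¹ * FreeGroup.lift (fun i => g p.1 i * d p.1 i) w ∈ R p := by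
      have := mul_mem (mul_mem e0 hmem) e1
      have e4 : (FreeGroup.lift (g p.1) w)⁻¹ * FreeGroup.lift (fun i => c i * Y p false i) w *
          ((FreeGroup.lift (fun i => c i * Y p false i) w)⁻¹ *
            FreeGroup.lift (fun i => c i * Y p true i) w) *
          ((FreeGroup.lift (fun i => c i * Y p true i) w)⁻¹ *
            FreeGroup.lift (fun i => g p.1 i * d p.1 i) w) =
          (FreeGroup.lift (g p.1) w)⁻¹ * FreeGroup.lift (fun i => g p.1 i * d p.1 i) w := by group
      rwa [e4] at this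
    have e5 := hdisj p _ e2 e3
    exact hne p.1 (inv_mul_eq_one.1 e5).symm
  have hX : ∀ (ε : I → Bool), ∃ x : Fin k → G, ∀ i (p : I), (x i)⁻¹ * Y p (ε p) i ∈ R p := by
    intro ε
    have h1 : ∀ i : Fin k, ∃ x : G, ∀ p : I, x⁻¹ * Y p (ε p) i ∈ R p := fun i =>
      n3_crt R Q hR2 hR3 hQR (fun p => Y p (ε p) i) fun p => hY p (ε p) i
    choose x hx using h1
    exact ⟨x, hx⟩
  choose X hX using hX
  have hXw : ∀ (ε : I → Bool) (p : I), (FreeGroup.lift (fun i => c i * X ε i) w)⁻¹ *
      FreeGroup.lift (fun i => c i * Y p (ε p) i) w ∈ R p := by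
    intro ε p
    refine n3_cong (R p) (hR2 p) w _ _ fun i => ?_
    have : (c i * X ε i)⁻¹ * (c i * Y p (ε p) i) = (X ε i)⁻¹ * Y p (ε p) i := by group
    rw [this]
    exact hX ε i p
  let Φ : (I → Bool) → vals w G := fun ε =>
    ⟨FreeGroup.lift (fun i => c i * X ε i) w, ⟨fun i => c i * X ε i, rfl⟩⟩
  have hΦ : Function.Injective Φ := by
    intro ε ε' he
    by_contra hne'
    obtain ⟨p, hp⟩ := Function.ne_iff.1 hne'
    have he' : FreeGroup.lift (fun i => c i * X ε i) w = FreeGroup.lift (fun i => c i * X ε' i) w :=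
      congrArg Subtype.val he
    have h1 := hXw ε p
    have h2 := hXw ε' p
    rw [he'] at h1
    have h3 : (FreeGroup.lift (fun i => c i * Y p (ε p) i) w)⁻¹ *
        FreeGroup.lift (fun i => c i * Y p (ε' p) i) w ∈ R p := by
      have := mul_mem (inv_mem h1) h2
      have e4 : ((FreeGroup.lift (fun i => c i * X ε' i) w)⁻¹ *
          FreeGroup.lift (fun i => c i * Y p (ε p) i) w)⁻¹ *
          ((FreeGroup.lift (fun i => c i * X ε' i) w)⁻¹ *
          FreeGroup.lift (fun i => c i * Y p (ε' p) i) w) =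
          (FreeGroup.lift (fun i => c i * Y p (ε p) i) w)⁻¹ *
        FreeGroup.lift (fun i => c i * Y p (ε' p) i) w := by group
      rwa [e4] at this
    cases hε : ε p with
    | false =>
      cases hε' : ε' p with
      | false => exact hp (by rw [hε, hε'])
      | true =>
        rw [hε, hε'] at h3
        exact hkey p h3
    | true =>
      cases hε' : ε' p with
      | false =>
        rw [hε, hε'] at h3
        have h4 := inv_mem h3
        rw [mul_inv_rev, inv_inv] at h4
        exact hkey p h4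
      | true => exact hp (by rw [hε, hε'])
  have hcard := Cardinal.lift_mk_le_lift_mk_of_injective hΦ
  have h1 : (𝔠 : Cardinal.{0}) ≤ #(I → Bool) := by
    rw [← Cardinal.power_def, Cardinal.mk_bool, ← Cardinal.two_power_aleph0]
    exact Cardinal.power_le_power_left two_ne_zero (Cardinal.aleph0_le_mk I)
  have h2 := Cardinal.lift_le.2 h1
  have h3 := h2.trans hcard
  rw [Cardinal.lift_continuum, Cardinal.lift_uzero] at h3
  exact absurd h (not_lt.2 h3)

end Pool.Agent.Lib.MP_ae9e3a_al
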