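import Mathlib

set_option autoImplicit false

/-!
# VPP module PowLem: the operators `a ^ p - 1` and `a ^ (p ^ 2) - 1` on a filtration

PROOF. Put `N = a - 1` (an element of `AddMonoid.End V`, or just prove the formula
`a ^ n • x = ∑ i in range (n+1), n.choose i • N^[i] x` by induction on `n`; or use
`(1 + N) ^ n = ∑ ...` = `Commute.add_pow` in the ring `AddMonoid.End V`). For `x ∈ E k` one has
`N^i x ∈ E' (k + i)` for all `i ≥ 1` (induction, `h1` then `h2`). So
`a ^ n • x - x = ∑_{1 ≤ i ≤ n} n.choose i • N^i x`.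
For `n = p`: `1 ≤ i < p`: `p ∣ p.choose i`, so the term is in `E' (k + i + 1) ≤ E' (k + 2)`
(`h3` and closure under multiples); `i = p ≥ 2`: in `E' (k + p) ≤ E' (k + 2)`.
For `n = p ^ 2`: `i = 1`: `p ^ 2 • N x ∈ E' (k + 3)`; `i = 2`: `p ∣ (p ^ 2).choose 2`
(`Nat.Prime.dvd_choose_pow`, `2 ≠ p ^ 2`), the term is in `E' (k + 3)`; `i ≥ 3`: in
`E' (k + i) ≤ E' (k + 3)`.
-/

namespace Pool.Agent.Lib.MP_ae9e3a_al

private theorem powLem_formula {G V : Type*} [Group G] [AddCommGroup V] [DistribMulAction G V]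
    (a : G) (n : ℕ) (x : V) :
    a ^ n • x - x = ∑ m ∈ Finset.range n, n.choose (m + 1) •
      ((DistribMulAction.toAddMonoidEnd G V a - 1) ^ (m + 1)) x := by
  have h1 : (DistribMulAction.toAddMonoidEnd G V (a ^ n)) =
      ((DistribMulAction.toAddMonoidEnd G V a - 1) + 1) ^ n := by
    rw [map_pow, sub_add_cancel]
  rw [(Commute.one_right (DistribMulAction.toAddMonoidEnd G V a - 1)).add_pow n,
    Finset.sum_range_succ'] at h1
  have h2 : a ^ n • x = (DistribMulAction.toAddMonoidEnd G V (a ^ n)) x := rfl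
  rw [h2, h1]
  have h3 : ∀ (F : ℕ → AddMonoid.End V) (s : Finset ℕ), (∑ m ∈ s, F m) x = ∑ m ∈ s, F m x := by
    intro F s
    exact AddMonoidHom.finsetSum_apply F s x
  have hadd : ∀ f g : AddMonoid.End V, (f + g) x = f x + g x := fun _ _ => rfl
  rw [hadd, h3]
  have h4 : ∀ m, ((DistribMulAction.toAddMonoidEnd G V a - 1) ^ (m + 1) * 1 ^ (n - (m + 1)) *
      ((n.choose (m + 1) : ℕ) : AddMonoid.End V)) x = n.choose (m + 1) •
      ((DistribMulAction.toAddMonoidEnd G V a - 1) ^ (m + 1)) x := by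
    intro m
    rw [one_pow, mul_one]
    have : ((DistribMulAction.toAddMonoidEnd G V a - 1) ^ (m + 1) *
      ((n.choose (m + 1) : ℕ) : AddMonoid.End V)) x =
      ((DistribMulAction.toAddMonoidEnd G V a - 1) ^ (m + 1))
        (((n.choose (m + 1) : ℕ) : AddMonoid.End V) x) := rfl
    rw [this, AddMonoid.End.natCast_apply, map_nsmul]
  simp only [h4]
  simp

theorem pow_lem {G V : Type*} [Group G] [AddCommGroup V] [DistribMulAction G V] {p : ℕ}
    (hp : p.Prime) (a : G) (E E' : ℕ → AddSubgroup V) (hE' : ∀ k, E' (k + 1) ≤ E' k)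
    (h1 : ∀ k, ∀ x ∈ E k, a • x - x ∈ E' (k + 1))
    (h2 : ∀ k, ∀ x ∈ E' k, a • x - x ∈ E' (k + 1))
    (h3 : ∀ k, ∀ x ∈ E' k, p • x ∈ E' (k + 1)) :
    (∀ k, ∀ x ∈ E k, a ^ p • x - x ∈ E' (k + 2)) ∧
      (∀ k, ∀ x ∈ E k, a ^ (p ^ 2) • x - x ∈ E' (k + 3)) := by
  have hanti : ∀ i j, i ≤ j → E' j ≤ E' i := fun i j hij => antitone_nat_of_succ_le hE' hij
  have hN : ∀ k, ∀ x ∈ E k, ∀ m,
      ((DistribMulAction.toAddMonoidEnd G V a - 1) ^ (m + 1)) x ∈ E' (k + (m + 1)) := by
    intro k x hx m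
    induction m with
    | zero =>
      rw [zero_add, pow_one]
      exact h1 k x hx
    | succ m ih =>
      rw [pow_succ' _ (m + 1)]
      exact h2 _ _ ih
  have hd1 : ∀ (c j : ℕ) (y : V), p ∣ c → y ∈ E' j → c • y ∈ E' (j + 1) := by
    rintro c j y ⟨d, rfl⟩ hy
    rw [mul_comm, mul_smul]
    exact (E' (j + 1)).nsmul_mem (h3 j y hy) d
  have hp2 := hp.two_le
  constructor
  · intro k x hx
    rw [powLem_formula]
    refine AddSubgroup.sum_mem _ fun m hm => ?_
    rw [Finset.mem_range] at hm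
    by_cases hmp : m + 1 = p
    · exact AddSubgroup.nsmul_mem _ (hanti _ _ (by omega) (hN k x hx m)) _
    · exact hanti _ _ (by omega) (hd1 _ _ _
        (hp.dvd_choose_self (Nat.succ_ne_zero m) (by omega)) (hN k x hx m))
  · intro k x hx
    rw [powLem_formula]
    refine AddSubgroup.sum_mem _ fun m hm => ?_
    rw [Finset.mem_range] at hm
    rcases m with _ | _ | m
    · have hy := hN k x hx 0
      rw [zero_add] at hy ⊢
      rw [Nat.choose_one_right, pow_two, mul_smul]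
      exact h3 _ _ (h3 _ _ hy)
    · have hy := hN k x hx 1
      refine hd1 _ _ _ ?_ hy
      refine hp.dvd_choose_pow (by norm_num) ?_
      have h4 : 2 * 2 ≤ p * p := Nat.mul_le_mul hp2 hp2
      rw [pow_two]
      omega
    · exact AddSubgroup.nsmul_mem _ (hanti _ _ (by omega) (hN k x hx (m + 2))) _

/-- If `(x - 1) E ⊆ C` for the elements `x` of a set `X` and `E` is stable under the group
generated by `X`, then `(g - 1) E ⊆ C` for all `g` in this group. (Induction:
`(g h - 1) x = (g - 1) (h x) + (h - 1) x`, `(g⁻¹ - 1) x = - (g - 1) (g⁻¹ x)`.) -/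
theorem closure_lem {G V : Type*} [Group G] [AddCommGroup V] [DistribMulAction G V]
    (X : Set G) (E C : AddSubgroup V) (hE : ∀ g ∈ Subgroup.closure X, ∀ x ∈ E, g • x ∈ E)
    (h : ∀ g ∈ X, ∀ x ∈ E, g • x - x ∈ C) :
    ∀ g ∈ Subgroup.closure X, ∀ x ∈ E, g • x - x ∈ C := by
  intro g hg
  induction hg using Subgroup.closure_induction with
  | mem g hg => exact h g hg
  | one =>
    intro x _
    rw [one_smul, sub_self]
    exact C.zero_mem
  | mul g g' hg hg' ih ih' =>
    intro x hx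
    have e : (g * g') • x - x = (g • (g' • x) - g' • x) + (g' • x - x) := by
      rw [mul_smul]
      abel
    rw [e]
    exact C.add_mem (ih _ (hE g' hg' x hx)) (ih' x hx)
  | inv g hg ih =>
    intro x hx
    have e : g⁻¹ • x - x = -(g • (g⁻¹ • x) - g⁻¹ • x) := by
      rw [smul_inv_smul]
      abel
    rw [e]
    exact C.neg_mem (ih _ (hE g⁻¹ (Subgroup.inv_mem _ hg) x hx))

end Pool.Agent.Lib.MP_ae9e3a_al
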