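import Pool.Agent.Lib.MP_ae9e3a_al.N2
import Pool.Agent.Lib.MP_ae9e3a_al.Supp
import Pool.Agent.Lib.MP_ae9e3a_al.Cent

set_option autoImplicit false

/-!
# VPP module QChoice: the choice of the prime

PROOF. Let `S` be the (finite) set of the prime divisors of `P.index` (`index_ne_zero_of_isOpen`).
(1) For every open normal `V` there is an `S`-number `n` with `z ^ n ∈ V`: let `Γ = G ⧸ V` (finite), `f`
the quotient map, `U = P.map f`, normal and marginal in `Γ` (lift the arguments, `map_lift`),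
`U.index ∣ P.index`. If a prime `ℓ ∉ S` divides the order `n` of `f z`, then `f z ^ (n / ℓ)` is an element
of `verb w Γ` of order `ℓ` (`f` maps `verb w G` into `verb w Γ`), and `ℓ ∤ U.index`: `supp` says that it
is `1`, a contradiction.
(2) Suppose that for every prime `p` there is `j_p > 0` with `z ^ j_p ∈ PSub A {p}ᶜ`. Let
`J = ∏_{p ∈ S} j_p > 0`. For every open normal `V` the order of `f (z ^ J)` is an `S`-number by (1), and
for every `p ∈ S` it is prime to `p` (`z ^ J` is a power of `z ^ j_p`); so it is `1`, `z ^ J ∈ V`.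
So `z ^ J = 1` (`Basis1`, Hausdorff), against `hz`.
-/

namespace Pool.Agent.Lib.MP_ae9e3a_al

private theorem QChoice_verb {G G' : Type*} [Group G] [Group G'] (f : G →* G') {k : ℕ}
    (w : FreeGroup (Fin k)) {z : G} (hz : z ∈ verb w G) : f z ∈ verb w G' := by
  have h : (verb w G).map f ≤ verb w G' := by
    rw [verb, MonoidHom.map_closure, Subgroup.closure_le]
    rintro _ ⟨_, ⟨g, rfl⟩, rfl⟩
    exact Subgroup.subset_closure ⟨fun i => f (g i), (map_lift f w g).symm⟩
  exact h ⟨z, hz, rfl⟩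

private theorem QChoice_marg {G G' : Type*} [Group G] [Group G'] (f : G →* G')
    (hf : Function.Surjective f) {k : ℕ} (w : FreeGroup (Fin k)) {P : Subgroup G}
    (hP : Marginal w P) : Marginal w (P.map f) := by
  intro g d hd
  choose g' hg' using fun i => hf (g i)
  choose d' hd' using hd
  have h1 := congrArg f (hP g' d' fun i => (hd' i).1)
  rw [map_lift, map_lift] at h1
  have e1 : (fun i => f (g' i * d' i)) = fun i => g i * d i := by
    funext i
    rw [map_mul, hg' i, (hd' i).2]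
  have e2 : (fun i => f (g' i)) = g := funext hg'
  rw [e1, e2] at h1
  exact h1

private theorem QChoice_ord {G : Type*} [Group G] [TopologicalSpace G] [IsTopologicalGroup G]
    [CompactSpace G] {P : Subgroup G} (hPn : P.Normal) {k : ℕ} (w : FreeGroup (Fin k))
    (hP : Marginal w P) {z : G} (hzw : z ∈ verb w G) (V : Subgroup G) [V.Normal]
    (hV : IsOpen (V : Set G)) {ℓ : ℕ} (hℓ : ℓ.Prime)
    (hd : ℓ ∣ orderOf (QuotientGroup.mk' V z)) : ℓ ∣ P.index := by
  have hfin : Finite (G ⧸ V) := Subgroup.quotient_finite_of_isOpen V hV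
  by_contra hnd
  have hsurj : Function.Surjective (QuotientGroup.mk' V) := QuotientGroup.mk'_surjective V
  have hUn : (P.map (QuotientGroup.mk' V)).Normal := hPn.map _ hsurj
  have hUi : ¬ ℓ ∣ (P.map (QuotientGroup.mk' V)).index := fun h =>
    hnd (h.trans (Subgroup.index_map_dvd P hsurj))
  have hpos : 0 < orderOf (QuotientGroup.mk' V z) := orderOf_pos _
  have h1 : (QuotientGroup.mk' V z) ^ (orderOf (QuotientGroup.mk' V z) / ℓ) = 1 := by
    refine supp w _ hUn (QChoice_marg _ hsurj w hP) hℓ hUi _ ?_ ⟨1, ?_⟩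
    · exact Subgroup.pow_mem _ (QChoice_verb _ w hzw) _
    · rw [pow_one, ← pow_mul, Nat.div_mul_cancel hd, pow_orderOf_eq_one]
  have h2 := orderOf_dvd_of_pow_eq_one h1
  have h3 : 0 < orderOf (QuotientGroup.mk' V z) / ℓ :=
    Nat.div_pos (Nat.le_of_dvd hpos hd) hℓ.pos
  have h4 := Nat.le_of_dvd h3 h2
  have h5 := Nat.div_lt_self hpos hℓ.one_lt
  omega

theorem exists_prime_inf {G : Type*} [Group G] [TopologicalSpace G] [IsTopologicalGroup G]
    [CompactSpace G] [T2Space G] (hb : Basis1 G) {P A : Subgroup G} (hPn : P.Normal)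
    (hPo : IsOpen (P : Set G)) {k : ℕ} (w : FreeGroup (Fin k)) (hP : Marginal w P) {z : G}
    (hzA : z ∈ A) (hzw : z ∈ verb w G) (hz : ∀ j : ℕ, 0 < j → z ^ j ≠ 1) :
    ∃ p : ℕ, p.Prime ∧ ∀ j : ℕ, 0 < j → z ^ j ∉ PSub A {p}ᶜ := by
  by_contra hcon
  push Not at hcon
  choose! j hj0 hj using hcon
  set S : Finset ℕ := P.index.primeFactors with hS
  have hPi : P.index ≠ 0 := index_ne_zero_of_isOpen hPo
  have hSp : ∀ p ∈ S, p.Prime := fun p hp => Nat.prime_of_mem_primeFactors hp
  have hJ : 0 < ∏ p ∈ S, j p := Finset.prod_pos fun p hp => hj0 p (hSp p hp)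
  refine hz _ hJ ?_
  have hmem : ∀ V : Subgroup G, V.Normal → IsOpen (V : Set G) → z ^ (∏ p ∈ S, j p) ∈ V := by
    intro V hVn hVo
    have hfin : Finite (G ⧸ V) := Subgroup.quotient_finite_of_isOpen V hVo
    have ho : orderOf (QuotientGroup.mk' V (z ^ (∏ p ∈ S, j p))) = 1 := by
      by_contra hne
      obtain ⟨ℓ, hℓ, hℓd⟩ := Nat.exists_prime_and_dvd hne
      have h1 : ℓ ∣ orderOf (QuotientGroup.mk' V z) := by
        refine hℓd.trans ?_
        rw [map_pow]
        exact orderOf_pow_dvd _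
      have h2 := QChoice_ord hPn w hP hzw V hVo hℓ h1
      have h3 : ℓ ∈ S := by
        rw [hS, Nat.mem_primeFactors]
        exact ⟨hℓ, h2, hPi⟩
      obtain ⟨m, hm⟩ := Finset.dvd_prod_of_mem j h3
      obtain ⟨n, hn, hnV⟩ := (hj ℓ hℓ).2 V hVn hVo
      have h4 : (QuotientGroup.mk' V (z ^ (∏ p ∈ S, j p))) ^ n = 1 := by
        rw [hm, ← map_pow, ← pow_mul, mul_assoc, mul_comm m n, ← mul_assoc, pow_mul, pow_mul,
          map_pow]
        have h5 : QuotientGroup.mk' V ((z ^ j ℓ) ^ n) = 1 :=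
          (QuotientGroup.eq_one_iff _).2 hnV
        rw [h5, one_pow]
      exact hn.2 ℓ hℓ (hℓd.trans (orderOf_dvd_of_pow_eq_one h4)) rfl
    rw [orderOf_eq_one_iff] at ho
    exact (QuotientGroup.eq_one_iff _).1 ho
  have h := mem_of_forall hb (C := {(1 : G)}) isClosed_singleton (z ^ (∏ p ∈ S, j p))
    fun V hVn hVo => ⟨1, rfl, by
      rw [inv_one, one_mul]
      exact hmem V hVn hVo⟩
  exact h

end Pool.Agent.Lib.MP_ae9e3a_al
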