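import Mathlib

set_option autoImplicit false

/-!
# VPP module QCop: an automorphism of order prime to `p` of a finite `p`-group, trivial modulo the
Frattini subgroup, is trivial (Burnside)

`Φ = closure ({z ^ p} ∪ {x y x⁻¹ y⁻¹})`.

PROOF. (1) Suppose first `α ^ q = 1`, `q ≠ p` prime. `α Φ = Φ` (it maps generators to generators).
For `r : R` the coset `X = {x | r⁻¹ * x ∈ Φ}` is `α`-stable (`r⁻¹ α(r) ∈ Φ`) and `#X = #Φ` is a power of
`p`; by `Equiv.Perm.card_fixedPoints_modEq` (for the restriction of `α` to `X`, `f ^ q ^ 1 = 1`), or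
`IsPGroup.nonempty_fixed_point_of_prime_not_dvd_card`, `α` has a fixed point in `X`. So the subgroup `C`
of the fixed points of `α` satisfies `C ⊔ Φ = ⊤`. If `C ≠ ⊤` let `K ≥ C` be a coatom
(`IsCoatomic`, finite group). `R` is nilpotent (`IsPGroup.isNilpotent`), so `K` is normal
(`NormalizerCondition.normal_of_coatom`, `Group.normalizerCondition_of_isNilpotent`), and `R ⧸ K` is a
simple `p`-group, so of order `p`; hence `K` contains the `p`-th powers and the commutators, so `Φ ≤ K`
and `⊤ = C ⊔ Φ ≤ K`, a contradiction.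
(2) General `α` with `α ^ n = 1`, `p ∤ n`: if `α ≠ 1` let `q` be a prime divisor of `orderOf α`
(so `q ≠ p`) and `β = α ^ (orderOf α / q)`, of order `q`; `β` is trivial modulo `Φ`
(`r⁻¹ β(r)` is a product of elements `α^i(r)⁻¹ α^(i+1)(r) = α^i (r⁻¹ α(r)) ∈ Φ`), so `β = 1` by (1), a
contradiction.
-/

namespace Pool.Agent.Lib.MP_ae9e3a_al

private theorem qcop_le {R : Type*} [Group R] [Finite R] {p : ℕ} (hp : p.Prime)
    (hR : IsPGroup p R) {K : Subgroup R} (hK : IsCoatom K) :
    Subgroup.closure ({y : R | ∃ z, y = z ^ p} ∪ {y | ∃ a b, y = a * b * a⁻¹ * b⁻¹}) ≤ K := by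
  have : Fact p.Prime := ⟨hp⟩
  have hnil : Group.IsNilpotent R := hR.isNilpotent
  have hKn : K.Normal := Subgroup.NormalizerCondition.normal_of_coatom K Group.normalizerCondition_of_isNilpotent hK
  have hQ : IsPGroup p (R ⧸ K) := hR.to_quotient K
  have hnt : Nontrivial (R ⧸ K) := by
    rw [QuotientGroup.nontrivial_iff]
    exact hK.1
  let f := QuotientGroup.mk' K
  have hf : Function.Surjective f := QuotientGroup.mk'_surjective K
  have hkf : f.ker = K := QuotientGroup.ker_mk' K
  -- a subgroup of the quotient is trivial or everything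
  have hdich : ∀ S : Subgroup (R ⧸ K), S.comap f = K ∨ S.comap f = ⊤ := by
    intro S
    have h1 : K ≤ S.comap f := by
      intro x hx
      have h2 : f x = 1 := (QuotientGroup.eq_one_iff x).2 hx
      show f x ∈ S
      rw [h2]
      exact S.one_mem
    rcases h1.eq_or_lt with h | h
    · exact Or.inl h.symm
    · exact Or.inr (hK.2 _ h)
  have hcomm : ∀ a b : R ⧸ K, a * b = b * a := by
    rcases hdich (Subgroup.center (R ⧸ K)) with h | h
    · exfalso
      have h2 := hQ.center_nontrivial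
      obtain ⟨⟨c, hc⟩, hc1⟩ := exists_ne (1 : Subgroup.center (R ⧸ K))
      obtain ⟨x, rfl⟩ := hf c
      have h3 : x ∈ (Subgroup.center (R ⧸ K)).comap f := hc
      rw [h] at h3
      apply hc1
      apply Subtype.ext
      exact (QuotientGroup.eq_one_iff x).2 h3
    · intro a b
      obtain ⟨x, rfl⟩ := hf a
      have h3 : x ∈ (Subgroup.center (R ⧸ K)).comap f := by rw [h]; exact Subgroup.mem_top x
      have h4 : f x ∈ Subgroup.center (R ⧸ K) := h3
      exact ((Subgroup.mem_center_iff.1 h4) b).symm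
  let φ : (R ⧸ K) →* (R ⧸ K) :=
    { toFun := fun x => x ^ p
      map_one' := one_pow p
      map_mul' := fun a b => (show Commute a b from hcomm a b).mul_pow p }
  have hφ : (φ.range).comap f = K := by
    rcases hdich φ.range with h | h
    · exact h
    · exfalso
      have h1 : Function.Surjective φ := by
        intro y
        obtain ⟨x, rfl⟩ := hf y
        have h3 : x ∈ (φ.range).comap f := by rw [h]; exact Subgroup.mem_top x
        exact h3
      have h2 : Function.Injective φ := Finite.injective_iff_surjective.2 h1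
      obtain ⟨x, hx⟩ := exists_ne (1 : R ⧸ K)
      obtain ⟨k, hk⟩ := hQ x
      have h3 : ∀ k : ℕ, ∀ x : R ⧸ K, x ^ p ^ k = 1 → x = 1 := by
        intro k
        induction k with
        | zero => intro x hx; simpa using hx
        | succ k ih =>
          intro x hx
          rw [pow_succ', pow_mul] at hx
          have h4 := ih _ hx
          apply h2
          rw [map_one]
          exact h4
      exact hx (h3 k x hk)
  rw [Subgroup.closure_le]
  rintro y (⟨z, rfl⟩ | ⟨a, b, rfl⟩)
  · have h1 : z ^ p ∈ (φ.range).comap f := ⟨f z, (map_pow f z p).symm⟩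
    rw [hφ] at h1
    exact h1
  · have h1 : f (a * b * a⁻¹ * b⁻¹) = 1 := by
      rw [map_mul, map_mul, map_mul, map_inv, map_inv, hcomm (f a) (f b)]
      group
    exact (QuotientGroup.eq_one_iff _).1 h1

private theorem qcop_prime {R : Type*} [Group R] [Finite R] {p : ℕ} (hp : p.Prime)
    (hR : IsPGroup p R) (α : MulAut R) {q : ℕ} (hq : q.Prime) (hpq : q ≠ p) (hα : α ^ q = 1)
    (h : ∀ r : R, r⁻¹ * α r ∈
      Subgroup.closure ({y : R | ∃ z, y = z ^ p} ∪ {y | ∃ a b, y = a * b * a⁻¹ * b⁻¹})) :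
    ∀ r, α r = r := by
  classical
  have : Fact p.Prime := ⟨hp⟩
  have : Fact q.Prime := ⟨hq⟩
  set Φ := Subgroup.closure ({y : R | ∃ z, y = z ^ p} ∪ {y | ∃ a b, y = a * b * a⁻¹ * b⁻¹}) with hΦ
  let C : Subgroup R :=
    { carrier := {x | α x = x}
      one_mem' := map_one α
      mul_mem' := fun {a b} ha hb => by
        show α (a * b) = a * b
        rw [map_mul, ha, hb]
      inv_mem' := fun {a} ha => by
        show α a⁻¹ = a⁻¹
        rw [map_inv, ha] }
  have hfix : ∀ r : R, ∃ x, r⁻¹ * x ∈ Φ ∧ α x = x := by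
    intro r
    let X := {x : R // r⁻¹ * x ∈ Φ}
    let F : Function.End X := fun x => ⟨α x.1, by
      have h1 : r⁻¹ * α x.1 = (r⁻¹ * x.1) * (x.1⁻¹ * α x.1) := by group
      rw [h1]
      exact Φ.mul_mem x.2 (h _)⟩
    have hFk : ∀ (k : ℕ) (x : X), ((F ^ k) x).1 = (α ^ k) x.1 := by
      intro k
      induction k with
      | zero => intro x; rfl
      | succ k ih =>
        intro x
        rw [pow_succ', pow_succ']
        show α ((F ^ k) x).1 = α ((α ^ k) x.1)
        rw [ih]
    have hF : F ^ q ^ 1 = 1 := by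
      funext x
      apply Subtype.ext
      rw [hFk, pow_one, hα]
      rfl
    have : Fintype X := Fintype.ofFinite X
    have h2 := Equiv.Perm.card_fixedPoints_modEq hF
    have hcard : Fintype.card X = Nat.card Φ := by
      rw [← Nat.card_eq_fintype_card]
      refine Nat.card_congr ⟨fun x => ⟨r⁻¹ * x.1, x.2⟩, fun y => ⟨r * y.1, by
        show r⁻¹ * (r * y.1) ∈ Φ
        rw [inv_mul_cancel_left]
        exact y.2⟩, fun x => ?_, fun y => ?_⟩
      · apply Subtype.ext
        show r * (r⁻¹ * x.1) = x.1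
        group
      · apply Subtype.ext
        show r⁻¹ * (r * y.1) = y.1
        group
    obtain ⟨k, hk⟩ := (IsPGroup.iff_card).1 (hR.to_subgroup Φ)
    have hne : Nonempty (Function.fixedPoints F) := by
      by_contra hempty
      rw [not_nonempty_iff] at hempty
      have h3 : Fintype.card (Function.fixedPoints F) = 0 := Fintype.card_eq_zero
      have h4 : Fintype.card X ≡ 0 [MOD q] := by
        have h5 := h2
        have h6 : Fintype.card (Function.fixedPoints F) = Fintype.card (Function.fixedPoints F) := rfl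
        rw [h3] at h5
        exact h5
      rw [hcard, hk, Nat.modEq_zero_iff_dvd] at h4
      have h5 := hq.dvd_of_dvd_pow h4
      exact hpq ((Nat.prime_dvd_prime_iff_eq hq hp).1 h5)
    obtain ⟨⟨x, hx⟩⟩ := hne
    refine ⟨x.1, x.2, ?_⟩
    have h3 : F x = x := hx
    exact congrArg Subtype.val h3
  have hsup : C ⊔ Φ = ⊤ := by
    rw [eq_top_iff]
    intro r _
    obtain ⟨x, hx1, hx2⟩ := hfix r
    have h1 : r = x * (r⁻¹ * x)⁻¹ := by group
    rw [h1]
    exact Subgroup.mul_mem _ (Subgroup.mem_sup_left (show x ∈ C from hx2))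
      (Subgroup.mem_sup_right (Φ.inv_mem hx1))
  have hC : C = ⊤ := by
    rcases eq_top_or_exists_le_coatom C with h1 | ⟨K, hK, hCK⟩
    · exact h1
    · exfalso
      apply hK.1
      rw [eq_top_iff, ← hsup]
      exact sup_le hCK (qcop_le hp hR hK)
  intro r
  have h1 : r ∈ C := by rw [hC]; exact Subgroup.mem_top r
  exact h1

theorem coprime_trivial {R : Type*} [Group R] [Finite R] {p : ℕ} (hp : p.Prime)
    (hR : IsPGroup p R) (α : MulAut R) {n : ℕ} (hn : α ^ n = 1) (hpn : ¬ p ∣ n)
    (h : ∀ r : R, r⁻¹ * α r ∈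
      Subgroup.closure ({y : R | ∃ z, y = z ^ p} ∪ {y | ∃ a b, y = a * b * a⁻¹ * b⁻¹})) :
    ∀ r, α r = r := by
  by_cases h1 : orderOf α = 1
  · intro r
    rw [orderOf_eq_one_iff.1 h1]
    rfl
  exfalso
  obtain ⟨q, hq, hqd⟩ := Nat.exists_prime_and_dvd h1
  have hon : orderOf α ∣ n := orderOf_dvd_of_pow_eq_one hn
  have hn0 : n ≠ 0 := fun h0 => hpn (by rw [h0]; exact dvd_zero p)
  have hpos : 0 < orderOf α := Nat.pos_of_dvd_of_pos hon (Nat.pos_of_ne_zero hn0)
  have hqp : q ≠ p := fun h0 => hpn (h0 ▸ hqd.trans hon)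
  obtain ⟨c, hc⟩ := hqd
  have hc0 : 0 < c := by
    rcases Nat.eq_zero_or_pos c with h0 | h0
    · rw [h0, mul_zero] at hc; omega
    · exact h0
  have hpow : ∀ (i : ℕ) (r : R), r⁻¹ * (α ^ i) r ∈
      Subgroup.closure ({y : R | ∃ z, y = z ^ p} ∪ {y | ∃ a b, y = a * b * a⁻¹ * b⁻¹}) := by
    intro i
    induction i with
    | zero =>
      intro r
      have h2 : r⁻¹ * (α ^ 0) r = 1 := by
        rw [pow_zero]
        exact inv_mul_cancel r
      rw [h2]
      exact Subgroup.one_mem _
    | succ i ih =>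
      intro r
      have h2 : r⁻¹ * (α ^ (i + 1)) r = (r⁻¹ * (α ^ i) r) * (((α ^ i) r)⁻¹ * α ((α ^ i) r)) := by
        rw [pow_succ']
        show r⁻¹ * α ((α ^ i) r) = _
        group
      rw [h2]
      exact Subgroup.mul_mem _ (ih r) (h _)
  have hβ : (α ^ c) ^ q = 1 := by
    rw [← pow_mul, mul_comm, ← hc, pow_orderOf_eq_one]
  have h3 := qcop_prime hp hR (α ^ c) hq hqp hβ (hpow c)
  have h4 : α ^ c = 1 := by
    ext r
    exact h3 r
  have h5 := Nat.le_of_dvd hc0 (orderOf_dvd_of_pow_eq_one h4)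
  rw [hc] at h5
  have h6 : 2 * c ≤ q * c := Nat.mul_le_mul_right c hq.two_le
  omega

end Pool.Agent.Lib.MP_ae9e3a_al
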