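import Pool.Agent.Lib.MP_ae9e3a_al.QInf
import Pool.Agent.Lib.MP_ae9e3a_al.QChoice
import Pool.Agent.Lib.MP_ae9e3a_al.CoreFG

set_option autoImplicit false

/-!
# VPP module QCore: conciseness, induction on the length of the normal series
-/

namespace Pool.Agent.Lib.MP_ae9e3a_al

open Cardinal

universe u

theorem pnilp_of_abel {G : Type*} [Group G] [TopologicalSpace G] {A : Subgroup G}
    (hab : ∀ x ∈ A, ∀ y ∈ A, x * y = y * x) : PNilp A := by
  intro V _ _
  have hc : ∀ x y : ↥(A.map (QuotientGroup.mk' V)), x * y = y * x := by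
    rintro ⟨_, x, hx, rfl⟩ ⟨_, y, hy, rfl⟩
    apply Subtype.ext
    show (QuotientGroup.mk' V) x * (QuotientGroup.mk' V) y =
      (QuotientGroup.mk' V) y * (QuotientGroup.mk' V) x
    rw [← map_mul, ← map_mul, hab x hx y hy]
  let _ : CommGroup ↥(A.map (QuotientGroup.mk' V)) :=
    { (inferInstance : Group ↥(A.map (QuotientGroup.mk' V))) with mul_comm := hc }
  exact CommGroup.isNilpotent

theorem core_m {G : Type u} [Group G] [TopologicalSpace G] [IsTopologicalGroup G]
    [CompactSpace G] [T2Space G] (hb : Basis1 G) {P A : Subgroup G}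
    (hPn : P.Normal) (hPo : IsOpen (P : Set G)) (hAn : A.Normal) (hAc : IsClosed (A : Set G))
    (hAP : A ≤ P) (hab : ∀ x ∈ A, ∀ y ∈ A, x * y = y * x) (hch : Chn A P) {k : ℕ}
    (w : FreeGroup (Fin k)) (hP : Marginal w P) (hfin : (vals w G).Finite)
    (hmod : FinMod w A) : (verb w G : Set G).Finite := by
  -- every element of `w(G) ∩ A` has finite order
  have htors : ∀ z ∈ verb w G ⊓ A, ∃ j : ℕ, 0 < j ∧ z ^ j = 1 := by
    rintro z ⟨hzw, hzA⟩
    by_contra hcon
    push Not at hcon
    obtain ⟨p, hp, hpz⟩ := exists_prime_inf hb hPn hPo w hP hzA hzw hcon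
    obtain ⟨R, hR, hRn, hRc⟩ := psub_subgroup hAn hAc (pnilp_of_abel hab) ({p}ᶜ : Set ℕ)
    set g := QuotientGroup.mk' R with hg
    have hgc : Continuous g := QuotientGroup.continuous_mk
    have hgs : Function.Surjective g := QuotientGroup.mk'_surjective R
    obtain ⟨hv1, hv2, hv3⟩ := map_vals g hgs w
    have hzg : g z ∈ verb w (G ⧸ R) := by
      rw [hv2]
      exact ⟨z, hzw, rfl⟩
    obtain ⟨j, hj, hjz⟩ := fin_order_of_proP (basis1_map g hgc hgs hb) hp
      (hPn.map g hgs)
      (by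
        rw [Subgroup.coe_map]
        exact isOpenMap_of_surj g hgc hgs P hPo)
      (hAn.map g hgs) (isClosed_map g hgc hAc) (Subgroup.map_mono hAP)
      (by
        rintro _ ⟨x, hx, rfl⟩ _ ⟨y, hy, rfl⟩
        rw [← map_mul, ← map_mul, hab x hx y hy])
      (hch.map g hgc) w (marginal_map g hgs w hP)
      (by
        rw [hv1]
        exact hfin.image g)
      (proP_quot hb hp hAc hR) (z := g z) ⟨z, hzA, rfl⟩ hzg
    rw [← map_pow] at hjz
    have h1 : z ^ j ∈ R := (QuotientGroup.eq_one_iff _).1 hjz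
    have h2 : z ^ j ∈ (R : Set G) := h1
    rw [hR] at h2
    exact hpz j hj h2
  -- `w(G)` is finitely generated
  obtain ⟨X, hXf, hX⟩ := hmod
  have hfg : Group.FG (verb w G) := by
    rw [Group.fg_iff_subgroup_fg]
    exact ⟨hfin.toFinset, by rw [Set.Finite.coe_toFinset]; rfl⟩
  have hidx : (A.subgroupOf (verb w G)).index ≠ 0 := relIndex_ne_zero_of_cover X hXf hX
  have hfi : (A.subgroupOf (verb w G)).FiniteIndex := ⟨hidx⟩
  have hfgA : Group.FG (A.subgroupOf (verb w G)) := Subgroup.fg_of_index_ne_zero _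
  have hc : ∀ x y : A.subgroupOf (verb w G), x * y = y * x := by
    rintro ⟨x, hx⟩ ⟨y, hy⟩
    apply Subtype.ext
    apply Subtype.ext
    exact hab x hx y hy
  let _ : CommGroup (A.subgroupOf (verb w G)) :=
    { (inferInstance : Group (A.subgroupOf (verb w G))) with mul_comm := hc }
  have hfinA : Finite (A.subgroupOf (verb w G)) := by
    apply CommGroup.finite_of_fg_isMulTorsion
    intro x
    obtain ⟨j, hj, hjx⟩ := htors (x : verb w G) ⟨(x : verb w G).2, x.2⟩
    rw [isOfFinOrder_iff_pow_eq_one]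
    refine ⟨j, hj, ?_⟩
    apply Subtype.ext
    apply Subtype.ext
    exact hjx
  have hAfin : ((verb w G ⊓ A : Subgroup G) : Set G).Finite := by
    have h1 : ((verb w G ⊓ A : Subgroup G) : Set G) ⊆
        Set.range (fun x : A.subgroupOf (verb w G) => ((x : verb w G) : G)) := by
      rintro x ⟨hx1, hx2⟩
      exact ⟨⟨⟨x, hx1⟩, hx2⟩, rfl⟩
    exact (Set.finite_range _).subset h1
  exact finite_of_cover (verb w G) A X hXf hX hAfin

theorem induct_m {k : ℕ} (w : FreeGroup (Fin k)) (m : ℕ) :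
    ∀ (G : Type u) [Group G] [TopologicalSpace G] [IsTopologicalGroup G] [CompactSpace G]
      [T2Space G] (P A : Subgroup G), Basis1 G → P.Normal → IsOpen (P : Set G) → A.Normal →
      IsClosed (A : Set G) → A ≤ P → (∀ x ∈ A, ∀ y ∈ A, x * y = y * x) → Chn A P →
      Marginal w P → (vals w G).Finite → NSer A P m → (verb w G : Set G).Finite := by
  induction m with
  | zero =>
    intro G _ _ _ _ _ P A hb hPn hPo hAn hAc hAP hab hch hP hfin hN
    apply core_m hb hPn hPo hAn hAc hAP hab hch w hP hfin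
    obtain ⟨N, hN0, hNm, _, _⟩ := hN
    have hAP' : A = P := by rw [← hN0, hNm]
    have hAo : IsOpen (A : Set G) := by rw [hAP']; exact hPo
    have hi : A.index ≠ 0 := index_ne_zero_of_isOpen hAo
    have hfin' : Finite (G ⧸ A) := Nat.finite_of_card_ne_zero hi
    refine ⟨Set.range (Quotient.out : G ⧸ A → G), Set.finite_range _, ?_⟩
    intro v _
    refine ⟨Quotient.out (v : G ⧸ A), ⟨_, rfl⟩, ?_⟩
    have : ((Quotient.out (v : G ⧸ A) : G) : G ⧸ A) = (v : G ⧸ A) := QuotientGroup.out_eq' _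
    exact QuotientGroup.eq.1 this
  | succ m ih =>
    intro G _ _ _ _ _ P A hb hPn hPo hAn hAc hAP hab hch hP hfin hN
    apply core_m hb hPn hPo hAn hAc hAP hab hch w hP hfin
    obtain ⟨N, hN0, hNm, hN1, hN2⟩ := hN
    set f := QuotientGroup.mk' A with hf
    have hfc : Continuous f := QuotientGroup.continuous_mk
    have hfs : Function.Surjective f := QuotientGroup.mk'_surjective A
    have hmono : ∀ i j, i ≤ j → j ≤ m + 1 → N i ≤ N j := by
      intro i j hij hj
      induction j with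
      | zero =>
        obtain rfl : i = 0 := by omega
        exact le_refl _
      | succ j ihj =>
        rcases Nat.lt_or_ge i (j + 1) with h1 | h1
        · exact (ihj (by omega) (by omega)).trans (hN2 j (by omega)).1
        · obtain rfl : i = j + 1 := by omega
          exact le_refl _
    have hA1 : A ≤ N 1 := by
      rw [← hN0]
      exact hmono 0 1 (by omega) (by omega)
    have h1P : N 1 ≤ P := by
      rw [← hNm]
      exact hmono 1 (m + 1) (by omega) (by omega)
    have hab' : ∀ x ∈ N 1, ∀ y ∈ N 1, f x * f y = f y * f x := by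
      intro x hx y hy
      have h1 := (hN2 0 (by omega)).2 x hx y hy
      rw [hN0] at h1
      have h2 : f (x * y * x⁻¹ * y⁻¹) = 1 := (QuotientGroup.eq_one_iff _).2 h1
      rw [map_mul, map_mul, map_mul, map_inv, map_inv] at h2
      exact mul_inv_eq_iff_eq_mul.1 (mul_inv_eq_one.1 h2)
    have hch' : Chn ((N 1).map f) (P.map f) := by
      have h1 := hch.sup (hN1 1 (by omega)).1 (hN1 1 (by omega)).2
      rw [sup_eq_right.2 hA1, sup_eq_left.2 h1P] at h1
      exact h1.map f hfc
    have hN' : NSer ((N 1).map f) (P.map f) m := by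
      refine ⟨fun i => (N (i + 1)).map f, rfl, ?_, ?_, ?_⟩
      · show (N (m + 1)).map f = P.map f
        rw [hNm]
      · intro i hi
        exact ⟨(hN1 (i + 1) (by omega)).1.map f hfs, isClosed_map f hfc (hN1 (i + 1) (by omega)).2⟩
      · intro i hi
        refine ⟨Subgroup.map_mono (hN2 (i + 1) (by omega)).1, ?_⟩
        rintro _ ⟨x, hx, rfl⟩ _ ⟨y, hy, rfl⟩
        refine ⟨x * y * x⁻¹ * y⁻¹, (hN2 (i + 1) (by omega)).2 x hx y hy, ?_⟩
        simp
    obtain ⟨hv1, hv2, hv3⟩ := map_vals f hfs w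
    have hfin' : (verb w (G ⧸ A) : Set (G ⧸ A)).Finite :=
      ih (G ⧸ A) (P.map f) ((N 1).map f) (basis1_map f hfc hfs hb) (hPn.map f hfs)
        (by
          rw [Subgroup.coe_map]
          exact isOpenMap_of_surj f hfc hfs P hPo)
        ((hN1 1 (by omega)).1.map f hfs) (isClosed_map f hfc (hN1 1 (by omega)).2)
        (Subgroup.map_mono h1P)
        (by
          rintro _ ⟨x, hx, rfl⟩ _ ⟨y, hy, rfl⟩
          exact hab' x hx y hy)
        hch' (marginal_map f hfs w hP) (by
          rw [hv1]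
          exact hfin.image f) hN'
    refine ⟨Function.surjInv hfs '' (verb w (G ⧸ A) : Set (G ⧸ A)), hfin'.image _, ?_⟩
    intro v hv
    refine ⟨Function.surjInv hfs (f v), ⟨f v, ?_, rfl⟩, ?_⟩
    · rw [hv2]
      exact ⟨v, hv, rfl⟩
    · have : f (Function.surjInv hfs (f v)) = f v := Function.surjInv_eq hfs (f v)
      exact QuotientGroup.eq.1 this

/-- Every word is concise in the class. -/
theorem concise {G : Type u} [Group G] [TopologicalSpace G] [IsTopologicalGroup G]
    [CompactSpace G] [T2Space G] (hb : Basis1 G) {H A₀ : Subgroup G} (hH : IsOpen (H : Set G))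
    (hn : ∀ a ∈ A₀, ∀ h ∈ H, h * a * h⁻¹ ∈ A₀) (hab : ∀ x ∈ A₀, ∀ y ∈ A₀, x * y = y * x)
    (hch : Chn A₀ H) {k : ℕ} (w : FreeGroup (Fin k)) (h : (vals w G).Finite) :
    (verb w G : Set G).Finite := by
  obtain ⟨Q, hQn, hQo, hQ⟩ := marginal_of_finite hb w h
  obtain ⟨P, A, hPn, hPo, hPle, hAn, hAc, hAP, hAab, hAch⟩ := exists_core hb hH hQo hn hab hch
  obtain ⟨m, hm⟩ := hAch.nser hAn hPn
  exact induct_m w m G P A hb hPn hPo hAn hAc hAP hAab hAch
    (fun g d hd => hQ g d fun i => (hPle (hd i)).2) h hm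

end Pool.Agent.Lib.MP_ae9e3a_al
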