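import Pool.Agent.Lib.MP_ae9e3a_al.QCop
import Pool.Agent.Lib.MP_ae9e3a_al.N1

set_option autoImplicit false

/-!
# VPP module QFin: a finite group lemma for `p`-nilpotency

PROOF. Let `R = N₁ / N₂` (e.g. `↥N₁ ⧸ N₂.subgroupOf N₁`), a finite `p`-group. `a` acts on `R` by
conjugation: an automorphism `α` with `α ^ n = 1` for a `p'`-number `n` (`a ^ n = 1`), and
`α(r) r⁻¹ = [a, r] ∈ image of Φ = closure ({z ^ p} ∪ {commutators})` in `R` (the image of `N₂` is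
trivial). By `coprime_trivial` (`r⁻¹ α(r)` and `α(r) r⁻¹` are conjugate, the subgroup is normal; or apply
it to `r⁻¹`): `a r a⁻¹ r⁻¹ ∈ N₂` for all `r ∈ N₁`; the same for `b`. Let `c = a b a⁻¹ b⁻¹ ∈ N₁`. Modulo
`N₂` (normal in `M`; work in `↥M ⧸ N₂.subgroupOf M`) `c` commutes with `a` and `b`. Let
`N = orders of a and b multiplied` (`p'`-number): `a ^ N = b ^ N = 1`. As `c` is central in the group
generated by `a, b`: `[a ^ N, b] = c ^ N`, so `c ^ N = 1`, and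
`(a b) ^ m = a ^ m b ^ m (c⁻¹) ^ (m (m-1) / 2)` (with the right sign/order conventions; induction on
`m`); for `m = N ^ 2`: `N ^ 2 (N ^ 2 - 1) / 2` is a multiple of `N`, so `(a b) ^ (N ^ 2) = 1` modulo
`N₂`. (Alternative: the group generated by `a, b` modulo `N₂` is nilpotent of class 2,
`Group.of_quotient_center_nilpotent`, and `nil_mul`.) So `(a b) ^ (N ^ 2) ∈ N₂`, whose elements have
`p'`-order.
-/

namespace Pool.Agent.Lib.MP_ae9e3a_al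

private theorem qfin_aux1 {G : Type*} [Group G] {A B C : G} (h : A * B = C * B * A)
    (hCB : C * B = B * C) (m : ℕ) : C ^ m * (B ^ m * A) = A * B ^ m := by
  have hc : Commute C B := hCB
  induction m with
  | zero => simp
  | succ m ih =>
    have h1 : C * B ^ m = B ^ m * C := (hc.pow_right m)
    calc C ^ (m + 1) * (B ^ (m + 1) * A) = C ^ m * ((C * B ^ m) * (B * A)) := by
          rw [pow_succ, pow_succ]; simp only [mul_assoc]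
      _ = C ^ m * (B ^ m * (C * B * A)) := by rw [h1]; simp only [mul_assoc]
      _ = (C ^ m * (B ^ m * A)) * B := by rw [← h]; simp only [mul_assoc]
      _ = A * B ^ (m + 1) := by rw [ih, pow_succ, mul_assoc]

private theorem qfin_aux2 {G : Type*} [Group G] {A B C : G} (h : A * B = C * B * A)
    (hCA : C * A = A * C) (m : ℕ) : A ^ m * B = C ^ m * (B * A ^ m) := by
  have hc : Commute C A := hCA
  induction m with
  | zero => simp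
  | succ m ih =>
    have h1 : A * C ^ m = C ^ m * A := ((hc.pow_left m).symm)
    calc A ^ (m + 1) * B = A * (A ^ m * B) := by rw [pow_succ', mul_assoc]
      _ = (A * C ^ m) * (B * A ^ m) := by rw [ih, mul_assoc]
      _ = C ^ m * ((A * B) * A ^ m) := by rw [h1]; simp only [mul_assoc]
      _ = C ^ (m + 1) * (B * A ^ (m + 1)) := by
          rw [h, pow_succ C, pow_succ' A]; simp only [mul_assoc]

private theorem qfin_class2 {G : Type*} [Group G] {A B C : G} (h : A * B = C * B * A)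
    (hCA : C * A = A * C) (hCB : C * B = B * C) (m : ℕ) :
    (A * B) ^ m * C ^ (m.choose 2) = A ^ m * B ^ m := by
  have hc : Commute C (A * B) := Commute.mul_right hCA hCB
  induction m with
  | zero => simp
  | succ m ih =>
    have e : (m + 1).choose 2 = m.choose 2 + m := by
      rw [Nat.choose_succ_succ' m 1, Nat.choose_one_right, add_comm]
    have h1 : (A * B) * C ^ (m.choose 2) = C ^ (m.choose 2) * (A * B) := (hc.pow_left _).symm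
    have h2 : (A * B) * C ^ m = C ^ m * (A * B) := (hc.pow_left _).symm
    have h3 : B ^ m * C ^ m = C ^ m * B ^ m :=
      (Commute.pow_pow (show Commute C B from hCB) m m).symm
    calc (A * B) ^ (m + 1) * C ^ ((m + 1).choose 2)
        = (A * B) ^ m * ((A * B) * C ^ (m.choose 2)) * C ^ m := by
          rw [e, pow_succ, pow_add]; simp only [mul_assoc]
      _ = ((A * B) ^ m * C ^ (m.choose 2)) * ((A * B) * C ^ m) := by
          rw [h1]; simp only [mul_assoc]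
      _ = A ^ m * ((B ^ m * C ^ m) * (A * B)) := by rw [ih, h2]; simp only [mul_assoc]
      _ = A ^ m * ((C ^ m * (B ^ m * A)) * B) := by rw [h3]; simp only [mul_assoc]
      _ = A ^ (m + 1) * B ^ (m + 1) := by
          rw [qfin_aux1 h hCB, pow_succ, pow_succ]; simp only [mul_assoc]

private theorem qfin_choose (n : ℕ) : n ∣ (n * n).choose 2 := by
  rw [Nat.choose_two_right]
  rcases Nat.even_or_odd n with ⟨k, hk⟩ | ⟨k, hk⟩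
  · refine ⟨k * (n * n - 1), ?_⟩
    have e : n * n * (n * n - 1) = (n * (k * (n * n - 1))) * 2 := by
      have : n * n = (n * k) * 2 := by rw [hk]; ring
      calc n * n * (n * n - 1) = ((n * k) * 2) * (n * n - 1) := by
            conv_lhs => rw [show n * n * (n * n - 1) = (n * n) * (n * n - 1) from rfl]
            congr 1
        _ = _ := by ring
    rw [e, Nat.mul_div_cancel _ (by norm_num)]
  · have h1 : n * n - 1 = (2 * (k * k + k)) * 2 := by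
      have : n * n = (2 * (k * k + k)) * 2 + 1 := by rw [hk]; ring
      rw [this, Nat.add_sub_cancel]
    refine ⟨n * (2 * (k * k + k)), ?_⟩
    have e : n * n * (n * n - 1) = (n * (n * (2 * (k * k + k)))) * 2 := by
      rw [h1]; ring
    rw [e, Nat.mul_div_cancel _ (by norm_num)]

/-- the elements `a` acting coprimely and trivially modulo the Frattini subgroup act trivially -/
private theorem qfin_fix {Γ : Type*} [Group Γ] [Finite Γ] {p : ℕ} (hp : p.Prime) {M N₁ N₂ : Subgroup Γ}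
    (h1 : N₁ ≤ M) (hn1 : ∀ g ∈ M, ∀ x ∈ N₁, g * x * g⁻¹ ∈ N₁)
    [hQ : (N₂.subgroupOf M).Normal] (hN1 : ∀ x ∈ N₁, ∃ j : ℕ, x ^ p ^ j ∈ N₂) {a : Γ} (ha : a ∈ M)
    (hap : ∃ n, PiNum ({p}ᶜ : Set ℕ) n ∧ a ^ n = 1)
    (haN : ∀ x ∈ N₁, a * x * a⁻¹ * x⁻¹ ∈ Subgroup.closure ((N₂ : Set Γ) ∪
      {y | ∃ z ∈ N₁, y = z ^ p} ∪ {y | ∃ u ∈ N₁, ∃ v ∈ N₁, y = u * v * u⁻¹ * v⁻¹}))
    (h2 : N₂ ≤ N₁) (x : Γ) (hx : x ∈ N₁) :
    (QuotientGroup.mk' (N₂.subgroupOf M) ⟨a, ha⟩) * (QuotientGroup.mk' (N₂.subgroupOf M) ⟨x, h1 hx⟩) =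
      (QuotientGroup.mk' (N₂.subgroupOf M) ⟨x, h1 hx⟩) * (QuotientGroup.mk' (N₂.subgroupOf M) ⟨a, ha⟩) := by
  set π : M →* M ⧸ N₂.subgroupOf M := QuotientGroup.mk' (N₂.subgroupOf M) with hπ
  have hker : ∀ y : M, (y : Γ) ∈ N₂ → π y = 1 := fun y hy =>
    (QuotientGroup.eq_one_iff y).2 (Subgroup.mem_subgroupOf.2 hy)
  let R : Subgroup (M ⧸ N₂.subgroupOf M) := (N₁.subgroupOf M).map π
  have hRn : R.Normal := by
    constructor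
    rintro _ ⟨y, hy, rfl⟩ g
    obtain ⟨g, rfl⟩ := QuotientGroup.mk'_surjective _ g
    refine ⟨g * y * g⁻¹, ?_, ?_⟩
    · exact Subgroup.mem_subgroupOf.2 (hn1 g g.2 y (Subgroup.mem_subgroupOf.1 hy))
    · rw [map_mul, map_mul, map_inv]
  have hRp : IsPGroup p R := by
    rintro ⟨_, y, hy, rfl⟩
    obtain ⟨j, hj⟩ := hN1 y (Subgroup.mem_subgroupOf.1 hy)
    refine ⟨j, Subtype.ext ?_⟩
    show (π y) ^ p ^ j = 1
    rw [← map_pow]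
    exact hker _ hj
  let ρ : N₁ →* R :=
    { toFun := fun y => ⟨π ⟨y, h1 y.2⟩, ⟨⟨y, h1 y.2⟩, Subgroup.mem_subgroupOf.2 y.2, rfl⟩⟩
      map_one' := Subtype.ext (map_one π)
      map_mul' := fun y z => Subtype.ext (map_mul π ⟨y, h1 y.2⟩ ⟨z, h1 z.2⟩) }
  let ΦR : Subgroup R := Subgroup.closure ({y : R | ∃ z, y = z ^ p} ∪ {y | ∃ a b, y = a * b * a⁻¹ * b⁻¹})
  have hΦ : Subgroup.closure ((N₂ : Set Γ) ∪
      {y | ∃ z ∈ N₁, y = z ^ p} ∪ {y | ∃ u ∈ N₁, ∃ v ∈ N₁, y = u * v * u⁻¹ * v⁻¹}) ≤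
      (ΦR.comap ρ).map N₁.subtype := by
    rw [Subgroup.closure_le]
    rintro y ((hy | ⟨z, hz, rfl⟩) | ⟨u, hu, v, hv, rfl⟩)
    · refine ⟨⟨y, h2 hy⟩, ?_, rfl⟩
      show ρ ⟨y, h2 hy⟩ ∈ ΦR
      have e : ρ ⟨y, h2 hy⟩ = 1 := Subtype.ext (hker _ hy)
      rw [e]
      exact ΦR.one_mem
    · refine ⟨⟨z, hz⟩ ^ p, ?_, rfl⟩
      show ρ (⟨z, hz⟩ ^ p) ∈ ΦR
      rw [map_pow]
      exact Subgroup.subset_closure (Or.inl ⟨_, rfl⟩)
    · refine ⟨⟨u, hu⟩ * ⟨v, hv⟩ * ⟨u, hu⟩⁻¹ * ⟨v, hv⟩⁻¹, ?_, rfl⟩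
      show ρ (⟨u, hu⟩ * ⟨v, hv⟩ * ⟨u, hu⟩⁻¹ * ⟨v, hv⟩⁻¹) ∈ ΦR
      rw [map_mul, map_mul, map_mul, map_inv, map_inv]
      exact Subgroup.subset_closure (Or.inr ⟨_, _, rfl⟩)
  obtain ⟨n, hn, han⟩ := hap
  have hpn : ¬ p ∣ n := fun hd => hn.2 p hp hd rfl
  let α : MulAut R := MulAut.conjNormal (π ⟨a, ha⟩)
  have hα : α ^ n = 1 := by
    show (MulAut.conjNormal (π ⟨a, ha⟩)) ^ n = 1
    rw [← map_pow, ← map_pow]
    have e : (⟨a, ha⟩ : M) ^ n = 1 := Subtype.ext han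
    rw [e, map_one, map_one]
  have hαv : ∀ r : R, ((α r : R) : M ⧸ N₂.subgroupOf M) = π ⟨a, ha⟩ * r * (π ⟨a, ha⟩)⁻¹ := by
    intro r
    exact MulAut.conjNormal_apply _ _
  have key := coprime_trivial hp hRp α hα hpn (by
    intro r
    show r⁻¹ * α r ∈ ΦR
    obtain ⟨_, y, hy, rfl⟩ := r
    have hy1 : (y : Γ) ∈ N₁ := Subgroup.mem_subgroupOf.1 hy
    have h3 := haN _ (N₁.inv_mem hy1)
    obtain ⟨z, hz, hze⟩ := hΦ h3
    have h4 : ρ z ∈ ΦR := hz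
    have e : (⟨π y, ⟨y, hy, rfl⟩⟩ : R)⁻¹ * α ⟨π y, ⟨y, hy, rfl⟩⟩ = (ρ z)⁻¹ := by
      apply Subtype.ext
      show (π y)⁻¹ * ((α ⟨π y, ⟨y, hy, rfl⟩⟩ : R) : M ⧸ N₂.subgroupOf M) = (π ⟨z, h1 z.2⟩)⁻¹
      rw [hαv]
      have e1 : (⟨z, h1 z.2⟩ : M) = ⟨a, ha⟩ * y⁻¹ * ⟨a, ha⟩⁻¹ * (y⁻¹)⁻¹ := Subtype.ext hze
      rw [e1, map_mul, map_mul, map_mul, map_inv, map_inv, map_inv, map_inv]
      group
    rw [e]
    exact ΦR.inv_mem h4)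
  have h5 := congrArg (fun r : R => (r : M ⧸ N₂.subgroupOf M))
    (key ⟨π ⟨x, h1 hx⟩, ⟨⟨x, h1 hx⟩, Subgroup.mem_subgroupOf.2 hx, rfl⟩⟩)
  have h6 : π ⟨a, ha⟩ * π ⟨x, h1 hx⟩ * (π ⟨a, ha⟩)⁻¹ = π ⟨x, h1 hx⟩ := by
    rw [← hαv ⟨π ⟨x, h1 hx⟩, ⟨⟨x, h1 hx⟩, Subgroup.mem_subgroupOf.2 hx, rfl⟩⟩]
    exact h5
  exact mul_inv_eq_iff_eq_mul.1 h6

theorem fin_pnil {Γ : Type*} [Group Γ] [Finite Γ] {p : ℕ} (hp : p.Prime) {M N₁ N₂ : Subgroup Γ}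
    (h1 : N₁ ≤ M) (h2 : N₂ ≤ N₁) (hn1 : ∀ g ∈ M, ∀ x ∈ N₁, g * x * g⁻¹ ∈ N₁)
    (hn2 : ∀ g ∈ M, ∀ x ∈ N₂, g * x * g⁻¹ ∈ N₂)
    (hN2 : ∀ x ∈ N₂, ∃ n, PiNum ({p}ᶜ : Set ℕ) n ∧ x ^ n = 1)
    (hN1 : ∀ x ∈ N₁, ∃ j : ℕ, x ^ p ^ j ∈ N₂) {a b : Γ} (ha : a ∈ M) (hb : b ∈ M)
    (hap : ∃ n, PiNum ({p}ᶜ : Set ℕ) n ∧ a ^ n = 1)
    (hbp : ∃ n, PiNum ({p}ᶜ : Set ℕ) n ∧ b ^ n = 1) (hab : a * b * a⁻¹ * b⁻¹ ∈ N₁)
    (haN : ∀ x ∈ N₁, a * x * a⁻¹ * x⁻¹ ∈ Subgroup.closure ((N₂ : Set Γ) ∪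
      {y | ∃ z ∈ N₁, y = z ^ p} ∪ {y | ∃ u ∈ N₁, ∃ v ∈ N₁, y = u * v * u⁻¹ * v⁻¹}))
    (hbN : ∀ x ∈ N₁, b * x * b⁻¹ * x⁻¹ ∈ Subgroup.closure ((N₂ : Set Γ) ∪
      {y | ∃ z ∈ N₁, y = z ^ p} ∪ {y | ∃ u ∈ N₁, ∃ v ∈ N₁, y = u * v * u⁻¹ * v⁻¹})) :
    ∃ n, PiNum ({p}ᶜ : Set ℕ) n ∧ (a * b) ^ n = 1 := by
  have hQ : (N₂.subgroupOf M).Normal := by
    constructor
    intro y hy g
    exact Subgroup.mem_subgroupOf.2 (hn2 g g.2 y (Subgroup.mem_subgroupOf.1 hy))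
  have hfa := qfin_fix hp h1 hn1 hN1 ha hap haN h2
  have hfb := qfin_fix hp h1 hn1 hN1 hb hbp hbN h2
  set π : M →* M ⧸ N₂.subgroupOf M := QuotientGroup.mk' (N₂.subgroupOf M) with hπ
  obtain ⟨na, hna, hana⟩ := hap
  obtain ⟨nb, hnb, hbnb⟩ := hbp
  have hPn : PiNum ({p}ᶜ : Set ℕ) (na * nb) := hna.mul hnb
  have hPm : PiNum ({p}ᶜ : Set ℕ) ((na * nb) * (na * nb)) := hPn.mul hPn
  have hA : (π ⟨a, ha⟩) ^ na = 1 := by
    rw [← map_pow]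
    have e : (⟨a, ha⟩ : M) ^ na = 1 := Subtype.ext hana
    rw [e, map_one]
  have hB : (π ⟨b, hb⟩) ^ nb = 1 := by
    rw [← map_pow]
    have e : (⟨b, hb⟩ : M) ^ nb = 1 := Subtype.ext hbnb
    rw [e, map_one]
  have hC1 : π ⟨a * b * a⁻¹ * b⁻¹, h1 hab⟩ =
      π ⟨a, ha⟩ * π ⟨b, hb⟩ * (π ⟨a, ha⟩)⁻¹ * (π ⟨b, hb⟩)⁻¹ := by
    rw [← map_inv, ← map_inv, ← map_mul, ← map_mul, ← map_mul]
    rfl
  have hCA := (hfa _ hab).symm
  have hCB := (hfb _ hab).symm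
  have hAB : π ⟨a, ha⟩ * π ⟨b, hb⟩ =
      π ⟨a * b * a⁻¹ * b⁻¹, h1 hab⟩ * π ⟨b, hb⟩ * π ⟨a, ha⟩ := by
    rw [hC1]
    group
  have hAn : (π ⟨a, ha⟩) ^ (na * nb) = 1 := by rw [pow_mul, hA, one_pow]
  have hBn : (π ⟨b, hb⟩) ^ (na * nb) = 1 := by rw [mul_comm, pow_mul, hB, one_pow]
  have hCn : (π ⟨a * b * a⁻¹ * b⁻¹, h1 hab⟩) ^ (na * nb) = 1 := by
    have h3 := qfin_aux2 hAB hCA (na * nb)
    rw [hAn, one_mul, mul_one] at h3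
    exact (right_eq_mul.1 h3)
  have h4 := qfin_class2 hAB hCA hCB ((na * nb) * (na * nb))
  obtain ⟨c, hc⟩ := qfin_choose (na * nb)
  have hCc : (π ⟨a * b * a⁻¹ * b⁻¹, h1 hab⟩) ^ (na * nb * c) = 1 := by rw [pow_mul, hCn, one_pow]
  have hAm : (π ⟨a, ha⟩) ^ (na * nb * (na * nb)) = 1 := by rw [pow_mul, hAn, one_pow]
  have hBm : (π ⟨b, hb⟩) ^ (na * nb * (na * nb)) = 1 := by rw [pow_mul, hBn, one_pow]
  rw [hc, hCc, mul_one, hAm, hBm, one_mul] at h4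
  have h5 : (a * b) ^ (na * nb * (na * nb)) ∈ N₂ := by
    have h6 : π ((⟨a, ha⟩ * ⟨b, hb⟩) ^ (na * nb * (na * nb))) = 1 := by
      rw [map_pow, map_mul]
      exact h4
    exact Subgroup.mem_subgroupOf.1 ((QuotientGroup.eq_one_iff _).1 h6)
  obtain ⟨k, hk, hk1⟩ := hN2 _ h5
  exact ⟨_, hPm.mul hk, by rw [pow_mul]; exact hk1⟩

end Pool.Agent.Lib.MP_ae9e3a_al
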