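import Pool.Agent.Lib.MP_ae9e3a_al.Cent
import Pool.Agent.Lib.MP_ae9e3a_al.Top

set_option autoImplicit false

/-!
# VPP module QMarg: finitely many values imply an open marginal subgroup

PROOF. `φ g = w(g)` is continuous on the compact space `Fin k → G` (`continuous_lift`) with finite
range. For every `g` the set `φ ⁻¹' {φ g}` is open (its complement is the preimage of a finite, so
closed, set); so (`Basis1`, finitely many coordinates, product topology) there is an open normal
subgroup `V g` with `φ (g * v) = φ g` for all `v ∈ (V g)^k`. The open sets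
`{h | ∀ i, (g i)⁻¹ * h i ∈ V g}` cover the compact space; take a finite subcover `g_1, ..., g_n` and
`V = ⨅ V (g_j)` (open, normal). If `h` is in the `j`-th set, `h = g_j * u`, `u ∈ (V g_j)^k`, then for
`v ∈ V^k`: `φ (h v) = φ (g_j (u v)) = φ g_j = φ h`.
PROOF of `marginal_central`. `u w(g) u⁻¹ = w(u g u⁻¹)` and `u g_i u⁻¹ = g_i * (g_i⁻¹ u g_i * u⁻¹)`
with `g_i⁻¹ u g_i u⁻¹ ∈ V`; so `V` centralises the values, and the group they generate.
-/

namespace Pool.Agent.Lib.MP_ae9e3a_al

private theorem QMarg_local {G : Type*} [Group G] [TopologicalSpace G] [IsTopologicalGroup G]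
    [T2Space G] (hb : Basis1 G) {k : ℕ} (w : FreeGroup (Fin k))
    (h : (vals w G).Finite) (g : Fin k → G) :
    ∃ V : Subgroup G, V.Normal ∧ IsOpen (V : Set G) ∧ ∀ u : Fin k → G, (∀ i, u i ∈ V) →
      FreeGroup.lift (fun i => g i * u i) w = FreeGroup.lift g w := by
  have hc : Continuous fun u : Fin k → G => FreeGroup.lift (fun i => g i * u i) w :=
    (continuous_lift w).comp (continuous_pi fun i => continuous_const.mul (continuous_apply i))
  have hcl : IsClosed (vals w G \ {FreeGroup.lift g w}) := (h.subset Set.diff_subset).isClosed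
  have ho : IsOpen {u : Fin k → G | FreeGroup.lift (fun i => g i * u i) w = FreeGroup.lift g w} := by
    have h1 := (hcl.preimage hc).isOpen_compl
    have h2 : ((fun u : Fin k → G => FreeGroup.lift (fun i => g i * u i) w) ⁻¹'
        (vals w G \ {FreeGroup.lift g w}))ᶜ =
        {u : Fin k → G | FreeGroup.lift (fun i => g i * u i) w = FreeGroup.lift g w} := by
      ext u
      constructor
      · intro hu
        by_contra hne
        exact hu ⟨⟨fun i => g i * u i, rfl⟩, hne⟩
      · intro hu hu2
        exact hu2.2 hu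
    rw [h2] at h1
    exact h1
  obtain ⟨U, hU1, hU2⟩ := isOpen_pi_iff'.1 ho (fun _ => 1) (by
    change FreeGroup.lift (fun i => g i * 1) w = FreeGroup.lift g w
    simp only [mul_one])
  have hU3 : (⋂ i, U i) ∈ nhds (1 : G) :=
    (isOpen_iInter_of_finite fun i => (hU1 i).1).mem_nhds (Set.mem_iInter.2 fun i => (hU1 i).2)
  obtain ⟨V, hVn, hVo, hV⟩ := hb _ hU3
  refine ⟨V, hVn, hVo, fun u hu => ?_⟩
  exact hU2 (fun i _ => Set.mem_iInter.1 (hV (hu i)) i)

theorem marginal_of_finite {G : Type*} [Group G] [TopologicalSpace G] [IsTopologicalGroup G]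
    [CompactSpace G] [T2Space G] (hb : Basis1 G) {k : ℕ} (w : FreeGroup (Fin k))
    (h : (vals w G).Finite) :
    ∃ V : Subgroup G, V.Normal ∧ IsOpen (V : Set G) ∧ Marginal w V := by
  choose W hWn hWo hW using QMarg_local hb w h
  have hO : ∀ g : Fin k → G, {x : Fin k → G | ∀ i, (g i)⁻¹ * x i ∈ W g} ∈ nhds g := by
    intro g
    have h1 : {x : Fin k → G | ∀ i, (g i)⁻¹ * x i ∈ W g} =
        ⋂ i, (fun x : Fin k → G => (g i)⁻¹ * x i) ⁻¹' (W g : Set G) := by
      ext x
      simp only [Set.mem_setOf_eq, Set.mem_iInter, Set.mem_preimage, SetLike.mem_coe]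
    have h2 : IsOpen {x : Fin k → G | ∀ i, (g i)⁻¹ * x i ∈ W g} := by
      rw [h1]
      exact isOpen_iInter_of_finite fun i =>
        (hWo g).preimage (continuous_const.mul (continuous_apply i))
    refine h2.mem_nhds fun i => ?_
    rw [inv_mul_cancel]
    exact (W g).one_mem
  obtain ⟨t, -, ht⟩ := isCompact_univ.elim_nhds_subcover
    (fun g : Fin k → G => {x : Fin k → G | ∀ i, (g i)⁻¹ * x i ∈ W g}) (fun g _ => hO g)
  refine ⟨⨅ g ∈ t, W g, ⟨fun n hn g => ?_⟩, ?_, ?_⟩
  · simp only [Subgroup.mem_iInf] at hn ⊢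
    exact fun i hi => (hWn i).conj_mem n (hn i hi) g
  · have h1 : ((⨅ g ∈ t, W g : Subgroup G) : Set G) = ⋂ g ∈ t, (W g : Set G) := by
      simp only [Subgroup.coe_iInf]
    rw [h1]
    exact isOpen_biInter_finset fun g _ => hWo g
  · intro g d hd
    obtain ⟨j, hj, hgj⟩ := Set.mem_iUnion₂.1 (ht (Set.mem_univ g))
    have hgj' : ∀ i, (j i)⁻¹ * g i ∈ W j := hgj
    have hdj : ∀ i, d i ∈ W j := fun i => by
      have := hd i
      simp only [Subgroup.mem_iInf] at this
      exact this j hj
    have e1 := hW j (fun i => (j i)⁻¹ * g i) hgj'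
    have e2 := hW j (fun i => (j i)⁻¹ * g i * d i) fun i => (W j).mul_mem (hgj' i) (hdj i)
    have e3 : (fun i => j i * ((j i)⁻¹ * g i)) = g := by
      funext i
      rw [mul_inv_cancel_left]
    have e4 : (fun i => j i * ((j i)⁻¹ * g i * d i)) = fun i => g i * d i := by
      funext i
      rw [← mul_assoc, mul_inv_cancel_left]
    rw [e3] at e1
    rw [e4] at e2
    rw [e1, e2]

theorem marginal_central {G : Type*} [Group G] {k : ℕ} (w : FreeGroup (Fin k)) {V : Subgroup G}
    (hn : V.Normal) (hV : Marginal w V) : ∀ u ∈ V, ∀ v ∈ verb w G, u * v = v * u := by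
  intro u hu v hv
  have h1 : vals w G ⊆ (Subgroup.centralizer {u} : Subgroup G) := by
    rintro _ ⟨g, rfl⟩
    rw [SetLike.mem_coe, Subgroup.mem_centralizer_iff]
    intro x hx
    rw [Set.mem_singleton_iff] at hx
    subst hx
    have e1 : x * FreeGroup.lift g w * x⁻¹ = FreeGroup.lift (fun i => x * g i * x⁻¹) w := by
      have h2 : (MulAut.conj x).toMonoidHom.comp (FreeGroup.lift g) =
          FreeGroup.lift (fun i => x * g i * x⁻¹) := by
        refine FreeGroup.ext_hom _ _ fun i => ?_
        simp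
      have h3 := DFunLike.congr_fun h2 w
      exact h3
    have e2 : FreeGroup.lift (fun i => x * g i * x⁻¹) w = FreeGroup.lift g w := by
      have h2 := hV g (fun i => (g i)⁻¹ * x * g i * x⁻¹) fun i => by
        refine V.mul_mem ?_ (V.inv_mem hu)
        have := hn.conj_mem x hu (g i)⁻¹
        rwa [inv_inv] at this
      have h3 : (fun i => g i * ((g i)⁻¹ * x * g i * x⁻¹)) = fun i => x * g i * x⁻¹ := by
        funext i
        group
      rw [h3] at h2
      exact h2
    change x * FreeGroup.lift g w = FreeGroup.lift g w * x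
    rw [e2] at e1
    rw [mul_inv_eq_iff_eq_mul] at e1
    exact e1
  have h2 : v ∈ Subgroup.centralizer {u} := (Subgroup.closure_le _).2 h1 hv
  rw [Subgroup.mem_centralizer_iff] at h2
  exact h2 u rfl

end Pool.Agent.Lib.MP_ae9e3a_al
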