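import Pool.Agent.Lib.MP_ae9e3a_al.QFin
import Pool.Agent.Lib.MP_ae9e3a_al.N2
import Pool.Agent.Lib.MP_ae9e3a_al.ChnA
import Pool.Agent.Lib.MP_ae9e3a_al.ChnB

set_option autoImplicit false

/-!
# VPP module QStr: polyprocyclic groups are virtually `p`-nilpotent

`PNp p L`: in every finite quotient the `p'`-elements of the image of `L` are closed under products.

PROOF of `pnp_subgroup`: clear (inverses, closedness, normality as in `psub_subgroup`).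
PROOF of `exists_pnp`: induction on the chain. `refl`: `M = ⊥`, `V = ⊤`. `step N M x`: by induction there
is `V` with `PNp p (N ⊓ V)`; put `N₁ = N ⊓ V` (closed; `m n m⁻¹ ∈ N₁` for `m ∈ M`, `n ∈ N₁`), `N₂` =
the subgroup with carrier `PSub N₁ {p}ᶜ` (closed, stable under conjugation by `M`). Let
`Φ = topological closure of closure (N₂ ∪ {z ^ p | z ∈ N₁} ∪ {[u, v] | u, v ∈ N₁})`, `Φ ≤ N₁`. `Φ` has
finite index in `N₁`: `Chn ⊥ N₁` (`Chn.inter`), so `TopGen ⊥ N₁ S` (`Chn.topGen`); modulo `Φ` the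
elements of `N₁` commute and have exponent `p`, so `⟨S⟩ Φ` is a finite union of cosets of `Φ`
(`∏ s ^ e_s`, `0 ≤ e_s < p`), closed, so it is `N₁`. (Compare the proof in GoodA.lean that `A / Q` is
finite.) `open_in` gives `V₂` open normal with `N₁ ⊓ V₂ ≤ Φ`. CLAIM `PNp p (M ⊓ (V ⊓ V₂))`. Let `V'` be
open normal, `Γ = G ⧸ V'` (finite), `f` the quotient map, `a, b ∈ M ⊓ V ⊓ V₂` with `a ^ n, b ^ m ∈ V'`.
Apply `fin_pnil` in `Γ` to `M.map f`, `N₁.map f`, `N₂.map f`, `f a`, `f b`: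
`hN2`: clear; `hN1`: every `x ∈ N₁` is `c * d`, `c ∈ PSub N₁ {p}`, `d ∈ PSub N₁ {p}ᶜ = N₂`
(`psub_univ`, `psub_decomp`), `c ^ p ^ j ∈ V'` and `(c d) ^ p ^ j ∈ c ^ p ^ j N₂` (`N₂` is normal in
`N₁`); `hab`: `[a, b] ∈ N` (`M ⊆ closure (N ⊔ ⟨x⟩)`, so `[M, M] ≤ N`: see NSerEx.lean) and `[a, b] ∈ V`;
`haN`: for `x ∈ N₁`: `[a, x] ∈ N₁ ⊓ V₂ ≤ Φ`, and the image of `Φ` under `f` is contained in the image of
the abstract subgroup (`f` is continuous and `Γ` is discrete: every element of a topological closure is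
in `g V'` with `g` in the subgroup).
-/

namespace Pool.Agent.Lib.MP_ae9e3a_al

/-- In every finite quotient the `p'`-elements of the image of `L` are closed under products. -/
def PNp (p : ℕ) {G : Type*} [Group G] [TopologicalSpace G] (L : Subgroup G) : Prop :=
  ∀ V : Subgroup G, V.Normal → IsOpen (V : Set G) → ∀ a ∈ L, ∀ b ∈ L,
    (∃ n, PiNum ({p}ᶜ : Set ℕ) n ∧ a ^ n ∈ V) → (∃ n, PiNum ({p}ᶜ : Set ℕ) n ∧ b ^ n ∈ V) →
    ∃ n, PiNum ({p}ᶜ : Set ℕ) n ∧ (a * b) ^ n ∈ V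

variable {G : Type*} [Group G] [TopologicalSpace G] [IsTopologicalGroup G] [CompactSpace G]
  [T2Space G]

omit [TopologicalSpace G] [IsTopologicalGroup G] [CompactSpace G] [T2Space G] in
private theorem QStr_pow_mem_iff (V : Subgroup G) [V.Normal] (x : G) (n : ℕ) :
    x ^ n ∈ V ↔ (QuotientGroup.mk' V x) ^ n = 1 := by
  rw [← map_pow]
  exact (QuotientGroup.eq_one_iff _).symm

private theorem QStr_piNum_one (π : Set ℕ) : PiNum π 1 :=
  ⟨one_ne_zero, fun q hq hd => absurd (Nat.dvd_one.1 hd) hq.one_lt.ne'⟩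

omit [IsTopologicalGroup G] [CompactSpace G] [T2Space G] in
theorem PNp.mono {p : ℕ} {L L' : Subgroup G} (h : PNp p L) (hL : L' ≤ L) : PNp p L' :=
  fun V hVn hVo a ha b hb h1 h2 => h V hVn hVo a (hL ha) b (hL hb) h1 h2

omit [CompactSpace G] [T2Space G] in
private theorem QStr_closed_pi (V : Subgroup G) (hVn : V.Normal) (hV : IsOpen (V : Set G)) (π : Set ℕ) :
    IsClosed {x : G | ∃ n, PiNum π n ∧ x ^ n ∈ V} := by
  have := hVn
  rw [← isOpen_compl_iff, isOpen_iff_forall_mem_open]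
  intro x hx
  refine ⟨(fun y => x⁻¹ * y) ⁻¹' (V : Set G), ?_, hV.preimage (continuous_const.mul continuous_id), ?_⟩
  · rintro y hy ⟨n, hn, hyn⟩
    apply hx
    refine ⟨n, hn, ?_⟩
    have h1 : QuotientGroup.mk' V y = QuotientGroup.mk' V x := by
      apply Eq.symm
      exact QuotientGroup.eq.2 hy
    rw [QStr_pow_mem_iff] at hyn ⊢
    rw [← h1]
    exact hyn
  · show x⁻¹ * x ∈ V
    rw [inv_mul_cancel]
    exact V.one_mem

theorem pnp_subgroup {p : ℕ} {L : Subgroup G} (hLc : IsClosed (L : Set G)) (h : PNp p L) :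
    ∃ N : Subgroup G, (N : Set G) = PSub L {p}ᶜ ∧ IsClosed (N : Set G) ∧
      ∀ g : G, (∀ x ∈ L, g * x * g⁻¹ ∈ L) → ∀ x ∈ N, g * x * g⁻¹ ∈ N := by
  let N : Subgroup G :=
    { carrier := PSub L {p}ᶜ
      one_mem' := ⟨L.one_mem, fun V _ _ => ⟨1, QStr_piNum_one _, by rw [one_pow]; exact V.one_mem⟩⟩
      mul_mem' := by
        rintro x y ⟨hx, hx'⟩ ⟨hy, hy'⟩
        exact ⟨L.mul_mem hx hy, fun V hVn hVo => h V hVn hVo x hx y hy (hx' V hVn hVo) (hy' V hVn hVo)⟩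
      inv_mem' := by
        rintro x ⟨hx, hx'⟩
        refine ⟨L.inv_mem hx, fun V hVn hVo => ?_⟩
        obtain ⟨n, hn, hxn⟩ := hx' V hVn hVo
        exact ⟨n, hn, by rw [inv_pow]; exact V.inv_mem hxn⟩ }
  refine ⟨N, rfl, ?_, ?_⟩
  · have h1 : (N : Set G) = (L : Set G) ∩ ⋂ (V : Subgroup G) (_ : V.Normal) (_ : IsOpen (V : Set G)),
        {x : G | ∃ n, PiNum ({p}ᶜ : Set ℕ) n ∧ x ^ n ∈ V} := by
      ext x
      simp only [Set.mem_inter_iff, Set.mem_iInter, Set.mem_setOf_eq]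
      exact Iff.rfl
    rw [h1]
    refine hLc.inter (isClosed_iInter fun V => isClosed_iInter fun hVn => isClosed_iInter fun hVo => ?_)
    exact QStr_closed_pi V hVn hVo _
  · rintro g hg x ⟨hx, hx'⟩
    refine ⟨hg x hx, fun V hVn hVo => ?_⟩
    obtain ⟨n, hn, hxn⟩ := hx' V hVn hVo
    exact ⟨n, hn, by rw [conj_pow]; exact hVn.conj_mem _ hxn g⟩

omit [CompactSpace G] [T2Space G] in
private theorem QStr_comm {H K : Subgroup G} {x : G} (hH : IsClosed (H : Set G))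
    (hn : ∀ h ∈ H, ∀ k ∈ K, k * h * k⁻¹ ∈ H) (hx : x ∈ K)
    (hK : (K : Set G) ⊆ closure ((H ⊔ Subgroup.zpowers x : Subgroup G) : Set G)) :
    ∀ a ∈ K, ∀ b ∈ K, a * b * a⁻¹ * b⁻¹ ∈ H := by
  have h1 : ∀ y ∈ Subgroup.zpowers x, ∀ n ∈ H, y * n * y⁻¹ ∈ H := fun y hy n hn' =>
    hn n hn' y ((Subgroup.zpowers_le.mpr hx) hy)
  have h2 := coe_sup_of_normalizes h1
  have h3 : ∀ a ∈ (H ⊔ Subgroup.zpowers x : Subgroup G),
      ∀ b ∈ (H ⊔ Subgroup.zpowers x : Subgroup G), a * b * a⁻¹ * b⁻¹ ∈ H := by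
    intro a ha b hb
    have ha' : a ∈ {g | ∃ n ∈ H, ∃ y ∈ Subgroup.zpowers x, g = n * y} := by rw [← h2]; exact ha
    have hb' : b ∈ {g | ∃ n ∈ H, ∃ y ∈ Subgroup.zpowers x, g = n * y} := by rw [← h2]; exact hb
    obtain ⟨n, hn1, y, hy, rfl⟩ := ha'
    obtain ⟨n', hn1', y', hy', rfl⟩ := hb'
    have hc : y * y' = y' * y := by
      obtain ⟨i, rfl⟩ := Subgroup.mem_zpowers_iff.mp hy
      obtain ⟨j, rfl⟩ := Subgroup.mem_zpowers_iff.mp hy'
      rw [← zpow_add, ← zpow_add, add_comm]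
    have hc' : y * y' * y⁻¹ = y' := by rw [hc, mul_inv_cancel_right]
    have e : n * y * (n' * y') * (n * y)⁻¹ * (n' * y')⁻¹ =
        n * (y * n' * y⁻¹) * (y' * n⁻¹ * y'⁻¹) * n'⁻¹ := by
      calc n * y * (n' * y') * (n * y)⁻¹ * (n' * y')⁻¹ =
          n * (y * n' * y⁻¹) * (y * y' * y⁻¹) * n⁻¹ * y'⁻¹ * n'⁻¹ := by group
        _ = n * (y * n' * y⁻¹) * (y' * n⁻¹ * y'⁻¹) * n'⁻¹ := by rw [hc']; group
    rw [e]
    exact H.mul_mem (H.mul_mem (H.mul_mem hn1 (h1 y hy n' hn1')) (h1 y' hy' _ (H.inv_mem hn1)))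
      (H.inv_mem hn1')
  have h4 : closure (((H ⊔ Subgroup.zpowers x : Subgroup G) : Set G) ×ˢ
      ((H ⊔ Subgroup.zpowers x : Subgroup G) : Set G)) ⊆
      (fun q : G × G => q.1 * q.2 * q.1⁻¹ * q.2⁻¹) ⁻¹' (H : Set G) := by
    refine closure_minimal ?_ (hH.preimage (by fun_prop))
    rintro ⟨a, b⟩ ⟨ha, hb⟩
    exact h3 a ha b hb
  intro a ha b hb
  have h5 : (a, b) ∈ closure (((H ⊔ Subgroup.zpowers x : Subgroup G) : Set G) ×ˢ
      ((H ⊔ Subgroup.zpowers x : Subgroup G) : Set G)) := by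
    rw [closure_prod_eq]
    exact ⟨hK ha, hK hb⟩
  exact h4 h5

private theorem QStr_fin {N Φ : Subgroup G} (hΦc : IsClosed (Φ : Set G)) {n : ℕ}
    (hn0 : 0 < n) (hpow : ∀ x ∈ N, x ^ n ∈ Φ)
    (hcom : ∀ x ∈ N, ∀ y ∈ N, x * y * x⁻¹ * y⁻¹ ∈ Φ) (hΦN : Φ ≤ N) {S : Finset G}
    (hS : TopGen ⊥ N S) : Φ.relIndex N ≠ 0 := by
  classical
  have hn : (Φ.subgroupOf N).Normal := by
    constructor
    intro y hy g
    rw [Subgroup.mem_subgroupOf] at hy ⊢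
    have e : ((g * y * g⁻¹ : N) : G) = ((g : G) * y * (g : G)⁻¹ * (y : G)⁻¹) * y := by
      push_cast
      group
    rw [e]
    exact Φ.mul_mem (hcom g g.2 y y.2) hy
  let φ := QuotientGroup.mk' (Φ.subgroupOf N)
  let T : Finset N := S.attach.image (fun s => ⟨s.1, hS.1 s.1 s.2⟩)
  have hT : ∀ s (hs : s ∈ S), (⟨s, hS.1 s hs⟩ : N) ∈ T := by
    intro s hs
    exact Finset.mem_image.2 ⟨⟨s, hs⟩, Finset.mem_attach _ _, rfl⟩
  let E : Subgroup (N ⧸ Φ.subgroupOf N) := (Subgroup.closure (T : Set N)).map φ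
  have hcomm : ∀ x y : E, x * y = y * x := by
    rintro ⟨_, x, hx, rfl⟩ ⟨_, y, hy, rfl⟩
    apply Subtype.ext
    show φ x * φ y = φ y * φ x
    rw [← map_mul, ← map_mul]
    apply Eq.symm
    apply QuotientGroup.eq.2
    rw [Subgroup.mem_subgroupOf]
    have h1 := hcom (x : G)⁻¹ (N.inv_mem x.2) (y : G)⁻¹ (N.inv_mem y.2)
    have h2 : (((y * x)⁻¹ * (x * y) : N) : G) = (x : G)⁻¹ * (y : G)⁻¹ * (x : G)⁻¹⁻¹ * (y : G)⁻¹⁻¹ := by
      push_cast
      group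
    rw [h2]
    exact h1
  have hfg : Group.FG E := by
    rw [Group.fg_iff_subgroup_fg]
    refine ⟨T.image φ, ?_⟩
    rw [Finset.coe_image, ← MonoidHom.map_closure]
  have hfin : Finite E := by
    let _ : CommGroup E := { (inferInstance : Group E) with mul_comm := hcomm }
    have htor : Monoid.IsTorsion E := by
      rintro ⟨_, x, hx, rfl⟩
      rw [isOfFinOrder_iff_pow_eq_one]
      refine ⟨n, hn0, ?_⟩
      apply Subtype.ext
      show φ x ^ n = 1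
      rw [← map_pow]
      refine (QuotientGroup.eq_one_iff _).2 ?_
      rw [Subgroup.mem_subgroupOf]
      exact hpow x x.2
    exact CommGroup.finite_of_fg_torsion E htor
  choose f hf1 hf2 using fun e : E => e.2
  have hcl : IsClosed (⋃ e : E, (fun g : G => ((f e : N) : G)⁻¹ * g) ⁻¹' (Φ : Set G)) := by
    refine isClosed_iUnion_of_finite fun e => ?_
    exact hΦc.preimage (by fun_prop)
  have hsub : ((⊥ ⊔ Subgroup.closure (S : Set G) : Subgroup G) : Set G) ⊆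
      ⋃ e : E, (fun g : G => ((f e : N) : G)⁻¹ * g) ⁻¹' (Φ : Set G) := by
    intro g hg
    rw [bot_sup_eq] at hg
    have h1 : Subgroup.closure (S : Set G) ≤ (Subgroup.closure (T : Set N)).map N.subtype := by
      rw [Subgroup.closure_le]
      intro s hs
      exact ⟨⟨s, hS.1 s (Finset.mem_coe.1 hs)⟩, Subgroup.subset_closure (Finset.mem_coe.2 (hT s (Finset.mem_coe.1 hs))), rfl⟩
    obtain ⟨t, ht, hte⟩ := h1 hg
    rw [Set.mem_iUnion]
    refine ⟨⟨φ t, t, ht, rfl⟩, ?_⟩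
    show ((f ⟨φ t, t, ht, rfl⟩ : N) : G)⁻¹ * g ∈ Φ
    have h2 := hf2 ⟨φ t, t, ht, rfl⟩
    have h3 : (f ⟨φ t, t, ht, rfl⟩)⁻¹ * t ∈ Φ.subgroupOf N := QuotientGroup.eq.1 h2
    rw [Subgroup.mem_subgroupOf] at h3
    rw [← hte]
    exact h3
  refine relIndex_ne_zero_of_cover (Set.range fun e : E => ((f e : N) : G)) (Set.finite_range _) ?_
  intro m hm
  have h1 := closure_minimal hsub hcl (hS.2 hm)
  rw [Set.mem_iUnion] at h1
  obtain ⟨e, he⟩ := h1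
  exact ⟨_, ⟨e, rfl⟩, he⟩

private theorem QStr_pow {G : Type*} [Group G] {N : Subgroup G} {c d : G}
    (hc : ∀ x ∈ N, c⁻¹ * x * c ∈ N) (hd : d ∈ N) (k : ℕ) : ∃ e ∈ N, (c * d) ^ k = c ^ k * e := by
  induction k with
  | zero => exact ⟨1, N.one_mem, by simp⟩
  | succ k ih =>
    obtain ⟨e, he, h⟩ := ih
    refine ⟨(c⁻¹ * e * c) * d, N.mul_mem (hc e he) hd, ?_⟩
    rw [pow_succ, h, pow_succ]
    group

theorem exists_pnp (hb : Basis1 G) {p : ℕ} (hp : p.Prime) {M : Subgroup G}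
    (hM : Chn (⊥ : Subgroup G) M) :
    ∃ V : Subgroup G, V.Normal ∧ IsOpen (V : Set G) ∧ PNp p (M ⊓ V) := by
  induction hM with
  | refl h =>
    refine ⟨⊤, inferInstance, isOpen_univ, ?_⟩
    intro V hVn hVo a ha b hb' _ _
    have ha1 : a = 1 := Subgroup.mem_bot.1 ha.1
    have hb1 : b = 1 := Subgroup.mem_bot.1 hb'.1
    refine ⟨1, QStr_piNum_one _, ?_⟩
    rw [ha1, hb1, mul_one, one_pow]
    exact V.one_mem
  | step H K x hch hHK hKc hn hx hK ih =>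
    obtain ⟨V, hVn, hVo, hPV⟩ := ih
    have hVc : IsClosed (V : Set G) := V.isClosed_of_isOpen hVo
    obtain ⟨N₁, hN₁⟩ : ∃ N₁ : Subgroup G, N₁ = H ⊓ V := ⟨_, rfl⟩
    rw [← hN₁] at hPV
    have hN1c : IsClosed (N₁ : Set G) := by
      rw [hN₁, Subgroup.coe_inf]
      exact hch.closed_right.inter hVc
    have hN1K : ∀ g ∈ K, ∀ y ∈ N₁, g * y * g⁻¹ ∈ N₁ := by
      intro g hg y hy
      rw [hN₁] at hy ⊢
      exact ⟨hn y hy.1 g hg, hVn.conj_mem y hy.2 g⟩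
    have hN1leK : N₁ ≤ K := by
      rw [hN₁]
      exact inf_le_left.trans hHK
    obtain ⟨N₂, hN2e, hN2c, hN2n⟩ := pnp_subgroup hN1c hPV
    have hN2mem : ∀ y, y ∈ N₂ ↔ y ∈ PSub N₁ {p}ᶜ := by
      intro y
      rw [← hN2e]
      rfl
    have hN21 : N₂ ≤ N₁ := fun y hy => ((hN2mem y).1 hy).1
    have hN2K : ∀ g ∈ K, ∀ y ∈ N₂, g * y * g⁻¹ ∈ N₂ := fun g hg => hN2n g (hN1K g hg)
    obtain ⟨A, hA⟩ : ∃ A : Subgroup G, A = Subgroup.closure ((N₂ : Set G) ∪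
        {y | ∃ z ∈ N₁, y = z ^ p} ∪ {y | ∃ u ∈ N₁, ∃ v ∈ N₁, y = u * v * u⁻¹ * v⁻¹}) := ⟨_, rfl⟩
    have hAN : A ≤ N₁ := by
      rw [hA, Subgroup.closure_le]
      rintro y ((hy | ⟨z, hz, rfl⟩) | ⟨u, hu, v, hv, rfl⟩)
      · exact hN21 hy
      · exact N₁.pow_mem hz _
      · exact N₁.mul_mem (N₁.mul_mem (N₁.mul_mem hu hv) (N₁.inv_mem hu)) (N₁.inv_mem hv)
    have hAle : A ≤ A.topologicalClosure := Subgroup.le_topologicalClosure _
    have hΦN : A.topologicalClosure ≤ N₁ := Subgroup.topologicalClosure_minimal _ hAN hN1c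
    have hΦc : IsClosed (A.topologicalClosure : Set G) := Subgroup.isClosed_topologicalClosure _
    have hchN : Chn (⊥ : Subgroup G) N₁ := by
      have h1 := Chn.inter hb hch hVc
      rw [bot_inf_eq, ← hN₁] at h1
      exact h1
    obtain ⟨S, hS⟩ := hchN.topGen
    have hfin : A.topologicalClosure.relIndex N₁ ≠ 0 := by
      refine QStr_fin hΦc hp.pos ?_ ?_ hΦN hS
      · intro y hy
        apply hAle
        rw [hA]
        exact Subgroup.subset_closure (Or.inl (Or.inr ⟨y, hy, rfl⟩))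
      · intro u hu v hv
        apply hAle
        rw [hA]
        exact Subgroup.subset_closure (Or.inr ⟨u, hu, v, hv, rfl⟩)
    obtain ⟨V₂, hV2n, hV2o, hV2⟩ := open_in hb hN1c hΦc hΦN hfin
    refine ⟨V ⊓ V₂, inferInstance, ?_, ?_⟩
    · rw [Subgroup.coe_inf]
      exact hVo.inter hV2o
    intro V' hV'n hV'o a ha b hb' ha2 hb2
    obtain ⟨n, hn', han⟩ := ha2
    obtain ⟨m, hm', hbm⟩ := hb2
    have := Subgroup.quotient_finite_of_isOpen V' hV'o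
    let f := QuotientGroup.mk' V'
    have hfe : ∀ y z : G, y⁻¹ * z ∈ V' → f y = f z := fun y z h => QuotientGroup.eq.2 h
    have hf1 : ∀ y : G, y ∈ V' → f y = 1 := fun y h => (QuotientGroup.eq_one_iff y).2 h
    have hcomm := QStr_comm hch.closed_right hn hx hK
    have hΦf : ∀ y ∈ A.topologicalClosure, f y ∈ Subgroup.closure (((N₂.map f : Subgroup (G ⧸ V')) : Set (G ⧸ V')) ∪
        {y | ∃ z ∈ N₁.map f, y = z ^ p} ∪
        {y | ∃ u ∈ N₁.map f, ∃ v ∈ N₁.map f, y = u * v * u⁻¹ * v⁻¹}) := by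
      intro y hy
      have h1 : y ∈ closure (A : Set G) := hy
      obtain ⟨z, hz1, hz2⟩ := mem_closure_iff.1 h1 ((fun w : G => w⁻¹ * y) ⁻¹' (V' : Set G))
        (hV'o.preimage (by fun_prop)) (by
          show y⁻¹ * y ∈ V'
          rw [inv_mul_cancel]
          exact V'.one_mem)
      rw [← hfe z y hz1]
      have h2 : A ≤ (Subgroup.closure (((N₂.map f : Subgroup (G ⧸ V')) : Set (G ⧸ V')) ∪
        {y | ∃ z ∈ N₁.map f, y = z ^ p} ∪
        {y | ∃ u ∈ N₁.map f, ∃ v ∈ N₁.map f, y = u * v * u⁻¹ * v⁻¹})).comap f := by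
        rw [hA, Subgroup.closure_le]
        rintro y ((hy | ⟨z, hz, rfl⟩) | ⟨u, hu, v, hv, rfl⟩)
        · exact Subgroup.subset_closure (Or.inl (Or.inl ⟨y, hy, rfl⟩))
        · exact Subgroup.subset_closure (Or.inl (Or.inr ⟨f z, ⟨z, hz, rfl⟩, map_pow f z p⟩))
        · refine Subgroup.subset_closure (Or.inr ⟨f u, ⟨u, hu, rfl⟩, f v, ⟨v, hv, rfl⟩, ?_⟩)
          rw [map_mul, map_mul, map_mul, map_inv, map_inv]
      exact h2 hz2
    have hcN : ∀ c ∈ K ⊓ (V ⊓ V₂), ∀ y ∈ N₁.map f, f c * y * (f c)⁻¹ * y⁻¹ ∈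
        Subgroup.closure (((N₂.map f : Subgroup (G ⧸ V')) : Set (G ⧸ V')) ∪
        {y | ∃ z ∈ N₁.map f, y = z ^ p} ∪
        {y | ∃ u ∈ N₁.map f, ∃ v ∈ N₁.map f, y = u * v * u⁻¹ * v⁻¹}) := by
      rintro c ⟨hcK, hcV, hcV2⟩ _ ⟨y, hy, rfl⟩
      have h1 : c * y * c⁻¹ * y⁻¹ ∈ A.topologicalClosure := by
        apply hV2
        refine ⟨N₁.mul_mem (hN1K c hcK y hy) (N₁.inv_mem hy), ?_⟩
        have e : c * y * c⁻¹ * y⁻¹ = c * (y * c⁻¹ * y⁻¹) := by group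
        rw [e]
        exact V₂.mul_mem hcV2 (hV2n.conj_mem _ (V₂.inv_mem hcV2) y)
      have h2 := hΦf _ h1
      rw [map_mul, map_mul, map_mul, map_inv, map_inv] at h2
      exact h2
    obtain ⟨k, hk, hk1⟩ := fin_pnil (Γ := G ⧸ V') hp (M := K.map f) (N₁ := N₁.map f)
      (N₂ := N₂.map f) (Subgroup.map_mono hN1leK) (Subgroup.map_mono hN21)
      (by
        rintro _ ⟨g, hg, rfl⟩ _ ⟨y, hy, rfl⟩
        exact ⟨g * y * g⁻¹, hN1K g hg y hy, by rw [map_mul, map_mul, map_inv]⟩)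
      (by
        rintro _ ⟨g, hg, rfl⟩ _ ⟨y, hy, rfl⟩
        exact ⟨g * y * g⁻¹, hN2K g hg y hy, by rw [map_mul, map_mul, map_inv]⟩)
      (by
        rintro _ ⟨y, hy, rfl⟩
        obtain ⟨k, hk, hyk⟩ := ((hN2mem y).1 hy).2 V' hV'n hV'o
        exact ⟨k, hk, by rw [← map_pow]; exact hf1 _ hyk⟩)
      (by
        rintro _ ⟨y, hy, rfl⟩
        have hy1 : y ∈ PSub N₁ Set.univ := by rw [psub_univ]; exact hy
        obtain ⟨c, hc, d, hd, rfl⟩ := psub_decomp hb hN1c {p} Set.univ y hy1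
        rw [Set.univ_inter] at hc
        rw [← Set.compl_eq_univ_sdiff] at hd
        obtain ⟨k, hk, hck⟩ := hc.2 V' hV'n hV'o
        have hkp : ∃ j, k = p ^ j :=
          ⟨_, Nat.eq_prime_pow_of_unique_prime_dvd hk.1 (fun {d} hd1 hd2 => hk.2 d hd1 hd2)⟩
        obtain ⟨j, rfl⟩ := hkp
        obtain ⟨e, he, hce⟩ := QStr_pow (N := N₂) (c := c) (d := d) (by
          intro z hz
          have h3 := hN2n c⁻¹ (fun w hw => by
            rw [inv_inv]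
            exact N₁.mul_mem (N₁.mul_mem (N₁.inv_mem hc.1) hw) hc.1) z hz
          rw [inv_inv] at h3
          exact h3) ((hN2mem d).2 hd) (p ^ j)
        refine ⟨j, e, he, ?_⟩
        rw [← map_pow, hce, map_mul, hf1 _ hck, one_mul])
      (a := f a) (b := f b) ⟨a, ha.1, rfl⟩ ⟨b, hb'.1, rfl⟩
      ⟨n, hn', by rw [← map_pow]; exact hf1 _ han⟩ ⟨m, hm', by rw [← map_pow]; exact hf1 _ hbm⟩
      (by
        refine ⟨a * b * a⁻¹ * b⁻¹, ?_, by rw [map_mul, map_mul, map_mul, map_inv, map_inv]⟩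
        show a * b * a⁻¹ * b⁻¹ ∈ N₁
        rw [hN₁]
        exact ⟨hcomm a ha.1 b hb'.1, V.mul_mem (V.mul_mem (V.mul_mem ha.2.1 hb'.2.1)
          (V.inv_mem ha.2.1)) (V.inv_mem hb'.2.1)⟩)
      (hcN a ha) (hcN b hb')
    refine ⟨k, hk, ?_⟩
    rw [← map_mul, ← map_pow] at hk1
    exact (QuotientGroup.eq_one_iff _).1 hk1

end Pool.Agent.Lib.MP_ae9e3a_al
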