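import Pool.Agent.Lib.MP_ae9e3a_al.QOp
import Pool.Agent.Lib.MP_ae9e3a_al.QStr
import Pool.Agent.Lib.MP_ae9e3a_al.QMarg
import Pool.Agent.Lib.MP_ae9e3a_al.Final

set_option autoImplicit false

/-!
# VPP module QInf: an element of `w(G) ∩ A` has finite order, if `A` is pro-`p`

We pass to a virtually pro-`p` quotient `G / N` in which no power of `z` dies.
-/

namespace Pool.Agent.Lib.MP_ae9e3a_al

open Cardinal

universe u

theorem isPow_of_pow {p n : ℕ} (hp : p.Prime) (hn : PiNum ({p} : Set ℕ) n) : ∃ j, n = p ^ j := by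
  refine ⟨n.primeFactorsList.length, ?_⟩
  apply Nat.eq_prime_pow_of_unique_prime_dvd hn.1
  intro q hq hqn
  have := hn.2 q hq hqn
  simpa using this

theorem marginal_map {G G' : Type*} [Group G] [Group G'] (f : G →* G')
    (hs : Function.Surjective f) {k : ℕ} (w : FreeGroup (Fin k)) {P : Subgroup G}
    (hP : Marginal w P) : Marginal w (P.map f) := by
  intro g d hd
  choose x hx using fun i => hs (g i)
  choose y hy hy' using fun i => hd i
  have h1 := hP x y hy
  have h2 : g = fun i => f (x i) := funext fun i => (hx i).symm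
  have h3 : d = fun i => f (y i) := funext fun i => (hy' i).symm
  rw [h2, h3, ← map_lift f w x, ← h1, map_lift]
  congr 1
  congr 1
  funext i
  rw [map_mul]

/-- If every element of the normal-by-... finite group `P / (P ∩ V)` has `p`-power order, the index is
a power of `p`. -/
theorem relIndex_pow_of_forall {G : Type*} [Group G] {p : ℕ} (hp : p.Prime) {P V : Subgroup G}
    (hV : V.Normal) (hi : V.relIndex P ≠ 0) (h : ∀ x ∈ P, ∃ j : ℕ, x ^ p ^ j ∈ V) :
    ∃ k, V.relIndex P = p ^ k := by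
  have : Fact p.Prime := ⟨hp⟩
  have hfin : Finite (↥P ⧸ V.subgroupOf P) := Nat.finite_of_card_ne_zero hi
  have hpg : IsPGroup p (↥P ⧸ V.subgroupOf P) := by
    intro y
    obtain ⟨⟨x, hx⟩, rfl⟩ := QuotientGroup.mk_surjective y
    obtain ⟨j, hj⟩ := h x hx
    refine ⟨j, ?_⟩
    rw [← QuotientGroup.mk_pow, QuotientGroup.eq_one_iff, Subgroup.mem_subgroupOf]
    exact hj
  exact (IsPGroup.iff_card).1 hpg

theorem fin_order_of_proP {G : Type u} [Group G] [TopologicalSpace G] [IsTopologicalGroup G]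
    [CompactSpace G] [T2Space G] (hb : Basis1 G) {p : ℕ} (hp : p.Prime) {P A : Subgroup G}
    (hPn : P.Normal) (hPo : IsOpen (P : Set G)) (hAn : A.Normal) (hAc : IsClosed (A : Set G))
    (hAP : A ≤ P) (hab : ∀ x ∈ A, ∀ y ∈ A, x * y = y * x) (hch : Chn A P) {k : ℕ}
    (w : FreeGroup (Fin k)) (hP : Marginal w P) (hfin : (vals w G).Finite) (hAp : ProP p A)
    {z : G} (hzA : z ∈ A) (hzw : z ∈ verb w G) : ∃ j : ℕ, 0 < j ∧ z ^ j = 1 := by
  set f := QuotientGroup.mk' A with hf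
  have hfc : Continuous f := QuotientGroup.continuous_mk
  have hfs : Function.Surjective f := QuotientGroup.mk'_surjective A
  have hfo := isOpenMap_of_surj f hfc hfs
  have hPc : IsClosed (P : Set G) := Subgroup.isClosed_of_isOpen P hPo
  have hbA : Basis1 (G ⧸ A) := basis1_map f hfc hfs hb
  have hch' : Chn (⊥ : Subgroup (G ⧸ A)) (P.map f) := by
    have h1 := hch.map f hfc
    have h2 : A.map f = ⊥ := by
      rw [eq_bot_iff]
      rintro _ ⟨x, hx, rfl⟩
      exact (QuotientGroup.eq_one_iff x).2 hx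
    rwa [h2] at h1
  obtain ⟨V₀, hV₀n, hV₀o, hV₀⟩ := exists_pnp hbA hp hch'
  set P₁ : Subgroup G := P ⊓ V₀.comap f with hP₁
  have hP₁n : P₁.Normal := by
    have := hV₀n.comap f
    rw [hP₁]
    infer_instance
  have hP₁o : IsOpen (P₁ : Set G) := by
    rw [hP₁, Subgroup.coe_inf]
    exact hPo.inter (hV₀o.preimage hfc)
  have hP₁c : IsClosed (P₁ : Set G) := Subgroup.isClosed_of_isOpen P₁ hP₁o
  have hAP₁ : A ≤ P₁ := by
    refine le_inf hAP ?_
    intro x hx
    rw [Subgroup.mem_comap]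
    have : f x = 1 := (QuotientGroup.eq_one_iff x).2 hx
    rw [this]
    exact V₀.one_mem
  set L : Subgroup (G ⧸ A) := P₁.map f with hL
  have hLV : L ≤ P.map f ⊓ V₀ := by
    rintro _ ⟨x, hx, rfl⟩
    exact ⟨⟨x, hx.1, rfl⟩, hx.2⟩
  have hLp : PNp p L := hV₀.mono hLV
  have hLc : IsClosed (L : Set (G ⧸ A)) := isClosed_map f hfc hP₁c
  have hLn : L.Normal := hP₁n.map f hfs
  obtain ⟨N₀, hN₀, hN₀c, hN₀n⟩ := pnp_subgroup hLc hLp
  have hN₀n' : N₀.Normal := ⟨fun x hx g => hN₀n g (fun y hy => hLn.conj_mem y hy g) x hx⟩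
  have hN₀L : N₀ ≤ L := by
    intro x hx
    have h1 : x ∈ (N₀ : Set (G ⧸ A)) := hx
    rw [hN₀] at h1
    exact h1.1
  set O : Subgroup G := N₀.comap f with hO
  have hOn : O.Normal := hN₀n'.comap f
  have hOc : IsClosed (O : Set G) := hN₀c.preimage hfc
  have hAO : A ≤ O := by
    intro x hx
    rw [hO, Subgroup.mem_comap]
    have : f x = 1 := (QuotientGroup.eq_one_iff x).2 hx
    rw [this]
    exact N₀.one_mem
  have hOP₁ : O ≤ P₁ := by
    intro x hx
    obtain ⟨y, hy, hyx⟩ := hN₀L hx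
    have h1 : y⁻¹ * x ∈ A := QuotientGroup.eq.1 hyx
    have h2 : x = y * (y⁻¹ * x) := by group
    rw [h2]
    exact P₁.mul_mem hy (hAP₁ h1)
  have hOel : ∀ V : Subgroup G, V.Normal → IsOpen (V : Set G) → ∀ x ∈ O,
      ∃ n, PiNum ({p}ᶜ : Set ℕ) n ∧ x ^ n ∈ A ⊔ V := by
    intro V hVn hVo x hx
    have h1 : f x ∈ (N₀ : Set (G ⧸ A)) := hx
    rw [hN₀] at h1
    have hVf : IsOpen ((V.map f : Subgroup (G ⧸ A)) : Set (G ⧸ A)) := by
      rw [Subgroup.coe_map]
      exact hfo V hVo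
    obtain ⟨n, hn, hxn⟩ := h1.2 (V.map f) (hVn.map f hfs) hVf
    refine ⟨n, hn, ?_⟩
    rw [← map_pow] at hxn
    obtain ⟨v, hv, hvx⟩ := hxn
    have h2 : v⁻¹ * x ^ n ∈ A := QuotientGroup.eq.1 hvx
    have h3 : x ^ n = v * (v⁻¹ * x ^ n) := by group
    rw [h3]
    exact (A ⊔ V).mul_mem ((le_sup_right : V ≤ A ⊔ V) hv) ((le_sup_left : A ≤ A ⊔ V) h2)
  obtain ⟨N, hNn, hNc, hNO, hNV, hNz⟩ := exists_op hb hp hOn hOc hAn hAc hAO hab hAp hOel
  set g := QuotientGroup.mk' N with hg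
  have hgc : Continuous g := QuotientGroup.continuous_mk
  have hgs : Function.Surjective g := QuotientGroup.mk'_surjective N
  have hgo := isOpenMap_of_surj g hgc hgs
  have hchP₁ : Chn A P₁ := by
    have h1 := hch.inter hb hP₁c
    rwa [inf_eq_left.2 hAP₁, inf_eq_right.2 (inf_le_left : P₁ ≤ P)] at h1
  have hPp : ProP p (P₁.map g) := by
    intro V' hV'n hV'o
    set V : Subgroup G := V'.comap g with hV
    have hVo : IsOpen (V : Set G) := hV'o.preimage hgc
    have hVn : V.Normal := hV'n.comap g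
    have hNVle : N ≤ V := by
      intro x hx
      rw [hV, Subgroup.mem_comap]
      have : g x = 1 := (QuotientGroup.eq_one_iff x).2 hx
      rw [this]
      exact V'.one_mem
    have hidx : V'.index ≠ 0 := by
      have : V.index = V'.index := Subgroup.index_comap_of_surjective V' hgs
      rw [← this]
      exact index_ne_zero_of_isOpen hVo
    have hrel : V'.relIndex (P₁.map g) ≠ 0 := by
      intro h0
      have h1 := Subgroup.relIndex_dvd_index_of_normal V' (P₁.map g)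
      rw [h0] at h1
      exact hidx (Nat.eq_zero_of_zero_dvd h1)
    apply relIndex_pow_of_forall hp hV'n hrel
    rintro _ ⟨x, hx, rfl⟩
    have hfx : f x ∈ PSub L Set.univ := by
      rw [psub_univ]
      exact ⟨x, hx, rfl⟩
    obtain ⟨c, hc, d, hd, hcd⟩ := psub_decomp hbA hLc {p} Set.univ (f x) hfx
    have hdN : d ∈ N₀ := by
      have h1 : d ∈ PSub L ({p}ᶜ : Set ℕ) := psub_mono (fun q _ hq => hq.2) hd
      rw [← hN₀] at h1
      exact h1
    have hVf : IsOpen ((V.map f : Subgroup (G ⧸ A)) : Set (G ⧸ A)) := by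
      rw [Subgroup.coe_map]
      exact hfo V hVo
    obtain ⟨n, hn, hcn⟩ := hc.2 (V.map f) (hVn.map f hfs) hVf
    have hn' : PiNum ({p} : Set ℕ) n := ⟨hn.1, fun q hq hqn => (hn.2 q hq hqn).2⟩
    obtain ⟨i, rfl⟩ := isPow_of_pow hp hn'
    -- modulo `N₀` the elements `f x` and `c` agree
    have h1 : (c ^ p ^ i)⁻¹ * (f x) ^ p ^ i ∈ N₀ := by
      have h2 : (QuotientGroup.mk' N₀) (f x) = (QuotientGroup.mk' N₀) c := by
        rw [hcd, map_mul]
        have : (QuotientGroup.mk' N₀) d = 1 := (QuotientGroup.eq_one_iff d).2 hdN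
        rw [this, mul_one]
      have h3 : (QuotientGroup.mk' N₀) ((f x) ^ p ^ i) = (QuotientGroup.mk' N₀) (c ^ p ^ i) := by
        rw [map_pow, map_pow, h2]
      exact QuotientGroup.eq.1 h3.symm
    obtain ⟨v, hv, hvc⟩ := hcn
    have h4 : v⁻¹ * x ^ p ^ i ∈ O := by
      rw [hO, Subgroup.mem_comap, map_mul, map_inv, map_pow, hvc]
      exact h1
    obtain ⟨j, hj⟩ := hNV V hVn hVo hNVle
    have h5 : (v⁻¹ * x ^ p ^ i) ^ p ^ j ∈ V := by
      have h6 := Subgroup.pow_index_mem (V.subgroupOf O) ⟨_, h4⟩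
      have h7 : (V.subgroupOf O).index = p ^ j := hj
      rw [h7, Subgroup.mem_subgroupOf] at h6
      exact h6
    refine ⟨i + j, ?_⟩
    rw [← map_pow]
    show x ^ p ^ (i + j) ∈ V
    have h8 : (QuotientGroup.mk' V) (x ^ p ^ (i + j)) = 1 := by
      have h9 : (QuotientGroup.mk' V) (v⁻¹ * x ^ p ^ i) = (QuotientGroup.mk' V) (x ^ p ^ i) := by
        rw [map_mul]
        have : (QuotientGroup.mk' V) v⁻¹ = 1 := (QuotientGroup.eq_one_iff _).2 (V.inv_mem hv)
        rw [this, one_mul]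
      rw [pow_add, pow_mul, map_pow, ← h9, ← map_pow]
      exact (QuotientGroup.eq_one_iff _).2 h5
    exact (QuotientGroup.eq_one_iff _).1 h8
  have hS : Setup p (P₁.map g) (A.map g) :=
    { basis := basis1_map g hgc hgs hb
      Pn := hP₁n.map g hgs
      Po := by
        rw [Subgroup.coe_map]
        exact hgo P₁ hP₁o
      Pp := hPp
      An := hAn.map g hgs
      Ac := isClosed_map g hgc hAc
      AP := Subgroup.map_mono hAP₁
      abel := by
        rintro _ ⟨x, hx, rfl⟩ _ ⟨y, hy, rfl⟩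
        rw [← map_mul, ← map_mul, hab x hx y hy]
      chn := hchP₁.map g hgc }
  obtain ⟨hv1, hv2, hv3⟩ := map_vals g hgs w
  have hcard : #(vals w (G ⧸ N)) < 𝔠 := by
    refine lt_of_le_of_lt hv3 ?_
    have : #(vals w G) < ℵ₀ := Cardinal.lt_aleph0_iff_set_finite.2 hfin
    exact this.trans_le Cardinal.aleph0_le_continuum
  have hfinN : (verb w (G ⧸ N) : Set (G ⧸ N)).Finite := strongly_concise_of_setup hp w hS hcard
  have hgz : g z ∈ verb w (G ⧸ N) := by
    rw [hv2]
    exact ⟨z, hzw, rfl⟩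
  have : Finite (verb w (G ⧸ N)) := hfinN
  obtain ⟨j, hj, hjz⟩ := isOfFinOrder_iff_pow_eq_one.1
    (isOfFinOrder_of_finite (⟨g z, hgz⟩ : verb w (G ⧸ N)))
  refine ⟨j, hj, ?_⟩
  have h1 : (g z) ^ j = 1 := congrArg Subtype.val hjz
  rw [← map_pow] at h1
  have h2 : z ^ j ∈ N := (QuotientGroup.eq_one_iff _).1 h1
  apply hNz (z ^ j) (A.pow_mem hzA j) ?_ h2
  intro y hy
  exact marginal_central w hPn hP y ((hOP₁ hy).1) (z ^ j) ((verb w G).pow_mem hzw j)

end Pool.Agent.Lib.MP_ae9e3a_al
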