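import Pool.Agent.Lib.MP_ae9e3a_al.QTr
import Pool.Agent.Lib.MP_ae9e3a_al.Top

set_option autoImplicit false

/-!
# VPP module QOp: the largest pro-`p` quotient of `O`

`O` is closed and normal, `A ≤ O` is closed, normal, abelian and pro-`p`, `O / A` is pro-`p'`.

PROOF. Let `𝒲` be the set of the closed subgroups `W ≤ O`, normal in `O` (`∀ g ∈ O, ∀ x ∈ W,
g x g⁻¹ ∈ W`), with `W.relIndex O = p ^ j` for some `j`; `N = sInf 𝒲` (`O ∈ 𝒲`). `N` is closed,
`N ≤ O`, and normal in `G` (conjugation by `g ∈ G` permutes `𝒲`, as `O` is normal). `𝒲` is closed under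
intersections (`(W ⊓ W').relIndex O` divides the product of the two, because they are normal in
`O`; it is nonzero).
(1) If `V` is open normal in `G` with `N ≤ V` then `V.relIndex O` is a power of `p`: by compactness some
`W ∈ 𝒲` is contained in `V` (the closed sets `W ∩ Vᶜ` have empty intersection and are directed), so
`V.relIndex O` divides `W.relIndex O`.
(2) Let `z ∈ A` commute with the elements of `O`, `z ∈ N`, `z ≠ 1`. There is an open normal `V` with
`z ∉ V`. Let `f = QuotientGroup.mk' V`, `Γ = ↥(O.map f)` finite, `Ā = (A.map f).subgroupOf (O.map f)`: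
abelian, its elements have `p`-power order (`exists_pow_mem` for `ProP p A`), its index is prime to
`p`: by `hO` every element of `Γ ⧸ Ā` has order prime to `p` (Cauchy). `transfer_sep` gives a normal
subgroup `W̄` of `Γ` of `p`-power index not containing the image of `z`. Its preimage
`W = {x ∈ O | f x ∈ W̄}` is in `𝒲` (it contains `O ⊓ V`, so it is closed: open in `O`), `z ∉ W`, a
contradiction with `z ∈ N ≤ W`.
-/

namespace Pool.Agent.Lib.MP_ae9e3a_al

private theorem qop_dvd {G : Type*} [Group G] {W K O : Subgroup G} (hn : ∀ g ∈ O, ∀ x ∈ W, g * x * g⁻¹ ∈ W)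
    (hK : K ≤ O) : W.relIndex K ∣ W.relIndex O := by
  have h1 : (W.subgroupOf O).Normal := by
    refine ⟨fun x hx g => ?_⟩
    rw [Subgroup.mem_subgroupOf] at hx ⊢
    exact hn g g.2 x hx
  have h2 := Subgroup.relIndex_dvd_index_of_normal (W.subgroupOf O) (K.subgroupOf O)
  rw [Subgroup.relIndex_subgroupOf hK] at h2
  exact h2

/-- the closed subgroups of `O`, normal in `O`, of `p`-power index -/
private def qopW {G : Type*} [Group G] [TopologicalSpace G] (p : ℕ) (O : Subgroup G) : Set (Subgroup G) :=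
  {W | IsClosed (W : Set G) ∧ W ≤ O ∧ (∀ g ∈ O, ∀ x ∈ W, g * x * g⁻¹ ∈ W) ∧ ∃ j, W.relIndex O = p ^ j}

private theorem qop_self {G : Type*} [Group G] [TopologicalSpace G] (p : ℕ) {O : Subgroup G}
    (hOc : IsClosed (O : Set G)) : O ∈ qopW p O :=
  ⟨hOc, le_rfl, fun g hg x hx => O.mul_mem (O.mul_mem hg hx) (O.inv_mem hg), 0, by
    rw [Subgroup.relIndex_self, pow_zero]⟩

private theorem qop_inf {G : Type*} [Group G] [TopologicalSpace G] {p : ℕ} (hp : p.Prime) {O W W' : Subgroup G}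
    (hW : W ∈ qopW p O) (hW' : W' ∈ qopW p O) : W ⊓ W' ∈ qopW p O := by
  obtain ⟨h1, h2, h3, j, h4⟩ := hW
  obtain ⟨h1', h2', h3', j', h4'⟩ := hW'
  refine ⟨?_, inf_le_left.trans h2, fun g hg x hx => ⟨h3 g hg x hx.1, h3' g hg x hx.2⟩, ?_⟩
  · rw [Subgroup.coe_inf]
    exact h1.inter h1'
  · have e1 := Subgroup.relIndex_mul_relIndex (W ⊓ W') W' O inf_le_right h2'
    rw [Subgroup.inf_relIndex_right] at e1
    have e2 := qop_dvd h3 h2'
    rw [h4] at e2
    obtain ⟨i, -, hi⟩ := (Nat.dvd_prime_pow hp).1 e2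
    refine ⟨i + j', ?_⟩
    rw [← e1, hi, h4', pow_add]

private theorem qop_conj {G : Type*} [Group G] [TopologicalSpace G] [IsTopologicalGroup G] {p : ℕ}
    {O W : Subgroup G} (hOn : O.Normal) (hW : W ∈ qopW p O) (g : G) :
    W.comap (MulAut.conj g).toMonoidHom ∈ qopW p O := by
  obtain ⟨h1, h2, h3, j, h4⟩ := hW
  have hmem : ∀ x, x ∈ W.comap (MulAut.conj g).toMonoidHom ↔ g * x * g⁻¹ ∈ W := fun x => Iff.rfl
  refine ⟨?_, ?_, ?_, j, ?_⟩
  · have hc : Continuous fun x : G => g * x * g⁻¹ := (continuous_const.mul continuous_id).mul continuous_const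
    exact h1.preimage hc
  · intro x hx
    have h5 := h2 ((hmem x).1 hx)
    have h6 := hOn.conj_mem _ h5 g⁻¹
    have e : g⁻¹ * (g * x * g⁻¹) * g⁻¹⁻¹ = x := by group
    rwa [e] at h6
  · intro h hh x hx
    rw [hmem] at hx ⊢
    have h5 := h3 _ (hOn.conj_mem h hh g) _ hx
    have e : g * h * g⁻¹ * (g * x * g⁻¹) * (g * h * g⁻¹)⁻¹ = g * (h * x * h⁻¹) * g⁻¹ := by group
    rwa [e] at h5
  · have e1 : O.map (MulAut.conj g).toMonoidHom = O := by
      apply le_antisymm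
      · rintro _ ⟨x, hx, rfl⟩
        exact hOn.conj_mem x hx g
      · intro x hx
        refine ⟨g⁻¹ * x * g⁻¹⁻¹, hOn.conj_mem x hx g⁻¹, ?_⟩
        show g * (g⁻¹ * x * g⁻¹⁻¹) * g⁻¹ = x
        group
    rw [Subgroup.relIndex_comap, e1, h4]

private theorem qop_sep {G : Type*} [Group G] [TopologicalSpace G] [IsTopologicalGroup G]
    [CompactSpace G] [T2Space G] (hb : Basis1 G) {p : ℕ} (hp : p.Prime) {O A : Subgroup G}
    (hOc : IsClosed (O : Set G)) (hAn : A.Normal)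
    (hAO : A ≤ O) (hab : ∀ x ∈ A, ∀ y ∈ A, x * y = y * x) (hAp : ProP p A)
    (hO : ∀ V : Subgroup G, V.Normal → IsOpen (V : Set G) → ∀ x ∈ O,
      ∃ n, PiNum ({p}ᶜ : Set ℕ) n ∧ x ^ n ∈ A ⊔ V) {z : G} (hz : z ∈ A) (hzc : ∀ g ∈ O, g * z = z * g)
    (hz1 : z ≠ 1) : ∃ W ∈ qopW p O, z ∉ W := by
  have : Fact p.Prime := ⟨hp⟩
  obtain ⟨V, hVn, hVo, hV⟩ := hb ({z}ᶜ) (isOpen_compl_singleton.mem_nhds (fun h => hz1 h.symm))
  have hzV : z ∉ V := fun h => hV h rfl
  have hfin : Finite (G ⧸ V) := Subgroup.quotient_finite_of_isOpen V hVo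
  set f : G →* G ⧸ V := QuotientGroup.mk' V with hf
  have hfs : Function.Surjective f := QuotientGroup.mk'_surjective V
  have hfk : ∀ x, f x = 1 ↔ x ∈ V := fun x => by
    rw [hf, ← MonoidHom.mem_ker, QuotientGroup.ker_mk']
  have hΓ : Finite (O.map f) := Subtype.finite
  set B : Subgroup (O.map f) := (A.map f).subgroupOf (O.map f) with hB
  have hBn : B.Normal := by
    have h1 : (A.map f).Normal := hAn.map f hfs
    exact h1.subgroupOf _
  have hBab : ∀ x ∈ B, ∀ y ∈ B, x * y = y * x := by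
    intro x hx y hy
    rw [hB, Subgroup.mem_subgroupOf] at hx hy
    obtain ⟨a, ha, hax⟩ := hx
    obtain ⟨b, hb, hby⟩ := hy
    apply Subtype.ext
    rw [Subgroup.coe_mul, Subgroup.coe_mul, ← hax, ← hby, ← map_mul, ← map_mul, hab a ha b hb]
  have hBp : ∀ x ∈ B, ∃ j : ℕ, x ^ p ^ j = 1 := by
    intro x hx
    rw [hB, Subgroup.mem_subgroupOf] at hx
    obtain ⟨a, ha, hax⟩ := hx
    obtain ⟨j, hj⟩ := exists_pow_mem hAp ha hVn hVo
    refine ⟨j, ?_⟩
    apply Subtype.ext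
    rw [Subgroup.coe_pow, ← hax, ← map_pow]
    exact (hfk _).2 hj
  have hBi : ¬ p ∣ B.index := by
    intro hd
    have h1 : p ∣ Nat.card (↥(O.map f) ⧸ B) := hd
    obtain ⟨y, hy⟩ := exists_prime_orderOf_dvd_card' p h1
    obtain ⟨γ, rfl⟩ := QuotientGroup.mk_surjective y
    obtain ⟨x, hx, hxγ⟩ := γ.2
    obtain ⟨n, hn, hxn⟩ := hO V hVn hVo x hx
    have h2 : f (x ^ n) ∈ A.map f := by
      have h3 : f (x ^ n) ∈ (A ⊔ V).map f := ⟨_, hxn, rfl⟩
      have h4 : V.map f = ⊥ := by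
        rw [Subgroup.map_eq_bot_iff, hf, QuotientGroup.ker_mk']
      rw [Subgroup.map_sup, h4, sup_bot_eq] at h3
      exact h3
    have h5 : γ ^ n ∈ B := by
      rw [hB, Subgroup.mem_subgroupOf, Subgroup.coe_pow, ← hxγ, ← map_pow]
      exact h2
    have h6 : (QuotientGroup.mk γ : ↥(O.map f) ⧸ B) ^ n = 1 := by
      rw [← QuotientGroup.mk_pow, QuotientGroup.eq_one_iff]
      exact h5
    have h7 : p ∣ n := by
      rw [← hy]
      exact orderOf_dvd_of_pow_eq_one h6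
    exact hn.2 p hp h7 rfl
  have hzO : f z ∈ O.map f := ⟨z, hAO hz, rfl⟩
  obtain ⟨W, hWn, ⟨j, hWj⟩, hzW⟩ := transfer_sep hp (A := B) hBab hBp hBi (z := ⟨f z, hzO⟩)
    (by
      rw [hB, Subgroup.mem_subgroupOf]
      exact ⟨z, hz, rfl⟩)
    (by
      rintro ⟨_, x, hx, rfl⟩
      apply Subtype.ext
      show f x * f z = f z * f x
      rw [← map_mul, ← map_mul, hzc x hx])
    (by
      intro h
      exact hzV ((hfk z).1 (congrArg Subtype.val h)))
  set K : Subgroup (G ⧸ V) := W.map (O.map f).subtype with hK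
  have hKmem : ∀ (x : G ⧸ V) (hx : x ∈ O.map f), x ∈ K ↔ (⟨x, hx⟩ : O.map f) ∈ W := by
    intro x hx
    constructor
    · rintro ⟨y, hy, hyx⟩
      have : y = ⟨x, hx⟩ := Subtype.ext hyx
      rw [← this]
      exact hy
    · intro h
      exact ⟨_, h, rfl⟩
  refine ⟨K.comap f ⊓ O, ⟨?_, inf_le_right, ?_, j, ?_⟩, ?_⟩
  · have h1 : IsOpen ((K.comap f : Subgroup G) : Set G) := by
      refine Subgroup.isOpen_mono (H₁ := V) ?_ hVo
      intro x hx
      show f x ∈ K
      rw [(hfk x).2 hx]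
      exact K.one_mem
    rw [Subgroup.coe_inf]
    exact (Subgroup.isClosed_of_isOpen _ h1).inter hOc
  · rintro g hg x ⟨hx1, hx2⟩
    refine ⟨?_, O.mul_mem (O.mul_mem hg hx2) (O.inv_mem hg)⟩
    show f (g * x * g⁻¹) ∈ K
    have hx1' : f x ∈ K := hx1
    have hxO : f x ∈ O.map f := ⟨x, hx2, rfl⟩
    have hgO : f g ∈ O.map f := ⟨g, hg, rfl⟩
    rw [hKmem _ hxO] at hx1'
    have h3 := hWn.conj_mem _ hx1' ⟨f g, hgO⟩
    rw [map_mul, map_mul, map_inv, hKmem _ ((O.map f).mul_mem ((O.map f).mul_mem hgO hxO) ((O.map f).inv_mem hgO))]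
    exact h3
  · rw [Subgroup.inf_relIndex_right, Subgroup.relIndex_comap]
    have h1 : K.subgroupOf (O.map f) = W := by
      rw [hK]
      exact Subgroup.comap_map_eq_self_of_injective (Subgroup.subtype_injective _) W
    rw [Subgroup.relIndex, h1, hWj]
  · rintro ⟨h1, -⟩
    exact hzW ((hKmem _ hzO).1 h1)

theorem exists_op {G : Type*} [Group G] [TopologicalSpace G] [IsTopologicalGroup G]
    [CompactSpace G] [T2Space G] (hb : Basis1 G) {p : ℕ} (hp : p.Prime) {O A : Subgroup G}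
    (hOn : O.Normal) (hOc : IsClosed (O : Set G)) (hAn : A.Normal) (hAc : IsClosed (A : Set G))
    (hAO : A ≤ O) (hab : ∀ x ∈ A, ∀ y ∈ A, x * y = y * x) (hAp : ProP p A)
    (hO : ∀ V : Subgroup G, V.Normal → IsOpen (V : Set G) → ∀ x ∈ O,
      ∃ n, PiNum ({p}ᶜ : Set ℕ) n ∧ x ^ n ∈ A ⊔ V) :
    ∃ N : Subgroup G, N.Normal ∧ IsClosed (N : Set G) ∧ N ≤ O ∧
      (∀ V : Subgroup G, V.Normal → IsOpen (V : Set G) → N ≤ V → ∃ j, V.relIndex O = p ^ j) ∧
      ∀ z ∈ A, (∀ g ∈ O, g * z = z * g) → z ∈ N → z = 1 := by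
  set N : Subgroup G := sInf (qopW p O) with hN
  have hNmem : ∀ x, x ∈ N ↔ ∀ W ∈ qopW p O, x ∈ W := fun x => Subgroup.mem_sInf
  refine ⟨N, ?_, ?_, sInf_le (qop_self p hOc), ?_, ?_⟩
  · refine ⟨fun x hx g => ?_⟩
    rw [hNmem] at hx ⊢
    intro W hW
    exact hx _ (qop_conj hOn hW g)
  · rw [hN, Subgroup.coe_sInf]
    exact isClosed_biInter fun W hW => hW.1
  · intro V hVn hVo hNV
    have hW : ∃ W ∈ qopW p O, W ≤ V := by
      by_contra hcon
      push Not at hcon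
      have hne : Nonempty (qopW p O) := ⟨⟨O, qop_self p hOc⟩⟩
      have hVc : IsClosed ((V : Set G)ᶜ) := hVo.isClosed_compl
      have h1 := IsCompact.nonempty_iInter_of_directed_nonempty_isCompact_isClosed
        (fun W : qopW p O => (W.1 : Set G) ∩ (V : Set G)ᶜ) (by
          intro W W'
          refine ⟨⟨W.1 ⊓ W'.1, qop_inf hp W.2 W'.2⟩, ?_, ?_⟩
          · rintro x ⟨hx, hx2⟩
            exact ⟨hx.1, hx2⟩
          · rintro x ⟨hx, hx2⟩
            exact ⟨hx.2, hx2⟩)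
        (by
          intro W
          obtain ⟨x, hx, hx2⟩ := SetLike.not_le_iff_exists.1 (hcon W.1 W.2)
          exact ⟨x, hx, hx2⟩)
        (fun W => (W.2.1.inter hVc).isCompact) (fun W => W.2.1.inter hVc)
      obtain ⟨x, hx⟩ := h1
      rw [Set.mem_iInter] at hx
      have h2 : x ∈ N := by
        rw [hNmem]
        intro W hW
        exact (hx ⟨W, hW⟩).1
      exact (hx ⟨O, qop_self p hOc⟩).2 (hNV h2)
    obtain ⟨W, ⟨-, -, -, j, hj⟩, hWV⟩ := hW
    have h1 : V.relIndex O ∣ W.relIndex O := Subgroup.relIndex_dvd_of_le_left O hWV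
    rw [hj] at h1
    obtain ⟨i, -, hi⟩ := (Nat.dvd_prime_pow hp).1 h1
    exact ⟨i, hi⟩
  · intro z hz hzc hzN
    by_contra hz1
    obtain ⟨W, hW, hzW⟩ := qop_sep hb hp hOc hAn hAO hab hAp hO hz hzc hz1
    exact hzW ((hNmem z).1 hzN W hW)

end Pool.Agent.Lib.MP_ae9e3a_al
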