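import Pool.Agent.Lib.MP_ae9e3a_al.N1

set_option autoImplicit false

/-!
# VPP module QTr: the transfer separates central elements of a `p`-group of index prime to `p`

PROOF. `A` is commutative: use `MonoidHom.transfer` for the identity of `↥A` (give `↥A` a `CommGroup`
structure from `hab`, e.g. `letI : CommGroup A := {inferInstanceAs (Group A) with mul_comm := ..}`):
`τ : Γ →* ↥A`. For the central `z`: `τ z = z ^ A.index` (`MonoidHom.transfer_eq_pow`, the hypothesis
`key` holds because `z` is central). `z ≠ 1` has `p`-power order and `p ∤ A.index`, so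
`z ^ A.index ≠ 1`. `W = τ.ker`: normal, `z ∉ W`, `W.index = Nat.card τ.range` divides `Nat.card A`, which
is a power of `p` (`IsPGroup.iff_card`).
-/

namespace Pool.Agent.Lib.MP_ae9e3a_al

theorem transfer_sep {Γ : Type*} [Group Γ] [Finite Γ] {p : ℕ} (hp : p.Prime) {A : Subgroup Γ}
    (hab : ∀ x ∈ A, ∀ y ∈ A, x * y = y * x) (hA : ∀ x ∈ A, ∃ j : ℕ, x ^ p ^ j = 1)
    (hi : ¬ p ∣ A.index) {z : Γ} (hz : z ∈ A) (hc : ∀ g : Γ, g * z = z * g) (hz1 : z ≠ 1) :
    ∃ W : Subgroup Γ, W.Normal ∧ (∃ j, W.index = p ^ j) ∧ z ∉ W := by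
  classical
  let cA : CommGroup A := { (inferInstance : Group A) with
    mul_comm := fun x y => Subtype.ext (hab x x.2 y y.2) }
  let τ : Γ →* A := MonoidHom.transfer (H := A) (A := A) (MonoidHom.id A)
  have hτ : ((τ z : A) : Γ) = z ^ A.index := by
    have h1 := MonoidHom.transfer_eq_pow (H := A) (A := A) (MonoidHom.id A) z (by
      intro k g₀ _
      have h2 : Commute g₀ (z ^ k) := (show Commute g₀ z from hc g₀).pow_right k
      rw [mul_assoc, ← h2.eq, inv_mul_cancel_left])
    have h3 : τ z = _ := h1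
    rw [h3]
    rfl
  have hzi : z ^ A.index ≠ 1 := by
    intro h
    obtain ⟨j, hj⟩ := hA z hz
    have h1 : orderOf z ∣ p ^ j := orderOf_dvd_of_pow_eq_one hj
    have h2 : orderOf z ∣ A.index := orderOf_dvd_of_pow_eq_one h
    have h3 : Nat.Coprime A.index (p ^ j) := by
      apply Nat.Coprime.pow_right
      rw [Nat.coprime_comm, hp.coprime_iff_not_dvd]
      exact hi
    have h4 := Nat.dvd_gcd h2 h1
    rw [h3] at h4
    exact hz1 (orderOf_eq_one_iff.1 (Nat.dvd_one.1 h4))
  have hpA : IsPGroup p A := fun x => by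
    obtain ⟨j, hj⟩ := hA x x.2
    exact ⟨j, Subtype.ext hj⟩
  have : Fact p.Prime := ⟨hp⟩
  refine ⟨τ.ker, inferInstance, ?_, ?_⟩
  · obtain ⟨k, hk⟩ := (IsPGroup.iff_card).1 hpA
    have h1 : Nat.card τ.range ∣ p ^ k := by
      rw [← hk]
      exact Subgroup.card_subgroup_dvd_card _
    obtain ⟨j, -, hj⟩ := (Nat.dvd_prime_pow hp).1 h1
    exact ⟨j, by rw [Subgroup.index_ker, hj]⟩
  · intro h
    have h1 : τ z = 1 := h
    apply hzi
    rw [← hτ, h1]
    rfl

end Pool.Agent.Lib.MP_ae9e3a_al
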