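import Pool.Agent.Lib.MP_ae9e3a_al.Acc

/-!
# The bigraded weight filtration for Artin-Rees

`G` acts on the abelian group `V`; `A ≤ H` are subgroups and `W` a subgroup of `V`.
`wk p H A W 0 d` is `aug(A)^d W`, and `wk p H A W k d` is the degree `d` part of
`(p, h - 1, (a - 1) t)^k` applied to the sum of all `aug(A)^d W t^d`.
-/

set_option autoImplicit false

namespace Pool.Agent.Lib.MP_ae9e3a_al

variable {G V : Type*} [Group G] [AddCommGroup V] [DistribMulAction G V]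

/-- The bigraded weight filtration. -/
def wk (p : ℕ) (H A : Subgroup G) (W : AddSubgroup V) : ℕ → ℕ → AddSubgroup V
  | 0, 0 => W
  | 0, d + 1 => AddSubgroup.closure {y | ∃ a ∈ A, ∃ x ∈ wk p H A W 0 d, y = a • x - x}
  | k + 1, 0 => AddSubgroup.closure ({y | ∃ x ∈ wk p H A W k 0, y = p • x} ∪
      {y | ∃ h ∈ H, ∃ x ∈ wk p H A W k 0, y = h • x - x})
  | k + 1, d + 1 => AddSubgroup.closure ({y | ∃ x ∈ wk p H A W k (d + 1), y = p • x} ∪
      {y | ∃ h ∈ H, ∃ x ∈ wk p H A W k (d + 1), y = h • x - x} ∪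
      {y | ∃ a ∈ A, ∃ x ∈ wk p H A W k d, y = a • x - x})
termination_by k d => (k, d)

/-- The subgroup of all `g` which preserve `X` and move the elements of `X` by elements of `Y`. -/
def mv (X Y : AddSubgroup V) : Subgroup G where
  carrier := {g | (∀ y ∈ X, g • y ∈ X) ∧ (∀ y ∈ X, g⁻¹ • y ∈ X) ∧ ∀ y ∈ X, g • y - y ∈ Y}
  mul_mem' := by
    rintro g h ⟨g1, g2, g3⟩ ⟨h1, h2, h3⟩
    refine ⟨fun y hy => ?_, fun y hy => ?_, fun y hy => ?_⟩
    · rw [mul_smul]; exact g1 _ (h1 _ hy)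
    · rw [mul_inv_rev, mul_smul]; exact h2 _ (g2 _ hy)
    · have := add_mem (g3 _ (h1 y hy)) (h3 y hy)
      rwa [sub_add_sub_cancel, ← mul_smul] at this
  one_mem' := by
    refine ⟨fun y hy => ?_, fun y hy => ?_, fun y _ => ?_⟩
    · rwa [one_smul]
    · rwa [inv_one, one_smul]
    · simp
  inv_mem' := by
    rintro g ⟨g1, g2, g3⟩
    refine ⟨g2, fun y hy => ?_, fun y hy => ?_⟩
    · rw [inv_inv]; exact g1 y hy
    · have := neg_mem (g3 _ (g2 y hy))
      rwa [smul_inv_smul, neg_sub] at this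

theorem mv_smul {X Y : AddSubgroup V} {g : G} (h : g ∈ (mv X Y : Subgroup G)) {y : V}
    (hy : y ∈ X) : g • y ∈ X := h.1 y hy

theorem mv_sub {X Y : AddSubgroup V} {g : G} (h : g ∈ (mv X Y : Subgroup G)) {y : V}
    (hy : y ∈ X) : g • y - y ∈ Y := h.2.2 y hy

theorem mem_mv_of_trivial {X Y W : AddSubgroup V} (hXW : X ≤ W) {g : G}
    (hg : ∀ y ∈ W, g • y = y) : g ∈ (mv X Y : Subgroup G) := by
  have h2 : ∀ y ∈ W, g⁻¹ • y = y := fun y hy => by
    conv_lhs => rw [← hg y hy]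
    rw [inv_smul_smul]
  refine ⟨fun y hy => ?_, fun y hy => ?_, fun y hy => ?_⟩
  · rwa [hg y (hXW hy)]
  · rwa [h2 y (hXW hy)]
  · rw [hg y (hXW hy), sub_self]; exact zero_mem _

section

variable {p : ℕ} {H A K : Subgroup G} {W : AddSubgroup V}

theorem p_smul_mem {k d : ℕ} {x : V} (hx : x ∈ wk p H A W k d) : p • x ∈ wk p H A W (k + 1) d := by
  cases d with
  | zero =>
    rw [wk]
    exact AddSubgroup.subset_closure (Or.inl ⟨x, hx, rfl⟩)
  | succ d =>
    rw [wk]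
    exact AddSubgroup.subset_closure (Or.inl (Or.inl ⟨x, hx, rfl⟩))

theorem h_sub_mem {k d : ℕ} {x : V} (hx : x ∈ wk p H A W k d) {h : G} (hh : h ∈ H) :
    h • x - x ∈ wk p H A W (k + 1) d := by
  cases d with
  | zero =>
    rw [wk]
    exact AddSubgroup.subset_closure (Or.inr ⟨h, hh, x, hx, rfl⟩)
  | succ d =>
    rw [wk]
    exact AddSubgroup.subset_closure (Or.inl (Or.inr ⟨h, hh, x, hx, rfl⟩))

theorem a_sub_mem {k d : ℕ} {x : V} (hx : x ∈ wk p H A W k d) {a : G} (ha : a ∈ A) :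
    a • x - x ∈ wk p H A W (k + 1) (d + 1) := by
  rw [wk]
  exact AddSubgroup.subset_closure (Or.inr ⟨a, ha, x, hx, rfl⟩)

theorem a_sub_mem_zero {d : ℕ} {x : V} (hx : x ∈ wk p H A W 0 d) {a : G} (ha : a ∈ A) :
    a • x - x ∈ wk p H A W 0 (d + 1) := by
  rw [wk]
  exact AddSubgroup.subset_closure ⟨a, ha, x, hx, rfl⟩

theorem wk_zero_zero : wk p H A W 0 0 = W := by rw [wk]

/-- Induction over the generators of `wk (k + 1) d`. -/
theorem wk_succ_le {k d : ℕ} {Y : AddSubgroup V} (h1 : ∀ x ∈ wk p H A W k d, p • x ∈ Y)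
    (h2 : ∀ h ∈ H, ∀ x ∈ wk p H A W k d, h • x - x ∈ Y)
    (h3 : ∀ e, d = e + 1 → ∀ a ∈ A, ∀ x ∈ wk p H A W k e, a • x - x ∈ Y) :
    wk p H A W (k + 1) d ≤ Y := by
  cases d with
  | zero =>
    rw [wk, AddSubgroup.closure_le]
    rintro y (⟨x, hx, rfl⟩ | ⟨h, hh, x, hx, rfl⟩)
    · exact h1 x hx
    · exact h2 h hh x hx
  | succ d =>
    rw [wk, AddSubgroup.closure_le]
    rintro y ((⟨x, hx, rfl⟩ | ⟨h, hh, x, hx, rfl⟩) | ⟨a, ha, x, hx, rfl⟩)
    · exact h1 x hx
    · exact h2 h hh x hx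
    · exact h3 d rfl a ha x hx

theorem wk_zero_succ_le {d : ℕ} {Y : AddSubgroup V}
    (h : ∀ a ∈ A, ∀ x ∈ wk p H A W 0 d, a • x - x ∈ Y) : wk p H A W 0 (d + 1) ≤ Y := by
  rw [wk, AddSubgroup.closure_le]
  rintro y ⟨a, ha, x, hx, rfl⟩
  exact h a ha x hx

/-- Everything in degree `k, d` is contained in `W`. -/
theorem wk_le (hA : A ≤ H) (hW : ∀ h ∈ H, ∀ x ∈ W, h • x ∈ W) (k d : ℕ) :
    wk p H A W k d ≤ W := by
  induction k generalizing d with
  | zero =>
    induction d with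
    | zero => rw [wk_zero_zero]
    | succ d ih => exact wk_zero_succ_le fun a ha x hx => sub_mem (hW a (hA ha) x (ih hx)) (ih hx)
  | succ k ih =>
    refine wk_succ_le (fun x hx => nsmul_mem (ih d hx) p)
      (fun h hh x hx => sub_mem (hW h hh x (ih d hx)) (ih d hx)) ?_
    rintro e rfl a ha x hx
    exact sub_mem (hW a (hA ha) x (ih e hx)) (ih e hx)

variable (hA : A ≤ H) (hW : ∀ h ∈ H, ∀ x ∈ W, h • x ∈ W) (hK : ∀ g ∈ K, ∀ x ∈ W, g • x = x)
  (hHA : ∀ h ∈ H, ∀ a ∈ A, h * a * h⁻¹ * a⁻¹ ∈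
    Subgroup.closure ({b | ∃ c ∈ A, b = c ^ p ^ 2} ∪ (K : Set G)))

include hA hW hK hHA

omit hA hW in
theorem conj_mem_mv {X Y : AddSubgroup V} (hXW : X ≤ W) (hX : A ≤ mv X Y) {h a : G} (hh : h ∈ H)
    (ha : a ∈ A) : h * a * h⁻¹ ∈ (mv X Y : Subgroup G) := by
  have h1 : Subgroup.closure ({b | ∃ c ∈ A, b = c ^ p ^ 2} ∪ (K : Set G)) ≤ mv X Y := by
    rw [Subgroup.closure_le]
    rintro b (⟨c, hc, rfl⟩ | hb)
    · exact pow_mem (hX hc) _
    · exact mem_mv_of_trivial hXW (hK b hb)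
  have h2 := mul_mem (h1 (hHA h hh a ha)) (hX ha)
  rwa [inv_mul_cancel_right] at h2

theorem smul_mem_wk_zero (d : ℕ) : ∀ h ∈ H, ∀ x ∈ wk p H A W 0 d, h • x ∈ wk p H A W 0 d := by
  induction d with
  | zero => rw [wk_zero_zero]; exact hW
  | succ d ih =>
    intro h hh
    have hX : A ≤ mv (wk p H A W 0 d) (wk p H A W 0 (d + 1)) := fun a ha =>
      ⟨ih a (hA ha), ih a⁻¹ (inv_mem (hA ha)), fun y hy => a_sub_mem_zero hy ha⟩
    let Y : AddSubgroup V := (wk p H A W 0 (d + 1)).comap (DistribSMul.toAddMonoidHom V h)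
    have h1 : wk p H A W 0 (d + 1) ≤ Y := by
      refine wk_zero_succ_le fun a ha x hx => ?_
      have h2 := mv_sub (conj_mem_mv hK hHA (wk_le hA hW 0 d) hX hh ha) (ih h hh x hx)
      have e : (h * a * h⁻¹) • h • x - h • x = h • (a • x - x) := by
        rw [smul_sub, ← mul_smul, ← mul_smul]
        congr 2
        group
      rw [e] at h2
      exact h2
    exact fun x hx => h1 hx

theorem smul_mem_wk (k : ℕ) : ∀ d, ∀ h ∈ H, ∀ x ∈ wk p H A W k d, h • x ∈ wk p H A W k d := by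
  induction k with
  | zero => exact smul_mem_wk_zero hA hW hK hHA
  | succ k ih =>
    intro d h hh
    let Y : AddSubgroup V := (wk p H A W (k + 1) d).comap (DistribSMul.toAddMonoidHom V h)
    have h1 : wk p H A W (k + 1) d ≤ Y := by
      refine wk_succ_le (fun x hx => ?_) (fun g hg x hx => ?_) ?_
      · have := p_smul_mem (ih d h hh x hx)
        have e : h • (p • x) = p • (h • x) := map_nsmul (DistribSMul.toAddMonoidHom V h) p x
        rw [← e] at this
        exact this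
      · have h2 := h_sub_mem (ih d h hh x hx) (mul_mem (mul_mem hh hg) (inv_mem hh))
        have e : (h * g * h⁻¹) • h • x - h • x = h • (g • x - x) := by
          rw [smul_sub, ← mul_smul, ← mul_smul]
          congr 2
          group
        rw [e] at h2
        exact h2
      · rintro e rfl a ha x hx
        have hX : A ≤ mv (wk p H A W k e) (wk p H A W (k + 1) (e + 1)) := fun a ha =>
          ⟨ih e a (hA ha), ih e a⁻¹ (inv_mem (hA ha)), fun y hy => a_sub_mem hy ha⟩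
        have h2 := mv_sub (conj_mem_mv hK hHA (wk_le hA hW k e) hX hh ha) (ih e h hh x hx)
        have e : (h * a * h⁻¹) • h • x - h • x = h • (a • x - x) := by
          rw [smul_sub, ← mul_smul, ← mul_smul]
          congr 2
          group
        rw [e] at h2
        exact h2
    exact fun x hx => h1 hx

theorem H_le_mv (k d : ℕ) : H ≤ mv (wk p H A W k d) (wk p H A W (k + 1) d) := fun h hh =>
  ⟨smul_mem_wk hA hW hK hHA k d h hh, smul_mem_wk hA hW hK hHA k d h⁻¹ (inv_mem hh),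
    fun _ hy => h_sub_mem hy hh⟩

theorem A_le_mv (k d : ℕ) : A ≤ mv (wk p H A W k d) (wk p H A W (k + 1) (d + 1)) := fun a ha =>
  ⟨smul_mem_wk hA hW hK hHA k d a (hA ha), smul_mem_wk hA hW hK hHA k d a⁻¹ (inv_mem (hA ha)),
    fun _ hy => a_sub_mem hy ha⟩

/-- The filtration decreases. -/
theorem wk_anti (k : ℕ) : ∀ d, wk p H A W (k + 1) d ≤ wk p H A W k d := by
  induction k with
  | zero =>
    intro d
    have hs := smul_mem_wk_zero hA hW hK hHA
    refine wk_succ_le (fun x hx => nsmul_mem hx p)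
      (fun h hh x hx => sub_mem (hs d h hh x hx) hx) ?_
    rintro e rfl a ha x hx
    exact a_sub_mem_zero hx ha
  | succ k ih =>
    intro d
    refine wk_succ_le (fun x hx => p_smul_mem (ih d hx)) (fun h hh x hx => h_sub_mem (ih d hx) hh) ?_
    rintro e rfl a ha x hx
    exact a_sub_mem (ih e hx) ha

/-- `∑_{i < p} g^i` raises the weight by one. -/
theorem norm_mem {k d : ℕ} {g : G} (hg : g ∈ H) {y : V} (hy : y ∈ wk p H A W k d) :
    ∑ i ∈ Finset.range p, g ^ i • y ∈ wk p H A W (k + 1) d := by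
  have h1 : ∑ i ∈ Finset.range p, (g ^ i • y - y) ∈ wk p H A W (k + 1) d :=
    sum_mem fun i _ => mv_sub (H_le_mv hA hW hK hHA k d (pow_mem hg i)) hy
  rw [Finset.sum_sub_distrib, Finset.sum_const, Finset.card_range] at h1
  have := add_mem h1 (p_smul_mem hy)
  rwa [sub_add_cancel] at this

omit hA hW hK hHA in
theorem pow_smul_sub (g : G) (n : ℕ) (y : V) :
    g ^ n • y - y = g • (∑ i ∈ Finset.range n, g ^ i • y) - ∑ i ∈ Finset.range n, g ^ i • y := by
  induction n with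
  | zero => simp
  | succ n ih =>
    rw [Finset.sum_range_succ, smul_add, add_sub_add_comm, ← ih, ← mul_smul, ← pow_succ']
    abel

theorem h_pow_sub_mem {k d : ℕ} {g : G} (hg : g ∈ H) {y : V} (hy : y ∈ wk p H A W k d) :
    g ^ p • y - y ∈ wk p H A W (k + 2) d := by
  rw [pow_smul_sub]
  exact h_sub_mem (norm_mem hA hW hK hHA hg hy) hg

theorem h_pow_sq_sub_mem {k d : ℕ} {g : G} (hg : g ∈ H) {y : V} (hy : y ∈ wk p H A W k d) :
    g ^ p ^ 2 • y - y ∈ wk p H A W (k + 3) d := by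
  rw [pow_two, pow_mul, pow_smul_sub]
  exact h_pow_sub_mem hA hW hK hHA hg (norm_mem hA hW hK hHA (pow_mem hg p) hy)

theorem a_pow_sub_mem {k d : ℕ} {g : G} (hg : g ∈ A) {y : V} (hy : y ∈ wk p H A W k d) :
    g ^ p • y - y ∈ wk p H A W (k + 2) (d + 1) := by
  rw [pow_smul_sub]
  exact a_sub_mem (norm_mem hA hW hK hHA (hA hg) hy) hg

theorem a_pow_sq_sub_mem {k d : ℕ} {g : G} (hg : g ∈ A) {y : V} (hy : y ∈ wk p H A W k d) :
    g ^ p ^ 2 • y - y ∈ wk p H A W (k + 3) (d + 1) := by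
  rw [pow_two, pow_mul, pow_smul_sub]
  exact a_pow_sub_mem hA hW hK hHA hg (norm_mem hA hW hK hHA (pow_mem (hA hg) p) hy)

/-- Elements of the closure of the `p²`-powers of `H` and `K` raise the weight by three. -/
theorem closure_H_le_mv (k d : ℕ) :
    Subgroup.closure ({b | ∃ c ∈ H, b = c ^ p ^ 2} ∪ (K : Set G)) ≤
      mv (wk p H A W k d) (wk p H A W (k + 3) d) := by
  rw [Subgroup.closure_le]
  rintro b (⟨c, hc, rfl⟩ | hb)
  · exact ⟨smul_mem_wk hA hW hK hHA k d _ (pow_mem hc _),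
      smul_mem_wk hA hW hK hHA k d _ (inv_mem (pow_mem hc _)),
      fun y hy => h_pow_sq_sub_mem hA hW hK hHA hc hy⟩
  · exact mem_mv_of_trivial (wk_le hA hW k d) (hK b hb)

theorem closure_A_le_mv (k d : ℕ) :
    Subgroup.closure ({b | ∃ c ∈ A, b = c ^ p ^ 2} ∪ (K : Set G)) ≤
      mv (wk p H A W k d) (wk p H A W (k + 3) (d + 1)) := by
  rw [Subgroup.closure_le]
  rintro b (⟨c, hc, rfl⟩ | hb)
  · exact ⟨smul_mem_wk hA hW hK hHA k d _ (hA (pow_mem hc _)),
      smul_mem_wk hA hW hK hHA k d _ (hA (inv_mem (pow_mem hc _))),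
      fun y hy => a_pow_sq_sub_mem hA hW hK hHA hc hy⟩
  · exact mem_mv_of_trivial (wk_le hA hW k d) (hK b hb)

end

end Pool.Agent.Lib.MP_ae9e3a_al
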