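import Pool.Agent.Lib.MP_ae9e3a_al.FGenL

set_option autoImplicit false

/-!
# VPP module ZpMod: compact pro-`p` abelian groups are `ℤ_[p]`-modules

PROOF of `exists_zp`. For `z : ℤ_[p]` and `x : V` there is exactly one `y = z • x` such that
`(*)` for every open subgroup `V'` with `V'.index = p ^ j` and every `n : ℕ` with
`z - n ∈ p ^ j ℤ_[p]` (`(z - n) ∈ Ideal.span {(p : ℤ_[p]) ^ j}`): `y - n • x ∈ V'`.
(Note `p ^ j • v ∈ V'` for all `v`, so the condition does not depend on the choice of `n`;
`n = PadicInt.appr z j` exists.) Uniqueness: two candidates differ by an element of every `V'`, and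
`V` is Hausdorff. Existence: the sets `C_{V'} = {y | y - (appr z j) • x ∈ V'}` are closed (open
subgroups are closed), nonempty, and `C_{V'' } ⊆ C_{V'}` for `V'' ≤ V'`; directed because the
intersection of two open subgroups of `p`-power index has `p`-power index (the index of
`V' ⊓ V''` divides the product), so by compactness
(`IsCompact.nonempty_iInter_of_directed_nonempty_isCompact_isClosed`) the intersection is nonempty.
Module axioms by uniqueness: if `n`, `n'` approximate `z`, `z'` modulo `p ^ j` then `n + n'`,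
`n * n'` approximate `z + z'`, `z * z'`. Continuity at `(z, x)`: if `z' - z ∈ p ^ j` and `x' - x ∈ V'`
then `z' • x' - z • x ∈ V'` (same `n` for both). The set of `z'` with `z' - z ∈ p ^ j ℤ_[p]` is a
neighbourhood of `z` (a ball).
PROOF of `zp_mem_of_closed`: `z ↦ z • x` is continuous, integers are dense
(`PadicInt.denseRange_intCast` or natural numbers, `PadicInt.denseRange_natCast`), `W` is closed.
(`(n : ℤ_[p]) • x = n • x`: `Nat.cast_smul_eq_nsmul`.)
PROOF of `zp_linear`: both sides are continuous in `z` and agree for natural numbers.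
PROOF of `fgen_iff`: `⇒`: `N = Submodule.span ℤ_[p] S` is the image of the compact space
`(↥S → ℤ_[p])`, so it is closed; it is contained in `W` (`zp_mem_of_closed`) and contains
`AddSubgroup.closure S`, whose closure contains `W`. `⇐`: `N = span S`, `S` finite; every `z • s` is
in the closure of `ℤ s`, so `N ⊆ closure (AddSubgroup.closure S)`
(`AddSubgroup.topologicalClosure` is an additive subgroup containing all `z • s`).
-/

namespace Pool.Agent.Lib.MP_ae9e3a_al

/-- `y` is a candidate for `z • x`. -/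
def ZpMod_P {V : Type*} [AddCommGroup V] [TopologicalSpace V] {p : ℕ} [Fact p.Prime]
    (z : ℤ_[p]) (x y : V) : Prop :=
  ∀ (V' : AddSubgroup V) (j : ℕ), IsOpen (V' : Set V) → V'.index = p ^ j → ∀ n : ℤ,
    (p : ℤ_[p]) ^ j ∣ z - n → y - n • x ∈ V'

theorem ZpMod_mul {V : Type*} [AddCommGroup V] {p : ℕ} [Fact p.Prime] {V' : AddSubgroup V}
    {j : ℕ} (hj : V'.index = p ^ j) {n : ℤ} (hn : (p : ℤ_[p]) ^ j ∣ (n : ℤ_[p])) (x : V) :
    n • x ∈ V' := by
  rw [PadicInt.pow_p_dvd_int_iff] at hn
  obtain ⟨k, rfl⟩ := hn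
  have h1 := V'.zsmul_mem (V'.nsmul_index_mem x) k
  rw [hj, ← natCast_zsmul, smul_smul, mul_comm] at h1
  exact_mod_cast h1

theorem ZpMod_appr {p : ℕ} [Fact p.Prime] (z : ℤ_[p]) (j : ℕ) :
    (p : ℤ_[p]) ^ j ∣ z - ((z.appr j : ℤ) : ℤ_[p]) := by
  have h := PadicInt.appr_spec j z
  rw [Ideal.mem_span_singleton] at h
  rw [Int.cast_natCast]
  exact h

theorem ZpMod_unique {V : Type*} [AddCommGroup V] [TopologicalSpace V]
    [T2Space V] {p : ℕ} [Fact p.Prime] (hV : ProPAdd p V) {z : ℤ_[p]} {x y y' : V}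
    (h : ZpMod_P z x y) (h' : ZpMod_P z x y') : y = y' := by
  by_contra hne
  have h0 : y - y' ≠ 0 := sub_ne_zero.2 hne
  have hU : ({y - y'}ᶜ : Set V) ∈ nhds (0 : V) := isOpen_compl_singleton.mem_nhds (by
    intro h1
    exact h0 (Set.mem_singleton_iff.1 h1).symm)
  obtain ⟨V', ho, ⟨j, hj⟩, hs⟩ := hV _ hU
  have h1 := h V' j ho hj _ (ZpMod_appr z j)
  have h2 := h' V' j ho hj _ (ZpMod_appr z j)
  have h3 := V'.sub_mem h1 h2
  rw [sub_sub_sub_cancel_right] at h3
  exact hs h3 rfl

theorem ZpMod_exists {V : Type*} [AddCommGroup V] [TopologicalSpace V] [IsTopologicalAddGroup V]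
    [CompactSpace V] {p : ℕ} [Fact p.Prime] (z : ℤ_[p]) (x : V) : ∃ y, ZpMod_P z x y := by
  obtain ⟨y, hy⟩ := exists_clusterPt_of_compactSpace
    (Filter.map (fun i : ℕ => (z.appr i : ℤ) • x) Filter.atTop)
  refine ⟨y, ?_⟩
  intro V' j ho hj n hn
  by_contra hcon
  have hcl : IsClosed {w : V | w - n • x ∈ V'} :=
    (V'.isClosed_of_isOpen ho).preimage (continuous_id.sub continuous_const)
  have hnh : {w : V | w - n • x ∈ V'}ᶜ ∈ nhds y := hcl.isOpen_compl.mem_nhds hcon
  have hfr := (mapClusterPt_iff_frequently (u := fun i : ℕ => (z.appr i : ℤ) • x)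
    (F := Filter.atTop)).1 hy _ hnh
  have hev : ∀ᶠ i : ℕ in Filter.atTop, (z.appr i : ℤ) • x - n • x ∈ V' := by
    filter_upwards [Filter.eventually_ge_atTop j] with i hi
    rw [← sub_smul]
    refine ZpMod_mul hj ?_ x
    have h1 : (p : ℤ_[p]) ^ j ∣ z - ((z.appr i : ℤ) : ℤ_[p]) :=
      (pow_dvd_pow _ hi).trans (ZpMod_appr z i)
    have h2 := dvd_sub hn h1
    rw [sub_sub_sub_cancel_left] at h2
    push_cast at h2 ⊢
    exact h2
  obtain ⟨i, h1, h2⟩ := (hfr.and_eventually hev).exists
  exact h1 h2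

theorem exists_zp {V : Type*} [AddCommGroup V] [TopologicalSpace V] [IsTopologicalAddGroup V]
    [CompactSpace V] [T2Space V] {p : ℕ} [Fact p.Prime] (hV : ProPAdd p V) :
    ∃ (_ : Module ℤ_[p] V), ContinuousSMul ℤ_[p] V := by
  choose f hf using fun (z : ℤ_[p]) (x : V) => ZpMod_exists (p := p) z x
  have hu : ∀ z x y, ZpMod_P z x y → f z x = y := fun z x y h => ZpMod_unique hV (hf z x) h
  letI : SMul ℤ_[p] V := ⟨f⟩
  have hs : ∀ (z : ℤ_[p]) (x : V), z • x = f z x := fun _ _ => rfl
  letI M : Module ℤ_[p] V := Module.ofMinimalAxioms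
    (by
      intro z x y
      rw [hs]
      refine hu _ _ _ ?_
      intro V' j ho hj n hn
      have h1 := hf z x V' j ho hj n hn
      have h2 := hf z y V' j ho hj n hn
      have h3 := V'.add_mem h1 h2
      rw [hs, hs, smul_add, add_sub_add_comm]
      exact h3)
    (by
      intro z w x
      rw [hs]
      refine hu _ _ _ ?_
      intro V' j ho hj n hn
      have h1 := hf z x V' j ho hj _ (ZpMod_appr z j)
      have h2 := hf w x V' j ho hj _ (ZpMod_appr w j)
      have h3 : ((z.appr j : ℤ) + (w.appr j : ℤ) - n) • x ∈ V' := by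
        refine ZpMod_mul hj ?_ x
        have h4 := dvd_sub hn ((ZpMod_appr z j).add (ZpMod_appr w j))
        have h5 : z + w - (n : ℤ_[p]) - (z - ((z.appr j : ℤ) : ℤ_[p]) +
            (w - ((w.appr j : ℤ) : ℤ_[p]))) =
            (((z.appr j : ℤ) + (w.appr j : ℤ) - n : ℤ) : ℤ_[p]) := by
          push_cast
          ring
        rwa [h5] at h4
      have h4 := V'.add_mem (V'.add_mem h1 h2) h3
      rw [hs, hs]
      have h5 : f z x - (z.appr j : ℤ) • x + (f w x - (w.appr j : ℤ) • x) +
          ((z.appr j : ℤ) + (w.appr j : ℤ) - n) • x = f z x + f w x - n • x := by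
        rw [sub_smul, add_smul]
        abel
      rwa [h5] at h4)
    (by
      intro z w x
      rw [hs]
      refine hu _ _ _ ?_
      intro V' j ho hj n hn
      have h1 := hf z (f w x) V' j ho hj _ (ZpMod_appr z j)
      have h2 := hf w x V' j ho hj _ (ZpMod_appr w j)
      have h2' := V'.zsmul_mem h2 (z.appr j : ℤ)
      have h3 : ((z.appr j : ℤ) * (w.appr j : ℤ) - n) • x ∈ V' := by
        refine ZpMod_mul hj ?_ x
        have h6 := dvd_add ((ZpMod_appr z j).mul_right w)
          ((ZpMod_appr w j).mul_left ((z.appr j : ℤ) : ℤ_[p]))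
        have h4 := dvd_sub hn h6
        have h5 : z * w - (n : ℤ_[p]) - ((z - ((z.appr j : ℤ) : ℤ_[p])) * w +
            ((z.appr j : ℤ) : ℤ_[p]) * (w - ((w.appr j : ℤ) : ℤ_[p]))) =
            (((z.appr j : ℤ) * (w.appr j : ℤ) - n : ℤ) : ℤ_[p]) := by
          push_cast
          ring
        rwa [h5] at h4
      have h4 := V'.add_mem (V'.add_mem h1 h2') h3
      rw [hs, hs]
      have h5 : f z (f w x) - (z.appr j : ℤ) • f w x +
          (z.appr j : ℤ) • (f w x - (w.appr j : ℤ) • x) +
          ((z.appr j : ℤ) * (w.appr j : ℤ) - n) • x = f z (f w x) - n • x := by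
        rw [sub_smul, smul_sub, mul_smul]
        abel
      rwa [h5] at h4)
    (by
      intro x
      rw [hs]
      refine hu _ _ _ ?_
      intro V' j ho hj n hn
      have h3 : (1 - n : ℤ) • x ∈ V' := by
        refine ZpMod_mul hj ?_ x
        push_cast
        exact hn
      rwa [sub_smul, one_smul] at h3)
  refine ⟨M, ⟨?_⟩⟩
  rw [continuous_iff_continuousAt]
  rintro ⟨z, x⟩
  change Filter.Tendsto (fun q : ℤ_[p] × V => q.1 • q.2) (nhds (z, x)) (nhds (z • x))
  rw [← tendsto_sub_nhds_zero_iff]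
  intro U hU
  obtain ⟨V', ho, ⟨j, hj⟩, hs'⟩ := hV U hU
  rw [Filter.mem_map]
  have e1 : ∀ᶠ q : ℤ_[p] × V in nhds (z, x), (p : ℤ_[p]) ^ j ∣ q.1 - z := by
    have h1 : Filter.Tendsto (fun q : ℤ_[p] × V => ‖q.1 - z‖) (nhds (z, x)) (nhds ‖z - z‖) :=
      ((continuous_fst.sub continuous_const).norm).tendsto (z, x)
    rw [sub_self, norm_zero] at h1
    have hp0 : (0 : ℝ) < (p : ℝ) ^ (-(j : ℤ)) := by
      have : (0 : ℝ) < p := by exact_mod_cast (Fact.out : p.Prime).pos
      positivity
    filter_upwards [h1.eventually (gt_mem_nhds hp0)] with q hq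
    have h2 := (PadicInt.norm_le_pow_iff_mem_span_pow (q.1 - z) j).1 hq.le
    rwa [Ideal.mem_span_singleton] at h2
  have e2 : ∀ᶠ q : ℤ_[p] × V in nhds (z, x), q.2 - x ∈ V' := by
    have h1 : Filter.Tendsto (fun q : ℤ_[p] × V => q.2 - x) (nhds (z, x)) (nhds (x - x)) :=
      (continuous_snd.sub continuous_const).tendsto (z, x)
    rw [sub_self] at h1
    exact h1.eventually (ho.mem_nhds V'.zero_mem)
  filter_upwards [e1, e2] with q h1 h2
  apply hs'
  have h3 := hf z x V' j ho hj _ (ZpMod_appr z j)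
  have h4 : f q.1 q.2 - (z.appr j : ℤ) • q.2 ∈ V' := by
    refine hf q.1 q.2 V' j ho hj _ ?_
    have := dvd_add h1 (ZpMod_appr z j)
    rwa [sub_add_sub_cancel] at this
  have h5 := V'.zsmul_mem h2 (z.appr j : ℤ)
  have h6 := V'.sub_mem (V'.add_mem h4 h5) h3
  have h7 : f q.1 q.2 - (z.appr j : ℤ) • q.2 + (z.appr j : ℤ) • (q.2 - x) -
      (f z x - (z.appr j : ℤ) • x) = f q.1 q.2 - f z x := by
    rw [smul_sub]
    abel
  rw [h7] at h6
  exact h6

theorem zp_mem_of_closed {V : Type*} [AddCommGroup V] [TopologicalSpace V] {p : ℕ}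
    [Fact p.Prime] [Module ℤ_[p] V] [ContinuousSMul ℤ_[p] V] {W : AddSubgroup V}
    (hW : IsClosed (W : Set V)) (z : ℤ_[p]) : ∀ x ∈ W, z • x ∈ W := by
  intro x hx
  refine PadicInt.denseRange_natCast.induction_on (p := fun z : ℤ_[p] => z • x ∈ W) z ?_ ?_
  · exact hW.preimage (continuous_id.smul continuous_const)
  · intro n
    rw [Nat.cast_smul_eq_nsmul]
    exact W.nsmul_mem hx n

theorem zp_linear {V V' : Type*} [AddCommGroup V] [TopologicalSpace V] [AddCommGroup V']
    [TopologicalSpace V'] [T2Space V'] {p : ℕ} [Fact p.Prime] [Module ℤ_[p] V]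
    [ContinuousSMul ℤ_[p] V] [Module ℤ_[p] V'] [ContinuousSMul ℤ_[p] V'] (f : V →+ V')
    (hf : Continuous f) (z : ℤ_[p]) (x : V) : f (z • x) = z • f x := by
  refine PadicInt.denseRange_natCast.induction_on
    (p := fun z : ℤ_[p] => f (z • x) = z • f x) z ?_ ?_
  · exact isClosed_eq (hf.comp (continuous_id.smul continuous_const))
      (continuous_id.smul continuous_const)
  · intro n
    rw [Nat.cast_smul_eq_nsmul, Nat.cast_smul_eq_nsmul, map_nsmul]

theorem fgen_iff {G V : Type*} [Group G] [AddCommGroup V] [TopologicalSpace V]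
    [IsTopologicalAddGroup V] [T2Space V] [DistribMulAction G V] {p : ℕ} [Fact p.Prime]
    [Module ℤ_[p] V] [ContinuousSMul ℤ_[p] V] {W : AddSubgroup V} (hW : IsClosed (W : Set V)) :
    FGen (⊥ : Subgroup G) W ↔ ∃ N : Submodule ℤ_[p] V, N.FG ∧ (N : Set V) = W := by
  constructor
  · rintro ⟨S, hSW, hcl⟩
    refine ⟨Submodule.span ℤ_[p] (S : Set V), ⟨S, rfl⟩, ?_⟩
    have hcomp : IsCompact (Submodule.span ℤ_[p] (S : Set V) : Set V) := by
      have h1 : (Submodule.span ℤ_[p] (S : Set V) : Set V) ⊆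
          Set.range (fun c : V → ℤ_[p] => ∑ a ∈ S, c a • a) := by
        intro x hx
        obtain ⟨c, _, hc⟩ := Submodule.mem_span_finset.1 hx
        exact ⟨c, hc⟩
      have h2 : Set.range (fun c : V → ℤ_[p] => ∑ a ∈ S, c a • a) ⊆
          (Submodule.span ℤ_[p] (S : Set V) : Set V) := by
        rintro _ ⟨c, rfl⟩
        exact Submodule.sum_mem _ fun a ha =>
          Submodule.smul_mem _ _ (Submodule.subset_span ha)
      rw [h1.antisymm h2]
      refine isCompact_range ?_
      exact continuous_finsetSum _ fun a _ => (continuous_apply a).smul continuous_const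
    apply Set.Subset.antisymm
    · intro x hx
      induction hx using Submodule.span_induction with
      | mem y hy => exact hSW y hy
      | zero => exact W.zero_mem
      | add y z _ _ hy hz => exact W.add_mem hy hz
      | smul c y _ hy => exact zp_mem_of_closed hW c y hy
    · refine hcl.trans (closure_minimal ?_ hcomp.isClosed)
      have h3 : AddSubgroup.closure {y : V | ∃ h ∈ (⊥ : Subgroup G), ∃ s ∈ S, y = h • s} ≤
          (Submodule.span ℤ_[p] (S : Set V)).toAddSubgroup := by
        rw [AddSubgroup.closure_le]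
        rintro y ⟨h, hh, s, hs, rfl⟩
        rw [Subgroup.mem_bot.1 hh, one_smul]
        exact Submodule.subset_span hs
      exact h3
  · rintro ⟨N, ⟨S, rfl⟩, hN⟩
    refine ⟨S, fun s hs => ?_, ?_⟩
    · have : s ∈ (Submodule.span ℤ_[p] (S : Set V) : Set V) := Submodule.subset_span hs
      rw [hN] at this
      exact this
    · rw [← hN]
      intro x hx
      change x ∈ (AddSubgroup.closure
        {y : V | ∃ h ∈ (⊥ : Subgroup G), ∃ s ∈ S, y = h • s}).topologicalClosure
      set C := (AddSubgroup.closure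
        {y : V | ∃ h ∈ (⊥ : Subgroup G), ∃ s ∈ S, y = h • s}).topologicalClosure with hC
      have hCc : IsClosed (C : Set V) := AddSubgroup.isClosed_topologicalClosure _
      induction hx using Submodule.span_induction with
      | mem y hy =>
        refine AddSubgroup.le_topologicalClosure _ (AddSubgroup.subset_closure ?_)
        exact ⟨1, Subgroup.mem_bot.2 rfl, y, hy, (one_smul G y).symm⟩
      | zero => exact C.zero_mem
      | add y z _ _ hy hz => exact C.add_mem hy hz
      | smul c y _ hy => exact zp_mem_of_closed hCc c y hy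

end Pool.Agent.Lib.MP_ae9e3a_al
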